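import Pool.Agent.Helper30.TP.Defs

/-!
# Castelnuovo's lemma
-/

set_option autoImplicit false

namespace Pool.Agent.Helper30.TP

open MvPolynomial

variable {K : Type} [Field K]

/-- The points `x i`, `i ∈ Γ`, impose independent conditions on the forms of degree `m`. -/
def Indep (x : ℕ → Fin 3 → K) (Γ : Finset ℕ) (m : ℕ) : Prop :=
  ∀ v : ℕ → K, ∃ P : MvPolynomial (Fin 3) K, P.IsHomogeneous m ∧ ∀ i ∈ Γ, eval (x i) P = v i

theorem exists_linear_ne [Infinite K] {x : ℕ → Fin 3 → K} {Γ : Finset ℕ}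
    (hx : ∀ i ∈ Γ, x i ≠ 0) :
    ∃ ℓ : MvPolynomial (Fin 3) K, ℓ.IsHomogeneous 1 ∧ ∀ i ∈ Γ, eval (x i) ℓ ≠ 0 := by
  classical
  set p : ℕ → Polynomial K := fun i => Polynomial.C (x i 0) + Polynomial.C (x i 1) * Polynomial.X +
    Polynomial.C (x i 2) * Polynomial.X ^ 2 with hp
  have h1 : ∏ i ∈ Γ, p i ≠ 0 := by
    rw [Finset.prod_ne_zero_iff]
    intro i hi h
    apply hx i hi
    have h0 := congrArg (fun q => Polynomial.coeff q 0) h
    have h1 := congrArg (fun q => Polynomial.coeff q 1) h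
    have h2 := congrArg (fun q => Polynomial.coeff q 2) h
    simp [hp, Polynomial.coeff_X, Polynomial.coeff_C, Polynomial.coeff_X_pow] at h0 h1 h2
    funext j
    fin_cases j
    · simpa using h0
    · simpa using h1
    · simpa using h2
  obtain ⟨t, ht⟩ : ∃ t : K, Polynomial.eval t (∏ i ∈ Γ, p i) ≠ 0 := by
    by_contra h
    push Not at h
    exact h1 (Polynomial.funext fun t => by rw [h t, Polynomial.eval_zero])
  rw [Polynomial.eval_prod, Finset.prod_ne_zero_iff] at ht
  refine ⟨X 0 + C t * X 1 + C (t ^ 2) * X 2, ?_, fun i hi => ?_⟩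
  · exact ((isHomogeneous_X _ _).add (isHomogeneous_C_mul_X _ _)).add (isHomogeneous_C_mul_X _ _)
  · have h3 := ht i hi
    intro h4
    apply h3
    simp only [hp, Polynomial.eval_add, Polynomial.eval_mul, Polynomial.eval_C, Polynomial.eval_X,
      Polynomial.eval_pow]
    simp only [map_add, map_mul, eval_X, eval_C] at h4
    linear_combination h4

theorem Indep.mono [Infinite K] {x : ℕ → Fin 3 → K} {Γ : Finset ℕ} (hx : ∀ i ∈ Γ, x i ≠ 0)
    {m m' : ℕ} (h : Indep x Γ m) (hm : m ≤ m') : Indep x Γ m' := by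
  obtain ⟨ℓ, h1, h2⟩ := exists_linear_ne hx
  intro v
  obtain ⟨P, h3, h4⟩ := h fun i => v i / (eval (x i) ℓ) ^ (m' - m)
  refine ⟨P * ℓ ^ (m' - m), ?_, fun i hi => ?_⟩
  · have h5 := h3.mul (h1.pow (m' - m))
    rwa [one_mul, Nat.add_sub_of_le hm] at h5
  · rw [map_mul, map_pow, h4 i hi, div_mul_cancel₀ _ (pow_ne_zero _ (h2 i hi))]

/-- a form of positive degree is a combination of the variables -/
private theorem form_decomp {n : ℕ} {T : MvPolynomial (Fin 3) K} (hT : T.IsHomogeneous (n + 1)) :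
    ∃ S : Fin 3 → MvPolynomial (Fin 3) K, (∀ j, (S j).IsHomogeneous n) ∧ T = ∑ j, X j * S j := by
  classical
  have hmain : ∀ d ∈ T.support, ∃ j : Fin 3, d j ≠ 0 := by
    intro d hd
    by_contra h
    push Not at h
    have h1 := hT.coeff_eq_zero (d := d) (by
      have : d = 0 := Finsupp.ext h
      rw [this]
      simp)
    exact (mem_support_iff.1 hd) h1
  choose! J hJ using hmain
  refine ⟨fun j => ∑ d ∈ T.support with J d = j, monomial (d - Finsupp.single j 1) (coeff d T),
    fun j => ?_, ?_⟩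
  · refine IsHomogeneous.sum _ _ _ fun d hd => ?_
    rw [Finset.mem_filter] at hd
    have h2 := hJ d hd.1
    rw [hd.2] at h2
    refine isHomogeneous_monomial _ ?_
    have h3 : d.degree = n + 1 := by
      by_contra h4
      exact (mem_support_iff.1 hd.1) (hT.coeff_eq_zero h4)
    have h5 : d - Finsupp.single j 1 + Finsupp.single j 1 = d := by
      refine tsub_add_cancel_of_le ?_
      rw [Finsupp.single_le_iff]
      omega
    have h6 := congrArg Finsupp.degree h5
    rw [map_add, Finsupp.degree_single, h3] at h6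
    omega
  · have h7 : ∀ j : Fin 3, X j * ∑ d ∈ T.support with J d = j,
        monomial (d - Finsupp.single j 1) (coeff d T) =
        ∑ d ∈ T.support with J d = j, monomial d (coeff d T) := by
      intro j
      rw [Finset.mul_sum]
      refine Finset.sum_congr rfl fun d hd => ?_
      rw [Finset.mem_filter] at hd
      have h2 := hJ d hd.1
      rw [hd.2] at h2
      rw [show (X j : MvPolynomial (Fin 3) K) = monomial (Finsupp.single j 1) 1 from rfl,
        monomial_mul, one_mul, add_tsub_cancel_of_le]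
      rw [Finsupp.single_le_iff]
      omega
    simp only [h7]
    rw [Finset.sum_fiberwise_of_maps_to (fun _ _ => Finset.mem_univ _)]
    exact T.as_sum

/-- Castelnuovo's lemma. -/
theorem castelnuovo [Infinite K] {x : ℕ → Fin 3 → K} {Γ : Finset ℕ} (hx : ∀ i ∈ Γ, x i ≠ 0)
    {m : ℕ} (h : Indep x Γ m) (t : ℕ) (T : MvPolynomial (Fin 3) K)
    (hT : T.IsHomogeneous (m + 1 + t)) (hTΓ : ∀ i ∈ Γ, eval (x i) T = 0) :
    T ∈ Ideal.span {G : MvPolynomial (Fin 3) K | G.IsHomogeneous (m + 1) ∧
      ∀ i ∈ Γ, eval (x i) G = 0} := by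
  induction t generalizing T with
  | zero => exact Ideal.subset_span ⟨hT, hTΓ⟩
  | succ t ih =>
    obtain ⟨ℓ, h1, h2⟩ := exists_linear_ne hx
    obtain ⟨S, h3, h4⟩ := form_decomp (n := m + 1 + t) hT
    have h5 : ∀ j : Fin 3, ∃ q : MvPolynomial (Fin 3) K, q.IsHomogeneous (m + t) ∧
        ∀ i ∈ Γ, eval (x i) q = eval (x i) (S j) / eval (x i) ℓ := fun j =>
      Indep.mono hx h (Nat.le_add_right m t) fun i => eval (x i) (S j) / eval (x i) ℓ
    choose q h6 h7 using h5
    have h8 : ∀ j, S j - ℓ * q j ∈ Ideal.span {G : MvPolynomial (Fin 3) K |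
        G.IsHomogeneous (m + 1) ∧ ∀ i ∈ Γ, eval (x i) G = 0} := by
      intro j
      refine ih _ ?_ fun i hi => ?_
      · refine (h3 j).sub ?_
        have h9 := h1.mul (h6 j)
        rwa [show 1 + (m + t) = m + 1 + t by omega] at h9
      · rw [map_sub, map_mul, h7 j i hi, mul_div_cancel₀ _ (h2 i hi), sub_self]
    have h10 : ∑ j, X j * q j ∈ Ideal.span {G : MvPolynomial (Fin 3) K |
        G.IsHomogeneous (m + 1) ∧ ∀ i ∈ Γ, eval (x i) G = 0} := by
      refine ih _ ?_ fun i hi => ?_
      · refine IsHomogeneous.sum _ _ _ fun j _ => ?_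
        have h9 := (isHomogeneous_X K j).mul (h6 j)
        rwa [show 1 + (m + t) = m + 1 + t by omega] at h9
      · have h11 := hTΓ i hi
        rw [h4, map_sum] at h11
        rw [map_sum]
        have h12 : ∀ j : Fin 3, eval (x i) (X j * q j) =
            eval (x i) (X j * S j) / eval (x i) ℓ := by
          intro j
          rw [map_mul, map_mul, h7 j i hi, mul_div_assoc]
        simp only [h12]
        rw [← Finset.sum_div, h11, zero_div]
    have h13 : T = ∑ j, X j * (S j - ℓ * q j) + ℓ * ∑ j, X j * q j := by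
      rw [h4, Finset.mul_sum, ← Finset.sum_add_distrib]
      refine Finset.sum_congr rfl fun j _ => ?_
      ring
    rw [h13]
    exact Ideal.add_mem _ (Ideal.sum_mem _ fun j _ => Ideal.mul_mem_left _ _ (h8 j))
      (Ideal.mul_mem_left _ _ h10)

end Pool.Agent.Helper30.TP
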