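import Mathlib

/-!
# Divisors of forms are forms
-/

set_option autoImplicit false
open MvPolynomial

namespace Pool.Agent.Helper30.TP

section forms

variable {σ : Type} {K : Type*} [CommRing K]

/-- the homomorphism `f(x) ↦ f(λ x)` -/
noncomputable def Gam : MvPolynomial σ K →ₐ[K] Polynomial (MvPolynomial σ K) :=
  aeval (fun i => Polynomial.X * Polynomial.C (X i))

lemma Gam_monomial (u : σ →₀ ℕ) (a : K) :
    Gam (monomial u a) = Polynomial.monomial u.degree (monomial u a) := by
  induction u using Finsupp.induction_linear generalizing a with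
  | zero =>
    have h1 : (monomial 0 a : MvPolynomial σ K) = algebraMap K _ a := rfl
    rw [h1, AlgHom.commutes, map_zero]
    rfl
  | add f g hf hg =>
    have h1 : (monomial (f + g) a : MvPolynomial σ K) = monomial f a * monomial g 1 := by
      rw [monomial_mul, mul_one]
    rw [h1, map_mul, hf, hg, Polynomial.monomial_mul_monomial, map_add]
  | single i n =>
    have h1 : (monomial (Finsupp.single i n) a : MvPolynomial σ K) = C a * X i ^ n := by
      rw [X_pow_eq_monomial, C_mul_monomial, mul_one]
    have h2 : Gam (C a : MvPolynomial σ K) = Polynomial.C (C a) := by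
      rw [← algebraMap_eq, AlgHom.commutes]; rfl
    rw [h1, map_mul, map_pow, h2, Finsupp.degree_single]
    have h3 : Gam (X i : MvPolynomial σ K) = Polynomial.X * Polynomial.C (X i) := by simp [Gam]
    rw [h3, mul_pow, ← Polynomial.C_mul_X_pow_eq_monomial, Polynomial.C_mul, Polynomial.C_pow]
    ring

lemma Gam_coeff (f : MvPolynomial σ K) (n : ℕ) :
    (Gam f).coeff n = homogeneousComponent n f := by
  classical
  induction f using MvPolynomial.induction_on' with
  | monomial u a =>
    rw [Gam_monomial, Polynomial.coeff_monomial,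
      homogeneousComponent_of_mem (isHomogeneous_monomial a rfl)]
    by_cases h : u.degree = n
    · rw [if_pos h, if_pos h.symm]
    · rw [if_neg h, if_neg (Ne.symm h)]
  | add f g hf hg => rw [map_add, Polynomial.coeff_add, hf, hg, map_add]

lemma Gam_form {f : MvPolynomial σ K} {d : ℕ} (hf : f.IsHomogeneous d) :
    Gam f = Polynomial.C f * Polynomial.X ^ d := by
  ext1 n
  rw [Gam_coeff, Polynomial.coeff_C_mul_X_pow, homogeneousComponent_of_mem hf]

/-- divisors of forms are forms -/
lemma form_of_mul [IsDomain K] {f a b : MvPolynomial σ K} {d : ℕ} (hf : f.IsHomogeneous d)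
    (h0 : f ≠ 0) (hab : f = a * b) :
    ∃ i j : ℕ, a.IsHomogeneous i ∧ b.IsHomogeneous j ∧ i + j = d := by
  have ha0 : a ≠ 0 := by rintro rfl; exact h0 (by rw [hab, zero_mul])
  have hb0 : b ≠ 0 := by rintro rfl; exact h0 (by rw [hab, mul_zero])
  have hinj : Function.Injective (Gam : MvPolynomial σ K →ₐ[K] _) := by
    intro u v huv
    ext m
    have h1 := congrArg (fun q => coeff m (Polynomial.coeff q m.degree)) huv
    simp only [Gam_coeff, coeff_homogeneousComponent, if_pos] at h1
    exact h1
  have hGa : Gam a ≠ 0 := fun h => ha0 (hinj (by rw [h, map_zero]))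
  have hGb : Gam b ≠ 0 := fun h => hb0 (hinj (by rw [h, map_zero]))
  have h1 : Gam a * Gam b = Polynomial.C f * Polynomial.X ^ d := by
    rw [← map_mul, ← hab, Gam_form hf]
  have h2 : (Gam a).natDegree + (Gam b).natDegree = d := by
    rw [← Polynomial.natDegree_mul hGa hGb, h1, Polynomial.natDegree_C_mul_X_pow _ _ h0]
  have h3 : (Gam a).natTrailingDegree + (Gam b).natTrailingDegree = d := by
    rw [← Polynomial.natTrailingDegree_mul hGa hGb, h1, Polynomial.C_mul_X_pow_eq_monomial,
      Polynomial.natTrailingDegree_monomial h0]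
  have h4 := Polynomial.natTrailingDegree_le_natDegree (Gam a)
  have h5 := Polynomial.natTrailingDegree_le_natDegree (Gam b)
  have key : ∀ c : MvPolynomial σ K, (Gam c).natTrailingDegree = (Gam c).natDegree →
      c.IsHomogeneous (Gam c).natDegree := by
    intro c hc
    have h6 : ∀ n, n ≠ (Gam c).natDegree → homogeneousComponent n c = 0 := by
      intro n hn
      rw [← Gam_coeff]
      rcases lt_or_gt_of_ne hn with h | h
      · exact Polynomial.coeff_eq_zero_of_lt_natTrailingDegree (by omega)
      · exact Polynomial.coeff_eq_zero_of_natDegree_lt h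
    rw [← sum_homogeneousComponent c]
    have h7 : ∀ i ∈ Finset.range (c.totalDegree + 1), (homogeneousComponent i c).IsHomogeneous
        (Gam c).natDegree := by
      intro i _
      by_cases hi : i = (Gam c).natDegree
      · rw [← hi]; exact homogeneousComponent_isHomogeneous _ _
      · rw [h6 i hi]; exact isHomogeneous_zero _ _ _
    have h8 := IsHomogeneous.sum (Finset.range (c.totalDegree + 1))
      (fun i => homogeneousComponent i c) _ h7
    rwa [sum_homogeneousComponent c] at h8 ⊢
  refine ⟨_, _, key a (by omega), key b (by omega), h2⟩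

lemma form_of_dvd [IsDomain K] {f a : MvPolynomial σ K} {d : ℕ} (hf : f.IsHomogeneous d)
    (h0 : f ≠ 0) (h : a ∣ f) : ∃ i ≤ d, a.IsHomogeneous i := by
  obtain ⟨b, hb⟩ := h
  obtain ⟨i, j, hi, _, hij⟩ := form_of_mul hf h0 hb
  exact ⟨i, by omega, hi⟩

end forms

end Pool.Agent.Helper30.TP
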