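import Pool.Agent.Helper30.TP.Dim1
import Pool.Agent.Helper30.TP.Dim2
import Pool.Agent.Helper30.TP.Form

/-!
# Forms with prescribed zeros on a plane curve
-/

set_option autoImplicit false

namespace Pool.Agent.Helper30.TP

open MvPolynomial

variable {K : Type} [Field K]

theorem Dim3_choose (t : ℕ) : 2 * (t + 2).choose 2 = (t + 2) * (t + 1) := by
  induction t with
  | zero => simp
  | succ t ih =>
    rw [show t + 1 + 2 = (t + 2) + 1 from rfl, Nat.choose_succ_succ' (t + 2) 1, Nat.choose_one_right,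
      mul_add, ih]
    ring

theorem Dim3_arith1 {D m c a r k : ℕ} (hD : 0 < D) (hm : D ≤ m)
    (hcard : c + (m - D + 2).choose 2 = (m + 2).choose 2) (hk : a + c = (m + D + 2).choose 2)
    (h2 : r ≤ a)
    (h1 : r + k = (D - 1 + 2).choose 2 + ((D - 1 + 2).choose 2 + (m + 2).choose 2)) : 0 < k := by
  obtain ⟨u, rfl⟩ := Nat.exists_eq_add_of_le hm
  obtain ⟨E, rfl⟩ := Nat.exists_eq_add_of_le' hD
  have c1 := Dim3_choose E
  have c2 := Dim3_choose (E + 1 + u)
  have c3 := Dim3_choose (E + 1 + u + (E + 1))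
  have c4 := Dim3_choose u
  rw [show E + Nat.succ 0 - 1 = E by omega] at h1
  rw [show E + Nat.succ 0 + u - (E + Nat.succ 0) = u by omega] at hcard
  nlinarith

theorem Dim3_arith2 {D m c a q : ℕ} (hm : D ≤ m)
    (hcard : c + (m - D + 2).choose 2 = (m + 2).choose 2) (hk : a + c = (m + 1 + 2).choose 2)
    (h1 : q + (m + 1 - D + 2).choose 2 = a) : q = D := by
  obtain ⟨u, rfl⟩ := Nat.exists_eq_add_of_le hm
  have c1 := Dim3_choose (u + 1)
  have c2 := Dim3_choose (D + u)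
  have c3 := Dim3_choose (D + u + 1)
  have c4 := Dim3_choose u
  rw [show D + u + 1 - D = u + 1 by omega] at h1
  rw [show D + u - D = u by omega] at hcard
  nlinarith

theorem Dim3_arith3 {D m c : ℕ} (hD : 0 < D) (hm : D ≤ m)
    (hcard : c + (m - D + 2).choose 2 = (m + 2).choose 2) : m + 1 ≤ c := by
  obtain ⟨u, rfl⟩ := Nat.exists_eq_add_of_le hm
  obtain ⟨E, rfl⟩ := Nat.exists_eq_add_of_le' hD
  have c2 := Dim3_choose (E + 1 + u)
  have c4 := Dim3_choose u
  rw [show E + Nat.succ 0 + u - (E + Nat.succ 0) = u by omega] at hcard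
  nlinarith [Nat.zero_le (E * u), Nat.zero_le (E * E)]

/-- Evaluation of forms at the points. -/
noncomputable def Dim3_ev (x : ℕ → Fin 3 → K) (Γ : Finset ℕ) (n : ℕ) :
    homogeneousSubmodule (Fin 3) K n →ₗ[K] (Γ → K) :=
  LinearMap.pi fun i => (aeval (R := K) (x i)).toLinearMap ∘ₗ
    (homogeneousSubmodule (Fin 3) K n).subtype

theorem Dim3_ev_apply (x : ℕ → Fin 3 → K) (Γ : Finset ℕ) (n : ℕ)
    (T : homogeneousSubmodule (Fin 3) K n) (i : Γ) :
    Dim3_ev x Γ n T i = eval (x i) (T : MvPolynomial (Fin 3) K) := by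
  have h2 := congrArg (fun φ => φ (T : MvPolynomial (Fin 3) K)) (coe_aeval_eq_eval (x i))
  exact h2

theorem Dim3_mem_ker {x : ℕ → Fin 3 → K} {Γ : Finset ℕ} {n : ℕ}
    {T : homogeneousSubmodule (Fin 3) K n} :
    T ∈ (Dim3_ev x Γ n).ker ↔ ∀ i ∈ Γ, eval (x i) (T : MvPolynomial (Fin 3) K) = 0 := by
  rw [LinearMap.mem_ker]
  constructor
  · intro h i hi
    have := congrFun h ⟨i, hi⟩
    rwa [Dim3_ev_apply] at this
  · intro h
    funext i
    rw [Dim3_ev_apply]
    exact h i i.2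

theorem Dim3_finrank {x : ℕ → Fin 3 → K} {Γ : Finset ℕ} {n : ℕ} (h : Indep x Γ n) :
    Module.finrank K (Dim3_ev x Γ n).ker + Γ.card = (n + 2).choose 2 := by
  classical
  obtain ⟨hfd, hfr⟩ := finrank_forms K n
  have h1 := LinearMap.finrank_range_add_finrank_ker (Dim3_ev x Γ n)
  have h2 : (Dim3_ev x Γ n).range = ⊤ := by
    rw [LinearMap.range_eq_top]
    intro v
    obtain ⟨P, hP, hv⟩ := h (fun i => if hi : i ∈ Γ then v ⟨i, hi⟩ else 0)
    refine ⟨⟨P, (mem_homogeneousSubmodule _ _).2 hP⟩, ?_⟩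
    funext i
    rw [Dim3_ev_apply]
    change eval (x i) P = v i
    rw [hv i i.2]
    simp
  rw [h2, finrank_top, Module.finrank_fintype_fun_eq_card, Fintype.card_coe, hfr] at h1
  omega

/-- Multiplication of forms. -/
noncomputable def Dim3_mul {a b c : ℕ} (P : MvPolynomial (Fin 3) K) (hP : P.IsHomogeneous a)
    (h : a + b = c) :
    homogeneousSubmodule (Fin 3) K b →ₗ[K] homogeneousSubmodule (Fin 3) K c :=
  LinearMap.codRestrict _ ((LinearMap.mulLeft K P) ∘ₗ (homogeneousSubmodule (Fin 3) K b).subtype)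
    (fun Q => by
      rw [mem_homogeneousSubmodule]
      have h1 := hP.mul ((mem_homogeneousSubmodule _ _).1 Q.2)
      rw [h] at h1
      exact h1)

theorem Dim3_mul_coe {a b c : ℕ} (P : MvPolynomial (Fin 3) K) (hP : P.IsHomogeneous a)
    (h : a + b = c) (Q : homogeneousSubmodule (Fin 3) K b) :
    ((Dim3_mul P hP h Q : homogeneousSubmodule (Fin 3) K c) : MvPolynomial (Fin 3) K) =
      P * (Q : MvPolynomial (Fin 3) K) := rfl

theorem Dim3_mul_injective {a b c : ℕ} {P : MvPolynomial (Fin 3) K} (hP : P.IsHomogeneous a)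
    (h : a + b = c) (h0 : P ≠ 0) : Function.Injective (Dim3_mul P hP h) := by
  intro Q Q' hQ
  have h1 := congrArg (fun T : homogeneousSubmodule (Fin 3) K c => (T : MvPolynomial (Fin 3) K)) hQ
  simp only [Dim3_mul_coe] at h1
  exact Subtype.ext (mul_left_cancel₀ h0 h1)

/-- A form divisible by a form. -/
theorem Dim3_cofactor {g T : MvPolynomial (Fin 3) K} {D n : ℕ} (hg : g.IsHomogeneous D)
    (hg0 : g ≠ 0) (hT : T.IsHomogeneous n) (hT0 : T ≠ 0) (h : g ∣ T) :
    D ≤ n ∧ ∃ Q : MvPolynomial (Fin 3) K, Q.IsHomogeneous (n - D) ∧ T = g * Q := by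
  obtain ⟨Q, hQ⟩ := h
  obtain ⟨i, j, hi, hj, hij⟩ := form_of_mul hT hT0 hQ
  have h1 : i = D := hi.inj_right hg hg0
  subst h1
  refine ⟨by omega, Q, ?_, hQ⟩
  rwa [show n - i = j by omega]

/-- Forms of small degree are not divisible by `g`. -/
theorem Dim3_not_dvd {g T : MvPolynomial (Fin 3) K} {D n : ℕ} (hg : g.IsHomogeneous D)
    (hg0 : g ≠ 0) (hT : T.IsHomogeneous n) (hT0 : T ≠ 0) (hn : n < D) : ¬ g ∣ T := by
  intro h
  have := (Dim3_cofactor hg hg0 hT hT0 h).1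
  omega

/-- The dimension count. -/
theorem exists_pair [Infinite K] {x : ℕ → Fin 3 → K} {Γ : Finset ℕ} (hx : ∀ i ∈ Γ, x i ≠ 0)
    {g : MvPolynomial (Fin 3) K} {D : ℕ} (hg : g.IsHomogeneous D) (hirr : Irreducible g)
    (hD : 0 < D) (hgx : ∀ i ∈ Γ, eval (x i) g = 0) {m : ℕ} (hm : D ≤ m) (hind : Indep x Γ m)
    (hcard : Γ.card + (m - D + 2).choose 2 = (m + 2).choose 2)
    {G₀ G : MvPolynomial (Fin 3) K} (hG₀ : G₀.IsHomogeneous (m + 1))
    (hG : G.IsHomogeneous (m + 1)) (hG₀x : ∀ i ∈ Γ, eval (x i) G₀ = 0)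
    (hGx : ∀ i ∈ Γ, eval (x i) G = 0) (hnd : ¬ g ∣ G₀) :
    ∃ A A' : MvPolynomial (Fin 3) K, A.IsHomogeneous (D - 1) ∧ A'.IsHomogeneous (D - 1) ∧
      A ≠ 0 ∧ g ∣ G₀ * A' - G * A := by
  classical
  obtain ⟨hfd1, hfr1⟩ := finrank_forms K (D - 1)
  obtain ⟨hfd2, hfr2⟩ := finrank_forms K m
  obtain ⟨hfd3, hfr3⟩ := finrank_forms K (m + D)
  have hind' : Indep x Γ (m + D) := hind.mono hx (by omega)
  have hker := Dim3_finrank hind'
  have e1 : m + 1 + (D - 1) = m + D := by omega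
  have e2 : D + m = m + D := by omega
  let Ψ : (homogeneousSubmodule (Fin 3) K (D - 1) × homogeneousSubmodule (Fin 3) K (D - 1) ×
      homogeneousSubmodule (Fin 3) K m) →ₗ[K] homogeneousSubmodule (Fin 3) K (m + D) :=
    (Dim3_mul (-G) hG.neg e1).coprod ((Dim3_mul G₀ hG₀ e1).coprod (Dim3_mul (-g) hg.neg e2))
  have hΨ : ∀ v, ((Ψ v : homogeneousSubmodule (Fin 3) K (m + D)) : MvPolynomial (Fin 3) K) =
      -G * (v.1 : MvPolynomial (Fin 3) K) + (G₀ * (v.2.1 : MvPolynomial (Fin 3) K) +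
        -g * (v.2.2 : MvPolynomial (Fin 3) K)) := by
    intro v
    simp only [Ψ, LinearMap.coprod_apply, Submodule.coe_add, Dim3_mul_coe]
  have hrange : Ψ.range ≤ (Dim3_ev x Γ (m + D)).ker := by
    rintro _ ⟨v, rfl⟩
    rw [Dim3_mem_ker]
    intro i hi
    rw [hΨ]
    simp only [map_add, map_mul, map_neg, hGx i hi, hG₀x i hi, hgx i hi]
    ring
  have h1 := LinearMap.finrank_range_add_finrank_ker Ψ
  have h2 := Submodule.finrank_mono hrange
  rw [Module.finrank_prod, Module.finrank_prod, hfr1, hfr2] at h1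
  have h3 : 0 < Module.finrank K Ψ.ker := Dim3_arith1 hD hm hcard hker h2 h1
  have h4 : Ψ.ker ≠ ⊥ := by
    intro h
    rw [h, finrank_bot] at h3
    exact absurd h3 (lt_irrefl _)
  obtain ⟨⟨A, A', Q⟩, hv, hv0⟩ := (Submodule.ne_bot_iff _).1 h4
  have h5 := congrArg (fun T : homogeneousSubmodule (Fin 3) K (m + D) =>
    (T : MvPolynomial (Fin 3) K)) (LinearMap.mem_ker.1 hv)
  simp only [hΨ, Submodule.coe_zero] at h5
  have hA : (A : MvPolynomial (Fin 3) K).IsHomogeneous (D - 1) := (mem_homogeneousSubmodule _ _).1 A.2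
  have hA' : (A' : MvPolynomial (Fin 3) K).IsHomogeneous (D - 1) :=
    (mem_homogeneousSubmodule _ _).1 A'.2
  refine ⟨A, A', hA, hA', ?_, ⟨Q, by linear_combination h5⟩⟩
  intro hA0
  apply hv0
  rw [hA0] at h5
  have h6 : g ∣ G₀ * (A' : MvPolynomial (Fin 3) K) := ⟨Q, by linear_combination h5⟩
  have h7 : (A' : MvPolynomial (Fin 3) K) = 0 := by
    by_contra h0
    exact Dim3_not_dvd hg hirr.ne_zero hA' h0 (by omega)
      ((hirr.prime.dvd_or_dvd h6).resolve_left hnd)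
  have h8 : (Q : MvPolynomial (Fin 3) K) = 0 := by
    rw [h7] at h5
    have : g * (Q : MvPolynomial (Fin 3) K) = 0 := by linear_combination -h5
    exact (mul_eq_zero.1 this).resolve_left hirr.ne_zero
  exact Prod.ext (Subtype.ext hA0) (Prod.ext (Subtype.ext h7) (Subtype.ext h8))

theorem Dim3_quot {V W : Type} [AddCommGroup V] [Module K V] [FiniteDimensional K V]
    [AddCommGroup W] [Module K W] (μ : W →ₗ[K] V)
    (hμ : Function.Injective μ) {D : ℕ}
    (h : ∀ q, q + Module.finrank K W = Module.finrank K V → q = D) :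
    ∃ G : Fin D → V, (∀ j, G j ∉ μ.range) ∧
      ∀ T : V, ∃ c : Fin D → K, T - ∑ j, c j • G j ∈ μ.range := by
  have h1 : Module.finrank K μ.range = Module.finrank K W := LinearMap.finrank_range_of_inj hμ
  have h2 := Submodule.finrank_quotient_add_finrank μ.range
  rw [h1] at h2
  have h3 : Module.finrank K (V ⧸ μ.range) = D := h _ h2
  have b := Module.finBasisOfFinrankEq K (V ⧸ μ.range) h3
  have hrep : ∀ j, ∃ T : V, μ.range.mkQ T = b j := fun j => μ.range.mkQ_surjective (b j)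
  choose R hR using hrep
  refine ⟨R, fun j hj => ?_, fun T => ⟨fun j => b.repr (μ.range.mkQ T) j, ?_⟩⟩
  · apply b.ne_zero j
    rw [← hR j, Submodule.mkQ_apply, Submodule.Quotient.mk_eq_zero]
    exact hj
  · rw [← Submodule.Quotient.mk_eq_zero, ← Submodule.mkQ_apply, map_sub, map_sum]
    simp only [map_smul, hR]
    rw [b.sum_repr, sub_self]

/-- The forms of degree `m + 1` vanishing at `Γ` are modulo `g` spanned by `D` forms. -/
theorem exists_generators [Infinite K] {x : ℕ → Fin 3 → K} {Γ : Finset ℕ}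
    (hx : ∀ i ∈ Γ, x i ≠ 0)
    {g : MvPolynomial (Fin 3) K} {D : ℕ} (hg : g.IsHomogeneous D) (hirr : Irreducible g)
    (hD : 0 < D) (hgx : ∀ i ∈ Γ, eval (x i) g = 0) {m : ℕ} (hm : D ≤ m) (hind : Indep x Γ m)
    (hcard : Γ.card + (m - D + 2).choose 2 = (m + 2).choose 2) :
    ∃ G : Fin D → MvPolynomial (Fin 3) K, (∀ j, (G j).IsHomogeneous (m + 1)) ∧
      (∀ j, ∀ i ∈ Γ, eval (x i) (G j) = 0) ∧ (∀ j, ¬ g ∣ G j) ∧
      ∀ T : MvPolynomial (Fin 3) K, T.IsHomogeneous (m + 1) → (∀ i ∈ Γ, eval (x i) T = 0) →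
        ∃ c : Fin D → K, g ∣ T - ∑ j, C (c j) * G j := by
  classical
  obtain ⟨hfd1, hfr1⟩ := finrank_forms K (m + 1 - D)
  obtain ⟨hfd2, hfr2⟩ := finrank_forms K (m + 1)
  have hind' : Indep x Γ (m + 1) := hind.mono hx (by omega)
  have hker := Dim3_finrank hind'
  have e1 : D + (m + 1 - D) = m + 1 := by omega
  set Λ := (Dim3_ev x Γ (m + 1)).ker with hΛ
  let μ : homogeneousSubmodule (Fin 3) K (m + 1 - D) →ₗ[K] Λ :=
    LinearMap.codRestrict _ (Dim3_mul g hg e1) (fun Q => by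
      rw [hΛ, Dim3_mem_ker]
      intro i hi
      rw [Dim3_mul_coe, map_mul, hgx i hi, zero_mul])
  have hμ : ∀ Q, (((μ Q : Λ) : homogeneousSubmodule (Fin 3) K (m + 1)) :
      MvPolynomial (Fin 3) K) = g * (Q : MvPolynomial (Fin 3) K) := fun Q => rfl
  have hμi : Function.Injective μ := by
    intro Q Q' hQ
    apply Dim3_mul_injective hg e1 hirr.ne_zero
    exact congrArg (fun T : Λ => (T : homogeneousSubmodule (Fin 3) K (m + 1))) hQ
  obtain ⟨R, hR1, hR2⟩ := Dim3_quot (V := Λ) μ hμi (D := D) (fun q hq => by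
    rw [hfr1] at hq
    exact Dim3_arith2 hm hcard hker hq)
  refine ⟨fun j => ((R j : homogeneousSubmodule (Fin 3) K (m + 1)) : MvPolynomial (Fin 3) K),
    fun j => (mem_homogeneousSubmodule _ _).1 (R j : homogeneousSubmodule (Fin 3) K (m + 1)).2,
    fun j => Dim3_mem_ker.1 (R j).2, fun j hj => ?_, fun T hT hTx => ?_⟩
  · apply hR1 j
    by_cases h0 : ((R j : homogeneousSubmodule (Fin 3) K (m + 1)) : MvPolynomial (Fin 3) K) = 0
    · have h5 : R j = 0 := Subtype.ext (Subtype.ext h0)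
      rw [h5]
      exact Submodule.zero_mem _
    · obtain ⟨-, Q, hQ, hQ2⟩ := Dim3_cofactor hg hirr.ne_zero
        ((mem_homogeneousSubmodule _ _).1 (R j : homogeneousSubmodule (Fin 3) K (m + 1)).2) h0 hj
      refine ⟨⟨Q, (mem_homogeneousSubmodule _ _).2 hQ⟩, ?_⟩
      apply Subtype.ext
      apply Subtype.ext
      rw [hμ]
      exact hQ2.symm
  · obtain ⟨c, Q, hQ⟩ := hR2 ⟨⟨T, (mem_homogeneousSubmodule _ _).2 hT⟩, Dim3_mem_ker.2 hTx⟩
    refine ⟨c, Q, ?_⟩
    rw [← hμ, hQ]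
    simp only [Submodule.coe_sub, Submodule.coe_sum, Submodule.coe_smul]
    congr 1
    exact Finset.sum_congr rfl fun j _ => by rw [smul_eq_C_mul]

theorem Dim3_comp_mul {G B : MvPolynomial (Fin 3) K} {δ : ℕ} (hG : G.IsHomogeneous δ) (n : ℕ) :
    homogeneousComponent (n + δ) (G * B) = G * homogeneousComponent n B := by
  rw [← Gam_coeff, ← Gam_coeff, map_mul, Gam_form hG, mul_assoc, Polynomial.coeff_C_mul,
    mul_comm (Polynomial.X ^ δ), Polynomial.coeff_mul_X_pow]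

theorem Dim3_dvd_comp {g R : MvPolynomial (Fin 3) K} {D : ℕ} (hg : g.IsHomogeneous D) (n : ℕ)
    (h : g ∣ R) : g ∣ homogeneousComponent n R := by
  obtain ⟨Q, rfl⟩ := h
  rw [← Gam_coeff, map_mul, Gam_form hg, mul_assoc, Polynomial.coeff_C_mul]
  exact dvd_mul_right _ _

theorem exists_denominator [Infinite K] {x : ℕ → Fin 3 → K} {S : Set ℕ} (hS : S.Infinite)
    (hx : ∀ n ∈ S, x n ≠ 0) (hnp : ∀ n ∈ S, ∀ n' ∈ S, n ≠ n' → ¬ PEq (x n) (x n'))
    {g : MvPolynomial (Fin 3) K} {D : ℕ} (hg : g.IsHomogeneous D) (hirr : Irreducible g)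
    (hgx : ∀ n ∈ S, eval (x n) g = 0) (N : ℕ) :
    ∃ (Γ : Finset ℕ) (δ e : ℕ) (G U : MvPolynomial (Fin 3) K), (↑Γ ⊆ S) ∧ G.IsHomogeneous δ ∧
      U.IsHomogeneous e ∧ e + N ≤ δ ∧ δ ≤ Γ.card ∧ ¬ g ∣ G ∧ ¬ g ∣ U ∧
      ∀ T : MvPolynomial (Fin 3) K, T.IsHomogeneous Γ.card → (∀ i ∈ Γ, eval (x i) T = 0) →
        ∃ B : MvPolynomial (Fin 3) K, B.IsHomogeneous (Γ.card + e - δ) ∧
          g ∣ T * U - G * B := by
  classical
  have hD : 0 < D := by
    rcases Nat.eq_zero_or_pos D with h0 | h0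
    · subst h0
      exfalso
      have h1 : g.totalDegree = 0 := Nat.le_zero.1 hg.totalDegree_le
      rw [totalDegree_eq_zero_iff_eq_C] at h1
      have h2 : coeff 0 g ≠ 0 := by
        intro h
        rw [h, C_0] at h1
        exact hirr.ne_zero h1
      apply hirr.not_isUnit
      rw [h1]
      exact (isUnit_iff_ne_zero.2 h2).map C
    · exact h0
  set m := D + D * (D - 1) + N with hm
  obtain ⟨Γ, hΓS, -, hind, hcard⟩ := exists_basis_points hS hx hnp hg hirr hgx m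
  have hDm : D ≤ m := by omega
  have hcard' := hcard hDm
  have hxΓ : ∀ i ∈ Γ, x i ≠ 0 := fun i hi => hx i (hΓS hi)
  have hgΓ : ∀ i ∈ Γ, eval (x i) g = 0 := fun i hi => hgx i (hΓS hi)
  obtain ⟨G, hGh, hGx, hGn, hGgen⟩ := exists_generators hxΓ hg hirr hD hgΓ hDm hind hcard'
  have hpair : ∀ j, ∃ A A' : MvPolynomial (Fin 3) K, A.IsHomogeneous (D - 1) ∧
      A'.IsHomogeneous (D - 1) ∧ A ≠ 0 ∧ g ∣ G ⟨0, hD⟩ * A' - G j * A := fun j =>
    exists_pair hxΓ hg hirr hD hgΓ hDm hind hcard' (hGh ⟨0, hD⟩) (hGh j) (hGx ⟨0, hD⟩) (hGx j)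
      (hGn ⟨0, hD⟩)
  choose A A' hA hA' hA0 hAA using hpair
  have hcardΓ : m + 1 ≤ Γ.card := Dim3_arith3 hD hDm hcard'
  refine ⟨Γ, m + 1, D * (D - 1), G ⟨0, hD⟩, ∏ j, A j, hΓS, hGh _, ?_, by omega, hcardΓ, hGn _,
    ?_, fun T hT hTx => ?_⟩
  · have h1 := IsHomogeneous.prod Finset.univ A (fun _ => D - 1) (fun j _ => hA j)
    simpa using h1
  · intro h
    rw [Prime.dvd_finsetProd_iff hirr.prime] at h
    obtain ⟨j, -, hj⟩ := h
    exact Dim3_not_dvd hg hirr.ne_zero (hA j) (hA0 j) (by omega) hj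
  · obtain ⟨t, ht⟩ := Nat.exists_eq_add_of_le hcardΓ
    have hTJ : T ∈ Ideal.span (Set.range G) ⊔ Ideal.span {g} := by
      have h1 := castelnuovo hxΓ hind t T (by rw [← ht]; exact hT) hTx
      refine Ideal.span_le.2 ?_ h1
      rintro P ⟨hP, hPx⟩
      obtain ⟨c, Q, hQ⟩ := hGgen P hP hPx
      have h2 : P = ∑ j, C (c j) * G j + Q * g := by linear_combination hQ
      rw [h2]
      refine Submodule.add_mem_sup ?_ (Ideal.mul_mem_left _ _ (Ideal.mem_span_singleton_self g))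
      exact Ideal.sum_mem _ fun j _ => Ideal.mul_mem_left _ _ (Ideal.subset_span ⟨j, rfl⟩)
    obtain ⟨P, hP, R, hR, hPR⟩ := Submodule.mem_sup.1 hTJ
    obtain ⟨B, hB⟩ := (Ideal.mem_span_range_iff_exists_fun).1 hP
    rw [Ideal.mem_span_singleton] at hR
    set B' : MvPolynomial (Fin 3) K := ∑ j, B j * (A' j * ∏ i ∈ Finset.univ.erase j, A i) with hB'
    have hmain : g ∣ T * (∏ j, A j) - G ⟨0, hD⟩ * B' := by
      have h1 : T * (∏ j, A j) - G ⟨0, hD⟩ * B' = R * (∏ j, A j) -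
          ∑ j, B j * (∏ i ∈ Finset.univ.erase j, A i) * (G ⟨0, hD⟩ * A' j - G j * A j) := by
        rw [← hPR, ← hB, hB', add_mul, Finset.sum_mul, Finset.mul_sum]
        have h2 : ∀ j, B j * G j * ∏ i, A i =
            B j * (∏ i ∈ Finset.univ.erase j, A i) * (G j * A j) := by
          intro j
          rw [← Finset.mul_prod_erase Finset.univ A (Finset.mem_univ j)]
          ring
        rw [Finset.sum_congr rfl fun j _ => h2 j]
        simp only [mul_sub, Finset.sum_sub_distrib]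
        have h3 : ∑ j, G ⟨0, hD⟩ * (B j * (A' j * ∏ i ∈ Finset.univ.erase j, A i)) =
            ∑ j, B j * (∏ i ∈ Finset.univ.erase j, A i) * (G ⟨0, hD⟩ * A' j) :=
          Finset.sum_congr rfl fun j _ => by ring
        rw [h3]
        ring
      rw [h1]
      refine dvd_sub (hR.mul_right _) (Finset.dvd_sum fun j _ => (hAA j).mul_left _)
    have hUh : (∏ j, A j).IsHomogeneous (D * (D - 1)) := by
      have h1 := IsHomogeneous.prod Finset.univ A (fun _ => D - 1) (fun j _ => hA j)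
      simpa using h1
    refine ⟨homogeneousComponent (Γ.card + D * (D - 1) - (m + 1)) B',
      homogeneousComponent_isHomogeneous _ _, ?_⟩
    have h5 := Dim3_dvd_comp hg (Γ.card + D * (D - 1)) hmain
    rw [map_sub, homogeneousComponent_of_mem (hT.mul hUh), if_pos rfl] at h5
    have h6 := Dim3_comp_mul (B := B') (hGh ⟨0, hD⟩) (Γ.card + D * (D - 1) - (m + 1))
    rw [show Γ.card + D * (D - 1) - (m + 1) + (m + 1) = Γ.card + D * (D - 1) by omega] at h6
    rwa [h6] at h5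

end Pool.Agent.Helper30.TP
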