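import Pool.Agent.Helper30.TP.LFin
import Pool.Agent.Helper41.CI.Null

/-!
# Two forms have a common zero; forms which divide a composition
-/

set_option autoImplicit false

namespace Pool.Agent.Helper30.TP

open MvPolynomial
open Pool.Agent.Helper16 (Place IsFunctionField)
open Pool.Agent.Helper36 (step iter)

theorem exists_common_zero {k : Type} [Field k] [IsAlgClosed k] {P Q : MvPolynomial (Fin 3) k}
    {s t : ℕ} (hP : P.IsHomogeneous s) (hs : 0 < s) (hQ : Q.IsHomogeneous t) (ht : 0 < t) :
    ∃ p : Fin 3 → k, p ≠ 0 ∧ eval p P = 0 ∧ eval p Q = 0 := by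
  obtain ⟨x, hx, h⟩ := Pool.Agent.Helper41.CI.exists_common_zero (k := k) (n := 3) (r := 2)
    (by norm_num) ![P, Q] ![s, t] (by intro i; fin_cases i <;> simp [hs, ht])
    (by intro i; fin_cases i <;> simp [hP, hQ])
  exact ⟨x, hx, by simpa using h 0, by simpa using h 1⟩

private theorem Two_deg {k : Type} [Field k] {a : MvPolynomial (Fin 3) k} {n : ℕ}
    (h : a.IsHomogeneous n) {d : Fin 3 →₀ ℕ} (hd : coeff d a ≠ 0) : d.degree = n := by
  have h2 := h hd
  rw [Finsupp.degree_eq_weight_one]
  exact h2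

/-- factors of forms are forms -/
private theorem Two_hom {k : Type} [Field k] {a b : MvPolynomial (Fin 3) k} {s : ℕ}
    (h : (a * b).IsHomogeneous s) (h0 : a * b ≠ 0) : a.IsHomogeneous a.totalDegree := by
  have ha0 : a ≠ 0 := left_ne_zero_of_mul h0
  have hb0 : b ≠ 0 := right_ne_zero_of_mul h0
  have h1 : a.totalDegree + b.totalDegree = s := by
    rw [← totalDegree_mul_of_isDomain ha0 hb0]
    exact h.totalDegree h0
  have key : ∀ c : MvPolynomial (Fin 3) k, c ≠ 0 →
      (c : MvPowerSeries (Fin 3) k).order ≤ (c.totalDegree : ℕ∞) := by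
    intro c hc
    obtain ⟨d, hd⟩ := MvPolynomial.ne_zero_iff.1 hc
    have h3 : (c : MvPowerSeries (Fin 3) k).order ≤ (d.degree : ℕ∞) :=
      MvPowerSeries.order_le (by rwa [MvPolynomial.coeff_coe])
    refine h3.trans ?_
    have h4 := le_totalDegree (MvPolynomial.mem_support_iff.2 hd)
    exact_mod_cast h4
  have h2 : (s : ℕ∞) ≤ (a : MvPowerSeries (Fin 3) k).order +
      (b : MvPowerSeries (Fin 3) k).order := by
    rw [← MvPowerSeries.order_mul, ← MvPolynomial.coe_mul]
    refine MvPowerSeries.nat_le_order (fun d hd => ?_)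
    rw [MvPolynomial.coeff_coe]
    by_contra hne
    have := Two_deg h hne
    omega
  have ha1 := key a ha0
  have hb1 := key b hb0
  have h3 : (a.totalDegree : ℕ∞) ≤ (a : MvPowerSeries (Fin 3) k).order := by
    by_contra hlt
    rw [not_le] at hlt
    have h4 : (a : MvPowerSeries (Fin 3) k).order + (b : MvPowerSeries (Fin 3) k).order <
        (a.totalDegree : ℕ∞) + (b.totalDegree : ℕ∞) := by
      refine ENat.add_lt_add_of_lt_of_le ?_ hlt hb1
      exact ne_top_of_le_ne_top (ENat.natCast_ne_top _) hb1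
    have h5 := h2.trans_lt h4
    rw [← h1] at h5
    push_cast at h5
    exact lt_irrefl _ h5
  intro d hd
  have h9 : (Finsupp.weight 1) d = d.degree := by
    rw [Finsupp.degree_eq_weight_one]
    rfl
  rw [h9]
  have h6 : (a : MvPowerSeries (Fin 3) k).order ≤ (d.degree : ℕ∞) :=
    MvPowerSeries.order_le (by rwa [MvPolynomial.coeff_coe])
  have h7 := le_totalDegree (MvPolynomial.mem_support_iff.2 hd)
  have h8 : a.totalDegree ≤ d.degree := by exact_mod_cast h3.trans h6
  exact le_antisymm h7 h8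

/-- a form of positive degree has an irreducible factor which is a form of positive degree -/
private theorem Two_factor {k : Type} [Field k] {ρ : MvPolynomial (Fin 3) k} {s : ℕ}
    (hρ : ρ.IsHomogeneous s) (hs : 0 < s) (hρ0 : ρ ≠ 0) :
    ∃ (r : MvPolynomial (Fin 3) k) (e : ℕ), r.IsHomogeneous e ∧ 0 < e ∧ Irreducible r ∧ r ∣ ρ := by
  have hu : ¬ IsUnit ρ := by
    intro hu
    obtain ⟨c, -, hc⟩ := MvPolynomial.isUnit_iff_eq_C_of_isReduced.1 hu
    have h1 := hρ.totalDegree hρ0
    rw [hc, totalDegree_C] at h1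
    omega
  obtain ⟨r, hr, q, hq⟩ := WfDvdMonoid.exists_irreducible_factor hu hρ0
  have h1 : r.IsHomogeneous r.totalDegree := Two_hom (b := q) (by rwa [← hq]) (by rwa [← hq])
  refine ⟨r, r.totalDegree, h1, ?_, hr, ⟨q, hq⟩⟩
  by_contra h0
  rw [not_lt, Nat.le_zero] at h0
  apply hr.not_isUnit
  rw [totalDegree_eq_zero_iff_eq_C.1 h0] at hr ⊢
  have hc : coeff 0 r ≠ 0 := by
    intro hc
    rw [hc, C_0] at hr
    exact hr.ne_zero rfl
  exact (isUnit_iff_ne_zero.2 hc).map C

section lam

variable {k K : Type} [Field k] [Field K] [Algebra k K]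

private theorem Two_coeff_lam (ℓ : K →ₗ[k] k) (g : MvPolynomial (Fin 3) K) (m : Fin 3 →₀ ℕ) :
    coeff m (lam ℓ g) = ℓ (coeff m g) := by
  classical
  unfold lam
  rw [coeff_sum]
  simp only [coeff_monomial]
  rw [Finset.sum_ite_eq']
  split_ifs with h
  · rfl
  · rw [MvPolynomial.notMem_support_iff.1 h, map_zero]

private theorem Two_lam_hom (ℓ : K →ₗ[k] k) {g : MvPolynomial (Fin 3) K} {D : ℕ}
    (hg : g.IsHomogeneous D) : (lam ℓ g).IsHomogeneous D := by
  intro m hm
  rw [Two_coeff_lam] at hm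
  exact hg (fun h => hm (by rw [h, map_zero]))

private theorem Two_eval_lam (ℓ : K →ₗ[k] k) (g : MvPolynomial (Fin 3) K) (w : Fin 3 → k) :
    eval w (lam ℓ g) = ℓ (eval (fun i => algebraMap k K (w i)) g) := by
  unfold lam
  rw [map_sum, eval_eq (fun i => algebraMap k K (w i)) g, map_sum]
  refine Finset.sum_congr rfl fun m _ => ?_
  rw [eval_monomial]
  have h1 : ∏ i ∈ m.support, (algebraMap k K (w i)) ^ m i =
      algebraMap k K (∏ i ∈ m.support, w i ^ m i) := by
    rw [map_prod]
    exact Finset.prod_congr rfl fun i _ => (map_pow _ _ _).symm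
  rw [h1, mul_comm (coeff m g), ← Algebra.smul_def, map_smul, smul_eq_mul, mul_comm]
  rfl

private theorem Two_eval_map (w : Fin 3 → k) (P : MvPolynomial (Fin 3) k) :
    eval (fun j => algebraMap k K (w j)) (map (algebraMap k K) P) = algebraMap k K (eval w P) := by
  induction P using MvPolynomial.induction_on with
  | C a => simp
  | add p q hp hq => rw [map_add, map_add, hp, hq, map_add, map_add]
  | mul_X p i hp => rw [map_mul, map_mul, hp, map_mul, map_mul]; simp

private theorem Two_eval_comp (F : Fin 3 → MvPolynomial (Fin 3) k) (P : MvPolynomial (Fin 3) K)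
    (w : Fin 3 → k) : eval (fun j => algebraMap k K (w j)) (comp F P) =
      eval (fun i => algebraMap k K (eval w (F i))) P := by
  unfold comp
  induction P using MvPolynomial.induction_on with
  | C a => simp
  | add p q hp hq => rw [map_add, map_add, hp, hq, map_add]
  | mul_X p i hp => rw [map_mul, map_mul, hp, map_mul, aeval_X, eval_X, Two_eval_map]

/-- proportional over the large field means proportional over the small one -/
private theorem Two_peq {w w' : Fin 3 → k} (hw : w ≠ 0)
    (h : PEq (fun i => algebraMap k K (w i)) (fun i => algebraMap k K (w' i))) : PEq w w' := by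
  obtain ⟨c, hc, h⟩ := h
  obtain ⟨a, ha⟩ : ∃ a, w a ≠ 0 := by
    by_contra hcon
    push Not at hcon
    exact hw (funext hcon)
  have h1 : ∀ i, algebraMap k K (w' i) = c * algebraMap k K (w i) := fun i => by
    have := congrFun h i
    simpa [Pi.smul_apply, smul_eq_mul] using this
  have ha' : algebraMap k K (w a) ≠ 0 := (map_ne_zero _).2 ha
  have hc' : c = algebraMap k K (w' a / w a) := by
    rw [map_div₀, eq_div_iff ha', h1 a]
  have hc0 : w' a / w a ≠ 0 := by
    intro h0
    rw [h0, map_zero] at hc'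
    exact hc hc'
  refine ⟨w' a / w a, hc0, funext fun i => ?_⟩
  apply (algebraMap k K).injective
  rw [h1 i, hc', Pi.smul_apply, smul_eq_mul, map_mul]

/-- an irreducible form with infinitely many zeros over the small field is defined over it -/
private theorem Two_overK {g : MvPolynomial (Fin 3) K} {D : ℕ}
    (hg : g.IsHomogeneous D) (hirr : Irreducible g) (w : ℕ → Fin 3 → k) (hw : ∀ i, w i ≠ 0)
    (hd : ∀ i j, i ≠ j → ¬ PEq (w i) (w j))
    (hz : ∀ i, eval (fun j => algebraMap k K (w i j)) g = 0) : OverK k g := by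
  have hg0 : g ≠ 0 := hirr.ne_zero
  obtain ⟨m, hm⟩ := MvPolynomial.ne_zero_iff.1 hg0
  obtain ⟨ℓ, hℓ⟩ := Module.Projective.exists_dual_ne_zero k hm
  have hlam0 : lam ℓ g ≠ 0 := by
    intro h0
    apply hℓ
    rw [← Two_coeff_lam, h0, coeff_zero]
  have hlamh : (map (algebraMap k K) (lam ℓ g)).IsHomogeneous D := (Two_lam_hom ℓ hg).map _
  have hdvd : g ∣ map (algebraMap k K) (lam ℓ g) := by
    by_contra hnd
    have hfin := finite_common_zeros hg hlamh hirr hnd
      (fun i : ℕ => (fun j => algebraMap k K (w i j) : Fin 3 → K))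
      (fun i h0 => hw i (funext fun j => by
        have := congrFun h0 j
        simpa using this))
      (fun i j hij h => hd i j hij (Two_peq (hw i) h))
    refine Set.infinite_univ (α := ℕ) (hfin.subset fun i _ => ⟨hz i, ?_⟩)
    rw [Two_eval_map, Two_eval_lam, hz i, map_zero, map_zero]
  obtain ⟨q, hq⟩ := hdvd
  have hmap0 : map (algebraMap k K) (lam ℓ g) ≠ 0 := by
    intro h0
    exact hlam0 (map_injective _ (algebraMap k K).injective (by rw [h0, map_zero]))
  have hq0 : q ≠ 0 := by
    rintro rfl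
    rw [mul_zero] at hq
    exact hmap0 hq
  have hdeg : q.totalDegree = 0 := by
    have h1 := totalDegree_mul_of_isDomain hg0 hq0
    rw [← hq, hlamh.totalDegree hmap0, hg.totalDegree hg0] at h1
    omega
  rw [totalDegree_eq_zero_iff_eq_C.1 hdeg] at hq
  have hc : coeff 0 q ≠ 0 := by
    intro hc
    rw [hc, C_0, mul_zero] at hq
    exact hmap0 hq
  refine ⟨(coeff 0 q)⁻¹, lam ℓ g, inv_ne_zero hc, ?_⟩
  rw [hq, mul_comm g, ← mul_assoc, ← C_mul, inv_mul_cancel₀ hc, C_1, one_mul]

end lam

section plane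

variable {k : Type} [Field k]

/-- the linear form `q_a X_b - q_b X_a` -/
private noncomputable def Two_lin (q : Fin 3 → k) (G : Fin 3 → MvPolynomial (Fin 3) k) (a b : Fin 3) :
    MvPolynomial (Fin 3) k :=
  C (q a) * G b - C (q b) * G a

private theorem Two_lin_hom {q : Fin 3 → k} {G : Fin 3 → MvPolynomial (Fin 3) k} {d : ℕ}
    (hG : ∀ i, (G i).IsHomogeneous d) (a b : Fin 3) : (Two_lin q G a b).IsHomogeneous d :=
  ((hG b).C_mul _).sub ((hG a).C_mul _)

private theorem Two_lin_eval (q : Fin 3 → k) (G : Fin 3 → MvPolynomial (Fin 3) k) (a b : Fin 3)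
    (x : Fin 3 → k) : eval x (Two_lin q G a b) = q a * eval x (G b) - q b * eval x (G a) := by
  simp [Two_lin]

private theorem Two_eval_smul {f : MvPolynomial (Fin 3) k} {n : ℕ} (hf : f.IsHomogeneous n)
    (c : k) (x : Fin 3 → k) : eval (c • x) f = c ^ n * eval x f := by
  rw [eval_eq', eval_eq', Finset.mul_sum]
  refine Finset.sum_congr rfl fun μ hμ => ?_
  have h1 : ∑ i, μ i = n := by
    have h2 := hf (mem_support_iff.1 hμ)
    rw [Finsupp.weight_apply, Finsupp.sum_fintype _ _ (fun _ => by simp)] at h2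
    simpa using h2
  have h2 : ∏ i, (c • x) i ^ μ i = c ^ n * ∏ i, x i ^ μ i := by
    rw [← h1, ← Finset.prod_pow_eq_pow_sum, ← Finset.prod_mul_distrib]
    refine Finset.prod_congr rfl fun i _ => ?_
    rw [Pi.smul_apply, smul_eq_mul, mul_pow]
  rw [h2]
  ring

/-- if all the linear forms `q_a X_b - q_b X_a` vanish at `x`, then `x` is a multiple of `q` -/
private theorem Two_mult {q x : Fin 3 → k} {a : Fin 3} (ha : q a ≠ 0)
    (h : ∀ b, q a * x b - q b * x a = 0) : x = (x a / q a) • q := by
  funext b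
  rw [Pi.smul_apply, smul_eq_mul, div_mul_eq_mul_div, eq_div_iff ha]
  have := h b
  linear_combination this

end plane

theorem overK_of_dvd_comp {k K : Type} [Field k] [IsAlgClosed k] [Field K] [Algebra k K] {d : ℕ}
    {F : Fin 3 → MvPolynomial (Fin 3) k} (hF : IsEndo d F) {g : MvPolynomial (Fin 3) K} {D : ℕ}
    (hg : g.IsHomogeneous D) (hirr : Irreducible g) {ρ : MvPolynomial (Fin 3) k} {s : ℕ}
    (hρ : ρ.IsHomogeneous s) (hs : 0 < s) (hρ0 : ρ ≠ 0)
    (h : map (algebraMap k K) ρ ∣ comp F g) : OverK k g := by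
  obtain ⟨r, e, hr, he, hrirr, hrρ⟩ := Two_factor hρ hs hρ0
  have hrdvd : map (algebraMap k K) r ∣ comp F g := (map_dvd _ hrρ).trans h
  clear h hρ hs hρ0 hrρ
  have hpt : ∃ p : k → Fin 3 → k, (∀ t, p t ≠ 0) ∧ (∀ t, eval (p t) r = 0) ∧
      ∀ t t', t ≠ t' → ¬ PEq (p t) (p t') := by
    obtain ⟨q, hq⟩ : ∃ q, eval q r ≠ 0 := by
      by_contra hcon
      push Not at hcon
      exact hrirr.ne_zero (MvPolynomial.funext fun x => by rw [hcon x, map_zero])
    obtain ⟨a, ha⟩ : ∃ a, q a ≠ 0 := by
      by_contra hcon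
      push Not at hcon
      have h1 : q = (0 : k) • q := by
        rw [zero_smul]
        exact funext hcon
      rw [h1, Two_eval_smul hr, zero_pow he.ne', zero_mul] at hq
      exact hq rfl
    have hM : ∀ t : k, (Two_lin q X a (a + 1) - C t * Two_lin q X a (a + 2)).IsHomogeneous 1 :=
      fun t => (Two_lin_hom (fun i => isHomogeneous_X k i) _ _).sub
        ((Two_lin_hom (fun i => isHomogeneous_X k i) _ _).C_mul _)
    choose p hp0 hpr hpM using fun t : k => exists_common_zero hr he (hM t) one_pos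
    have hpM' : ∀ t, q a * p t (a + 1) - q (a + 1) * p t a =
        t * (q a * p t (a + 2) - q (a + 2) * p t a) := by
      intro t
      have := hpM t
      rw [map_sub, map_mul, eval_C, Two_lin_eval, Two_lin_eval] at this
      simp only [eval_X] at this
      linear_combination this
    refine ⟨p, hp0, hpr, fun t t' htt' hP => ?_⟩
    obtain ⟨c, hc, hP⟩ := hP
    have h1 := hpM' t
    have h2 := hpM' t'
    rw [hP] at h2
    simp only [Pi.smul_apply, smul_eq_mul] at h2
    have h3 : q a * p t (a + 2) - q (a + 2) * p t a = 0 := by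
      have h4 : c * (t - t') * (q a * p t (a + 2) - q (a + 2) * p t a) = 0 := by
        linear_combination h2 - c * h1
      rcases mul_eq_zero.1 h4 with h5 | h5
      · exact absurd h5 (mul_ne_zero hc (sub_ne_zero.2 htt'))
      · exact h5
    rw [h3, mul_zero] at h1
    have h6 : p t = (p t a / q a) • q := by
      apply Two_mult ha
      intro b
      have h7 : ∀ a b : Fin 3, b = a ∨ b = a + 1 ∨ b = a + 2 := by decide
      rcases h7 a b with rfl | rfl | rfl
      · ring
      · exact h1
      · exact h3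
    have h8 := hpr t
    rw [h6, Two_eval_smul hr] at h8
    rcases mul_eq_zero.1 h8 with h9 | h9
    · have h10 : p t a / q a = 0 := by
        by_contra h11
        exact pow_ne_zero _ h11 h9
      rw [h10, zero_smul] at h6
      exact hp0 t h6
    · exact hq h9
  obtain ⟨p, hp0, hpr, hpd⟩ := hpt
  obtain ⟨v, hv⟩ : ∃ v : k → Fin 3 → k, ∀ t i, v t i = eval (p t) (F i) :=
    ⟨fun t i => eval (p t) (F i), fun _ _ => rfl⟩
  have hv0 : ∀ t, v t ≠ 0 := by
    intro t h0
    apply hp0 t
    apply hF.nz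
    intro i
    rw [← hv, h0, Pi.zero_apply]
  have hgv : ∀ t, eval (fun i => algebraMap k K (v t i)) g = 0 := by
    intro t
    obtain ⟨u, hu⟩ := hrdvd
    have h1 := Two_eval_comp (K := K) F g (p t)
    rw [hu, map_mul, Two_eval_map, hpr t, map_zero, zero_mul] at h1
    simp only [hv]
    exact h1.symm
  by_contra hnot
  have hPE : ∀ t t', Projectivization.mk k (v t) (hv0 t) = Projectivization.mk k (v t') (hv0 t') →
      PEq (v t') (v t) := by
    intro t t' h1
    rw [Projectivization.mk_eq_mk_iff] at h1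
    obtain ⟨c, hc⟩ := h1
    exact ⟨c, c.ne_zero, hc.symm⟩
  have hEP : ∀ t t', PEq (v t') (v t) → Projectivization.mk k (v t) (hv0 t) =
      Projectivization.mk k (v t') (hv0 t') := by
    rintro t t' ⟨c, hc, h1⟩
    rw [Projectivization.mk_eq_mk_iff']
    exact ⟨c, h1.symm⟩
  obtain ⟨Φ, hΦ⟩ : ∃ Φ : k → Projectivization k (Fin 3 → k),
      ∀ t, Φ t = Projectivization.mk k (v t) (hv0 t) := ⟨_, fun _ => rfl⟩
  by_cases hfin : (Set.range Φ).Finite
  · have : Finite (Set.range Φ) := hfin
    have : Infinite k := inferInstance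
    obtain ⟨y, hy⟩ := Finite.exists_infinite_fiber (Set.rangeFactorization Φ)
    obtain ⟨⟨t0, ht0⟩⟩ : Nonempty (Set.rangeFactorization Φ ⁻¹' {y}) := inferInstance
    have hT : ∀ t : (Set.rangeFactorization Φ ⁻¹' {y}), PEq (v t0) (v t) := by
      rintro ⟨t, ht⟩
      apply hPE
      rw [← hΦ, ← hΦ]
      have h1 : Set.rangeFactorization Φ t = y := ht
      have h2 : Set.rangeFactorization Φ t0 = y := ht0
      exact congrArg Subtype.val (h1.trans h2.symm)
    obtain ⟨a, ha⟩ : ∃ a, v t0 a ≠ 0 := by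
      by_contra hcon
      push Not at hcon
      exact hv0 t0 (funext hcon)
    have hdv : ∀ b, r ∣ Two_lin (v t0) F a b := by
      intro b
      by_contra hnd
      have h1 := finite_common_zeros hr (Two_lin_hom (q := v t0) hF.hom a b) hrirr hnd
        (fun t : (Set.rangeFactorization Φ ⁻¹' {y}) => p t) (fun t => hp0 t)
        (fun t t' htt' => hpd t t' (fun h => htt' (Subtype.ext h)))
      refine Set.infinite_univ (h1.subset fun t _ => ⟨hpr t, ?_⟩)
      rw [Two_lin_eval]
      obtain ⟨c, hc, h2⟩ := hT t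
      rw [← hv, ← hv, h2]
      simp only [Pi.smul_apply, smul_eq_mul]
      ring
    have hd0 : 0 < d := lt_of_lt_of_le two_pos hF.two_le
    obtain ⟨z, hz0, hzr, hza⟩ := exists_common_zero hr he (hF.hom a) hd0
    apply hz0
    apply hF.nz
    intro b
    obtain ⟨u, hu⟩ := hdv b
    have h1 := Two_lin_eval (v t0) F a b z
    rw [hu, map_mul, hzr, zero_mul, hza, mul_zero, sub_zero] at h1
    rcases mul_eq_zero.1 h1.symm with h2 | h2
    · exact absurd h2 ha
    · exact h2
  · apply hnot
    have hinf : (Set.range Φ).Infinite := hfin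
    obtain ⟨τ, hτ⟩ : ∃ τ : ℕ → k, ∀ n, Φ (τ n) = (hinf.natEmbedding _ n : _) :=
      ⟨fun n => (hinf.natEmbedding _ n).2.choose, fun n => (hinf.natEmbedding _ n).2.choose_spec⟩
    refine Two_overK hg hirr (fun n => v (τ n)) (fun n => hv0 _) (fun i j hij h => hij ?_)
      (fun n => hgv _)
    have h1 := hEP _ _ h
    rw [← hΦ, ← hΦ, hτ, hτ] at h1
    exact ((hinf.natEmbedding _).injective (Subtype.ext h1)).symm

end Pool.Agent.Helper30.TP
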