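import Pool.Agent.Helper30.TP.PtHeight
import Pool.Agent.Helper30.TP.Two

/-!
# Heights of forms
-/

set_option autoImplicit false

namespace Pool.Agent.Helper30.TP

open MvPolynomial
open Pool.Agent.Helper16 (Place IsFunctionField)
open Pool.Agent.Helper36 (step iter)

section

variable {k K : Type} [Field k] [Field K] [Algebra k K]

theorem formHeight_le (b : Place k K) (P : MvPolynomial (Fin 3) K) (m : Fin 3 →₀ ℕ) :
    b.val (P.coeff m) ≤ gs b P := by
  by_cases h : m ∈ P.support
  · exact Finset.le_sup (f := fun m => b.val (P.coeff m)) h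
  · rw [notMem_support_iff.1 h, map_zero]
    exact zero_le

theorem formHeight_gs_le {b : Place k K} {P : MvPolynomial (Fin 3) K}
    {c : WithZero (Multiplicative ℤ)} (h : ∀ m, b.val (P.coeff m) ≤ c) : gs b P ≤ c :=
  Finset.sup_le fun m _ => h m

theorem formHeight_gs_lt {b : Place k K} {P : MvPolynomial (Fin 3) K}
    {c : WithZero (Multiplicative ℤ)} (hc : 0 < c) (h : ∀ m, b.val (P.coeff m) < c) :
    gs b P < c :=
  (Finset.sup_lt_iff (by simpa using hc)).2 fun m _ => h m

theorem formHeight_exists {b : Place k K} {P : MvPolynomial (Fin 3) K} (hP : P ≠ 0) :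
    ∃ m, P.coeff m ≠ 0 ∧ gs b P = b.val (P.coeff m) := by
  obtain ⟨m, hm, h⟩ := Finset.exists_mem_eq_sup P.support (support_nonempty.2 hP)
    (fun m => b.val (P.coeff m))
  exact ⟨m, mem_support_iff.1 hm, h⟩

theorem formHeight_pos {b : Place k K} {P : MvPolynomial (Fin 3) K} (hP : P ≠ 0) :
    0 < gs b P := by
  obtain ⟨m, hm, h⟩ := formHeight_exists (b := b) hP
  rw [h]
  exact zero_lt_iff.2 (by simpa using hm)

theorem formHeight_zero (b : Place k K) : gs b (0 : MvPolynomial (Fin 3) K) = 0 := by
  unfold gs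
  rw [support_zero, Finset.sup_empty]
  rfl

theorem formHeight_C_mul (b : Place k K) (c : K) (P : MvPolynomial (Fin 3) K) :
    gs b (C c * P) = b.val c * gs b P := by
  by_cases hc : c = 0
  · subst hc
    simp [formHeight_zero]
  by_cases hP : P = 0
  · subst hP
    simp [formHeight_zero]
  refine le_antisymm (formHeight_gs_le fun m => ?_) ?_
  · rw [coeff_C_mul, map_mul]
    exact mul_le_mul_right (formHeight_le b P m) _
  · obtain ⟨m, -, h⟩ := formHeight_exists (b := b) hP
    rw [h, ← map_mul, ← coeff_C_mul]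
    exact formHeight_le b _ m

theorem formHeight_add (b : Place k K) (P Q : MvPolynomial (Fin 3) K) :
    gs b (P + Q) ≤ max (gs b P) (gs b Q) := by
  refine formHeight_gs_le fun m => ?_
  rw [coeff_add]
  exact (b.val.map_add _ _).trans (max_le_max (formHeight_le b P m) (formHeight_le b Q m))

theorem formHeight_sub_comm (b : Place k K) (P Q : MvPolynomial (Fin 3) K) :
    gs b (P - Q) = gs b (Q - P) := by
  have h : Q - P = C (-1) * (P - Q) := by
    rw [C_neg, C_1]
    ring
  rw [h, formHeight_C_mul, Valuation.map_neg, map_one, one_mul]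

theorem formHeight_mul_le (b : Place k K) (P Q : MvPolynomial (Fin 3) K) :
    gs b (P * Q) ≤ gs b P * gs b Q := by
  classical
  refine formHeight_gs_le fun m => ?_
  rw [coeff_mul]
  refine b.val.map_sum_le fun x _ => ?_
  rw [map_mul]
  exact mul_le_mul' (formHeight_le b P _) (formHeight_le b Q _)

/-- If `P - Q` is smaller than `Q`, then `P` and `Q` have the same norm. -/
theorem formHeight_eq {b : Place k K} {P Q : MvPolynomial (Fin 3) K}
    (h : gs b (P - Q) < gs b Q) : gs b P = gs b Q := by
  have h1 : gs b P ≤ gs b Q := by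
    have := formHeight_add b (P - Q) Q
    rw [sub_add_cancel] at this
    exact this.trans (max_le h.le le_rfl)
  refine le_antisymm h1 ?_
  have h2 := formHeight_add b (Q - P) P
  rw [sub_add_cancel, formHeight_sub_comm] at h2
  rcases le_max_iff.1 h2 with h3 | h3
  · exact absurd h3 (not_le.2 h)
  · exact h3

theorem formHeight_map_le (b : Place k K) (p : MvPolynomial (Fin 3) k) :
    gs b (map (algebraMap k K) p) ≤ 1 := by
  refine formHeight_gs_le fun m => ?_
  rw [coeff_map]
  by_cases h : p.coeff m = 0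
  · rw [h, map_zero, map_zero]
    exact zero_le_one
  · exact (b.triv _ h).le

theorem formHeight_map (b : Place k K) {p : MvPolynomial (Fin 3) k} (hp : p ≠ 0) :
    gs b (map (algebraMap k K) p) = 1 := by
  refine le_antisymm (formHeight_map_le b p) ?_
  obtain ⟨m, hm⟩ := MvPolynomial.ne_zero_iff.1 hp
  rw [← b.triv _ hm, ← coeff_map]
  exact formHeight_le b _ m

/-- Reduction of the coefficients. -/
theorem formHeight_red [IsAlgClosed k] (hK : IsFunctionField k K) (b : Place k K)
    {P : MvPolynomial (Fin 3) K} (hP : gs b P ≤ 1) :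
    ∃ p : MvPolynomial (Fin 3) k, gs b (P - map (algebraMap k K) p) < 1 ∧
      ∀ e, P.IsHomogeneous e → p.IsHomogeneous e := by
  classical
  have h1 : ∀ m, ∃ c : k, b.val (P.coeff m - algebraMap k K c) < 1 ∧
      (P.coeff m = 0 → c = 0) := by
    intro m
    by_cases h0 : P.coeff m = 0
    · exact ⟨0, by simp [h0], fun _ => rfl⟩
    · obtain ⟨c, hc⟩ := exists_residue hK b (P.coeff m) ((formHeight_le b P m).trans hP)
      exact ⟨c, hc, fun h => absurd h h0⟩
  choose c hc hc0 using h1
  have h2 : ∀ m, (∑ n ∈ P.support, monomial n (c n)).coeff m = c m := by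
    intro m
    rw [coeff_sum]
    simp only [coeff_monomial]
    rw [Finset.sum_ite_eq']
    split_ifs with h
    · rfl
    · exact (hc0 m (notMem_support_iff.1 h)).symm
  refine ⟨∑ n ∈ P.support, monomial n (c n), ?_, fun e he => ?_⟩
  · refine formHeight_gs_lt zero_lt_one fun m => ?_
    rw [coeff_sub, coeff_map, h2]
    exact hc m
  · refine IsHomogeneous.sum _ _ _ fun n hn => ?_
    refine isHomogeneous_monomial _ ?_
    have := he (mem_support_iff.1 hn)
    rw [← this, Finsupp.degree_eq_weight_one]
    rfl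

/-- Scaling to norm one. -/
theorem formHeight_scale (b : Place k K) {P : MvPolynomial (Fin 3) K} (hP : P ≠ 0) :
    ∃ c : K, c ≠ 0 ∧ b.val c = gs b P ∧ gs b (C c⁻¹ * P) = 1 := by
  obtain ⟨m, hm, h⟩ := formHeight_exists (b := b) hP
  refine ⟨P.coeff m, hm, h.symm, ?_⟩
  rw [formHeight_C_mul, h, map_inv₀]
  exact inv_mul_cancel₀ (by simpa using hm)

end

theorem gs_mul {k K : Type} [Field k] [IsAlgClosed k] [Field K] [Algebra k K]
    (hK : IsFunctionField k K) (b : Place k K) (P Q : MvPolynomial (Fin 3) K) :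
    gs b (P * Q) = gs b P * gs b Q := by
  by_cases hP : P = 0
  · subst hP
    rw [zero_mul, formHeight_zero, zero_mul]
  by_cases hQ : Q = 0
  · subst hQ
    rw [mul_zero, formHeight_zero, mul_zero]
  -- the case of norm one
  have key : ∀ P Q : MvPolynomial (Fin 3) K, gs b P = 1 → gs b Q = 1 → gs b (P * Q) = 1 := by
    intro P Q h1 h2
    obtain ⟨p, hp, -⟩ := formHeight_red hK b h1.le
    obtain ⟨q, hq, -⟩ := formHeight_red hK b h2.le
    have hp0 : p ≠ 0 := by
      rintro rfl
      rw [map_zero, sub_zero, h1] at hp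
      exact lt_irrefl _ hp
    have hq0 : q ≠ 0 := by
      rintro rfl
      rw [map_zero, sub_zero, h2] at hq
      exact lt_irrefl _ hq
    have h3 := formHeight_map b (mul_ne_zero hp0 hq0)
    rw [← h3]
    apply formHeight_eq
    rw [h3]
    have h4 : P * Q - map (algebraMap k K) (p * q) =
        (P - map (algebraMap k K) p) * Q +
          map (algebraMap k K) p * (Q - map (algebraMap k K) q) := by
      rw [map_mul]
      ring
    rw [h4]
    refine (formHeight_add b _ _).trans_lt (max_lt ?_ ?_)
    · refine (formHeight_mul_le b _ _).trans_lt ?_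
      rw [h2, mul_one]
      exact hp
    · refine (formHeight_mul_le b _ _).trans_lt ?_
      exact (mul_le_mul_left (formHeight_map_le b p) _).trans_lt (by rw [one_mul]; exact hq)
  obtain ⟨c, hc, hc1, hc2⟩ := formHeight_scale b hP
  obtain ⟨e, he, he1, he2⟩ := formHeight_scale b hQ
  have h5 := key _ _ hc2 he2
  have h6 : P * Q = C (c * e) * ((C c⁻¹ * P) * (C e⁻¹ * Q)) := by
    have h7 : (C c * C c⁻¹ : MvPolynomial (Fin 3) K) = 1 := by
      rw [← C_mul, mul_inv_cancel₀ hc, C_1]
    have h8 : (C e * C e⁻¹ : MvPolynomial (Fin 3) K) = 1 := by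
      rw [← C_mul, mul_inv_cancel₀ he, C_1]
    rw [C_mul]
    linear_combination (-(P * Q) * (C e * C e⁻¹)) * h7 - P * Q * h8
  rw [h6, formHeight_C_mul, h5, mul_one, map_mul, hc1, he1]

theorem formHeight_support {k K : Type} [Field k] [IsAlgClosed k] [Field K] [Algebra k K]
    (hK : IsFunctionField k K) {P : MvPolynomial (Fin 3) K} (hP : P ≠ 0) :
    (Function.support fun b : Place k K => WithZero.log (gs b P)).Finite := by
  classical
  have h1 : (⋃ m ∈ P.support,
      Function.support fun b : Place k K => WithZero.log (b.val (P.coeff m))).Finite :=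
    Set.Finite.biUnion (Finset.finite_toSet _)
      fun m hm => (finsum_log hK _ (mem_support_iff.1 hm)).1
  refine h1.subset fun b hb => ?_
  obtain ⟨m, hm, h⟩ := formHeight_exists (b := b) hP
  simp only [Set.mem_iUnion]
  refine ⟨m, mem_support_iff.2 hm, ?_⟩
  rw [Function.mem_support] at hb ⊢
  rwa [← h]

theorem hf_mul {k K : Type} [Field k] [IsAlgClosed k] [Field K] [Algebra k K]
    (hK : IsFunctionField k K) {P Q : MvPolynomial (Fin 3) K} (hP : P ≠ 0) (hQ : Q ≠ 0) :
    hf k (P * Q) = hf k P + hf k Q := by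
  unfold hf
  rw [← finsum_add_distrib (formHeight_support hK hP) (formHeight_support hK hQ)]
  refine finsum_congr fun b => ?_
  rw [gs_mul hK, WithZero.log_mul (formHeight_pos hP).ne' (formHeight_pos hQ).ne']

theorem formHeight_comp_C_mul {k K : Type} [Field k] [Field K] [Algebra k K]
    (F : Fin 3 → MvPolynomial (Fin 3) k) (c : K) (P : MvPolynomial (Fin 3) K) :
    comp F (C c * P) = C c * comp F P := by
  unfold comp
  rw [map_mul, aeval_C, algebraMap_eq]

theorem formHeight_comp_map {k K : Type} [Field k] [Field K] [Algebra k K]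
    (F : Fin 3 → MvPolynomial (Fin 3) k) (p : MvPolynomial (Fin 3) k) :
    comp F (map (algebraMap k K) p) = map (algebraMap k K) (aeval F p) := by
  unfold comp
  induction p using MvPolynomial.induction_on with
  | C a => simp
  | add p q hp hq => simp only [map_add, hp, hq]
  | mul_X p i hp => simp only [map_mul, hp, map_X, aeval_X]

theorem formHeight_comp_le {k K : Type} [Field k] [Field K] [Algebra k K]
    (F : Fin 3 → MvPolynomial (Fin 3) k) (b : Place k K) (P : MvPolynomial (Fin 3) K) :
    gs b (comp F P) ≤ gs b P := by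
  classical
  have h1 : comp F P = ∑ m ∈ P.support, C (P.coeff m) *
      map (algebraMap k K) (∏ i ∈ m.support, F i ^ m i) := by
    unfold comp
    rw [aeval_def, eval₂_eq]
    refine Finset.sum_congr rfl fun m _ => ?_
    rw [algebraMap_eq, map_prod]
    simp only [map_pow]
  rw [h1]
  have h2 : ∀ s : Finset (Fin 3 →₀ ℕ), gs b (∑ m ∈ s, C (P.coeff m) *
      map (algebraMap k K) (∏ i ∈ m.support, F i ^ m i)) ≤ gs b P := by
    intro s
    induction s using Finset.induction_on with
    | empty =>
      rw [Finset.sum_empty, formHeight_zero]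
      exact zero_le
    | insert m s hm ih =>
      rw [Finset.sum_insert hm]
      refine (formHeight_add b _ _).trans (max_le ?_ ih)
      rw [formHeight_C_mul]
      calc b.val (P.coeff m) * gs b (map (algebraMap k K) (∏ i ∈ m.support, F i ^ m i))
          ≤ b.val (P.coeff m) * 1 := mul_le_mul_right (formHeight_map_le b _) _
        _ ≤ gs b P := by rw [mul_one]; exact formHeight_le b P m
  exact h2 _

/-- The endomorphism is surjective. -/
theorem formHeight_surj {k : Type} [Field k] [IsAlgClosed k] {d : ℕ}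
    {F : Fin 3 → MvPolynomial (Fin 3) k} (hF : IsEndo d F) (w : Fin 3 → k) (hw : w ≠ 0) :
    ∃ (q : Fin 3 → k) (c : k), c ≠ 0 ∧ ∀ j, eval q (F j) = c * w j := by
  obtain ⟨i, hi⟩ := Function.ne_iff.1 hw
  have hi' : w i ≠ 0 := hi
  have hd : 0 < d := by have := hF.two_le; omega
  have hL : ∀ j, (C (w i) * F j - C (w j) * F i).IsHomogeneous d := fun j =>
    ((hF.hom j).C_mul _).sub ((hF.hom i).C_mul _)
  obtain ⟨q, hq, h1, h2⟩ := exists_common_zero (hL (i + 1)) hd (hL (i + 2)) hd
  simp only [map_sub, map_mul, eval_C] at h1 h2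
  have h3 : ∀ j, eval q (F j) = eval q (F i) / w i * w j := by
    intro j
    have h4 : ∀ i j : Fin 3, j = i ∨ j = i + 1 ∨ j = i + 2 := by decide
    rcases h4 i j with rfl | rfl | rfl
    · field_simp
    · field_simp
      linear_combination h1
    · field_simp
      linear_combination h2
  refine ⟨q, eval q (F i) / w i, ?_, h3⟩
  intro h0
  refine hq (hF.nz q fun j => ?_)
  rw [h3 j, h0, zero_mul]

theorem formHeight_aeval_ne {k : Type} [Field k] [IsAlgClosed k] {d : ℕ}
    {F : Fin 3 → MvPolynomial (Fin 3) k} (hF : IsEndo d F) {p : MvPolynomial (Fin 3) k} {e : ℕ}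
    (hp : p.IsHomogeneous e) (hp0 : p ≠ 0) : aeval F p ≠ 0 := by
  intro h0
  have hinf : Infinite k := IsAlgClosed.instInfinite
  have h1 : ∃ w : Fin 3 → k, eval w p ≠ 0 := by
    by_contra hcon
    push Not at hcon
    exact hp0 (MvPolynomial.funext fun w => by rw [hcon w, map_zero])
  obtain ⟨w, hw⟩ := h1
  -- a nonzero vector where `p` does not vanish
  have h2 : ∃ w : Fin 3 → k, w ≠ 0 ∧ eval w p ≠ 0 := by
    by_cases hw0 : w = 0
    · refine ⟨fun _ => 1, fun h => one_ne_zero (congrFun h 0), fun h3 => hw ?_⟩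
      have h4 := Pool.Agent.Helper36.aeval_smul_homogeneous hp (0 : k) (fun _ => (1 : k))
      rw [hw0]
      have h5 : (0 : Fin 3 → k) = fun i => 0 * (1 : k) := by
        funext i
        simp
      rw [h5, ← coe_aeval_eq_eval, RingHom.coe_coe, h4]
      rw [← coe_aeval_eq_eval, RingHom.coe_coe] at h3
      rw [h3, mul_zero]
    · exact ⟨w, hw0, hw⟩
  obtain ⟨w, hw0, hw⟩ := h2
  obtain ⟨q, c, hc, hq⟩ := formHeight_surj hF w hw0
  have h6 : ∀ p : MvPolynomial (Fin 3) k,
      eval q (aeval F p) = aeval (fun j => eval q (F j)) p := by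
    intro p
    induction p using MvPolynomial.induction_on with
    | C a => simp
    | add p q hp hq => simp only [map_add, hp, hq]
    | mul_X p i hp => simp only [map_mul, hp, aeval_X]
  have h3 : eval q (aeval F p) = c ^ e * eval w p := by
    rw [h6]
    simp only [hq]
    rw [Pool.Agent.Helper36.aeval_smul_homogeneous hp, ← coe_aeval_eq_eval w, RingHom.coe_coe]
  rw [h0, map_zero] at h3
  exact mul_ne_zero (pow_ne_zero _ hc) hw h3.symm

theorem formHeight_comp {k K : Type} [Field k] [IsAlgClosed k] [Field K] [Algebra k K]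
    (hK : IsFunctionField k K) {d : ℕ} {F : Fin 3 → MvPolynomial (Fin 3) k} (hF : IsEndo d F)
    (b : Place k K) {P : MvPolynomial (Fin 3) K} {e : ℕ} (hP : P.IsHomogeneous e) :
    gs b (comp F P) = gs b P := by
  by_cases hP0 : P = 0
  · subst hP0
    unfold comp
    rw [map_zero]
  obtain ⟨c, hc, hc1, hc2⟩ := formHeight_scale b hP0
  have hP1 : (C c⁻¹ * P).IsHomogeneous e := hP.C_mul _
  obtain ⟨p, hp, hpe⟩ := formHeight_red hK b hc2.le
  have hp0 : p ≠ 0 := by
    rintro rfl
    rw [map_zero, sub_zero, hc2] at hp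
    exact lt_irrefl _ hp
  have h1 := formHeight_map b (formHeight_aeval_ne hF (hpe e hP1) hp0)
  have h2 : gs b (comp F (C c⁻¹ * P)) = 1 := by
    rw [← h1]
    apply formHeight_eq
    rw [h1, ← formHeight_comp_map]
    have h3 : comp F (C c⁻¹ * P) - comp F (map (algebraMap k K) p) =
        comp F (C c⁻¹ * P - map (algebraMap k K) p) := by
      unfold comp
      rw [map_sub]
    rw [h3]
    exact (formHeight_comp_le F b _).trans_lt hp
  rw [formHeight_comp_C_mul, formHeight_C_mul, map_inv₀, hc1] at h2
  have h4 := (formHeight_pos (b := b) hP0).ne'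
  calc gs b (comp F P) = gs b P * ((gs b P)⁻¹ * gs b (comp F P)) := by
        rw [mul_inv_cancel_left₀ h4]
    _ = gs b P := by rw [h2, mul_one]

theorem hf_comp {k K : Type} [Field k] [IsAlgClosed k] [Field K] [Algebra k K]
    (hK : IsFunctionField k K) {d : ℕ} {F : Fin 3 → MvPolynomial (Fin 3) k} (hF : IsEndo d F)
    {P : MvPolynomial (Fin 3) K} {e : ℕ} (hP : P.IsHomogeneous e) :
    hf k (comp F P) = hf k P :=
  finsum_congr fun b => by rw [formHeight_comp hK hF b hP]

theorem formHeight_place {k K : Type} [Field k] [IsAlgClosed k] [Field K] [Algebra k K]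
    (hK : IsFunctionField k K) (u : K) (hu : ∀ b : Place k K, b.val u ≤ 1) :
    ∃ c : k, algebraMap k K c = u := by
  by_cases h : IsAlgebraic k u
  · have h1 : u ∈ algebraicClosure k K := mem_algebraicClosure_iff.2 h
    rw [IntermediateField.eq_bot_of_isAlgClosed_of_isAlgebraic (algebraicClosure k K),
      IntermediateField.mem_bot] at h1
    exact h1
  · exfalso
    have h1 : Transcendental k u⁻¹ := Pool.Agent.Helper16.transcendental_inv h
    obtain ⟨S, hS, h2, h3⟩ := hK.zeros _ h1
    have h4 : S.Nonempty := by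
      rw [Finset.nonempty_iff_ne_empty]
      rintro rfl
      rw [Finset.sum_empty] at h2
      omega
    obtain ⟨b, hb⟩ := h4
    have h5 := (hS b).1 hb
    have h0 : u ≠ 0 := Pool.Agent.Helper16.transcendental_ne_zero h
    rw [map_inv₀, inv_lt_one₀ (zero_lt_iff.2 (by simpa using h0))] at h5
    exact absurd (hu b) (not_le.2 h5)

theorem comp_ne_zero {k K : Type} [Field k] [IsAlgClosed k] [Field K] [Algebra k K]
    (hK : IsFunctionField k K) {d : ℕ} {F : Fin 3 → MvPolynomial (Fin 3) k} (hF : IsEndo d F)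
    {P : MvPolynomial (Fin 3) K} {e : ℕ} (hP : P.IsHomogeneous e) (hP0 : P ≠ 0) :
    comp F P ≠ 0 := by
  intro h0
  have h1 : ∀ b : Place k K, False := fun b => by
    have h2 := formHeight_comp hK hF b hP
    rw [h0, formHeight_zero] at h2
    exact (formHeight_pos (b := b) hP0).ne h2
  -- without places every element is constant
  have h3 : ∀ u : K, ∃ c : k, algebraMap k K c = u := fun u =>
    formHeight_place hK u fun b => (h1 b).elim
  have h4 : Algebra.trdeg k K = 0 := by
    have : Algebra.IsAlgebraic k K := ⟨fun u => by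
      obtain ⟨c, rfl⟩ := h3 u
      exact isAlgebraic_algebraMap c⟩
    exact trdeg_eq_zero
  rw [hK.2] at h4
  exact one_ne_zero h4

theorem formHeight_norm {k K : Type} [Field k] [IsAlgClosed k] [Field K] [Algebra k K]
    (hK : IsFunctionField k K) {P : MvPolynomial (Fin 3) K} {c : K} (hc : c ≠ 0) (hP : P ≠ 0) :
    hf k (C c * P) = hf k P := by
  have h1 := finsum_log hK c hc
  unfold hf
  have h2 : ∀ b : Place k K, WithZero.log (gs b (C c * P)) =
      WithZero.log (b.val c) + WithZero.log (gs b P) := fun b => by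
    rw [formHeight_C_mul, WithZero.log_mul (by simpa using hc) (formHeight_pos hP).ne']
  rw [finsum_congr h2, finsum_add_distrib h1.1 (formHeight_support hK hP), h1.2, zero_add]

theorem formHeight_one {k K : Type} [Field k] [IsAlgClosed k] [Field K] [Algebra k K]
    {P : MvPolynomial (Fin 3) K} {m : Fin 3 →₀ ℕ} (hm : P.coeff m = 1) (b : Place k K) :
    0 ≤ WithZero.log (gs b P) := by
  have h1 : 1 ≤ gs b P := by
    have := formHeight_le b P m
    rwa [hm, map_one] at this
  have h2 := WithZero.log_le_log (by simp) (zero_lt_one.trans_le h1).ne' |>.2 h1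
  rwa [WithZero.log_one] at h2

theorem hf_nonneg {k K : Type} [Field k] [IsAlgClosed k] [Field K] [Algebra k K]
    (hK : IsFunctionField k K) (P : MvPolynomial (Fin 3) K) : 0 ≤ hf k P := by
  by_cases hP : P = 0
  · subst hP
    unfold hf
    simp [formHeight_zero]
  · obtain ⟨m, hm⟩ := MvPolynomial.ne_zero_iff.1 hP
    rw [← formHeight_norm hK (inv_ne_zero hm) hP]
    refine finsum_nonneg fun b => formHeight_one (m := m) ?_ b
    rw [coeff_C_mul, inv_mul_cancel₀ hm]

theorem hf_eq_zero_iff {k K : Type} [Field k] [IsAlgClosed k] [Field K] [Algebra k K]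
    (hK : IsFunctionField k K) {P : MvPolynomial (Fin 3) K} (hP : P ≠ 0) :
    hf k P = 0 ↔ OverK k P := by
  constructor
  · intro h
    obtain ⟨m, hm⟩ := MvPolynomial.ne_zero_iff.1 hP
    rw [← formHeight_norm hK (inv_ne_zero hm) hP] at h
    set Q := C (P.coeff m)⁻¹ * P with hQ
    have hQ0 : Q ≠ 0 := mul_ne_zero (by simpa using inv_ne_zero hm) hP
    have hQm : Q.coeff m = 1 := by rw [hQ, coeff_C_mul, inv_mul_cancel₀ hm]
    have h1 : ∀ b : Place k K, WithZero.log (gs b Q) = 0 := by
      intro b
      by_contra hb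
      have h2 : 0 < WithZero.log (gs b Q) := lt_of_le_of_ne (formHeight_one hQm b) (Ne.symm hb)
      have h3 : 0 < hf k Q := finsum_pos (fun b => formHeight_one hQm b) ⟨b, h2⟩
        (formHeight_support hK hQ0)
      exact h3.ne' h
    have h2 : ∀ (b : Place k K), gs b Q = 1 := by
      intro b
      have := h1 b
      rw [← WithZero.exp_log (formHeight_pos (b := b) hQ0).ne', this, WithZero.exp_zero]
    have h3 : ∀ n, ∃ c : k, algebraMap k K c = Q.coeff n := fun n =>
      formHeight_place hK _ fun b => (formHeight_le b Q n).trans (h2 b).le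
    have h4 : Q ∈ Set.range (map (σ := Fin 3) (algebraMap k K)) := by
      rw [mem_range_map_iff_coeffs_subset]
      intro u hu
      obtain ⟨n, -, rfl⟩ := mem_coeffs_iff.1 hu
      obtain ⟨c, hc⟩ := h3 n
      exact ⟨c, hc⟩
    obtain ⟨ρ, hρ⟩ := h4
    refine ⟨P.coeff m, ρ, hm, ?_⟩
    have h5 : (map (algebraMap k K) ρ) = Q := hρ
    rw [h5, hQ, ← mul_assoc, ← C_mul, mul_inv_cancel₀ hm, C_1, one_mul]
  · rintro ⟨c, ρ, hc, rfl⟩
    have hρ : map (algebraMap k K) ρ ≠ 0 := fun h => hP (by rw [h, mul_zero])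
    have hρ0 : ρ ≠ 0 := by
      rintro rfl
      exact hρ (map_zero _)
    rw [formHeight_norm hK hc hρ]
    unfold hf
    have : ∀ b : Place k K, WithZero.log (gs b (map (algebraMap k K) ρ)) = 0 := fun b => by
      rw [formHeight_map b hρ0, WithZero.log_one]
    rw [finsum_congr this, finsum_zero]

end Pool.Agent.Helper30.TP
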