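import Pool.Agent.Helper30.TP.Cl
import Pool.Agent.Helper30.TP.Dim3
import Pool.Agent.Helper30.TP.FormHeight

/-!
# Points of a plane curve of large height are close to given points
-/

set_option autoImplicit false

namespace Pool.Agent.Helper30.TP

open MvPolynomial
open Pool.Agent.Helper16 (Place IsFunctionField)
open Pool.Agent.Helper36 (step iter)

section aux

variable {k K : Type} [Field k] [Field K] [Algebra k K]

/-- The size of the value of a form. -/
theorem low_val_eval_le (b : Place k K) {P : MvPolynomial (Fin 3) K} {e : ℕ}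
    (hP : P.IsHomogeneous e) (y : Fin 3 → K) : b.val (eval y P) ≤ gs b P * nrm b y ^ e := by
  rw [eval_eq]
  refine b.val.map_sum_le fun m hm => ?_
  have hd : ∑ i ∈ m.support, m i = e := by
    have := hP (MvPolynomial.mem_support_iff.1 hm)
    rw [Finsupp.weight_apply] at this
    simpa [Finsupp.sum] using this
  rw [map_mul, map_prod]
  refine mul_le_mul' (formHeight_le b P m) ?_
  rw [← hd, ← Finset.prod_pow_eq_pow_sum]
  refine Finset.prod_le_prod' fun i _ => ?_
  rw [map_pow]
  exact pow_le_pow_left' (val_le_nrm b y i) _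

/-- The height is nonnegative. -/
theorem low_ht_nonneg [IsAlgClosed k] (hK : IsFunctionField k K) {x : Fin 3 → K} (hx : x ≠ 0) :
    0 ≤ ht k x := by
  obtain ⟨i0, hi0⟩ : ∃ i, x i ≠ 0 := by
    by_contra h
    push Not at h
    exact hx (funext h)
  rw [← ht_smul hK (inv_ne_zero hi0) hx]
  unfold ht
  refine finsum_nonneg fun b => ?_
  have h1 : (1 : WithZero (Multiplicative ℤ)) ≤ nrm b ((x i0)⁻¹ • x) := by
    have := val_le_nrm b ((x i0)⁻¹ • x) i0
    rwa [Pi.smul_apply, smul_eq_mul, inv_mul_cancel₀ hi0, map_one] at this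
  rw [← WithZero.log_one, WithZero.log_le_log one_ne_zero (lt_of_lt_of_le zero_lt_one h1).ne']
  exact h1

/-- The linear forms of the cross product with a fixed vector. -/
noncomputable def lowL (u : Fin 3 → K) (a : Fin 3) : MvPolynomial (Fin 3) K :=
  crossProduct (fun j => C (u j)) (fun j => (X j : MvPolynomial (Fin 3) K)) a

theorem lowL_eval (u y : Fin 3 → K) (a : Fin 3) :
    eval y (lowL u a) = crossProduct u y a := by
  unfold lowL
  fin_cases a <;> simp [cross_apply]

theorem lowL_hom (u : Fin 3 → K) (a : Fin 3) : (lowL u a).IsHomogeneous 1 := by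
  unfold lowL
  have h : ∀ i j i' j' : Fin 3,
      ((C (u i) : MvPolynomial (Fin 3) K) * X j - C (u i') * X j').IsHomogeneous 1 :=
    fun i j i' j' => ((isHomogeneous_X K j).C_mul _).sub ((isHomogeneous_X K j').C_mul _)
  fin_cases a
  · simpa [cross_apply] using h 1 2 2 1
  · simpa [cross_apply] using h 2 0 0 2
  · simpa [cross_apply] using h 0 1 1 0

end aux

variable {k K : Type} [Field k] [IsAlgClosed k] [Field K] [Algebra k K]

theorem sum_ht_cross_le (hK : IsFunctionField k K) {x : ℕ → Fin 3 → K} {S : Set ℕ}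
    (hS : S.Infinite) (hx : ∀ n ∈ S, x n ≠ 0)
    (hnp : ∀ n ∈ S, ∀ n' ∈ S, n ≠ n' → ¬ PEq (x n) (x n'))
    {g : MvPolynomial (Fin 3) K} {D : ℕ} (hg : g.IsHomogeneous D) (hirr : Irreducible g)
    (hgx : ∀ n ∈ S, eval (x n) g = 0) (N : ℕ) :
    ∃ (Γ : Finset ℕ) (C : ℤ) (E : Set ℕ), (↑Γ ⊆ S) ∧ E.Finite ∧
      ∀ n ∈ S, n ∉ E → ∑ i ∈ Γ, ht k (crossProduct (x i) (x n)) ≤
        ((Γ.card : ℤ) - N) * ht k (x n) + C := by
  classical
  have : Infinite k := IsAlgClosed.instInfinite
  have : Infinite K := Infinite.of_injective (algebraMap k K) (algebraMap k K).injective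
  obtain ⟨Γ, δ, e, G, U, hΓS, hG, hU, heN, hδ, hgG, hgU, hT⟩ :=
    exists_denominator hS hx hnp hg hirr hgx N
  -- the products of linear forms
  have hTh : ∀ a : Γ → Fin 3, (∏ i : Γ, lowL (x i) (a i)).IsHomogeneous Γ.card := by
    intro a
    have := IsHomogeneous.prod (Finset.univ : Finset Γ) (fun i : Γ => lowL (x i) (a i))
      (fun _ => 1) (fun i _ => lowL_hom _ _)
    simpa using this
  have hT0 : ∀ a : Γ → Fin 3, ∀ i ∈ Γ, eval (x i) (∏ i : Γ, lowL (x i) (a i)) = 0 := by
    intro a i hi
    rw [map_prod]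
    refine Finset.prod_eq_zero (Finset.mem_univ (⟨i, hi⟩ : Γ)) ?_
    rw [lowL_eval, cross_self]
    rfl
  choose B hB hBd using fun a => hT _ (hTh a) (hT0 a)
  -- the constant
  set c : Place k K → ℤ := fun b => ∑ a : Γ → Fin 3, max 0 (WithZero.log (gs b (B a))) with hc
  have hcs : (Function.support c).Finite := by
    have h1 : (⋃ a : Γ → Fin 3,
        Function.support fun b : Place k K => WithZero.log (gs b (B a))).Finite := by
      refine Set.finite_iUnion fun a => ?_
      by_cases h0 : B a = 0
      · rw [h0]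
        simp [formHeight_zero]
      · exact formHeight_support hK h0
    refine h1.subset fun b hb => ?_
    rw [Function.mem_support] at hb
    simp only [Set.mem_iUnion, Function.mem_support]
    by_contra hcon
    push Not at hcon
    apply hb
    rw [hc]
    exact Finset.sum_eq_zero fun a _ => by rw [hcon a, max_self]
  have hcle : ∀ b (a : Γ → Fin 3), WithZero.log (gs b (B a)) ≤ c b := by
    intro b a
    refine (le_max_right 0 _).trans ?_
    exact Finset.single_le_sum (f := fun a => max 0 (WithZero.log (gs b (B a))))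
      (fun a _ => le_max_left _ _) (Finset.mem_univ a)
  -- the exceptional set
  have hfin : ∀ {V : MvPolynomial (Fin 3) K} {t : ℕ}, V.IsHomogeneous t → ¬ g ∣ V →
      {n | n ∈ S ∧ eval (x n) V = 0}.Finite := by
    intro V t hV hgV
    have h1 := finite_common_zeros hg hV hirr hgV (fun n : S => x n) (fun n => hx n n.2)
      (fun i j hij => hnp i i.2 j j.2 fun h => hij (Subtype.ext h))
    refine (h1.image Subtype.val).subset ?_
    rintro n ⟨hn, h0⟩
    exact ⟨⟨n, hn⟩, ⟨hgx n hn, h0⟩, rfl⟩
  refine ⟨Γ, ∑ᶠ b : Place k K, c b, {n | n ∈ S ∧ eval (x n) G = 0} ∪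
    {n | n ∈ S ∧ eval (x n) U = 0} ∪ (Γ : Set ℕ), hΓS,
    ((hfin hG hgG).union (hfin hU hgU)).union (Finset.finite_toSet _), fun n hn hnE => ?_⟩
  have hGn : eval (x n) G ≠ 0 := fun h => hnE (Or.inl (Or.inl ⟨hn, h⟩))
  have hUn : eval (x n) U ≠ 0 := fun h => hnE (Or.inl (Or.inr ⟨hn, h⟩))
  have hnΓ : n ∉ Γ := fun h => hnE (Or.inr h)
  have hcr : ∀ i ∈ Γ, crossProduct (x i) (x n) ≠ 0 := fun i hi =>
    cross_ne_zero (hx i (hΓS hi)) (hx n hn)
      (hnp i (hΓS hi) n hn fun h => hnΓ (h ▸ hi))
  -- the relation at the point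
  have hrel : ∀ a : Γ → Fin 3, (∏ i : Γ, crossProduct (x i) (x n) (a i)) * eval (x n) U =
      eval (x n) G * eval (x n) (B a) := by
    intro a
    obtain ⟨q, hq⟩ := hBd a
    have h1 := congrArg (eval (x n)) hq
    rw [map_sub, map_mul, map_mul, map_mul, hgx n hn, zero_mul, sub_eq_zero, map_prod] at h1
    simp only [lowL_eval] at h1
    exact h1
  -- the local estimate
  have hloc : ∀ b : Place k K, ∑ i : Γ, WithZero.log (nrm b (crossProduct (x i) (x n))) +
      WithZero.log (b.val (eval (x n) U)) ≤ WithZero.log (b.val (eval (x n) G)) + c b +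
        ((Γ.card + e - δ : ℕ) : ℤ) * WithZero.log (nrm b (x n)) := by
    intro b
    choose a ha using fun i : Γ => exists_val_eq_nrm b (crossProduct (x i) (x n))
    have hne : ∀ i : Γ, nrm b (crossProduct (x i) (x n)) ≠ 0 := fun i =>
      nrm_ne_zero (hcr i i.2)
    have h1 := congrArg b.val (hrel a)
    rw [map_mul, map_mul, map_prod] at h1
    simp only [ha] at h1
    have hU0 : b.val (eval (x n) U) ≠ 0 := by simpa using hUn
    have hG0 : b.val (eval (x n) G) ≠ 0 := by simpa using hGn
    have hP0 : ∏ i : Γ, nrm b (crossProduct (x i) (x n)) ≠ 0 :=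
      Finset.prod_ne_zero_iff.2 fun i _ => hne i
    have hB0 : b.val (eval (x n) (B a)) ≠ 0 := by
      intro h
      rw [h, mul_zero] at h1
      exact mul_ne_zero hP0 hU0 h1
    have h2 := low_val_eval_le b (hB a) (x n)
    have h3 : gs b (B a) * nrm b (x n) ^ (Γ.card + e - δ) ≠ 0 := by
      intro h
      rw [h, le_zero_iff] at h2
      exact hB0 h2
    have h4 : gs b (B a) ≠ 0 := left_ne_zero_of_mul h3
    have h5 : nrm b (x n) ^ (Γ.card + e - δ) ≠ 0 := right_ne_zero_of_mul h3
    rw [← WithZero.log_le_log hB0 h3, WithZero.log_mul h4 h5, WithZero.log_pow] at h2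
    have h6 := congrArg WithZero.log h1
    rw [WithZero.log_mul hP0 hU0, WithZero.log_mul hG0 hB0] at h6
    have h7 : WithZero.log (∏ i : Γ, nrm b (crossProduct (x i) (x n))) =
        ∑ i : Γ, WithZero.log (nrm b (crossProduct (x i) (x n))) := by
      have key : ∀ s : Finset Γ, WithZero.log (∏ i ∈ s, nrm b (crossProduct (x i) (x n))) =
          ∑ i ∈ s, WithZero.log (nrm b (crossProduct (x i) (x n))) := by
        intro s
        induction s using Finset.induction_on with
        | empty => simp
        | insert i s hi ih =>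
          rw [Finset.prod_insert hi, Finset.sum_insert hi, WithZero.log_mul (hne i)
            (Finset.prod_ne_zero_iff.2 fun j _ => hne j), ih]
      exact key _
    have h8 := hcle b a
    rw [← h7, h6]
    rw [nsmul_eq_mul] at h2
    linarith
  -- the sum over the places
  have hs1 : ∀ i : Γ, (Function.support fun b : Place k K =>
      WithZero.log (nrm b (crossProduct (x i) (x n)))).Finite := fun i =>
    nrm_support hK _ (hcr i i.2)
  have hs2 := finsum_log hK _ hUn
  have hs3 := finsum_log hK _ hGn
  have hs4 := nrm_support hK _ (hx n hn)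
  have hs1' : (Function.support fun b : Place k K =>
      ∑ i : Γ, WithZero.log (nrm b (crossProduct (x i) (x n)))).Finite := by
    refine (Set.finite_iUnion hs1).subset fun b hb => ?_
    rw [Function.mem_support] at hb
    simp only [Set.mem_iUnion, Function.mem_support]
    by_contra hcon
    push Not at hcon
    exact hb (Finset.sum_eq_zero fun i _ => hcon i)
  have hs4' : (Function.support fun b : Place k K =>
      ((Γ.card + e - δ : ℕ) : ℤ) * WithZero.log (nrm b (x n))).Finite := by
    refine hs4.subset fun b hb => ?_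
    rw [Function.mem_support] at hb ⊢
    exact right_ne_zero_of_mul hb
  have hs5 : (Function.support fun b : Place k K =>
      WithZero.log (b.val (eval (x n) G)) + c b).Finite :=
    (hs3.1.union hcs).subset (Function.support_add _ _)
  have hsum := finsum_le_finsum' ((hs1'.union hs2.1).subset (Function.support_add _ _))
    ((hs5.union hs4').subset (Function.support_add _ _)) hloc
  rw [finsum_add_distrib hs1' hs2.1, finsum_add_distrib hs5 hs4',
    finsum_add_distrib hs3.1 hcs, hs2.2, hs3.2, add_zero, zero_add, ← mul_finsum,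
    finsum_sum_comm] at hsum
  · have h9 : ∑ i ∈ Γ, ht k (crossProduct (x i) (x n)) =
        ∑ i : Γ, ht k (crossProduct (x i) (x n)) :=
      (Finset.sum_coe_sort Γ fun i => ht k (crossProduct (x i) (x n))).symm
    rw [h9]
    have h10 := low_ht_nonneg hK (hx n hn)
    have h11 : ((Γ.card + e - δ : ℕ) : ℤ) ≤ (Γ.card : ℤ) - N := by omega
    have h12 := mul_le_mul_of_nonneg_right h11 h10
    unfold ht at h12 ⊢
    linarith
  · exact fun i _ => hs1 i

end Pool.Agent.Helper30.TP
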