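import Pool.Agent.Helper30.TP.Basic

/-!
# The Jacobian determinant
-/

set_option autoImplicit false

namespace Pool.Agent.Helper30.TP

open MvPolynomial
open Pool.Agent.Helper36 (step iter)

variable {k : Type} [Field k]

/-- The Jacobian determinant. -/
noncomputable def jf (F : Fin 3 → MvPolynomial (Fin 3) k) : MvPolynomial (Fin 3) k :=
  (Matrix.of fun i j => pderiv j (F i)).det

theorem eval_jf (F : Fin 3 → MvPolynomial (Fin 3) k) (z : Fin 3 → k) :
    eval z (jf F) = (jac F z).det := by
  unfold jf jac
  rw [RingHom.map_det]
  rfl

theorem jf_hom {d : ℕ} {F : Fin 3 → MvPolynomial (Fin 3) k} (hF : ∀ i, (F i).IsHomogeneous d) :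
    (jf F).IsHomogeneous (3 * (d - 1)) := by
  unfold jf
  rw [Matrix.det_apply]
  refine IsHomogeneous.sum _ _ _ fun σ _ => ?_
  have h1 : (∏ i, (Matrix.of fun i j => pderiv j (F i)) (σ i) i).IsHomogeneous
      (3 * (d - 1)) := by
    have h2 := IsHomogeneous.prod Finset.univ
      (fun i => (Matrix.of fun i j => pderiv j (F i)) (σ i) i) (fun _ => d - 1)
      (fun i _ => (hF (σ i)).pderiv)
    simpa [Finset.sum_const, Finset.card_univ] using h2
  rcases Int.units_eq_one_or (Equiv.Perm.sign σ) with h | h
  · rw [h, one_smul]
    exact h1
  · rw [h, Units.neg_smul, one_smul]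
    exact h1.neg

/-- A derivation of a domain of characteristic zero which kills a subalgebra kills everything
that is algebraic over it. -/
theorem derivation_algebraic {S : Type} [CommRing S] [IsDomain S] [Algebra k S] [CharZero S]
    (R : Subalgebra k S) (D : Derivation k S S) (hD : ∀ a ∈ R, D a = 0) (x : S)
    (n : ℕ) : ∀ P : Polynomial R, P ≠ 0 → P.natDegree ≤ n → Polynomial.aeval x P = 0 →
      D x = 0 := by
  have hchar : CharZero R := ⟨fun a b h => by
    have h1 : ((a : R) : S) = ((b : R) : S) := by rw [h]
    push_cast at h1
    exact_mod_cast h1⟩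
  have key : ∀ P : Polynomial R,
      D (Polynomial.aeval x P) = Polynomial.aeval x (Polynomial.derivative P) * D x := by
    intro P
    induction P using Polynomial.induction_on' with
    | add p q hp hq => rw [map_add, map_add, hp, hq, Polynomial.derivative_add, map_add, add_mul]
    | monomial m a =>
      rw [Polynomial.aeval_monomial, Derivation.leibniz, Derivation.leibniz_pow]
      have ha : D (algebraMap R S a) = 0 := hD _ a.2
      rw [ha, smul_zero, add_zero, Polynomial.derivative_monomial, Polynomial.aeval_monomial]
      simp only [smul_eq_mul, nsmul_eq_mul, map_mul, map_natCast]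
      ring
  induction n with
  | zero =>
    intro P hP hdeg h0
    exfalso
    have h1 : P = Polynomial.C (P.coeff 0) :=
      Polynomial.eq_C_of_natDegree_eq_zero (Nat.le_zero.1 hdeg)
    rw [h1, Polynomial.aeval_C] at h0
    apply hP
    rw [h1]
    have h2 : P.coeff 0 = 0 := Subtype.ext h0
    rw [h2, Polynomial.C_0]
  | succ n ih =>
    intro P hP hdeg h0
    rcases Nat.eq_zero_or_pos P.natDegree with hz | hpos
    · exact ih P hP (by omega) h0
    · have h1 := key P
      rw [h0, map_zero] at h1
      rcases mul_eq_zero.1 h1.symm with h2 | h2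
      · refine ih (Polynomial.derivative P) ?_ ?_ h2
        · intro h3
          have := Polynomial.derivative_eq_zero.1 h3
          omega
        · have := Polynomial.natDegree_derivative_lt (p := P) (by omega)
          omega
      · exact h2

/-- All variables are integral over the subalgebra generated by `F`. -/
theorem isIntegral_adjoin [IsAlgClosed k] {d : ℕ} {F : Fin 3 → MvPolynomial (Fin 3) k}
    (hF : IsEndo d F) (x : MvPolynomial (Fin 3) k) :
    IsIntegral (Algebra.adjoin k (Set.range F)) x := by
  classical
  obtain ⟨M, q, hqh, hq⟩ := Pool.Agent.Helper36.exists_nullstellensatz (L := k) F hF.hom (by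
    intro w hw
    exact hF.nz w fun i => by rw [← hw i]; rfl)
  have hd : 0 < d := by have := hF.two_le; omega
  set R := Algebra.adjoin k (Set.range F) with hR
  set B : ℕ := 3 * (M + d) with hB
  let T : Finset (MvPolynomial (Fin 3) k) :=
    ((Finset.range B).biUnion fun n => (Finset.univ : Finset (Fin 3)).finsuppAntidiag n).image
      fun m => monomial m 1
  let N : Submodule R (MvPolynomial (Fin 3) k) := Submodule.span R (T : Set _)
  have hmem : ∀ n : ℕ, ∀ P : MvPolynomial (Fin 3) k, P.IsHomogeneous n → P ∈ N := by
    intro n
    induction n using Nat.strong_induction_on with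
    | _ n ih =>
      intro P hP
      rw [P.as_sum]
      refine Submodule.sum_mem _ fun m hm => ?_
      have hdegm : m.degree = n := by
        have := hP (mem_support_iff.1 hm)
        rw [← this, Finsupp.degree_eq_weight_one]
        rfl
      have hsum : m 0 + m 1 + m 2 = n := by
        rw [← hdegm, Finsupp.degree_eq_sum, Fin.sum_univ_three]
      by_cases hnB : n < B
      · have h1 : monomial m (P.coeff m) =
            (algebraMap k R (P.coeff m)) • (monomial m (1 : k)) := by
          rw [Algebra.smul_def]
          change _ = (C (P.coeff m)) * _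
          rw [C_mul_monomial, mul_one]
        rw [h1]
        refine Submodule.smul_mem _ _ (Submodule.subset_span ?_)
        rw [Finset.mem_coe, Finset.mem_image]
        refine ⟨m, ?_, rfl⟩
        rw [Finset.mem_biUnion]
        refine ⟨n, Finset.mem_range.2 hnB, ?_⟩
        rw [Finset.mem_finsuppAntidiag]
        refine ⟨?_, Finset.subset_univ _⟩
        rw [Fin.sum_univ_three]
        exact hsum
      · have h2 : ∃ j, M + d ≤ m j := by
          by_contra hcon
          push Not at hcon
          have h0 := hcon 0
          have h1 := hcon 1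
          have h2 := hcon 2
          omega
        obtain ⟨j, hj⟩ := h2
        set r : Fin 3 →₀ ℕ := m - Finsupp.single j (M + d) with hr
        have hmr : m = Finsupp.single j (M + d) + r := by
          rw [hr, add_tsub_cancel_of_le]
          rwa [Finsupp.single_le_iff]
        have hrdeg : (M + d) + r.degree = n := by
          rw [← hdegm, hmr, map_add, Finsupp.degree_single]
        have h3 : monomial m (P.coeff m) = ∑ i, F i * (q (j, i) * monomial r (P.coeff m)) := by
          have h4 : monomial m (P.coeff m) = X j ^ (M + d) * monomial r (P.coeff m) := by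
            rw [X_pow_eq_monomial, monomial_mul, one_mul, ← hmr]
          rw [h4, ← hq j, Finset.sum_mul]
          refine Finset.sum_congr rfl fun i _ => ?_
          ring
        rw [h3]
        refine Submodule.sum_mem _ fun i _ => ?_
        have h5 : q (j, i) * monomial r (P.coeff m) ∈ N := by
          refine ih (M + r.degree) (by omega) _ ((hqh (j, i)).mul ?_)
          exact isHomogeneous_monomial _ rfl
        have h6 : F i * (q (j, i) * monomial r (P.coeff m)) =
            (⟨F i, Algebra.subset_adjoin ⟨i, rfl⟩⟩ : R) • (q (j, i) * monomial r (P.coeff m)) :=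
          rfl
        rw [h6]
        exact Submodule.smul_mem _ _ h5
  have htop : N = ⊤ := by
    rw [eq_top_iff]
    intro P _
    rw [← sum_homogeneousComponent P]
    exact Submodule.sum_mem _ fun n _ => hmem n _ (homogeneousComponent_isHomogeneous n P)
  have hfin : Module.Finite R (MvPolynomial (Fin 3) k) := ⟨⟨T, htop⟩⟩
  exact IsIntegral.of_finite R x

theorem jf_ne_zero [IsAlgClosed k] [CharZero k] {d : ℕ} {F : Fin 3 → MvPolynomial (Fin 3) k}
    (hF : IsEndo d F) : jf F ≠ 0 := by
  classical
  intro h
  unfold jf at h
  obtain ⟨v, hv, hMv⟩ := Matrix.exists_mulVec_eq_zero_iff.2 h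
  let D : Derivation k (MvPolynomial (Fin 3) k) (MvPolynomial (Fin 3) k) :=
    v 0 • pderiv 0 + v 1 • pderiv 1 + v 2 • pderiv 2
  have hDap : ∀ a, D a = ∑ j, v j * pderiv j a := by
    intro a
    rw [Fin.sum_univ_three]
    rfl
  have hDF : ∀ i, D (F i) = 0 := by
    intro i
    rw [hDap]
    have := congrFun hMv i
    simp only [Matrix.mulVec, dotProduct, Matrix.of_apply, Pi.zero_apply] at this
    rw [← this]
    exact Finset.sum_congr rfl fun j _ => mul_comm _ _
  have hDR : ∀ a ∈ Algebra.adjoin k (Set.range F), D a = 0 := by
    intro a ha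
    induction ha using Algebra.adjoin_induction with
    | mem x hx =>
      obtain ⟨i, rfl⟩ := hx
      exact hDF i
    | algebraMap r => exact D.map_algebraMap r
    | add x y _ _ hx hy => rw [map_add, hx, hy, add_zero]
    | mul x y _ _ hx hy => rw [Derivation.leibniz, hx, hy, smul_zero, smul_zero, add_zero]
  apply hv
  funext j
  obtain ⟨P, hP, h0⟩ := isIntegral_adjoin hF (X j)
  have h1 := derivation_algebraic (Algebra.adjoin k (Set.range F)) D hDR (X j) P.natDegree P
    hP.ne_zero le_rfl h0
  rw [hDap] at h1
  simpa [pderiv_X, Pi.single_apply] using h1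

end Pool.Agent.Helper30.TP
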