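import Pool.Agent.Helper30.TP.Defs

/-!
# Common zeros of coprime forms
-/

set_option autoImplicit false

namespace Pool.Agent.Helper30.TP

open MvPolynomial
open Pool.Agent.Helper16 (Place IsFunctionField)
open Pool.Agent.Helper36 (step iter)

section LFin

variable {L : Type} [Field L]

/-- the restriction of polynomials to the line through `y` -/
noncomputable def LFin_hom (y : Fin 3 → L) : MvPolynomial (Fin 3) L →+* Polynomial L :=
  eval₂Hom Polynomial.C fun j => Polynomial.C (y j) * Polynomial.X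

/-- the prime ideal of the line through `y` -/
noncomputable def LFin_P (y : Fin 3 → L) : Ideal (MvPolynomial (Fin 3) L) :=
  RingHom.ker (LFin_hom y)

theorem LFin_C (y : Fin 3 → L) (c : L) : LFin_hom y (C c) = Polynomial.C c := by
  simp [LFin_hom]

theorem LFin_X (y : Fin 3 → L) (j : Fin 3) :
    LFin_hom y (X j) = Polynomial.C (y j) * Polynomial.X := by
  simp [LFin_hom]

theorem LFin_mem (y : Fin 3 → L) {a b : Fin 3} :
    C (y a) * X b - C (y b) * X a ∈ LFin_P y := by
  rw [LFin_P, RingHom.mem_ker, map_sub, map_mul, map_mul, LFin_C, LFin_C, LFin_X, LFin_X]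
  ring

theorem LFin_of_eval {P : MvPolynomial (Fin 3) L} {e : ℕ} (hP : P.IsHomogeneous e)
    {y : Fin 3 → L} (h : eval y P = 0) : P ∈ LFin_P y := by
  have key : LFin_hom y P = Polynomial.C (eval y P) * Polynomial.X ^ e := by
    rw [LFin_hom, coe_eval₂Hom, eval₂_eq, eval_eq, map_sum, Finset.sum_mul]
    apply Finset.sum_congr rfl
    intro m hm
    have hdeg : ∑ i ∈ m.support, m i = e := by
      have := hP (mem_support_iff.1 hm)
      rw [Finsupp.weight_apply, Finsupp.sum] at this
      simpa using this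
    simp only [mul_pow]
    rw [Finset.prod_mul_distrib, map_mul, map_prod, Finset.prod_pow_eq_pow_sum, hdeg]
    simp only [map_pow]
    ring
  rw [LFin_P, RingHom.mem_ker, key, h, map_zero, zero_mul]

instance LFin_prime (y : Fin 3 → L) : (LFin_P y).IsPrime := RingHom.ker_isPrime _

theorem LFin_span {y : Fin 3 → L} {a b c : Fin 3} (ha : y a ≠ 0)
    (habc : ∀ j, j = a ∨ j = b ∨ j = c) :
    LFin_P y = Ideal.span {C (y a) * X b - C (y b) * X a, C (y a) * X c - C (y c) * X a} := by
  apply le_antisymm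
  · intro P hP
    set I := Ideal.span {C (y a) * X b - C (y b) * X a, C (y a) * X c - C (y c) * X a} with hI
    -- the inverse map
    let g : Polynomial L →+* MvPolynomial (Fin 3) L ⧸ I :=
      Polynomial.eval₂RingHom ((Ideal.Quotient.mk I).comp C)
        (Ideal.Quotient.mk I (C (y a)⁻¹ * X a))
    have hg : g.comp (LFin_hom y) = Ideal.Quotient.mk I := by
      apply MvPolynomial.ringHom_ext
      · intro r
        rw [RingHom.comp_apply, LFin_C]
        simp [g]
      · intro j
        rw [RingHom.comp_apply, LFin_X, map_mul]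
        have h1 : g (Polynomial.C (y j)) = Ideal.Quotient.mk I (C (y j)) := by simp [g]
        have h2 : g Polynomial.X = Ideal.Quotient.mk I (C (y a)⁻¹ * X a) := by simp [g]
        rw [h1, h2, ← map_mul, Ideal.Quotient.eq]
        have h3 : (C (y j) * (C (y a)⁻¹ * X a) - X j : MvPolynomial (Fin 3) L) =
            -C (y a)⁻¹ * (C (y a) * X j - C (y j) * X a) := by
          have h4 : (C (y a)⁻¹ * C (y a) : MvPolynomial (Fin 3) L) = 1 := by
            rw [← C_mul, inv_mul_cancel₀ ha, C_1]
          linear_combination (X j : MvPolynomial (Fin 3) L) * h4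
        rw [h3]
        apply Ideal.mul_mem_left
        rcases habc j with rfl | rfl | rfl
        · rw [sub_self]
          exact I.zero_mem
        · exact Ideal.subset_span (Set.mem_insert _ _)
        · exact Ideal.subset_span (Set.mem_insert_of_mem _ rfl)
    have h5 := congrArg (fun φ => φ P) hg
    simp only [RingHom.comp_apply] at h5
    have h6 : LFin_hom y P = 0 := hP
    rw [h6, map_zero] at h5
    exact Ideal.Quotient.eq_zero_iff_mem.1 h5.symm
  · rw [Ideal.span_le]
    rintro x (rfl | rfl)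
    · exact LFin_mem y
    · exact LFin_mem y

theorem LFin_height {y : Fin 3 → L} (hy : y ≠ 0) : (LFin_P y).height ≤ 2 := by
  obtain ⟨a, ha⟩ := Function.ne_iff.1 hy
  have hall : ∀ a : Fin 3, ∃ b c : Fin 3, ∀ j, j = a ∨ j = b ∨ j = c := by decide
  obtain ⟨b, c, habc⟩ := hall a
  have h1 := Ideal.height_le_spanFinrank (LFin_P y) (LFin_prime y).ne_top
  refine h1.trans ?_
  have h2 : (LFin_P y).spanFinrank ≤ 2 := by
    rw [LFin_span ha habc]
    refine (Submodule.spanFinrank_span_le_ncard_of_finite (Set.toFinite _)).trans ?_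
    exact (Set.ncard_insert_le _ _).trans (by rw [Set.ncard_singleton])
  exact_mod_cast h2

theorem LFin_minimal {φ ψ : MvPolynomial (Fin 3) L} {e t : ℕ}
    (hφ : φ.IsHomogeneous e) (hψ : ψ.IsHomogeneous t) (hirr : Irreducible φ) (hnd : ¬ φ ∣ ψ)
    {y : Fin 3 → L} (hy : y ≠ 0) (h1 : eval y φ = 0) (h2 : eval y ψ = 0) :
    LFin_P y ∈ (Ideal.span {φ, ψ}).minimalPrimes := by
  refine ⟨⟨inferInstance, ?_⟩, ?_⟩
  · rw [Ideal.span_le]
    rintro x (rfl | rfl)
    · exact LFin_of_eval hφ h1
    · exact LFin_of_eval hψ h2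
  · rintro Q ⟨hQ, hIQ⟩ hQP
    by_contra hPQ
    have hlt : Q < LFin_P y := lt_of_le_of_ne hQP fun h => hPQ h.ge
    have hφQ : φ ∈ Q := hIQ (Ideal.subset_span (Set.mem_insert _ _))
    have hψQ : ψ ∈ Q := hIQ (Ideal.subset_span (Set.mem_insert_of_mem _ rfl))
    have hpr : (Ideal.span {φ} : Ideal (MvPolynomial (Fin 3) L)).IsPrime :=
      (Ideal.span_singleton_prime hirr.ne_zero).2 hirr.prime
    have hlt1 : (Ideal.span {φ} : Ideal (MvPolynomial (Fin 3) L)) < Q := by
      refine lt_of_le_of_ne ((Ideal.span_singleton_le_iff_mem _).2 hφQ) ?_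
      intro h
      rw [← h, Ideal.mem_span_singleton] at hψQ
      exact hnd hψQ
    have hlt0 : (⊥ : Ideal (MvPolynomial (Fin 3) L)) < Ideal.span {φ} := by
      rw [bot_lt_iff_ne_bot, Ne, Ideal.span_singleton_eq_bot]
      exact hirr.ne_zero
    have k0 := Ideal.height_strict_mono_of_isPrime hlt0
    have k1 := Ideal.height_strict_mono_of_isPrime hlt1
    have k2 := Ideal.height_strict_mono_of_isPrime hlt
    have k3 := LFin_height hy
    have e0 : 1 ≤ (Ideal.span {φ} : Ideal (MvPolynomial (Fin 3) L)).height :=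
      Order.one_le_iff_ne_zero.2 (fun h => by rw [h] at k0; exact absurd k0 not_lt_zero)
    have e1 : 2 ≤ Q.height := by
      have := Order.add_one_le_of_lt (lt_of_le_of_lt e0 k1)
      calc (2 : ℕ∞) = 1 + 1 := by norm_num
        _ ≤ Q.height := this
    exact absurd (lt_of_le_of_lt e1 k2) (not_lt.2 k3)

theorem LFin_inj {y z : Fin 3 → L} (hy : y ≠ 0) (hz : z ≠ 0) (h : LFin_P y = LFin_P z) :
    PEq y z := by
  have key : ∀ a b : Fin 3, y a * z b = y b * z a := by
    intro a b
    have h1 : C (y a) * X b - C (y b) * X a ∈ LFin_P z := h ▸ LFin_mem y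
    rw [LFin_P, RingHom.mem_ker, map_sub, map_mul, map_mul, LFin_C, LFin_C, LFin_X, LFin_X] at h1
    have h2 := congrArg (fun p => Polynomial.coeff p 1) h1
    simp only [Polynomial.coeff_sub, ← mul_assoc, ← Polynomial.C_mul, Polynomial.coeff_mul_X,
      Polynomial.coeff_C_zero, Polynomial.coeff_zero] at h2
    linear_combination h2
  obtain ⟨a, ha⟩ := Function.ne_iff.1 hy
  have ha' : y a ≠ 0 := ha
  have hza : z a ≠ 0 := by
    intro h0
    apply hz
    funext b
    have := key a b
    rw [h0, mul_zero] at this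
    exact (mul_eq_zero.1 this).resolve_left ha'
  refine ⟨z a / y a, div_ne_zero hza ha', ?_⟩
  funext b
  have := key a b
  simp only [Pi.smul_apply, smul_eq_mul]
  field_simp
  linear_combination this

end LFin

theorem finite_common_zeros {L : Type} [Field L] {φ ψ : MvPolynomial (Fin 3) L} {e t : ℕ}
    (hφ : φ.IsHomogeneous e) (hψ : ψ.IsHomogeneous t) (hirr : Irreducible φ) (hnd : ¬ φ ∣ ψ)
    {ι : Type*} (y : ι → Fin 3 → L) (hy0 : ∀ i, y i ≠ 0)
    (hdist : ∀ i j, i ≠ j → ¬ PEq (y i) (y j)) :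
    {i | eval (y i) φ = 0 ∧ eval (y i) ψ = 0}.Finite := by
  have hfin := Ideal.finite_minimalPrimes_of_isNoetherianRing (MvPolynomial (Fin 3) L)
    (Ideal.span {φ, ψ})
  apply Set.Finite.of_finite_image (f := fun i => LFin_P (y i))
  · apply hfin.subset
    rintro P ⟨i, ⟨h1, h2⟩, rfl⟩
    exact LFin_minimal hφ hψ hirr hnd (hy0 i) h1 h2
  · intro i _ j _ hij
    by_contra hne
    exact hdist i j hne (LFin_inj (hy0 i) (hy0 j) hij)

end Pool.Agent.Helper30.TP
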