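import Pool.Agent.Helper30.TP.LFin

/-!
# The form attached to an ultrafilter
-/

set_option autoImplicit false

namespace Pool.Agent.Helper30.TP

open MvPolynomial
open Pool.Agent.Helper16 (Place IsFunctionField)
open Pool.Agent.Helper36 (step iter)

/-! ### Divisors of forms are forms -/

section ultra_forms

variable {σ : Type} {K : Type*} [CommRing K]

/-- the homomorphism `f(x) ↦ f(λ x)` -/
noncomputable def ultraGam : MvPolynomial σ K →ₐ[K] Polynomial (MvPolynomial σ K) :=
  aeval (fun i => Polynomial.X * Polynomial.C (X i))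

theorem ultraGam_monomial (u : σ →₀ ℕ) (a : K) :
    ultraGam (monomial u a) = Polynomial.monomial u.degree (monomial u a) := by
  induction u using Finsupp.induction_linear generalizing a with
  | zero =>
    have h1 : (monomial 0 a : MvPolynomial σ K) = algebraMap K _ a := rfl
    rw [h1, AlgHom.commutes, map_zero]
    rfl
  | add f g hf hg =>
    have h1 : (monomial (f + g) a : MvPolynomial σ K) = monomial f a * monomial g 1 := by
      rw [monomial_mul, mul_one]
    rw [h1, map_mul, hf, hg, Polynomial.monomial_mul_monomial, map_add]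
  | single i n =>
    have h1 : (monomial (Finsupp.single i n) a : MvPolynomial σ K) = C a * X i ^ n := by
      rw [X_pow_eq_monomial, C_mul_monomial, mul_one]
    have h2 : ultraGam (C a : MvPolynomial σ K) = Polynomial.C (C a) := by
      rw [← algebraMap_eq, AlgHom.commutes]; rfl
    rw [h1, map_mul, map_pow, h2, Finsupp.degree_single]
    have h3 : ultraGam (X i : MvPolynomial σ K) = Polynomial.X * Polynomial.C (X i) := by
      simp [ultraGam]
    rw [h3, mul_pow, ← Polynomial.C_mul_X_pow_eq_monomial, Polynomial.C_mul, Polynomial.C_pow]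
    ring

theorem ultraGam_coeff (f : MvPolynomial σ K) (n : ℕ) :
    (ultraGam f).coeff n = homogeneousComponent n f := by
  classical
  induction f using MvPolynomial.induction_on' with
  | monomial u a =>
    rw [ultraGam_monomial, Polynomial.coeff_monomial,
      homogeneousComponent_of_mem (isHomogeneous_monomial a rfl)]
    by_cases h : u.degree = n
    · rw [if_pos h, if_pos h.symm]
    · rw [if_neg h, if_neg (Ne.symm h)]
  | add f g hf hg => rw [map_add, Polynomial.coeff_add, hf, hg, map_add]

theorem ultraGam_form {f : MvPolynomial σ K} {d : ℕ} (hf : f.IsHomogeneous d) :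
    ultraGam f = Polynomial.C f * Polynomial.X ^ d := by
  ext1 n
  rw [ultraGam_coeff, Polynomial.coeff_C_mul_X_pow, homogeneousComponent_of_mem hf]

/-- divisors of forms are forms -/
theorem ultra_form_of_mul [IsDomain K] {f a b : MvPolynomial σ K} {d : ℕ}
    (hf : f.IsHomogeneous d) (h0 : f ≠ 0) (hab : f = a * b) :
    ∃ i j : ℕ, a.IsHomogeneous i ∧ b.IsHomogeneous j ∧ i + j = d := by
  have ha0 : a ≠ 0 := by rintro rfl; exact h0 (by rw [hab, zero_mul])
  have hb0 : b ≠ 0 := by rintro rfl; exact h0 (by rw [hab, mul_zero])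
  have hinj : Function.Injective (ultraGam : MvPolynomial σ K →ₐ[K] _) := by
    intro u v huv
    ext m
    have h1 := congrArg (fun q => coeff m (Polynomial.coeff q m.degree)) huv
    simp only [ultraGam_coeff, coeff_homogeneousComponent, if_pos] at h1
    exact h1
  have hGa : ultraGam a ≠ 0 := fun h => ha0 (hinj (by rw [h, map_zero]))
  have hGb : ultraGam b ≠ 0 := fun h => hb0 (hinj (by rw [h, map_zero]))
  have h1 : ultraGam a * ultraGam b = Polynomial.C f * Polynomial.X ^ d := by
    rw [← map_mul, ← hab, ultraGam_form hf]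
  have h2 : (ultraGam a).natDegree + (ultraGam b).natDegree = d := by
    rw [← Polynomial.natDegree_mul hGa hGb, h1, Polynomial.natDegree_C_mul_X_pow _ _ h0]
  have h3 : (ultraGam a).natTrailingDegree + (ultraGam b).natTrailingDegree = d := by
    rw [← Polynomial.natTrailingDegree_mul hGa hGb, h1, Polynomial.C_mul_X_pow_eq_monomial,
      Polynomial.natTrailingDegree_monomial h0]
  have h4 := Polynomial.natTrailingDegree_le_natDegree (ultraGam a)
  have h5 := Polynomial.natTrailingDegree_le_natDegree (ultraGam b)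
  have key : ∀ c : MvPolynomial σ K,
      (ultraGam c).natTrailingDegree = (ultraGam c).natDegree →
      c.IsHomogeneous (ultraGam c).natDegree := by
    intro c hc
    have h6 : ∀ n, n ≠ (ultraGam c).natDegree → homogeneousComponent n c = 0 := by
      intro n hn
      rw [← ultraGam_coeff]
      rcases lt_or_gt_of_ne hn with h | h
      · exact Polynomial.coeff_eq_zero_of_lt_natTrailingDegree (by omega)
      · exact Polynomial.coeff_eq_zero_of_natDegree_lt h
    rw [← sum_homogeneousComponent c]
    have h7 : ∀ i ∈ Finset.range (c.totalDegree + 1), (homogeneousComponent i c).IsHomogeneous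
        (ultraGam c).natDegree := by
      intro i _
      by_cases hi : i = (ultraGam c).natDegree
      · rw [← hi]; exact homogeneousComponent_isHomogeneous _ _
      · rw [h6 i hi]; exact isHomogeneous_zero _ _ _
    have h8 := IsHomogeneous.sum (Finset.range (c.totalDegree + 1))
      (fun i => homogeneousComponent i c) _ h7
    rwa [sum_homogeneousComponent c] at h8 ⊢
  exact ⟨_, _, key a (by omega), key b (by omega), h2⟩

end ultra_forms

/-! ### Linear forms of the coefficients -/

section ultra_lam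

variable {k K : Type} [Field k] [Field K] [Algebra k K]

theorem ultra_coeff_lam (ℓ : K →ₗ[k] k) (g : MvPolynomial (Fin 3) K) (m : Fin 3 →₀ ℕ) :
    coeff m (lam ℓ g) = ℓ (coeff m g) := by
  classical
  unfold lam
  rw [coeff_sum]
  simp only [coeff_monomial]
  rw [Finset.sum_ite_eq']
  split_ifs with h
  · rfl
  · rw [notMem_support_iff.1 h, map_zero]

theorem ultra_lam_hom (ℓ : K →ₗ[k] k) {g : MvPolynomial (Fin 3) K} {e : ℕ}
    (hg : g.IsHomogeneous e) : (lam ℓ g).IsHomogeneous e := by
  intro m hm
  rw [ultra_coeff_lam] at hm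
  refine hg ?_
  intro h
  rw [h, map_zero] at hm
  exact hm rfl

theorem ultra_eval_lam (ℓ : K →ₗ[k] k) (g : MvPolynomial (Fin 3) K) (y : Fin 3 → k) :
    eval y (lam ℓ g) = ℓ (eval (fun i => algebraMap k K (y i)) g) := by
  unfold lam
  rw [map_sum, eval_eq', map_sum]
  refine Finset.sum_congr rfl fun m _ => ?_
  rw [eval_monomial, Finsupp.prod_fintype _ _ (by simp)]
  have h : coeff m g * ∏ i, (algebraMap k K (y i)) ^ m i = (∏ i, y i ^ m i) • coeff m g := by
    rw [Algebra.smul_def, map_prod, mul_comm]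
    simp only [map_pow]
  rw [h, map_smul, smul_eq_mul, mul_comm]

theorem ultra_expand {ι : Type} (B : Module.Basis ι k K) (g : MvPolynomial (Fin 3) K) :
    ∃ s : Finset ι, g = ∑ l ∈ s, C (B l) * map (algebraMap k K) (lam (B.coord l) g) := by
  classical
  refine ⟨g.support.biUnion fun m => (B.repr (coeff m g)).support, ?_⟩
  ext m
  rw [coeff_sum]
  simp only [coeff_C_mul, coeff_map, ultra_coeff_lam, Module.Basis.coord_apply]
  by_cases hm : m ∈ g.support
  · have h1 := B.linearCombination_repr (coeff m g)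
    rw [Finsupp.linearCombination_apply, Finsupp.sum] at h1
    have h2 : (B.repr (coeff m g)).support ⊆
        g.support.biUnion fun m => (B.repr (coeff m g)).support :=
      Finset.subset_biUnion_of_mem (fun m => (B.repr (coeff m g)).support) hm
    rw [← Finset.sum_subset h2]
    · conv_lhs => rw [← h1]
      refine Finset.sum_congr rfl fun l _ => ?_
      rw [Algebra.smul_def, mul_comm]
    · intro l _ hl
      rw [Finsupp.notMem_support_iff.1 hl, map_zero, mul_zero]
  · rw [notMem_support_iff.1 hm]
    refine (Finset.sum_eq_zero fun l _ => ?_).symm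
    rw [map_zero, Finsupp.zero_apply, map_zero, mul_zero]

end ultra_lam

/-- Finite sets do not belong to a free ultrafilter. -/
theorem ultra_exists_notMem {U : Ultrafilter ℕ} (hU : Free U) {s : Set ℕ} (hs : s.Finite)
    {p : ℕ → Prop} (hp : ∀ᶠ n in (U : Filter ℕ), p n) : ∃ n, p n ∧ n ∉ s := by
  obtain ⟨m, hm⟩ := hs.bddAbove
  obtain ⟨n, hn1, hn2⟩ := (hp.and (hU (m + 1))).exists
  exact ⟨n, hn1, fun h => by have := hm h; omega⟩

/-- The ideal is prime. -/
theorem ultra_or {K : Type} [Field K] {U : Ultrafilter ℕ} {y : ℕ → Fin 3 → K}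
    {a b : MvPolynomial (Fin 3) K} (h : ∀ᶠ n in (U : Filter ℕ), eval (y n) (a * b) = 0) :
    (∀ᶠ n in (U : Filter ℕ), eval (y n) a = 0) ∨ (∀ᶠ n in (U : Filter ℕ), eval (y n) b = 0) := by
  rw [← Ultrafilter.eventually_or]
  filter_upwards [h] with n hn
  rw [map_mul] at hn
  exact mul_eq_zero.1 hn

theorem exists_gen {K : Type} [Field K] {x : ℕ → Fin 3 → K} (hx0 : ∀ n, x n ≠ 0)
    (hdist : ∀ n m, n ≠ m → ¬ PEq (x n) (x m)) {U : Ultrafilter ℕ} (hU : Free U)
    {P : MvPolynomial (Fin 3) K} {e : ℕ} (hP : P.IsHomogeneous e) (hP0 : P ≠ 0)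
    (hv : ∀ᶠ n in (U : Filter ℕ), eval (x n) P = 0) :
    ∃ (D : ℕ) (g : MvPolynomial (Fin 3) K), Gen x U g D := by
  classical
  have hex : ∃ D : ℕ, ∃ g : MvPolynomial (Fin 3) K, g.IsHomogeneous D ∧ g ≠ 0 ∧
      ∀ᶠ n in (U : Filter ℕ), eval (x n) g = 0 := ⟨e, P, hP, hP0, hv⟩
  obtain ⟨D, hD, hmin⟩ : ∃ D : ℕ, (∃ g : MvPolynomial (Fin 3) K, g.IsHomogeneous D ∧ g ≠ 0 ∧
      ∀ᶠ n in (U : Filter ℕ), eval (x n) g = 0) ∧ ∀ D' < D,
      ¬ ∃ g : MvPolynomial (Fin 3) K, g.IsHomogeneous D' ∧ g ≠ 0 ∧
      ∀ᶠ n in (U : Filter ℕ), eval (x n) g = 0 :=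
    ⟨Nat.find hex, Nat.find_spec hex, fun D' h => Nat.find_min hex h⟩
  obtain ⟨g, hg, hg0, hgv⟩ := hD
  have hconst : ∀ (L : Type) [Field L] (a : MvPolynomial (Fin 3) L), a.IsHomogeneous 0 →
      a = C (coeff 0 a) := by
    intro L _ a ha
    exact (totalDegree_eq_zero_iff_eq_C).1 (Nat.le_zero.1 ha.totalDegree_le)
  have hpos : 0 < D := by
    rcases Nat.eq_zero_or_pos D with h | h
    · subst h
      exfalso
      have h1 := hconst K g hg
      obtain ⟨n, hn⟩ := hgv.exists
      rw [h1, eval_C] at hn
      rw [hn, map_zero] at h1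
      exact hg0 h1
    · exact h
  have hnu : ∀ (L : Type) [Field L] (a : MvPolynomial (Fin 3) L), a.IsHomogeneous D →
      ¬ IsUnit a := by
    intro L _ a ha h
    have h1 : IsUnit (constantCoeff a) := h.map constantCoeff
    rw [constantCoeff_eq] at h1
    have h2 : coeff 0 a = 0 := by
      refine ha.coeff_eq_zero (d := 0) ?_
      simp only [map_zero]
      omega
    rw [h2] at h1
    exact not_isUnit_zero h1
  have hunit : ∀ (L : Type) [Field L] (a : MvPolynomial (Fin 3) L), a.IsHomogeneous 0 → a ≠ 0 →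
      IsUnit a := by
    intro L _ a ha h0
    have h1 := hconst L a ha
    rw [h1]
    refine IsUnit.map C (isUnit_iff_ne_zero.2 fun h => h0 ?_)
    rw [h1, h, map_zero]
  have hirr : Irreducible g := by
    refine ⟨hnu K g hg, fun a b hab => ?_⟩
    obtain ⟨i, j, hi, hj, hij⟩ := ultra_form_of_mul hg hg0 hab
    have ha0 : a ≠ 0 := by rintro rfl; exact hg0 (by rw [hab, zero_mul])
    have hb0 : b ≠ 0 := by rintro rfl; exact hg0 (by rw [hab, mul_zero])
    rw [hab] at hgv
    rcases ultra_or hgv with h | h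
    · right
      have h1 : ¬ i < D := fun h2 => hmin i h2 ⟨a, hi, ha0, h⟩
      have h3 : j = 0 := by omega
      subst h3
      exact hunit K b hj hb0
    · left
      have h1 : ¬ j < D := fun h2 => hmin j h2 ⟨b, hj, hb0, h⟩
      have h3 : i = 0 := by omega
      subst h3
      exact hunit K a hi ha0
  have hdvdK : ∀ (Q : MvPolynomial (Fin 3) K) (t : ℕ), Q.IsHomogeneous t →
      (∀ᶠ n in (U : Filter ℕ), eval (x n) Q = 0) → g ∣ Q := by
    intro Q t hQ hQv
    by_contra hnd
    have h1 := finite_common_zeros hg hQ hirr hnd x hx0 hdist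
    obtain ⟨n, hn, hn'⟩ := ultra_exists_notMem hU h1 (hgv.and hQv)
    exact hn' hn
  have hdvd : ∀ (K' : Type) [Field K'] [Algebra K K'] (P : MvPolynomial (Fin 3) K') (e : ℕ),
      P.IsHomogeneous e →
      (∀ᶠ n in (U : Filter ℕ), eval (fun i => algebraMap K K' (x n i)) P = 0) →
      map (algebraMap K K') g ∣ P := by
    intro K' _ _ Q t hQ hQv
    have B := Module.Basis.ofVectorSpace K K'
    obtain ⟨s, hs⟩ := ultra_expand B Q
    rw [hs]
    refine Finset.dvd_sum fun l _ => Dvd.dvd.mul_left ?_ _
    refine _root_.map_dvd (map (algebraMap K K')) (hdvdK _ t (ultra_lam_hom _ hQ) ?_)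
    filter_upwards [hQv] with n hn
    rw [ultra_eval_lam, hn, map_zero]
  refine ⟨D, g, hg, hpos, hgv, hdvd, ?_⟩
  intro K' _ _
  have hg' : (map (algebraMap K K') g).IsHomogeneous D := hg.map _
  have hg0' : map (algebraMap K K') g ≠ 0 := by
    intro h
    exact hg0 ((map_injective _ (algebraMap K K').injective) (by rw [h, map_zero]))
  have hgv' : ∀ᶠ n in (U : Filter ℕ),
      eval (fun i => algebraMap K K' (x n i)) (map (algebraMap K K') g) = 0 := by
    filter_upwards [hgv] with n hn
    have h1 := aeval_algebraMap_apply K' (x n) g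
    have h2 : (aeval (x n)) g = eval (x n) g := rfl
    rw [h2, hn, map_zero, aeval_def, Function.comp_def] at h1
    rw [eval_map]
    exact h1
  refine ⟨hnu K' _ hg', fun a b hab => ?_⟩
  obtain ⟨i, j, hi, hj, hij⟩ := ultra_form_of_mul hg' hg0' hab
  have hcancel : ∀ c u v : MvPolynomial (Fin 3) K', map (algebraMap K K') g = u * v →
      u = map (algebraMap K K') g * c → IsUnit v := by
    intro c u v h1 h2
    refine IsUnit.of_mul_eq_one c ?_
    have h3 : map (algebraMap K K') g * (v * c) = map (algebraMap K K') g * 1 := by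
      calc map (algebraMap K K') g * (v * c) = (map (algebraMap K K') g * c) * v := by ring
        _ = u * v := by rw [← h2]
        _ = map (algebraMap K K') g * 1 := by rw [← h1, mul_one]
    exact mul_left_cancel₀ hg0' h3
  rw [hab] at hgv'
  rcases ultra_or hgv' with h | h
  · right
    obtain ⟨c, hc⟩ := hdvd K' a i hi h
    exact hcancel c a b hab hc
  · left
    obtain ⟨c, hc⟩ := hdvd K' b j hj h
    exact hcancel c b a (by rw [hab, mul_comm]) hc

end Pool.Agent.Helper30.TP
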