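import Pool.Agent.Helper30.TP.PtHeight
import Pool.Agent.Helper38.Sym.GenEngine
import Pool.Agent.Helper38.TPN.Data
import Pool.Agent.Helper38.TPN.Pack
import Pool.Agent.Helper38.TPN.Hens
import Pool.Agent.Helper38.TPN.Hom
import Pool.Agent.Helper38.TPN.Good

/-!
# Points specialising to a noncritical cycle
-/

set_option autoImplicit false

namespace Pool.Agent.Helper30.TP

open MvPolynomial
open Pool.Agent.Helper16 (Place IsFunctionField)
open Pool.Agent.Helper36 (step iter)

section NonCritAux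

open Pool.Agent.Helper38.TPN Pool.Agent.Helper37

/-- The coefficients of a polynomial. -/
noncomputable def NonCrit_cf {k : Type} [Field k] (g : Polynomial k) : Finset k := by
  classical exact insert 0 (g.support.image g.coeff)

theorem NonCrit_lift {k A : Type} [Field k] [CommRing A] (j : A →+* k) (g : Polynomial k)
    (h : ∀ c ∈ NonCrit_cf g, c ∈ Set.range j) : ∃ gA : Polynomial A, gA.map j = g := by
  classical
  have h1 : g ∈ Polynomial.lifts j := by
    rw [Polynomial.lifts_iff_coeff_lifts]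
    intro n
    apply h
    by_cases hn : g.coeff n = 0
    · rw [hn]; exact Finset.mem_insert_self _ _
    · exact Finset.mem_insert_of_mem (Finset.mem_image_of_mem _ (Polynomial.mem_support_iff.2 hn))
  exact (Polynomial.mem_lifts _).1 h1

/-- The coefficients of a polynomial in two variables. -/
noncomputable def NonCrit_cf2 {k : Type} [Field k] (P : Polynomial (Polynomial k)) : Finset k := by
  classical exact insert 0 (P.support.biUnion fun n => NonCrit_cf (P.coeff n))

theorem NonCrit_lift2 {k A : Type} [Field k] [CommRing A] (j : A →+* k)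
    (P : Polynomial (Polynomial k)) (h : ∀ c ∈ NonCrit_cf2 P, c ∈ Set.range j) :
    ∃ PA : Polynomial (Polynomial A), PA.map (Polynomial.mapRingHom j) = P := by
  classical
  have h1 : P ∈ Polynomial.lifts (Polynomial.mapRingHom j) := by
    rw [Polynomial.lifts_iff_coeff_lifts]
    intro n
    have h2 : ∃ gA : Polynomial A, gA.map j = P.coeff n := by
      apply NonCrit_lift
      intro c hc
      apply h
      by_cases hn : P.coeff n = 0
      · rw [hn] at hc
        have h3 : c = 0 := by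
          simpa [NonCrit_cf] using hc
        rw [h3]
        exact Finset.mem_insert_self _ _
      · exact Finset.mem_insert_of_mem (Finset.mem_biUnion.2
          ⟨n, Polynomial.mem_support_iff.2 hn, hc⟩)
    obtain ⟨gA, hg⟩ := h2
    exact ⟨gA, hg⟩
  exact (Polynomial.mem_lifts _).1 h1

theorem NonCrit_liftMv {k A : Type} [Field k] [CommRing A] (j : A →+* k)
    (P : MvPolynomial (Fin 3) k) (h : ∀ c ∈ P.coeffs, c ∈ Set.range j) :
    ∃ PA : MvPolynomial (Fin 3) A, map j PA = P := by
  have h1 := (MvPolynomial.mem_range_map_iff_coeffs_subset (f := j) (x := P)).2 (by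
    intro c hc
    exact h c hc)
  exact h1

open Pool.Agent.Helper38.Dml (pmap pjac) in
/-- The final step. -/
theorem NonCrit_final {k K : Type} [Field k] [Field K] [Algebra k K] [Algebra k ℂ]
    [Algebra K ℂ] [IsScalarTower k K ℂ] (p : ℕ) [hp : Fact p.Prime] {A : Type} [CommRing A]
    (j : A →+* k) (θ : A →+* ℤ_[p]) {d : ℕ} (F : Fin 3 → MvPolynomial (Fin 3) k)
    (FA : Fin 3 → MvPolynomial (Fin 3) A) (hFA : ∀ i, map j (FA i) = F i)
    (hF : ∀ i, (FA i).IsHomogeneous d) (zA : Fin 3 → A)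
    (hG : Pool.Agent.Helper38.Dml.GoodAt (fun i => map (PadicInt.toZMod.comp θ) (FA i))
      (fun i => (PadicInt.toZMod.comp θ) (zA i)))
    (K₁ : Type) [Field K₁] (κ : K₁ →+* K) (ι : K₁ →+* ℚ_[p]) (δ : A →+* K₁)
    (hκ : ∀ a, κ (δ a) = algebraMap k K (j a)) (hι : ∀ a, ι (δ a) = ((θ a : ℤ_[p]) : ℚ_[p]))
    (ξ : Fin 3 → K₁) (hξ : ∀ i, ‖ι (ξ i) - ((θ (zA i) : ℤ_[p]) : ℚ_[p])‖ < 1)
    (c : ℂ) (hc : c ≠ 0) :
    Pool.Agent.Helper38.Sym.DMLgen (fun i => map (algebraMap k ℂ) (F i))
      (fun i => c * algebraMap K ℂ (κ (ξ i))) := by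
  classical
  have hfin : Finite (IsLocalRing.ResidueField (padicRing p ι)) := Nat.finite_of_card_ne_zero (by
    rw [card_residueField_padicRing]; exact hp.out.ne_zero)
  let _ : Algebra (padicRing p ι) ℂ :=
    (((algebraMap K ℂ).comp κ).comp (padicRing p ι).subtype).toAlgebra
  have hRL : Function.Injective (algebraMap (padicRing p ι) ℂ) := by
    intro x y h
    have h1 : algebraMap K ℂ (κ (x : K₁)) = algebraMap K ℂ (κ (y : K₁)) := h
    exact Subtype.ext (κ.injective ((algebraMap K ℂ).injective h1))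
  have hδ : ∀ a : A, δ a ∈ padicRing p ι := by
    intro a
    rw [mem_padicRing, hι]
    exact (θ a).2
  let δ' : A →+* padicRing p ι := δ.codRestrict _ hδ
  have hmem : ∀ i, ξ i ∈ padicRing p ι := by
    intro i
    rw [mem_padicRing]
    have h1 : ι (ξ i) = (ι (ξ i) - ((θ (zA i) : ℤ_[p]) : ℚ_[p])) + ((θ (zA i) : ℤ_[p]) : ℚ_[p]) := by
      ring
    rw [h1]
    exact (Padic.nonarchimedean _ _).trans (max_le (hξ i).le (θ (zA i)).2)
  let χ : padicRing p ι →+* ZMod p := PadicInt.toZMod.comp (padicRingHom p ι)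
  have hχ : ∀ r, χ r ≠ 0 → IsUnit r := by
    intro r hr
    rw [isUnit_padicRing_iff]
    have h1 : padicRingHom p ι r ∉ IsLocalRing.maximalIdeal ℤ_[p] := by
      intro h
      rw [← PadicInt.ker_toZMod, RingHom.mem_ker] at h
      exact hr h
    rw [IsLocalRing.mem_maximalIdeal, mem_nonunits_iff, not_not, PadicInt.isUnit_iff] at h1
    exact h1
  have hχδ : χ.comp δ' = PadicInt.toZMod.comp θ := by
    apply RingHom.ext
    intro a
    have h1 : padicRingHom p ι (δ' a) = θ a := Subtype.ext (hι a)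
    change PadicInt.toZMod (padicRingHom p ι (δ' a)) = PadicInt.toZMod (θ a)
    rw [h1]
  have hχξ : ∀ i, χ ⟨ξ i, hmem i⟩ = (PadicInt.toZMod.comp θ) (zA i) := by
    intro i
    change PadicInt.toZMod (padicRingHom p ι ⟨ξ i, hmem i⟩) = PadicInt.toZMod (θ (zA i))
    rw [← sub_eq_zero, ← map_sub, ← RingHom.mem_ker, PadicInt.ker_toZMod,
      IsLocalRing.mem_maximalIdeal, mem_nonunits_iff, PadicInt.isUnit_iff]
    have h1 : ‖padicRingHom p ι ⟨ξ i, hmem i⟩ - θ (zA i)‖ < 1 := hξ i
    exact h1.ne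
  have h := Pool.Agent.Helper38.Sym.dml_dvr_general (d := d) p hp.out (p_mem_maximalIdeal p ι) χ hχ
    (fun i => map δ' (FA i)) (fun i => (hF i).map δ') (fun i => ⟨ξ i, hmem i⟩) (by
      simp only [map_map, hχδ, hχξ]
      exact hG) hRL c hc
  have h1 : ∀ i, map (algebraMap (padicRing p ι) ℂ) (map δ' (FA i)) = map (algebraMap k ℂ) (F i) := by
    intro i
    have h2 : (algebraMap (padicRing p ι) ℂ).comp δ' = (algebraMap k ℂ).comp j := by
      apply RingHom.ext
      intro a
      change algebraMap K ℂ (κ (δ a)) = algebraMap k ℂ (j a)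
      rw [hκ, ← IsScalarTower.algebraMap_apply]
    rw [← hFA i, map_map, map_map, h2]
  simp only [h1] at h
  exact h

end NonCritAux

open Pool.Agent.Helper38.TPN Pool.Agent.Helper37 in
theorem noncritical {k K : Type} [Field k] [IsAlgClosed k] [Field K] [Algebra k K] [Algebra k ℂ]
    [Algebra K ℂ] [IsScalarTower k K ℂ] (hK : IsFunctionField k K) {d : ℕ}
    {F : Fin 3 → MvPolynomial (Fin 3) k} (hF : IsEndo d F) (x : Fin 3 → K) (hx : x ≠ 0)
    (b : Place k K) (z : Fin 3 → k) (hred : Red b x z) (n N : ℕ) (hN : 0 < N)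
    (hper : PEq (iter F z n) (iter F z (n + N))) (hdet : (mult F (iter F z n) N).det ≠ 0)
    (c : ℂ) (hc : c ≠ 0) :
    Pool.Agent.Helper38.Sym.DMLgen (fun i => map (algebraMap k ℂ) (F i))
      (fun i => c * algebraMap K ℂ (x i)) := by
  classical
  have hchar : CharZero k := (algebraMap k ℂ).charZero
  obtain ⟨hz, c₀, hc₀, hcz⟩ := hred
  obtain ⟨c₁, hc₁, hper⟩ := hper
  obtain ⟨s, y, Q, a, q, r, e, P, u, ρ, m, N', hs, hQd, hQy, hmin, hP, hM⟩ :=
    exists_model hK b (fun i => c₀ * x i - algebraMap k K (z i)) hcz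
  -- nonzero coordinates
  have hznz : ∀ i, ∃ l, iter F z i l ≠ 0 := by
    intro i
    by_contra hcon
    push Not at hcon
    exact iter_ne_zero hF hz i (funext hcon)
  choose l hl using hznz
  -- Jacobians
  have hdet' : ∀ i, n ≤ i → i < n + N →
      (Pool.Agent.Helper38.Dml.pjac F (iter F z i)).det ≠ 0 := by
    intro i h1 h2
    rw [det_mult, Finset.prod_ne_zero_iff] at hdet
    have h3 := hdet (i - n) (Finset.mem_range.2 (by omega))
    have h4 : iter F (iter F z n) (i - n) = iter F z i := by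
      have h5 : i = (i - n) + n := by omega
      conv_rhs => rw [h5]
      unfold Pool.Agent.Helper36.iter
      rw [Function.iterate_add_apply]
    rwa [h4] at h3
  let S : Finset k := NonCrit_cf2 Q ∪ NonCrit_cf a ∪ NonCrit_cf q ∪ NonCrit_cf r ∪ NonCrit_cf e ∪
    (Finset.univ.biUnion fun i => NonCrit_cf2 (P i)) ∪
    (Finset.univ.biUnion fun i => NonCrit_cf (u i)) ∪
    (Finset.univ.biUnion fun i => (F i).coeffs) ∪ Finset.univ.image z ∪
    {c₁, c₁⁻¹, (e.coeff 0)⁻¹, (q.coeff 0)⁻¹} ∪
    ((Finset.range (n + N + 1)).image fun i => (iter F z i (l i))⁻¹) ∪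
    ((Finset.range (n + N)).image fun i =>
      ((Pool.Agent.Helper38.Dml.pjac F (iter F z i)).det)⁻¹)
  obtain ⟨p, hp, A, _, _, _, j, θ, hj, hθ, hS⟩ := exists_package S
  -- lifts
  have mS : ∀ T : Finset k, T ⊆ S → ∀ c ∈ T, c ∈ Set.range j := fun T hT c hc => hS c (hT hc)
  obtain ⟨QA, hQA⟩ := NonCrit_lift2 j Q (mS _ (by intro v hv; simp only [S, Finset.mem_union]; tauto))
  obtain ⟨aA, haA⟩ := NonCrit_lift j a (mS _ (by intro v hv; simp only [S, Finset.mem_union]; tauto))
  obtain ⟨qA, hqA⟩ := NonCrit_lift j q (mS _ (by intro v hv; simp only [S, Finset.mem_union]; tauto))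
  obtain ⟨rA, hrA⟩ := NonCrit_lift j r (mS _ (by intro v hv; simp only [S, Finset.mem_union]; tauto))
  obtain ⟨eA, heA⟩ := NonCrit_lift j e (mS _ (by intro v hv; simp only [S, Finset.mem_union]; tauto))
  have hPex : ∀ i, ∃ PA : Polynomial (Polynomial A), PA.map (Polynomial.mapRingHom j) = P i := fun i =>
    NonCrit_lift2 j (P i) (mS _ (by
      intro v hv
      have h1 : v ∈ Finset.univ.biUnion fun i => NonCrit_cf2 (P i) :=
        Finset.mem_biUnion.2 ⟨i, Finset.mem_univ _, hv⟩
      simp only [S, Finset.mem_union]; tauto))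
  choose PA hPA using hPex
  have huex : ∀ i, ∃ uA : Polynomial A, uA.map j = u i := fun i =>
    NonCrit_lift j (u i) (mS _ (by
      intro v hv
      have h1 : v ∈ Finset.univ.biUnion fun i => NonCrit_cf (u i) :=
        Finset.mem_biUnion.2 ⟨i, Finset.mem_univ _, hv⟩
      simp only [S, Finset.mem_union]; tauto))
  choose uA huA using huex
  have hFex : ∀ i, ∃ FA, map j FA = F i := fun i =>
    NonCrit_liftMv j (F i) (mS _ (by
      intro v hv
      have h1 : v ∈ Finset.univ.biUnion fun i => (F i).coeffs :=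
        Finset.mem_biUnion.2 ⟨i, Finset.mem_univ _, hv⟩
      simp only [S, Finset.mem_union]; tauto))
  choose FA hFA using hFex
  have hzex : ∀ i, ∃ zA, j zA = z i := fun i => hS _ (by
      have h1 : z i ∈ Finset.univ.image z := Finset.mem_image_of_mem _ (Finset.mem_univ _)
      simp only [S, Finset.mem_union]; tauto)
  choose zA hzA using hzex
  have h4 : ∀ v ∈ ({c₁, c₁⁻¹, (e.coeff 0)⁻¹, (q.coeff 0)⁻¹} : Finset k), v ∈ Set.range j :=
    mS _ (by intro v hv; simp only [S, Finset.mem_union]; tauto)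
  have hinjX : Function.Injective (Polynomial.map j) := Polynomial.map_injective j hj
  have hFAh : ∀ i, (FA i).IsHomogeneous d := by
    intro i
    have h1 := hF.hom i
    rw [← hFA i] at h1
    intro v hv
    refine h1 ?_
    rw [coeff_map]
    intro h0
    exact hv (hj (by rw [h0, map_zero]))
  -- the identities over `A`
  have hev : ∀ R : Polynomial (Polynomial A),
      (R.map (Polynomial.mapRingHom j)).eval a = (R.eval aA).map j := by
    intro R
    rw [← haA, Polynomial.eval_map]
    exact Polynomial.eval₂_at_apply (Polynomial.mapRingHom j) aA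
  have e1 : QA.eval aA = Polynomial.X ^ N' * rA := by
    apply hinjX
    rw [← hev, hQA, hM.evQ, Polynomial.map_mul, Polynomial.map_pow, Polynomial.map_X, hrA]
  have e2 : (Polynomial.derivative QA).eval aA = Polynomial.X ^ ρ * eA := by
    apply hinjX
    rw [← hev, ← Polynomial.derivative_map, hQA, hM.evD, Polynomial.map_mul, Polynomial.map_pow,
      Polynomial.map_X, heA]
  have e3 : ∀ i, (PA i).eval aA = Polynomial.X ^ (m + 1) * uA i := by
    intro i
    apply hinjX
    rw [← hev, hPA, hM.evP, Polynomial.map_mul, Polynomial.map_pow, Polynomial.map_X, huA]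
  have e4 : IsUnit (eA.coeff 0) := by
    have h5 : j (eA.coeff 0) = e.coeff 0 := by rw [← heA, Polynomial.coeff_map]
    exact isUnit_of_inv_mem j hj _ (by rw [h5]; exact hM.e0) (by rw [h5]; exact h4 _ (by simp))
  have e5 : IsUnit (qA.coeff 0) := by
    have h5 : j (qA.coeff 0) = q.coeff 0 := by rw [← hqA, Polynomial.coeff_map]
    exact isUnit_of_inv_mem j hj _ (by rw [h5]; exact hM.q0) (by rw [h5]; exact h4 _ (by simp))
  obtain ⟨t, ht1, ht⟩ := exists_small p θ hθ
  have ht0 : t ≠ 0 := by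
    intro h0
    apply ht Polynomial.X Polynomial.X_ne_zero
    rw [Polynomial.eval₂_X, h0]
  obtain ⟨w, hw, hwP, hwq⟩ := hensel_model p θ QA aA qA rA eA PA uA ρ m N' hM.le₁ hM.le₂ e1 e2 e4
    e5 e3 t ht1 ht0
  have hmapinj : Function.Injective (Polynomial.mapRingHom j) := hinjX
  have hQAd : QA.natDegree = Q.natDegree := by
    rw [← hQA, Polynomial.natDegree_map_eq_of_injective hmapinj]
  obtain ⟨K₁, _, κ, ι, γ, η, g1, g2, g3, g4⟩ := exists_hom (k := k) (K := K) p j hj θ s y hs t w ht
    QA (by rw [hQAd]; exact hQd) (by rw [← ev2_map, hQA]; exact hQy)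
    (by intro R h1 h2; rw [hQAd]; exact hmin R h1 h2) hw
  -- good reduction
  have hG := goodAt_reduction j hj (PadicInt.toZMod.comp θ) F FA hFA hFAh z zA hzA n N hN c₁ hc₁
    hper (h4 _ (by simp)) (h4 _ (by simp)) l (by
      intro i hi
      refine ⟨hl i, hS _ ?_⟩
      have h5 : (iter F z i (l i))⁻¹ ∈ (Finset.range (n + N + 1)).image
          fun i => (iter F z i (l i))⁻¹ :=
        Finset.mem_image.2 ⟨i, Finset.mem_range.2 (by omega), rfl⟩
      simp only [S, Finset.mem_union]; tauto) (by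
      intro i h1 h2
      refine ⟨hdet' i h1 h2, hS _ ?_⟩
      have h5 : ((Pool.Agent.Helper38.Dml.pjac F (iter F z i)).det)⁻¹ ∈ (Finset.range (n + N)).image
          fun i => ((Pool.Agent.Helper38.Dml.pjac F (iter F z i)).det)⁻¹ :=
        Finset.mem_image.2 ⟨i, Finset.mem_range.2 h2, rfl⟩
      simp only [S, Finset.mem_union]; tauto)
  -- the coordinates
  set δ : A →+* K₁ := γ.comp Polynomial.C with hδ
  have k1 : ∀ v, κ (δ v) = algebraMap k K (j v) := by
    intro v
    have h5 := g1 (Polynomial.C v)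
    rwa [Polynomial.eval₂_C] at h5
  have k2 : ∀ v, ι (δ v) = ((θ v : ℤ_[p]) : ℚ_[p]) := by
    intro v
    have h5 := g2 (Polynomial.C v)
    rwa [Polynomial.eval₂_C] at h5
  set D : K₁ := γ (Polynomial.X ^ m * qA) with hD
  have hιD : ‖ι D‖ = ‖t‖ ^ m := by
    rw [hD, g2]
    exact hwq
  have htn : 0 < ‖t‖ := norm_pos_iff.2 ht0
  have hD0 : D ≠ 0 := by
    intro h
    rw [h, map_zero, norm_zero] at hιD
    exact (pow_pos htn m).ne hιD
  have hκD : κ D = Polynomial.aeval s (Polynomial.X ^ m * q) := by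
    rw [hD, g1, ← hqA, Polynomial.aeval_def]
    have h5 : (Polynomial.X ^ m * qA.map j : Polynomial k)
        = (Polynomial.X ^ m * qA).map j := by
      rw [Polynomial.map_mul, Polynomial.map_pow, Polynomial.map_X]
    rw [h5, Polynomial.eval₂_map]
  set V : Fin 3 → K₁ := fun i => ev2 δ (γ Polynomial.X) η (PA i) with hV
  have hκV : ∀ i, κ (V i) = Polynomial.aeval s (Polynomial.X ^ m * q)
      * (c₀ * x i - algebraMap k K (z i)) := by
    intro i
    rw [← hP i, hV, ← ev2_comp, ← hPA i, ev2_map]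
    have h5 : κ.comp δ = (algebraMap k K).comp j := RingHom.ext k1
    have h6 : κ (γ Polynomial.X) = s := by rw [g1, Polynomial.eval₂_X]
    rw [h5, h6, g3]
  have hιV : ∀ i, ‖ι (V i)‖ ≤ ‖t‖ ^ (m + 1) := by
    intro i
    have h5 : ι (V i) = ((ev2 θ t w (PA i) : ℤ_[p]) : ℚ_[p]) := by
      rw [hV, ← ev2_comp]
      have h6 : ι.comp δ = (PadicInt.Coe.ringHom (p := p)).comp θ := RingHom.ext k2
      have h7 : ι (γ Polynomial.X) = PadicInt.Coe.ringHom (p := p) t := by
        rw [g2, Polynomial.eval₂_X]; rfl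
      have h8 : ι η = PadicInt.Coe.ringHom (p := p) w := g4
      rw [h6, h7, h8, ev2_comp]
      rfl
    rw [h5]
    exact hwP i
  have hfinal := NonCrit_final (K := K) p j θ F FA hFA hFAh zA hG K₁ κ ι δ k1 k2
    (fun i => δ (zA i) + V i / D) (by
      intro i
      rw [map_add, k2, add_sub_cancel_left, map_div₀, norm_div, hιD,
        div_lt_one (pow_pos htn m)]
      refine lt_of_le_of_lt (hιV i) ?_
      exact pow_lt_pow_right_of_lt_one₀ htn ht1 (by omega))
    (c * (algebraMap K ℂ c₀)⁻¹) (mul_ne_zero hc (inv_ne_zero (by simpa using hc₀)))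
  have hlast : ∀ i, c * (algebraMap K ℂ c₀)⁻¹ * algebraMap K ℂ (κ (δ (zA i) + V i / D))
      = c * algebraMap K ℂ (x i) := by
    intro i
    have h5 : κ (δ (zA i) + V i / D) = c₀ * x i := by
      rw [map_add, map_div₀, k1, hzA, hκV, hκD, mul_div_cancel_left₀]
      · ring
      · rw [← hκD]
        simpa using hD0
    rw [h5, map_mul]
    have h6 : algebraMap K ℂ c₀ ≠ 0 := by simpa using hc₀
    field_simp
  simp only [hlast] at hfinal
  exact hfinal

end Pool.Agent.Helper30.TP
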