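import Pool.Agent.Helper30.TP.Defs

/-!
# Basic facts
-/

set_option autoImplicit false

namespace Pool.Agent.Helper30.TP

open MvPolynomial
open Pool.Agent.Helper16 (Place IsFunctionField)
open Pool.Agent.Helper36 (step iter iter_zero iter_succ iter_succ' iter_add iter_map
  aeval_smul_homogeneous exists_nullstellensatz)

section

variable {k L : Type} [Field k] [Field L] [Algebra k L]

theorem step_ne_zero [IsAlgClosed k] {d : ℕ} {F : Fin 3 → MvPolynomial (Fin 3) k}
    (hF : IsEndo d F) {x : Fin 3 → L} (hx : x ≠ 0) : step F x ≠ 0 := by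
  intro h
  obtain ⟨M, q, -, hq⟩ := exists_nullstellensatz (L := k) F hF.hom (by
    intro w hw
    exact hF.nz w fun i => by rw [← hw i]; rfl)
  apply hx
  funext i
  have h1 := congrArg (aeval x) (hq i)
  rw [map_sum, map_pow, aeval_X] at h1
  have h2 : ∀ j, aeval x (F j) = 0 := fun j => congrFun h j
  simp only [map_mul, h2, mul_zero, Finset.sum_const_zero] at h1
  exact eq_zero_of_pow_eq_zero h1.symm

theorem iter_ne_zero [IsAlgClosed k] {d : ℕ} {F : Fin 3 → MvPolynomial (Fin 3) k}
    (hF : IsEndo d F) {x : Fin 3 → L} (hx : x ≠ 0) (n : ℕ) : iter F x n ≠ 0 := by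
  induction n with
  | zero => exact hx
  | succ n ih => rw [iter_succ]; exact step_ne_zero hF ih

theorem step_smul {d : ℕ} {F : Fin 3 → MvPolynomial (Fin 3) k} (hF : IsEndo d F) (c : L)
    (x : Fin 3 → L) : step F (c • x) = c ^ d • step F x := by
  funext i
  exact aeval_smul_homogeneous (hF.hom i) c x

theorem iter_smul {d : ℕ} {F : Fin 3 → MvPolynomial (Fin 3) k} (hF : IsEndo d F) (c : L)
    (x : Fin 3 → L) (n : ℕ) : iter F (c • x) n = c ^ d ^ n • iter F x n := by
  induction n with
  | zero => simp [iter_zero]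
  | succ n ih => rw [iter_succ, ih, step_smul hF, iter_succ, ← pow_mul, ← pow_succ]

omit [Algebra k L] in
theorem PEq.refl (x : Fin 3 → L) : PEq x x := ⟨1, one_ne_zero, by simp⟩

omit [Algebra k L] in
theorem PEq.symm {x y : Fin 3 → L} (h : PEq x y) : PEq y x := by
  obtain ⟨c, hc, rfl⟩ := h
  exact ⟨c⁻¹, inv_ne_zero hc, by rw [smul_smul, inv_mul_cancel₀ hc, one_smul]⟩

omit [Algebra k L] in
theorem PEq.trans {x y z : Fin 3 → L} (h : PEq x y) (h' : PEq y z) : PEq x z := by
  obtain ⟨c, hc, rfl⟩ := h
  obtain ⟨e, he, rfl⟩ := h'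
  exact ⟨e * c, mul_ne_zero he hc, by rw [smul_smul]⟩

theorem PEq.iter {d : ℕ} {F : Fin 3 → MvPolynomial (Fin 3) k} (hF : IsEndo d F)
    {x y : Fin 3 → L} (h : PEq x y) (n : ℕ) : PEq (iter F x n) (iter F y n) := by
  obtain ⟨c, hc, rfl⟩ := h
  exact ⟨c ^ d ^ n, pow_ne_zero _ hc, iter_smul hF c x n⟩

theorem eval_smul_hom {P : MvPolynomial (Fin 3) L} {e : ℕ} (hP : P.IsHomogeneous e) (c : L)
    (x : Fin 3 → L) : eval (c • x) P = c ^ e * eval x P := by
  have h := aeval_smul_homogeneous hP c x
  have h1 := congrArg (fun φ => φ P) (coe_aeval_eq_eval (c • x))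
  have h2 := congrArg (fun φ => φ P) (coe_aeval_eq_eval x)
  exact h1.symm.trans (h.trans (congrArg (fun a => c ^ e * a) h2))

theorem aeval_smul_hom {P : MvPolynomial (Fin 3) k} {e : ℕ} (hP : P.IsHomogeneous e) (c : L)
    (x : Fin 3 → L) : aeval (c • x) P = c ^ e * aeval x P :=
  aeval_smul_homogeneous hP c x

end

section

variable {k K : Type} [Field k] [Field K] [Algebra k K]

theorem eval_comp (F : Fin 3 → MvPolynomial (Fin 3) k) (P : MvPolynomial (Fin 3) K)
    (x : Fin 3 → K) : eval x (comp F P) = eval (step F x) P := by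
  have h : (eval x).comp (aeval (R := K) fun i => map (algebraMap k K) (F i)).toRingHom =
      eval (step F x) := by
    apply MvPolynomial.ringHom_ext
    · intro c
      simp
    · intro i
      simp only [AlgHom.toRingHom_eq_coe, RingHom.coe_comp, RingHom.coe_coe, Function.comp_apply,
        aeval_X, eval_X, eval_map]
      rfl
  exact congrArg (fun φ => φ P) h

theorem comp_hom {d : ℕ} {F : Fin 3 → MvPolynomial (Fin 3) k} (hF : IsEndo d F)
    {P : MvPolynomial (Fin 3) K} {e : ℕ} (hP : P.IsHomogeneous e) :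
    (comp F P).IsHomogeneous (d * e) := by
  unfold comp
  rw [aeval_def, eval₂_eq]
  apply IsHomogeneous.sum
  intro m hm
  have h1 : ((algebraMap K (MvPolynomial (Fin 3) K)) (coeff m P)).IsHomogeneous 0 :=
    isHomogeneous_C _ _
  have h2 : (∏ i ∈ m.support, (map (algebraMap k K) (F i)) ^ m i).IsHomogeneous
      (∑ i ∈ m.support, d * m i) := by
    apply IsHomogeneous.prod
    intro i _
    exact ((hF.hom i).map _).pow _
  have h3 : ∑ i ∈ m.support, d * m i = d * e := by
    rw [← Finset.mul_sum]
    congr 1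
    have := hP (mem_support_iff.1 hm)
    rw [Finsupp.weight_apply] at this
    simpa [Finsupp.sum] using this
  have h4 := h1.mul h2
  rwa [zero_add, h3] at h4

/-- The composition of polynomials over `k`. -/
noncomputable def compk (F : Fin 3 → MvPolynomial (Fin 3) k) (P : MvPolynomial (Fin 3) k) :
    MvPolynomial (Fin 3) k :=
  aeval F P

theorem aeval_compk (F : Fin 3 → MvPolynomial (Fin 3) k) (P : MvPolynomial (Fin 3) k)
    (x : Fin 3 → K) : aeval x (compk F P) = aeval (step F x) P := by
  unfold compk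
  have h : (aeval x).comp (aeval F) = aeval (step F x) := by
    apply MvPolynomial.algHom_ext
    intro i
    rw [AlgHom.comp_apply, aeval_X, aeval_X]
    rfl
  exact congrArg (fun φ => φ P) h

theorem compk_hom {d : ℕ} {F : Fin 3 → MvPolynomial (Fin 3) k} (hF : IsEndo d F)
    {P : MvPolynomial (Fin 3) k} {e : ℕ} (hP : P.IsHomogeneous e) :
    (compk F P).IsHomogeneous (d * e) := by
  have h := comp_hom (K := k) hF hP
  have h2 : comp (K := k) F P = compk F P := by
    unfold comp compk
    congr 2
    funext i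
    rw [Algebra.algebraMap_self, map_id]
  rwa [h2] at h

theorem eval_map_k (P : MvPolynomial (Fin 3) k) (x : Fin 3 → K) :
    eval x (map (algebraMap k K) P) = aeval x P := by
  rw [eval_map]; rfl

end

theorem free_map_succ {U : Ultrafilter ℕ} (hU : Free U) : Free (U.map Nat.succ) := by
  intro m
  rw [Ultrafilter.coe_map, Filter.eventually_map]
  filter_upwards [hU m] with n hn
  omega

theorem exists_pred {U : Ultrafilter ℕ} (hU : Free U) :
    ∃ U' : Ultrafilter ℕ, Free U' ∧ U'.map Nat.succ = U := by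
  refine ⟨U.map Nat.pred, ?_, ?_⟩
  · intro m
    rw [Ultrafilter.coe_map, Filter.eventually_map]
    filter_upwards [hU (m + 1)] with n hn
    exact Nat.le_pred_of_lt hn
  · rw [Ultrafilter.map_map]
    apply Ultrafilter.coe_injective
    rw [Ultrafilter.coe_map]
    have h : Nat.succ ∘ Nat.pred =ᶠ[(U : Filter ℕ)] id := by
      filter_upwards [hU 1] with n hn
      exact Nat.succ_pred_eq_of_pos hn
    rw [Filter.map_congr h, Filter.map_id]

end Pool.Agent.Helper30.TP
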