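import Pool.Agent.Helper30.TP.Form
import Pool.Agent.Helper30.TP.Basic

/-!
# Function fields generated by complex points
-/

set_option autoImplicit false

namespace Pool.Agent.Helper30.TP

open MvPolynomial
open Pool.Agent.Helper16 (Place IsFunctionField)
open Pool.Agent.Helper36 (step iter)

/-- A form vanishing at all points of an affine chart is zero. -/
theorem emb_form_eq_zero {k : Type} [Field k] [Infinite k] (i₀ : Fin 3)
    {P : MvPolynomial (Fin 3) k} {e : ℕ} (hP : P.IsHomogeneous e)
    (h : ∀ z : Fin 3 → k, z i₀ = 1 → eval z P = 0) : P = 0 := by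
  have h1 : X i₀ * P = 0 := by
    apply MvPolynomial.funext
    intro z
    rw [map_mul, eval_X, map_zero]
    by_cases hz : z i₀ = 0
    · rw [hz, zero_mul]
    · have h2 := h ((z i₀)⁻¹ • z) (by simp [hz])
      rw [eval_smul_hom hP] at h2
      rcases mul_eq_zero.1 h2 with h3 | h3
      · exact absurd h3 (pow_ne_zero _ (inv_ne_zero hz))
      · rw [h3, mul_zero]
  rcases mul_eq_zero.1 h1 with h2 | h2
  · exact absurd h2 (X_ne_zero _)
  · exact h2

/-- Algebraic elements over an algebraically closed field are constants. -/
theorem emb_mem_range {k L : Type} [Field k] [IsAlgClosed k] [Field L] [Algebra k L] {t : L}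
    (ht : IsAlgebraic k t) : ∃ c : k, algebraMap k L c = t :=
  minpoly.mem_range_of_degree_eq_one k t
    (IsAlgClosed.degree_eq_one_of_irreducible k (minpoly.irreducible ht.isIntegral))

theorem emb_adjoin_top {k L : Type} [Field k] [Field L] [Algebra k L] (s : Set L) :
    IntermediateField.adjoin k (Subtype.val ⁻¹' s : Set (IntermediateField.adjoin k s)) = ⊤ := by
  apply IntermediateField.lift_injective
  rw [IntermediateField.lift_adjoin, IntermediateField.lift_top, Set.image_preimage_eq_of_subset]
  intro a ha
  exact ⟨⟨a, IntermediateField.subset_adjoin k s ha⟩, rfl⟩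

theorem emb_isAlgebraic {k L : Type} [Field k] [Field L] [Algebra k L] (s : Set L) :
    Algebra.IsAlgebraic
      (Algebra.adjoin k (Subtype.val ⁻¹' s : Set (IntermediateField.adjoin k s)))
      (IntermediateField.adjoin k s) := by
  rw [← IntermediateField.isAlgebraic_adjoin_iff_top, emb_adjoin_top]
  refine ⟨fun a => ?_⟩
  exact isAlgebraic_algebraMap (R := (⊤ : IntermediateField k (IntermediateField.adjoin k s)))
    (A := IntermediateField.adjoin k s) ⟨a, trivial⟩

theorem emb_trdeg_le {k L : Type} [Field k] [Field L] [Algebra k L] (s : Set L) :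
    Algebra.trdeg k (IntermediateField.adjoin k s) ≤ Cardinal.mk s := by
  have := emb_isAlgebraic (k := k) s
  refine (Algebra.IsAlgebraic.trdeg_le_cardinalMk k
    (Subtype.val ⁻¹' s : Set (IntermediateField.adjoin k s))).trans ?_
  exact Cardinal.mk_preimage_of_injective _ _ Subtype.val_injective

/-- The field generated by the coordinates of a nonconstant complex point at which some nonzero form
over `k` vanishes is a function field of one variable. -/
theorem isFunctionField_of_form {k : Type} [Field k] [IsAlgClosed k] [Algebra k ℂ] (x : Fin 3 → ℂ)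
    (i₀ : Fin 3) (hx1 : x i₀ = 1) (hxc : ¬ IsConst k x) {P : MvPolynomial (Fin 3) k} {e : ℕ}
    (hP : P.IsHomogeneous e) (hP0 : P ≠ 0) (hPx : aeval x P = 0) :
    IsFunctionField k (IntermediateField.adjoin k (Set.range x)) := by
  have : Infinite k := IsAlgClosed.instInfinite
  refine ⟨IntermediateField.essFiniteType_iff.2
    (IntermediateField.fg_adjoin_of_finite (Set.finite_range x)), ?_⟩
  have := emb_isAlgebraic (k := k) (Set.range x)
  obtain ⟨T, hT, hTb⟩ := exists_isTranscendenceBasis_subset (R := k)
    (Subtype.val ⁻¹' (Set.range x) : Set (IntermediateField.adjoin k (Set.range x)))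
  have hcard := hTb.cardinalMk_eq_trdeg
  rw [← hcard]
  apply le_antisymm
  · rw [Cardinal.le_one_iff_subsingleton]
    refine ⟨fun a b => ?_⟩
    by_contra hab
    obtain ⟨i, hi⟩ := hT a.2
    obtain ⟨j, hj⟩ := hT b.2
    have hij : i ≠ j := by
      rintro rfl
      apply hab
      apply Subtype.ext
      apply Subtype.ext
      rw [← hi, ← hj]
    have key : ∀ (a : T) (i : Fin 3), x i = ((a : IntermediateField.adjoin k (Set.range x)) : ℂ) →
        i ≠ i₀ := by
      rintro a i hi rfl
      have h1 := hTb.1.transcendental a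
      apply h1
      have h2 : (a : IntermediateField.adjoin k (Set.range x)) = 1 := by
        apply Subtype.ext
        rw [← hi, hx1]
        rfl
      rw [h2]
      exact isAlgebraic_one
    have hi0 := key a i hi
    have hj0 := key b j hj
    let g : Fin 3 → MvPolynomial T k := fun l => if l = i₀ then 1 else if l = i then X a else X b
    have h1 : aeval g P = 0 := by
      apply (algebraicIndependent_iff.1 hTb.1)
      have h2 : ((IntermediateField.adjoin k (Set.range x)).val.comp
          ((aeval (fun a : T => (a : IntermediateField.adjoin k (Set.range x)))).comp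
            (aeval g))) = aeval x := by
        apply MvPolynomial.algHom_ext
        intro l
        rw [AlgHom.comp_apply, AlgHom.comp_apply, aeval_X, aeval_X]
        by_cases h3 : l = i₀
        · have h4 : g l = 1 := if_pos h3
          rw [h4, map_one, map_one, h3, hx1]
        · by_cases h5 : l = i
          · have h4 : g l = X a := by
              change (if l = i₀ then (1 : MvPolynomial T k) else if l = i then X a else X b) = _
              rw [if_neg h3, if_pos h5]
            rw [h4, aeval_X, h5, hi]
            rfl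
          · have h4 : g l = X b := by
              change (if l = i₀ then (1 : MvPolynomial T k) else if l = i then X a else X b) = _
              rw [if_neg h3, if_neg h5]
            have h6 : l = j := by
              fin_cases l <;> fin_cases i <;> fin_cases j <;> fin_cases i₀ <;> simp_all
            rw [h4, aeval_X, h6, hj]
            rfl
      have h3 := congrArg (fun φ => φ P) h2
      have h4 : (IntermediateField.adjoin k (Set.range x)).val
          (aeval (fun a : T => (a : IntermediateField.adjoin k (Set.range x))) (aeval g P)) = 0 :=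
        h3.trans hPx
      exact (map_eq_zero_iff _ (RingHom.injective _)).1 h4
    apply hP0
    apply emb_form_eq_zero i₀ hP
    intro z hz
    have h2 : (aeval (fun c : T => if c = a then z i else z j)).comp (aeval g) =
        (aeval z : MvPolynomial (Fin 3) k →ₐ[k] k) := by
      apply MvPolynomial.algHom_ext
      intro l
      rw [AlgHom.comp_apply, aeval_X, aeval_X]
      by_cases h3 : l = i₀
      · have h4 : g l = 1 := if_pos h3
        rw [h4, map_one, h3, hz]
      · by_cases h5 : l = i
        · have h4 : g l = X a := by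
            change (if l = i₀ then (1 : MvPolynomial T k) else if l = i then X a else X b) = _
            rw [if_neg h3, if_pos h5]
          rw [h4, aeval_X, if_pos rfl, h5]
        · have h4 : g l = X b := by
            change (if l = i₀ then (1 : MvPolynomial T k) else if l = i then X a else X b) = _
            rw [if_neg h3, if_neg h5]
          have h6 : l = j := by
            fin_cases l <;> fin_cases i <;> fin_cases j <;> fin_cases i₀ <;> simp_all
          rw [h4, aeval_X, if_neg (fun h => hab h.symm), h6]
    have h3 := congrArg (fun φ => φ P) h2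
    have h4 : aeval z P = 0 := by
      rw [← h3]
      change aeval _ (aeval g P) = 0
      rw [h1, map_zero]
    rwa [← coe_aeval_eq_eval]
  · rw [Cardinal.one_le_iff_ne_zero, hcard, trdeg_ne_zero_iff]
    by_contra hno
    apply hxc
    have h1 : ∀ i, ∃ c : k, algebraMap k ℂ c = x i := by
      intro i
      apply emb_mem_range
      by_contra h2
      apply hno
      refine ⟨⟨x i, IntermediateField.subset_adjoin _ _ ⟨i, rfl⟩⟩, fun h3 => h2 ?_⟩
      have h4 := h3.algHom (IntermediateField.adjoin k (Set.range x)).val
      exact h4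
    choose z hz using h1
    refine ⟨z, 1, one_ne_zero, ?_⟩
    funext i
    rw [hz, one_mul]

/-- The homogenisation of a polynomial in two variables. -/
noncomputable def emb_hom {k : Type} [Field k] (q : MvPolynomial (Fin 2) k) :
    MvPolynomial (Fin 3) k :=
  ∑ i ∈ Finset.range (q.totalDegree + 1),
    rename (Fin.castSucc : Fin 2 → Fin 3) (homogeneousComponent i q) * X 2 ^ (q.totalDegree - i)

theorem emb_hom_hom {k : Type} [Field k] (q : MvPolynomial (Fin 2) k) :
    (emb_hom q).IsHomogeneous q.totalDegree := by
  unfold emb_hom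
  apply IsHomogeneous.sum
  intro i hi
  have h1 : i ≤ q.totalDegree := Nat.lt_succ_iff.1 (Finset.mem_range.1 hi)
  have h2 : (rename (Fin.castSucc : Fin 2 → Fin 3) (homogeneousComponent i q)).IsHomogeneous i :=
    (homogeneousComponent_isHomogeneous i q).rename_isHomogeneous
  have h3 : (X 2 ^ (q.totalDegree - i) : MvPolynomial (Fin 3) k).IsHomogeneous
      (q.totalDegree - i) := isHomogeneous_X_pow _ _
  have h4 := h2.mul h3
  rwa [Nat.add_sub_cancel' h1] at h4

theorem emb_hom_ne_zero {k : Type} [Field k] {q : MvPolynomial (Fin 2) k} (hq : q ≠ 0) :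
    emb_hom q ≠ 0 := by
  intro h
  apply hq
  let g : Fin 3 → MvPolynomial (Fin 2) k := ![X 0, X 1, 1]
  have h1 : aeval g (emb_hom q) = q := by
    unfold emb_hom
    rw [map_sum]
    conv_rhs => rw [← sum_homogeneousComponent q]
    apply Finset.sum_congr rfl
    intro i _
    rw [map_mul, map_pow, aeval_X, aeval_rename]
    have h2 : g 2 = 1 := rfl
    rw [h2, one_pow, mul_one]
    have h3 : (g ∘ Fin.castSucc) = (X : Fin 2 → MvPolynomial (Fin 2) k) := by
      funext j
      fin_cases j <;> rfl
    rw [h3, aeval_X_left_apply]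
  rw [← h1, h, map_zero]

theorem emb_hom_aeval {k L : Type} [Field k] [Field L] [Algebra k L] (q : MvPolynomial (Fin 2) k)
    (c u v : L) : aeval ![c * u, c * v, c] (emb_hom q) = c ^ q.totalDegree * aeval ![u, v] q := by
  have hs : aeval ![u, v] q = ∑ i ∈ Finset.range (q.totalDegree + 1),
      aeval ![u, v] (homogeneousComponent i q) := by
    conv_lhs => rw [← sum_homogeneousComponent q]
    rw [map_sum]
  unfold emb_hom
  rw [map_sum, hs, Finset.mul_sum]
  apply Finset.sum_congr rfl
  intro i hi
  have h1 : i ≤ q.totalDegree := Nat.lt_succ_iff.1 (Finset.mem_range.1 hi)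
  rw [map_mul, map_pow, aeval_X, aeval_rename]
  have h2 : (![c * u, c * v, c] ∘ Fin.castSucc) = (fun j : Fin 2 => c * ![u, v] j) := by
    funext j
    fin_cases j <;> rfl
  rw [h2, Pool.Agent.Helper36.aeval_smul_homogeneous (homogeneousComponent_isHomogeneous i q)]
  have h3 : (![c * u, c * v, c] : Fin 3 → L) 2 = c := rfl
  rw [h3, mul_right_comm, ← pow_add, Nat.add_sub_cancel' h1]

/-- A line. -/
noncomputable def emb_line {k : Type} [Field k] (a b : k) : MvPolynomial (Fin 3) k :=
  X 0 + C a * X 1 + C b * X 2

theorem emb_line_hom {k : Type} [Field k] (a b : k) : (emb_line a b).IsHomogeneous 1 := by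
  unfold emb_line
  have h0 : (X 0 : MvPolynomial (Fin 3) k).IsHomogeneous 1 := isHomogeneous_X _ _
  have h1 : (C a * X 1 : MvPolynomial (Fin 3) k).IsHomogeneous (0 + 1) :=
    (isHomogeneous_C _ a).mul (isHomogeneous_X _ _)
  have h2 : (C b * X 2 : MvPolynomial (Fin 3) k).IsHomogeneous (0 + 1) :=
    (isHomogeneous_C _ b).mul (isHomogeneous_X _ _)
  rw [zero_add] at h1 h2
  exact (h0.add h1).add h2

theorem emb_line_aeval {k L : Type} [Field k] [Field L] [Algebra k L] (a b : k) (x : Fin 3 → L) :
    aeval x (emb_line a b) = x 0 + algebraMap k L a * x 1 + algebraMap k L b * x 2 := by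
  unfold emb_line
  rw [map_add, map_add, map_mul, map_mul, aeval_X, aeval_X, aeval_X, aeval_C, aeval_C]

theorem emb_line_ne_zero {k : Type} [Field k] (a b : k) : emb_line a b ≠ 0 := by
  intro h
  have h1 := emb_line_aeval (L := k) a b ![1, 0, 0]
  rw [h, map_zero] at h1
  simp at h1

/-- If no nonzero form over `k` vanishes at `x`, there is a larger algebraically closed field over
which `x` is not constant, but lies on a line without points over `k`. -/
theorem exists_big_field {k : Type} [Field k] [IsAlgClosed k] [Algebra k ℂ] (x : Fin 3 → ℂ)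
    (hno : ∀ (P : MvPolynomial (Fin 3) k) (e : ℕ), P.IsHomogeneous e → aeval x P = 0 → P = 0) :
    ∃ (k' : Type) (_ : Field k') (_ : IsAlgClosed k') (_ : Algebra k k') (_ : Algebra k' ℂ)
      (_ : IsScalarTower k k' ℂ) (t : k'), Transcendental k t ∧
        x 0 + algebraMap k' ℂ t * x 1 + algebraMap k' ℂ t ^ 2 * x 2 = 0 ∧ ¬ IsConst k' x := by
  have hx2 : x 2 ≠ 0 := by
    intro h
    exact absurd (hno (X 2) 1 (isHomogeneous_X _ _) (by rw [aeval_X, h])) (X_ne_zero _)
  obtain ⟨t, ht⟩ : ∃ t : ℂ, x 2 * (t * t) + x 1 * t + x 0 = 0 := by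
    obtain ⟨s, hs⟩ := IsAlgClosed.exists_eq_mul_self (discrim (x 2) (x 1) (x 0))
    exact exists_quadratic_eq_zero hx2 ⟨s, hs⟩
  have htt : Transcendental k t := by
    intro h
    obtain ⟨c, hc⟩ := emb_mem_range h
    apply emb_line_ne_zero c (c ^ 2)
    apply hno _ 1 (emb_line_hom c (c ^ 2))
    rw [emb_line_aeval, map_pow, hc]
    linear_combination ht
  let K0 := IntermediateField.adjoin k ({t} : Set ℂ)
  let K' := algebraicClosure K0 ℂ
  let t0 : K0 := ⟨t, IntermediateField.subset_adjoin _ _ rfl⟩
  let t' : K' := algebraMap K0 K' t0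
  have : IsAlgClosed K' := IsAlgClosure.isAlgClosed K0
  have htow : IsScalarTower k K' ℂ := IsScalarTower.of_algebraMap_eq (fun _ => rfl)
  have htow2 : IsScalarTower k K0 K' := IsScalarTower.of_algebraMap_eq (fun _ => rfl)
  have ht' : algebraMap K' ℂ t' = t := rfl
  refine ⟨K', inferInstance, inferInstance, inferInstance, inferInstance, htow, t', ?_, ?_, ?_⟩
  · intro h
    exact htt (h.algHom (IsScalarTower.toAlgHom k K' ℂ))
  · rw [ht']
    linear_combination ht
  · rintro ⟨z, c, hc, hx⟩
    have htr : Algebra.trdeg k K' ≤ 1 := by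
      rw [← trdeg_add_eq k K0 (A := K'), trdeg_eq_zero (R := K0) (A := K'), add_zero]
      have h1 := emb_trdeg_le (k := k) ({t} : Set ℂ)
      rwa [Cardinal.mk_singleton] at h1
    have hx' : ∀ i, x i = c * algebraMap K' ℂ (z i) := fun i => congrFun hx i
    have hz2 : z 2 ≠ 0 := by
      intro h
      apply hx2
      rw [hx', h, map_zero, mul_zero]
    have hno2 : ¬ AlgebraicIndependent k (![z 0 / z 2, z 1 / z 2] : Fin 2 → K') := by
      intro h
      have h1 := h.cardinalMk_le_trdeg
      have h2 := h1.trans htr
      rw [Cardinal.mk_fin] at h2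
      norm_num at h2
    rw [algebraicIndependent_iff] at hno2
    obtain ⟨q, hq'⟩ := not_forall.1 hno2
    obtain ⟨hq, hq0⟩ := Classical.not_imp.1 hq'
    apply emb_hom_ne_zero hq0
    apply hno _ _ (emb_hom_hom q)
    have h1 := emb_hom_aeval q (x 2) (algebraMap K' ℂ (z 0 / z 2)) (algebraMap K' ℂ (z 1 / z 2))
    have h2 : (![algebraMap K' ℂ (z 0 / z 2), algebraMap K' ℂ (z 1 / z 2)] : Fin 2 → ℂ) =
        algebraMap K' ℂ ∘ (![z 0 / z 2, z 1 / z 2] : Fin 2 → K') := by
      funext i
      fin_cases i <;> rfl
    have h3 : aeval (![algebraMap K' ℂ (z 0 / z 2), algebraMap K' ℂ (z 1 / z 2)] : Fin 2 → ℂ) q =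
        0 := by
      rw [h2, aeval_algebraMap_apply, hq, map_zero]
    have h4 : algebraMap K' ℂ (z 2) ≠ 0 := by
      rw [Ne, map_eq_zero_iff _ (RingHom.injective _)]
      exact hz2
    have h5 : x = ![x 2 * algebraMap K' ℂ (z 0 / z 2), x 2 * algebraMap K' ℂ (z 1 / z 2), x 2] := by
      funext i
      fin_cases i
      · change x 0 = x 2 * algebraMap K' ℂ (z 0 / z 2)
        rw [hx' 0, hx' 2, map_div₀]
        field_simp
      · change x 1 = x 2 * algebraMap K' ℂ (z 1 / z 2)
        rw [hx' 1, hx' 2, map_div₀]
        field_simp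
      · rfl
    rw [h5, h1, h3, mul_zero]

end Pool.Agent.Helper30.TP
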