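import Pool.Agent.Helper30.TP.PtHeight

/-!
# Places over a given point; unions of progressions
-/

set_option autoImplicit false

namespace Pool.Agent.Helper30.TP

open MvPolynomial
open Pool.Agent.Helper16 (Place IsFunctionField)
open Pool.Agent.Helper36 (step iter)

/-- Dehomogenisation: a polynomial which vanishes at `x / x i₀` also vanishes at `z / z i₀`. -/
theorem Plc_dehom {k K : Type} [Field k] [Field K] [Algebra k K] (x : Fin 3 → K) (z : Fin 3 → k)
    (h : ∀ (P : MvPolynomial (Fin 3) k) (e : ℕ), P.IsHomogeneous e →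
      aeval x P = 0 → eval z P = 0) (i0 : Fin 3) (hx : x i0 ≠ 0) (hz : z i0 ≠ 0)
    (P : MvPolynomial (Fin 3) k) (hP : aeval (fun i => (x i0)⁻¹ * x i) P = 0) :
    aeval (fun i => (z i0)⁻¹ * z i) P = 0 := by
  have key : ∀ {L : Type} [Field L] [Algebra k L] (y : Fin 3 → L) (hy : y i0 ≠ 0),
      aeval y (∑ j ∈ Finset.range (P.totalDegree + 1),
        X i0 ^ (P.totalDegree - j) * homogeneousComponent j P) =
      y i0 ^ P.totalDegree * aeval (fun i => (y i0)⁻¹ * y i) P := by
    intro L _ _ y hy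
    have h0 : aeval (fun i => (y i0)⁻¹ * y i) P =
        ∑ j ∈ Finset.range (P.totalDegree + 1),
          aeval (fun i => (y i0)⁻¹ * y i) (homogeneousComponent j P) := by
      rw [← map_sum, sum_homogeneousComponent]
    rw [h0, map_sum, Finset.mul_sum]
    refine Finset.sum_congr rfl fun j hj => ?_
    have hj' : j ≤ P.totalDegree := Nat.lt_succ_iff.1 (Finset.mem_range.1 hj)
    rw [map_mul, map_pow, aeval_X,
      Pool.Agent.Helper36.aeval_smul_homogeneous (homogeneousComponent_isHomogeneous j P)]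
    have h2 : y i0 ^ P.totalDegree = y i0 ^ (P.totalDegree - j) * y i0 ^ j := by
      rw [← pow_add, Nat.sub_add_cancel hj']
    rw [h2, inv_pow, mul_assoc, mul_inv_cancel_left₀ (pow_ne_zero _ hy)]
  have hhom : (∑ j ∈ Finset.range (P.totalDegree + 1),
      (X i0 : MvPolynomial (Fin 3) k) ^ (P.totalDegree - j) *
        homogeneousComponent j P).IsHomogeneous P.totalDegree := by
    refine IsHomogeneous.sum _ _ _ fun j hj => ?_
    have hj' : j ≤ P.totalDegree := Nat.lt_succ_iff.1 (Finset.mem_range.1 hj)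
    have h1 := ((isHomogeneous_X k i0).pow (P.totalDegree - j)).mul
      (homogeneousComponent_isHomogeneous j P)
    have h2 : 1 * (P.totalDegree - j) + j = P.totalDegree := by omega
    rwa [h2] at h1
  have h3 := h _ _ hhom (by rw [key x hx, hP, mul_zero])
  have h4 := key (L := k) z hz
  have h5 : aeval z (∑ j ∈ Finset.range (P.totalDegree + 1),
      (X i0 : MvPolynomial (Fin 3) k) ^ (P.totalDegree - j) * homogeneousComponent j P) = 0 :=
    (congrArg (fun φ => φ (∑ j ∈ Finset.range (P.totalDegree + 1),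
      (X i0 : MvPolynomial (Fin 3) k) ^ (P.totalDegree - j) * homogeneousComponent j P))
      (MvPolynomial.coe_aeval_eq_eval z)).trans h3
  rw [h5] at h4
  exact (mul_eq_zero.1 h4.symm).resolve_left (pow_ne_zero _ hz)

theorem exists_place_red {k K : Type} [Field k] [IsAlgClosed k] [Field K] [Algebra k K]
    (hK : IsFunctionField k K) (x : Fin 3 → K) (hx : x ≠ 0) (hxc : ¬ IsConst k x) (z : Fin 3 → k)
    (hz : z ≠ 0) (h : ∀ (P : MvPolynomial (Fin 3) k) (e : ℕ), P.IsHomogeneous e →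
      aeval x P = 0 → eval z P = 0) : ∃ b : Place k K, Red b x z := by
  obtain ⟨i0, hz0⟩ : ∃ i, z i ≠ 0 := by
    by_contra hcon
    push Not at hcon
    exact hz (funext hcon)
  have hx0 : x i0 ≠ 0 := by
    intro h0
    apply hz0
    have h1 := h (X i0) 1 (isHomogeneous_X k i0) (by rw [aeval_X, h0])
    rwa [eval_X] at h1
  obtain ⟨u, hu⟩ : ∃ u : Fin 3 → K, u = fun i => (x i0)⁻¹ * x i := ⟨_, rfl⟩
  obtain ⟨w, hw⟩ : ∃ w : Fin 3 → k, w = fun i => (z i0)⁻¹ * z i := ⟨_, rfl⟩
  have hker : ∀ P : MvPolynomial (Fin 3) k, aeval u P = 0 → aeval w P = 0 := by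
    intro P hP
    rw [hw]
    exact Plc_dehom x z h i0 hx0 hz0 P (by rw [← hu]; exact hP)
  -- the ring and the ideal
  let φ : MvPolynomial (Fin 3) k →+* K := (aeval u : MvPolynomial (Fin 3) k →ₐ[k] K).toRingHom
  let ψ : MvPolynomial (Fin 3) k →+* k := (aeval w : MvPolynomial (Fin 3) k →ₐ[k] k).toRingHom
  have hφ : ∀ P, φ P = aeval u P := fun P => rfl
  have hψ : ∀ P, ψ P = aeval w P := fun P => rfl
  let I : Ideal φ.range := (RingHom.ker ψ).map φ.rangeRestrict
  have hI : I ≠ ⊤ := by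
    intro htop
    have h1 : (1 : φ.range) ∈ I := by rw [htop]; trivial
    rw [Ideal.mem_map_iff_of_surjective _ φ.rangeRestrict_surjective] at h1
    obtain ⟨P, hP1, hP2⟩ := h1
    have h2 : φ P = 1 := congrArg Subtype.val hP2
    have h3 : φ (P - 1) = 0 := by rw [map_sub, h2, map_one, sub_self]
    have h4 : ψ (P - 1) = 0 := hker _ h3
    rw [map_sub, (RingHom.mem_ker.1 hP1), map_one, zero_sub, neg_eq_zero] at h4
    exact one_ne_zero h4
  obtain ⟨B, hB1, hB2⟩ := Ideal.image_subset_nonunits_valuationSubring I hI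
  have hmem : ∀ i, u i - algebraMap k K (w i) ∈ B.nonunits := by
    intro i
    apply hB2
    refine ⟨φ.rangeRestrict (X i - C (w i)), ?_, ?_⟩
    · apply Ideal.mem_map_of_mem
      rw [RingHom.mem_ker, hψ, map_sub, aeval_X, aeval_C]
      exact sub_self _
    · show φ (X i - C (w i)) = _
      rw [hφ, map_sub, aeval_X, aeval_C]
  have hkB : ∀ a : k, algebraMap k K a ∈ B := by
    intro a
    apply hB1
    refine ⟨C a, ?_⟩
    rw [hφ, aeval_C]
  -- a non-trivial element
  obtain ⟨j, hj⟩ : ∃ j, u j - algebraMap k K (w j) ≠ 0 := by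
    by_contra hcon
    push Not at hcon
    apply hxc
    refine ⟨w, x i0, hx0, funext fun i => ?_⟩
    rw [← sub_eq_zero.1 (hcon i), hu]
    rw [mul_inv_cancel_left₀ hx0]
  have hjB : (u j - algebraMap k K (w j))⁻¹ ∉ B :=
    (B.mem_nonunits_iff_or.1 (hmem j)).resolve_left hj
  obtain ⟨v, hv⟩ := hK.exists_place B hkB _ hjB
  refine ⟨v, hz, algebraMap k K (z i0) * (x i0)⁻¹, ?_, ?_⟩
  · refine mul_ne_zero ?_ (inv_ne_zero hx0)
    simpa using hz0
  · intro i
    have h1 : algebraMap k K (z i0) * (x i0)⁻¹ * x i - algebraMap k K (z i) =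
        algebraMap k K (z i0) * (u i - algebraMap k K (w i)) := by
      have hz1 : algebraMap k K (z i0) ≠ 0 := by simpa using hz0
      rw [hu, hw]
      rw [map_mul, map_inv₀, mul_sub, mul_inv_cancel_left₀ hz1, mul_assoc]
    have hlt : v.val (u i - algebraMap k K (w i)) < 1 := by
      rcases eq_or_ne (u i - algebraMap k K (w i)) 0 with h0 | h0
      · rw [h0, map_zero]
        exact zero_lt_one
      · have h2 : (u i - algebraMap k K (w i))⁻¹ ∉ B :=
          (B.mem_nonunits_iff_or.1 (hmem i)).resolve_left h0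
        rw [← hv, not_le, map_inv₀] at h2
        by_contra hcon
        rw [not_lt] at hcon
        have h3 : (v.val (u i - algebraMap k K (w i)))⁻¹ ≤ 1 := inv_le_one_of_one_le₀ hcon
        exact absurd h2 (not_lt.2 h3)
    rw [h1, map_mul]
    calc v.val (algebraMap k K (z i0)) * v.val (u i - algebraMap k K (w i))
        ≤ 1 * v.val (u i - algebraMap k K (w i)) :=
          mul_le_mul_left (v.val_algebraMap_le _) _
      _ = v.val (u i - algebraMap k K (w i)) := one_mul _
      _ < 1 := hlt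

/-- The progression with difference `q` which starts at `r`. -/
def Plc_ap (p : ℕ × ℕ) : Set ℕ := {n | ∃ m, n = p.1 * m + p.2}

theorem union_of_ultra (S : Set ℕ)
    (h : ∀ U : Ultrafilter ℕ, Free U → S ∈ U → ∃ q r : ℕ, {n | ∃ m, n = q * m + r} ∈ U ∧
      {n | ∃ m, n = q * m + r} ⊆ S) :
    ∃ T : Finset (ℕ × ℕ), S = {n : ℕ | ∃ p ∈ T, ∃ m : ℕ, n = p.1 * m + p.2} := by
  classical
  by_cases hcov : ∃ T : Finset (ℕ × ℕ), (∀ p ∈ T, Plc_ap p ⊆ S) ∧
      (S \ ⋃ p ∈ T, Plc_ap p).Finite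
  · obtain ⟨T, hT, hfin⟩ := hcov
    refine ⟨T ∪ hfin.toFinset.image fun n => ((0 : ℕ), n), ?_⟩
    ext n
    simp only [Set.mem_ofPred_eq, Finset.mem_union, Finset.mem_image, Set.Finite.mem_toFinset]
    constructor
    · intro hn
      by_cases hn1 : n ∈ ⋃ p ∈ T, Plc_ap p
      · rw [Set.mem_iUnion₂] at hn1
        obtain ⟨p, hp, hn2⟩ := hn1
        exact ⟨p, Or.inl hp, hn2⟩
      · exact ⟨(0, n), Or.inr ⟨n, ⟨hn, hn1⟩, rfl⟩, 0, by simp⟩
    · rintro ⟨p, hp | ⟨n', hn', rfl⟩, m, hm⟩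
      · exact hT p hp ⟨m, hm⟩
      · have : n = n' := by simpa using hm
        rw [this]
        exact hn'.1
  · exfalso
    push Not at hcov
    -- the filter
    let F : Filter ℕ :=
      { sets := {A | ∃ (T : Finset (ℕ × ℕ)) (E : Finset ℕ), (∀ p ∈ T, Plc_ap p ⊆ S) ∧
          (S \ ⋃ p ∈ T, Plc_ap p) \ (E : Set ℕ) ⊆ A}
        univ_sets := ⟨∅, ∅, by simp, Set.subset_univ _⟩
        sets_of_superset := by
          rintro A A' ⟨T, E, hT, hA⟩ hAA'
          exact ⟨T, E, hT, hA.trans hAA'⟩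
        inter_sets := by
          rintro A A' ⟨T, E, hT, hA⟩ ⟨T', E', hT', hA'⟩
          refine ⟨T ∪ T', E ∪ E', ?_, ?_⟩
          · intro p hp
            rcases Finset.mem_union.1 hp with hp | hp
            · exact hT p hp
            · exact hT' p hp
          · rintro n ⟨⟨hn1, hn2⟩, hn3⟩
            rw [Set.mem_iUnion₂] at hn2
            rw [Finset.coe_union] at hn3
            refine ⟨hA ⟨⟨hn1, ?_⟩, fun h0 => hn3 (Or.inl h0)⟩,
              hA' ⟨⟨hn1, ?_⟩, fun h0 => hn3 (Or.inr h0)⟩⟩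
            · rw [Set.mem_iUnion₂]
              rintro ⟨p, hp, hn4⟩
              exact hn2 ⟨p, Finset.mem_union_left _ hp, hn4⟩
            · rw [Set.mem_iUnion₂]
              rintro ⟨p, hp, hn4⟩
              exact hn2 ⟨p, Finset.mem_union_right _ hp, hn4⟩ }
    have hmemF : ∀ A : Set ℕ, A ∈ F ↔ ∃ (T : Finset (ℕ × ℕ)) (E : Finset ℕ),
        (∀ p ∈ T, Plc_ap p ⊆ S) ∧ (S \ ⋃ p ∈ T, Plc_ap p) \ (E : Set ℕ) ⊆ A := fun A => Iff.rfl
    have : F.NeBot := by
      rw [Filter.neBot_iff]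
      intro hbot
      have h1 : (∅ : Set ℕ) ∈ F := by rw [hbot]; exact Filter.mem_bot
      obtain ⟨T, E, hT, hE⟩ := (hmemF _).1 h1
      apply hcov T hT
      refine (Finset.finite_toSet E).subset ?_
      intro n hn
      by_contra hn1
      exact hE ⟨hn, hn1⟩
    have hle : (Ultrafilter.of F : Filter ℕ) ≤ F := Ultrafilter.of_le F
    have hfree : Free (Ultrafilter.of F) := by
      intro m
      apply hle
      refine ⟨∅, Finset.range m, by simp, ?_⟩
      rintro n ⟨-, hn⟩
      rw [Finset.coe_range] at hn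
      exact not_lt.1 (fun h0 => hn (Set.mem_Iio.2 h0))
    have hS : S ∈ Ultrafilter.of F := by
      apply hle
      refine ⟨∅, ∅, by simp, ?_⟩
      rintro n ⟨⟨hn, -⟩, -⟩
      exact hn
    obtain ⟨q, r, h1, h2⟩ := h _ hfree hS
    have h3 : ({n | ∃ m, n = q * m + r}ᶜ : Set ℕ) ∈ Ultrafilter.of F := by
      apply hle
      refine ⟨{(q, r)}, ∅, ?_, ?_⟩
      · intro p hp
        rw [Finset.mem_singleton.1 hp]
        exact h2
      · rintro n ⟨⟨-, hn⟩, -⟩ hn1
        apply hn
        rw [Set.mem_iUnion₂]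
        exact ⟨(q, r), Finset.mem_singleton_self _, hn1⟩
    exact (Ultrafilter.compl_mem_iff_notMem.1 h3) h1

end Pool.Agent.Helper30.TP
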