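import Pool.Agent.Helper30.TP.LFin
import Pool.Agent.Helper30.TP.PtHeight
import Pool.Agent.Helper30.TP.Two
import Pool.Agent.Helper30.TP.Basic
import Pool.Agent.Helper30.TP.Form
import Pool.Agent.Helper30.TP.Ultra

/-!
# Constant points
-/

set_option autoImplicit false

namespace Pool.Agent.Helper30.TP

open MvPolynomial
open Pool.Agent.Helper16 (Place IsFunctionField)
open Pool.Agent.Helper36 (step iter)

/-- a nonzero form which vanishes at a point has an irreducible factor which vanishes there -/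
theorem const_exists_factor {k L : Type} [Field k] [Field L] [Algebra k L]
    {Φ : MvPolynomial (Fin 3) k} {e : ℕ} (hΦ : Φ.IsHomogeneous e) (h0 : Φ ≠ 0) (x : Fin 3 → L)
    (hx : aeval x Φ = 0) :
    ∃ (φ : MvPolynomial (Fin 3) k) (i : ℕ), φ.IsHomogeneous i ∧ 0 < i ∧ Irreducible φ ∧
      φ ∣ Φ ∧ aeval x φ = 0 := by
  obtain ⟨f, hf, u, hu⟩ := UniqueFactorizationMonoid.exists_prime_factors Φ h0
  have h1 : aeval x f.prod = 0 := by
    rw [← hu, map_mul] at hx
    refine (mul_eq_zero.1 hx).resolve_right ?_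
    exact (u.isUnit.map (aeval x)).ne_zero
  rw [map_multiset_prod, Multiset.prod_eq_zero_iff, Multiset.mem_map] at h1
  obtain ⟨φ, hφf, hφ⟩ := h1
  have hdvd : φ ∣ Φ := (Multiset.dvd_prod hφf).trans (hu ▸ Dvd.intro _ rfl)
  obtain ⟨i, -, hi⟩ := form_of_dvd hΦ h0 hdvd
  refine ⟨φ, i, hi, ?_, (hf φ hφf).irreducible, hdvd, hφ⟩
  by_contra hi0
  have hi1 : i = 0 := by omega
  subst hi1
  have h2 : φ = C (coeff 0 φ) := by
    rw [← totalDegree_eq_zero_iff_eq_C]
    exact Nat.le_zero.1 hi.totalDegree_le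
  rw [h2, aeval_C] at hφ
  have h3 : coeff 0 φ = 0 := (map_eq_zero (algebraMap k L)).1 hφ
  rw [h3, C_0] at h2
  exact (hf φ hφf).ne_zero h2

/-- a linear form over `k` vanishing at `z` but not at `x` -/
theorem const_exists_linear {k L : Type} [Field k] [Field L] [Algebra k L] (x : Fin 3 → L)
    (hx : x ≠ 0) (hxc : ¬ IsConst k x) (z : Fin 3 → k) (hz : z ≠ 0) :
    ∃ Λ : MvPolynomial (Fin 3) k, Λ.IsHomogeneous 1 ∧ eval z Λ = 0 ∧ aeval x Λ ≠ 0 := by
  by_contra hcon
  push Not at hcon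
  obtain ⟨i, hi⟩ := Function.ne_iff.1 hz
  have hi' : algebraMap k L (z i) ≠ 0 := fun h => hi ((map_eq_zero (algebraMap k L)).1 h)
  have h1 : ∀ j, algebraMap k L (z i) * x j = algebraMap k L (z j) * x i := by
    intro j
    have h2 := hcon (C (z i) * X j - C (z j) * X i)
      (((isHomogeneous_C_mul_X (z i) j)).sub (isHomogeneous_C_mul_X (z j) i))
      (by simp [mul_comm])
    simp only [map_sub, map_mul, aeval_C, aeval_X] at h2
    exact sub_eq_zero.1 h2
  have h2 : ∀ j, x j = x i / algebraMap k L (z i) * algebraMap k L (z j) := by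
    intro j
    rw [div_mul_eq_mul_div, eq_div_iff hi', mul_comm, h1 j, mul_comm]
  apply hxc
  refine ⟨z, x i / algebraMap k L (z i), ?_, funext h2⟩
  intro h3
  apply hx
  funext j
  rw [h2 j, h3, zero_mul]
  rfl

theorem dvd_of_common_zero {k L : Type} [Field k] [IsAlgClosed k] [Field L] [Algebra k L]
    {φ ψ : MvPolynomial (Fin 3) k} {e t : ℕ} (hφ : φ.IsHomogeneous e) (hψ : ψ.IsHomogeneous t)
    (hirr : Irreducible φ) (x : Fin 3 → L) (hx : x ≠ 0) (hxc : ¬ IsConst k x)
    (h1 : aeval x φ = 0) (h2 : aeval x ψ = 0) : φ ∣ ψ := by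
  classical
  by_contra hnd
  let st : Setoid {z : Fin 3 → k // z ≠ 0} :=
    ⟨fun z w => PEq z.1 w.1, ⟨fun z => PEq.refl _, fun h => h.symm, fun h h' => h.trans h'⟩⟩
  let y : Quotient st → Fin 3 → k := fun q => (Quotient.out q).1
  have hy0 : ∀ q, y q ≠ 0 := fun q => (Quotient.out q).2
  have hfin := finite_common_zeros hφ hψ hirr hnd y hy0 (by
    intro p q hpq h
    apply hpq
    rw [← Quotient.out_eq p, ← Quotient.out_eq q]
    exact Quotient.sound h)
  choose Λ hΛ1 hΛ2 hΛ3 using fun q => const_exists_linear x hx hxc (y q) (hy0 q)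
  obtain ⟨i₀, hi₀⟩ := Function.ne_iff.1 hx
  obtain ⟨P, hP⟩ : ∃ P : MvPolynomial (Fin 3) k, P = X i₀ * ∏ q ∈ hfin.toFinset, Λ q := ⟨_, rfl⟩
  have hPmem : P ∈ (Ideal.span {φ, ψ}).radical := by
    rw [← vanishingIdeal_zeroLocus_eq_radical (K := k), mem_vanishingIdeal_iff]
    intro z hz
    have hz1 : eval z φ = 0 := hz φ (Ideal.subset_span (by simp))
    have hz2 : eval z ψ = 0 := hz ψ (Ideal.subset_span (by simp))
    rw [hP, map_mul]
    by_cases hz0 : z = 0
    · subst hz0
      simp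
    · have h3 : PEq (y (Quotient.mk st ⟨z, hz0⟩)) z := by
        have h4 : st (Quotient.out (Quotient.mk st ⟨z, hz0⟩)) ⟨z, hz0⟩ := Quotient.mk_out _
        exact h4
      have h5 : PEq z (y (Quotient.mk st ⟨z, hz0⟩)) := h3.symm
      obtain ⟨c, hc, hcy⟩ := h5
      obtain ⟨c', hc', hcy'⟩ := h3
      have hq : Quotient.mk st ⟨z, hz0⟩ ∈ hfin.toFinset := by
        rw [Set.Finite.mem_toFinset]
        show eval (y _) φ = 0 ∧ eval (y _) ψ = 0
        rw [hcy, eval_smul_hom hφ, eval_smul_hom hψ, hz1, hz2, mul_zero, mul_zero]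
        exact ⟨rfl, rfl⟩
      have h6 : aeval z (∏ q ∈ hfin.toFinset, Λ q) = 0 := by
        rw [map_prod]
        refine Finset.prod_eq_zero hq ?_
        show eval z _ = 0
        have h7 : eval z (Λ (Quotient.mk st ⟨z, hz0⟩)) =
            eval (c' • y (Quotient.mk st ⟨z, hz0⟩)) (Λ (Quotient.mk st ⟨z, hz0⟩)) := by
          rw [← hcy']
        rw [h7, eval_smul_hom (hΛ1 _), hΛ2, mul_zero]
      rw [h6, mul_zero]
  obtain ⟨n, hn⟩ := hPmem
  obtain ⟨a, b, hab⟩ := Ideal.mem_span_pair.1 hn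
  have h3 : aeval x P ≠ 0 := by
    rw [hP, map_mul, aeval_X, map_prod]
    exact mul_ne_zero hi₀ (Finset.prod_ne_zero_iff.2 fun q _ => hΛ3 q)
  apply pow_ne_zero n h3
  rw [← map_pow, ← hab, map_add, map_mul, map_mul, h1, h2, mul_zero, mul_zero, add_zero]

/-- a form of positive degree is not a unit -/
theorem const_not_isUnit {K : Type} [Field K] {f : MvPolynomial (Fin 3) K} {e : ℕ}
    (hf : f.IsHomogeneous e) (he : 0 < e) : ¬ IsUnit f := by
  intro hu
  have h1 : IsUnit (eval (0 : Fin 3 → K) f) := hu.map (eval (0 : Fin 3 → K))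
  have h2 : eval (0 : Fin 3 → K) f = 0 := by
    have h3 := eval_smul_hom hf 0 (0 : Fin 3 → K)
    rwa [smul_zero, zero_pow he.ne', zero_mul] at h3
  rw [h2] at h1
  exact not_isUnit_zero h1

theorem overK_of_common_zero {k K L : Type} [Field k] [IsAlgClosed k] [Field K] [Algebra k K]
    [Field L] [Algebra k L] {g : MvPolynomial (Fin 3) K} {D : ℕ} (hg : g.IsHomogeneous D)
    (hirr : Irreducible g) (y : Fin 3 → L) (hy : y ≠ 0) (hyc : ¬ IsConst k y)
    (h : ∀ ℓ : K →ₗ[k] k, aeval y (lam ℓ g) = 0) : OverK k g := by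
  classical
  obtain ⟨m, hm⟩ : ∃ m, coeff m g ≠ 0 := by
    by_contra hcon
    push Not at hcon
    exact hirr.ne_zero (MvPolynomial.ext _ _ fun m => by rw [hcon m, coeff_zero])
  let B := Module.Basis.ofVectorSpace k K
  obtain ⟨i, hi⟩ : ∃ i, B.repr (coeff m g) i ≠ 0 := by
    by_contra hcon
    push Not at hcon
    exact hm ((map_eq_zero_iff B.repr B.repr.injective).1 (Finsupp.ext hcon))
  have h0 : lam (B.coord i) g ≠ 0 := by
    intro h1
    apply hi
    rw [← Module.Basis.coord_apply, ← ultra_coeff_lam, h1, coeff_zero]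
  obtain ⟨φ, e, hφ, he, hφi, -, hφy⟩ :=
    const_exists_factor (ultra_lam_hom (B.coord i) hg) h0 y (h _)
  have hdvd : ∀ ℓ : K →ₗ[k] k, φ ∣ lam ℓ g := fun ℓ =>
    dvd_of_common_zero hφ (ultra_lam_hom ℓ hg) hφi y hy hyc hφy (h ℓ)
  obtain ⟨s, hs⟩ := ultra_expand B g
  have h1 : map (algebraMap k K) φ ∣ g := by
    rw [hs]
    exact Finset.dvd_sum fun l _ => Dvd.dvd.mul_left (map_dvd _ (hdvd _)) _
  obtain ⟨u, hu⟩ := h1
  have h2 : IsUnit u := (hirr.isUnit_or_isUnit hu).resolve_left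
    (const_not_isUnit (hφ.map _) he)
  rw [isUnit_iff_eq_C_of_isReduced] at h2
  obtain ⟨c, hc, rfl⟩ := h2
  exact ⟨c, φ, hc.ne_zero, by rw [hu, mul_comm]⟩

theorem exists_irreducible_form {k K : Type} [Field k] [IsAlgClosed k] [Field K] [Algebra k K]
    (hK : IsFunctionField k K) (x : Fin 3 → K) (hx : x ≠ 0) :
    ∃ (e : ℕ) (φ : MvPolynomial (Fin 3) k), φ.IsHomogeneous e ∧ 0 < e ∧ Irreducible φ ∧
      aeval x φ = 0 := by
  classical
  obtain ⟨i, hi⟩ := Function.ne_iff.1 hx
  have hi : x i ≠ 0 := hi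
  obtain ⟨a, ha⟩ : ∃ a : Fin 3 → K, a = fun j => x j / x i := ⟨_, rfl⟩
  have hxa : x = x i • a := by
    funext j
    rw [Pi.smul_apply, ha, smul_eq_mul, mul_div_cancel₀ _ hi]
  have hnot : ¬ AlgebraicIndependent k (fun j : {j : Fin 3 // j ≠ i} => a j) := by
    intro hind
    have h1 := hind.cardinalMk_le_trdeg
    rw [hK.2, Cardinal.mk_fintype] at h1
    have h2 : Fintype.card {j : Fin 3 // j ≠ i} = 2 := by
      rw [Fintype.card_subtype_compl, Fintype.card_fin, Fintype.card_subtype_eq]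
    rw [h2] at h1
    have h3 : (2 : ℕ) ≤ 1 := by exact_mod_cast h1
    omega
  rw [algebraicIndependent_iff] at hnot
  push Not at hnot
  obtain ⟨P, hP, hP0⟩ := hnot
  obtain ⟨Q, hQ⟩ : ∃ Q : MvPolynomial (Fin 3) k, Q = rename Subtype.val P := ⟨_, rfl⟩
  have hQ0 : Q ≠ 0 := by
    rw [hQ]
    intro h
    exact hP0 ((map_eq_zero_iff _ (rename_injective _ Subtype.val_injective)).1 h)
  have hQa : aeval a Q = 0 := by
    rw [hQ, aeval_rename]
    exact hP
  obtain ⟨N, hN⟩ : ∃ N, N = Q.totalDegree := ⟨_, rfl⟩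
  obtain ⟨Φ, hΦ⟩ : ∃ Φ : MvPolynomial (Fin 3) k,
    Φ = ∑ d ∈ Finset.range (N + 1), X i ^ (N - d) * homogeneousComponent d Q := ⟨_, rfl⟩
  have hΦh : Φ.IsHomogeneous N := by
    rw [hΦ]
    refine IsHomogeneous.sum _ _ _ fun d hd => ?_
    have h1 : (N - d) + d = N := by
      have := Finset.mem_range.1 hd
      omega
    have h2 := ((isHomogeneous_X k i).pow (N - d)).mul (homogeneousComponent_isHomogeneous d Q)
    rwa [one_mul, h1] at h2
  have hΦx : aeval x Φ = 0 := by
    have h1 : ∀ d ∈ Finset.range (N + 1),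
        aeval x (X i ^ (N - d) * homogeneousComponent d Q) =
          x i ^ N * aeval a (homogeneousComponent d Q) := by
      intro d hd
      have h2 : N = (N - d) + d := by
        have := Finset.mem_range.1 hd
        omega
      have h3 : aeval x (homogeneousComponent d Q) =
          x i ^ d * aeval a (homogeneousComponent d Q) := by
        conv_lhs => rw [hxa]
        exact aeval_smul_hom (homogeneousComponent_isHomogeneous d Q) (x i) a
      rw [map_mul, map_pow, aeval_X, h3, ← mul_assoc, ← pow_add, ← h2]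
    rw [hΦ, map_sum, Finset.sum_congr rfl h1, ← Finset.mul_sum, ← map_sum, hN,
      sum_homogeneousComponent, hQa, mul_zero]
  have hΦ0 : Φ ≠ 0 := by
    intro h
    apply hQ0
    have h1 := congrArg (aeval (fun j : Fin 3 => if j = i then (1 : MvPolynomial (Fin 3) k)
      else X j)) h
    rw [map_zero, hΦ, map_sum] at h1
    have h2 : ∀ d ∈ Finset.range (N + 1),
        aeval (fun j : Fin 3 => if j = i then (1 : MvPolynomial (Fin 3) k) else X j)
          (X i ^ (N - d) * homogeneousComponent d Q) =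
        aeval (fun j : Fin 3 => if j = i then (1 : MvPolynomial (Fin 3) k) else X j)
          (homogeneousComponent d Q) := by
      intro d _
      rw [map_mul, map_pow, aeval_X, if_pos rfl, one_pow, one_mul]
    rw [Finset.sum_congr rfl h2, ← map_sum, hN, sum_homogeneousComponent, hQ, aeval_rename] at h1
    have h3 : ((fun j : Fin 3 => if j = i then (1 : MvPolynomial (Fin 3) k) else X j) ∘
        Subtype.val : {j : Fin 3 // j ≠ i} → MvPolynomial (Fin 3) k) =
        (X : Fin 3 → MvPolynomial (Fin 3) k) ∘ Subtype.val := by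
      funext j
      show (if (j : Fin 3) = i then (1 : MvPolynomial (Fin 3) k) else X (j : Fin 3)) =
        X (j : Fin 3)
      rw [if_neg j.2]
    rw [h3] at h1
    rw [hQ, ← aeval_X_left_apply (rename Subtype.val P), aeval_rename]
    exact h1
  obtain ⟨φ, e, h1, h2, h3, -, h4⟩ := const_exists_factor hΦh hΦ0 x hΦx
  exact ⟨e, φ, h1, h2, h3, h4⟩

end Pool.Agent.Helper30.TP
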