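import Pool.Agent.Helper30.TP.Ret
import Pool.Agent.Helper30.TP.Const
import Pool.Agent.Helper30.TP.Two

/-!
# Orbits which meet a curve over `k` infinitely often
-/

set_option autoImplicit false

namespace Pool.Agent.Helper30.TP

open MvPolynomial
open Pool.Agent.Helper16 (Place IsFunctionField)
open Pool.Agent.Helper36 (step iter iter_zero iter_succ iter_succ' iter_add iter_map)

variable {k K : Type} [Field k] [IsAlgClosed k] [Field K] [Algebra k K]

theorem exists_factor_infinite (F : Fin 3 → MvPolynomial (Fin 3) k) (x : Fin 3 → K)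
    {P : MvPolynomial (Fin 3) k} {e : ℕ} (hP : P.IsHomogeneous e)
    (hP0 : P ≠ 0) (hinf : {n | aeval (iter F x n) P = 0}.Infinite) :
    ∃ (ρ : MvPolynomial (Fin 3) k) (t : ℕ), ρ.IsHomogeneous t ∧ Irreducible ρ ∧
      {n | aeval (iter F x n) ρ = 0}.Infinite := by
  induction e using Nat.strong_induction_on generalizing P with
  | _ e ih =>
    by_cases hirr : Irreducible P
    · exact ⟨P, e, hP, hirr, hinf⟩
    have hnu : ¬ IsUnit P := by
      intro h
      obtain ⟨n, hn⟩ := hinf.nonempty
      have hn' : aeval (iter F x n) P = 0 := hn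
      have := h.map (aeval (iter F x n) : MvPolynomial (Fin 3) k →ₐ[k] K)
      rw [hn'] at this
      exact not_isUnit_zero this
    rw [irreducible_iff] at hirr
    push Not at hirr
    obtain ⟨a, b, hab, ha, hb⟩ := hirr hnu
    obtain ⟨i, j, hai, hbj, hij⟩ := form_of_mul hP hP0 hab
    have ha0 : a ≠ 0 := fun h => hP0 (by rw [hab, h, zero_mul])
    have hb0 : b ≠ 0 := fun h => hP0 (by rw [hab, h, mul_zero])
    have hunit : ∀ (c : MvPolynomial (Fin 3) k), c.IsHomogeneous 0 → c ≠ 0 → IsUnit c := by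
      intro c hc hc0
      have h1 := totalDegree_eq_zero_iff_eq_C.1 (Nat.le_zero.1 hc.totalDegree_le)
      rw [h1]
      exact (Ne.isUnit fun h => hc0 (by rw [h1, h, C_0])).map C
    have hi : i ≠ 0 := fun h => ha (hunit a (h ▸ hai) ha0)
    have hj : j ≠ 0 := fun h => hb (hunit b (h ▸ hbj) hb0)
    have hsub : {n | aeval (iter F x n) P = 0} ⊆
        {n | aeval (iter F x n) a = 0} ∪ {n | aeval (iter F x n) b = 0} := by
      intro n hn
      have hn' : aeval (iter F x n) P = 0 := hn
      rw [hab, map_mul, mul_eq_zero] at hn'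
      exact hn'
    rcases Set.infinite_union.1 (hinf.mono hsub) with h | h
    · exact ih i (by omega) hai ha0 h
    · exact ih j (by omega) hbj hb0 h

/-- If a nonzero form over `k` vanishes at infinitely many points of the orbit, then the forms
attached to the ultrafilters are defined over `k`. -/
theorem overK_of_infinite (hK : IsFunctionField k K) {d : ℕ}
    {F : Fin 3 → MvPolynomial (Fin 3) k} (hF : IsEndo d F) {x : Fin 3 → K} (hx : x ≠ 0)
    (hxc : ¬ IsConst k x) {P : MvPolynomial (Fin 3) k} {e : ℕ} (hP : P.IsHomogeneous e)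
    (hP0 : P ≠ 0) (hinf : {n | aeval (iter F x n) P = 0}.Infinite)
    {U : Ultrafilter ℕ} (hU : Free U) {g : MvPolynomial (Fin 3) K} {D : ℕ}
    (hg : Gen (iter F x) U g D) : OverK k g := by
  obtain ⟨ρ, t, hρh, hρ, hρinf⟩ := exists_factor_infinite F x hP hP0 hinf
  obtain ⟨q, r, hqr⟩ := progression hK hF hx hxc hρh hρ hρinf
  have hq : 0 < q := by
    by_contra h
    have h0 : q = 0 := by omega
    apply hρinf
    rw [hqr]
    refine (Set.finite_singleton r).subset ?_
    rintro n ⟨m, rfl⟩
    simp [h0]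
  have hmem : ∀ m, aeval (iter F x (r + q * m)) ρ = 0 := by
    intro m
    have : r + q * m ∈ {n | aeval (iter F x n) ρ = 0} := by
      rw [hqr]
      exact ⟨m, by ring⟩
    exact this
  -- the residue class
  obtain ⟨i, hi, hiU⟩ : ∃ i < q, {n | r ≤ n ∧ (n - r) % q = i} ∈ U := by
    have h1 : (⋃ i ∈ (Set.Iio q), {n | r ≤ n ∧ (n - r) % q = i}) ∈ U := by
      refine Filter.mem_of_superset (hU r) fun n hn => ?_
      rw [Set.mem_iUnion₂]
      exact ⟨(n - r) % q, Nat.mod_lt _ hq, hn, rfl⟩
    rw [Ultrafilter.finite_biUnion_mem_iff (Set.finite_Iio q)] at h1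
    obtain ⟨i, hi, h2⟩ := h1
    exact ⟨i, hi, h2⟩
  obtain ⟨e', φ, hφ, he', hφi, hφ0⟩ := exists_irreducible_form hK (iter F x (r + i))
    (iter_ne_zero hF hx _)
  obtain ⟨t', ht'⟩ := compk_iter_hom hF hφ i
  have h1 : ρ ∣ (compk F)^[i] φ := dvd_compk hK hF hx hxc hρh ht' hρ r (hmem 0) (by
    rw [aeval_compk_iter, ← iter_add, add_comm]; exact hφ0)
  have h2 : ∀ᶠ n in (U : Filter ℕ), eval (iter F x n) (map (algebraMap k K) φ) = 0 := by
    refine Filter.mem_of_superset hiU ?_
    rintro n ⟨hn, hni⟩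
    obtain ⟨s, hs⟩ := h1
    have h3 : n = r + q * ((n - r) / q) + i := by
      have := Nat.div_add_mod (n - r) q
      omega
    change eval (iter F x n) (map (algebraMap k K) φ) = 0
    rw [eval_map_k, h3, add_comm _ i, iter_add, ← aeval_compk_iter, hs, map_mul, hmem, zero_mul]
  exact overK_of_dvd_map hK hφi.ne_zero (hg.dvd' (hφ.map _) h2)

end Pool.Agent.Helper30.TP
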