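import Pool.Agent.Helper30.TP.JLoc
import Pool.Agent.Helper30.TP.Low
import Pool.Agent.Helper30.TP.Crit

/-!
# The case in which all cycles are superattracting
-/

set_option autoImplicit false

namespace Pool.Agent.Helper30.TP

open MvPolynomial
open Pool.Agent.Helper16 (Place IsFunctionField)
open Pool.Agent.Helper36 (step iter iter_zero iter_succ iter_succ' iter_add iter_map)

variable {k K : Type} [Field k] [IsAlgClosed k] [Field K] [Algebra k K]

theorem sum_support_finite {α : Type*} {ι : Type*} (s : Finset ι) (f : ι → α → ℤ)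
    (h : ∀ i ∈ s, (Function.support (f i)).Finite) :
    (Function.support fun a => ∑ i ∈ s, f i a).Finite := by
  refine (s.finite_toSet.biUnion fun i hi => h i hi).subset ?_
  intro a ha
  by_contra hcon
  apply ha
  apply Finset.sum_eq_zero
  intro i hi
  by_contra h0
  exact hcon (Set.mem_biUnion (Finset.mem_coe.2 hi) h0)

theorem finsum_sum_swap {α : Type*} {ι : Type*} (s : Finset ι) (f : ι → α → ℤ)
    (h : ∀ i ∈ s, (Function.support (f i)).Finite) :
    ∑ᶠ a, ∑ i ∈ s, f i a = ∑ i ∈ s, ∑ᶠ a, f i a :=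
  (finsum_sum_comm s (fun a i => f i a) h)

theorem sup_overK [CharZero k] (hK : IsFunctionField k K) {d : ℕ}
    {F : Fin 3 → MvPolynomial (Fin 3) k} (hF : IsEndo d F) {x : Fin 3 → K} (hx : x ≠ 0)
    (hxc : ¬ IsConst k x)
    (hnil : ∀ (b : Place k K) (z : Fin 3 → k), Red b x z → ∀ n N : ℕ, 0 < N →
      PEq (iter F z n) (iter F z (n + N)) →
        ∃ c : k, (mult F (iter F z n) N).charpoly =
          Polynomial.X ^ 2 * (Polynomial.X - Polynomial.C c))
    {U : Ultrafilter ℕ} (hU : Free U) {g : MvPolynomial (Fin 3) K} {D : ℕ}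
    (hg : Gen (iter F x) U g D) : OverK k g := by
  classical
  by_cases hcrit : {n | aeval (iter F x n) (jf F) = 0}.Infinite
  · exact overK_of_infinite hK hF hx hxc (jf_hom hF.hom) (jf_ne_zero hF) hcrit hU hg
  exfalso
  rw [Set.not_infinite] at hcrit
  obtain ⟨n₀, hn₀⟩ : ∃ n₀, ∀ n, n₀ ≤ n → aeval (iter F x n) (jf F) ≠ 0 := by
    obtain ⟨m, hm⟩ := hcrit.bddAbove
    refine ⟨m + 1, fun n hn h => ?_⟩
    have := hm h
    omega
  set S : Set ℕ := {n | n₀ ≤ n ∧ eval (iter F x n) g = 0} with hS
  have hSU : S ∈ U := by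
    filter_upwards [hU n₀, hg.van] with n h1 h2
    exact ⟨h1, h2⟩
  have hSinf : S.Infinite := by
    intro hfin
    obtain ⟨n, hn1, hn2⟩ := ultra_exists_notMem hU hfin hSU
    exact hn2 hn1
  have hne : ∀ n, iter F x n ≠ 0 := fun n => iter_ne_zero hF hx n
  have hdist := iter_distinct hK hF hx hxc
  obtain ⟨Γ, C, E, hΓS, hE, hlow⟩ := sum_ht_cross_le hK hSinf (fun n _ => hne n)
    (fun n _ n' _ h => hdist n n' h) hg.hom hg.irreducible (fun n hn => hn.2) 4
  set Cst : ℤ := ∑ i ∈ Γ, ∑ j ∈ Γ.erase i, ∑ᶠ b : Place k K, cl b (iter F x i) (iter F x j)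
    with hCst
  have hht : ∀ n, ht k (iter F x n) = d ^ n * ht k x := ht_iter hK hF x hx
  have hht1 : 1 ≤ ht k x := one_le_ht hK x hx hxc
  have hd2 : (2 : ℤ) ≤ d := by exact_mod_cast hF.two_le
  -- the upper bound for the contacts
  have hkey : ∀ n ∈ S, n ∉ E → (∀ i ∈ Γ, i < n) →
      ht k (iter F x n) ≤ Cst + C - ∑ i ∈ Γ, ht k (iter F x i) := by
    intro n hn hnE hlt
    have hn0 : n₀ ≤ n := hn.1
    have hjo : ∀ l ∈ Finset.Ico n₀ n, aeval (iter F x l) (jf F) ≠ 0 := fun l hl =>
      hn₀ l (Finset.mem_Ico.1 hl).1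
    have hloc : ∀ b : Place k K, ∑ i ∈ Γ, cl b (iter F x i) (iter F x n) ≤
        ∑ l ∈ Finset.Ico n₀ n, jo d F b (iter F x l) +
          ∑ i ∈ Γ, ∑ j ∈ Γ.erase i, cl b (iter F x i) (iter F x j) := by
      intro b
      have hnn : ∀ l ∈ Finset.Ico n₀ n, 0 ≤ jo d F b (iter F x l) := fun l hl =>
        jo_nonneg hF b (hjo l hl)
      refine sum_cl_le b Γ (iter F x) (iter F x n) (fun i _ => hne i) (hne n)
        (fun i hi => hdist i n (hlt i hi).ne) (fun i _ j _ hij => hdist i j hij)
        (Finset.sum_nonneg hnn) ?_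
      intro i hi
      by_cases hpos : 0 < cl b (iter F x i) (iter F x n)
      · obtain ⟨z, hz⟩ := exists_red hK b x hx
        have h1 := peq_of_cl_pos (hne i) (hne n) (hdist i n (hlt i hi).ne) hpos
          (hz.iter hF i) (hz.iter hF n)
        obtain ⟨N, hN⟩ := Nat.exists_eq_add_of_lt (hlt i hi)
        have hN' : n = i + (N + 1) := by omega
        obtain ⟨c, hc⟩ := hnil b z hz i (N + 1) (Nat.succ_pos _) (by rw [← hN']; exact h1)
        have hn' : iter F (iter F x i) (N + 1) = iter F x n := by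
          rw [← iter_add, hN', add_comm]
        have h2 := cl_le_jo hF (hne i) (hz.iter hF i) (N + 1) (Nat.succ_pos _) (by
          rw [← iter_add, add_comm, ← hN']; exact h1) c hc (by
          rw [hn']; exact hdist i n (hlt i hi).ne) (by
          intro l hl
          rw [← iter_add]
          exact hn₀ _ (by have := (hΓS hi).1; omega))
        rw [hn'] at h2
        refine h2.trans ?_
        have h3 : ∑ l ∈ Finset.range (N + 1), jo d F b (iter F (iter F x i) l) =
            ∑ l ∈ Finset.Ico i n, jo d F b (iter F x l) := by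
          rw [Finset.sum_Ico_eq_sum_range, hN', Nat.add_sub_cancel_left]
          refine Finset.sum_congr rfl fun l _ => ?_
          rw [← iter_add, add_comm]
        rw [h3]
        refine Finset.sum_le_sum_of_subset_of_nonneg ?_ fun l hl _ => hnn l hl
        exact Finset.Ico_subset_Ico_left (hΓS hi).1
      · exact (not_lt.1 hpos).trans (Finset.sum_nonneg hnn)
    -- sum over the places
    have hsupp1 : ∀ i ∈ Γ, (Function.support fun b : Place k K =>
        cl b (iter F x i) (iter F x n)).Finite := fun i hi =>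
      cl_support hK (hne i) (hne n) (hdist i n (hlt i hi).ne)
    have hsupp2 : ∀ l ∈ Finset.Ico n₀ n, (Function.support fun b : Place k K =>
        jo d F b (iter F x l)).Finite := fun l hl => jo_support hK hF (hjo l hl)
    have hsupp3 : ∀ i ∈ Γ, ∀ j ∈ Γ.erase i, (Function.support fun b : Place k K =>
        cl b (iter F x i) (iter F x j)).Finite := fun i _ j hj =>
      cl_support hK (hne i) (hne j) (hdist i j (Finset.ne_of_mem_erase hj).symm)
    have hs3 : ∀ i ∈ Γ, (Function.support fun b : Place k K => ∑ j ∈ Γ.erase i,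
        cl b (iter F x i) (iter F x j)).Finite := fun i hi =>
      sum_support_finite _ _ (hsupp3 i hi)
    have hfs2 := sum_support_finite (Finset.Ico n₀ n) (fun l (b : Place k K) =>
      jo d F b (iter F x l)) hsupp2
    have hfs3 := sum_support_finite Γ (fun i (b : Place k K) => ∑ j ∈ Γ.erase i,
        cl b (iter F x i) (iter F x j)) hs3
    have hglob : ∑ᶠ b : Place k K, ∑ i ∈ Γ, cl b (iter F x i) (iter F x n) ≤
        ∑ᶠ b : Place k K, (∑ l ∈ Finset.Ico n₀ n, jo d F b (iter F x l) +
          ∑ i ∈ Γ, ∑ j ∈ Γ.erase i, cl b (iter F x i) (iter F x j)) := by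
      exact finsum_le_finsum' (sum_support_finite Γ _ hsupp1)
        ((hfs2.union hfs3).subset (Function.support_add _ _)) hloc
    rw [finsum_sum_swap Γ _ hsupp1, finsum_add_distrib hfs2 hfs3, finsum_sum_swap _ _ hsupp2,
      finsum_sum_swap _ _ hs3] at hglob
    have h4 : ∑ i ∈ Γ, ∑ᶠ b : Place k K, ∑ j ∈ Γ.erase i, cl b (iter F x i) (iter F x j) =
        Cst := by
      rw [hCst]
      exact Finset.sum_congr rfl fun i hi => finsum_sum_swap _ _ (hsupp3 i hi)
    have h5 : ∑ i ∈ Γ, ∑ᶠ b : Place k K, cl b (iter F x i) (iter F x n) =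
        ∑ i ∈ Γ, ht k (iter F x i) + Γ.card * ht k (iter F x n) -
          ∑ i ∈ Γ, ht k (crossProduct (iter F x i) (iter F x n)) := by
      rw [← nsmul_eq_mul, ← Finset.sum_const, ← Finset.sum_add_distrib, ← Finset.sum_sub_distrib]
      exact Finset.sum_congr rfl fun i hi =>
        finsum_cl hK (hne i) (hne n) (hdist i n (hlt i hi).ne)
    have h6 : ∑ l ∈ Finset.Ico n₀ n, ∑ᶠ b : Place k K, jo d F b (iter F x l) ≤
        3 * ht k (iter F x n) := by
      have h7 : ∀ m, ∑ l ∈ Finset.range m, 3 * ((d : ℤ) - 1) * (d ^ l * ht k x) ≤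
          3 * (d ^ m * ht k x) := by
        intro m
        induction m with
        | zero => simp; omega
        | succ m ih =>
          rw [Finset.sum_range_succ]
          refine (add_le_add_left ih _).trans (le_of_eq ?_)
          ring
      calc ∑ l ∈ Finset.Ico n₀ n, ∑ᶠ b : Place k K, jo d F b (iter F x l)
          = ∑ l ∈ Finset.Ico n₀ n, 3 * ((d : ℤ) - 1) * (d ^ l * ht k x) :=
            Finset.sum_congr rfl fun l hl => by rw [finsum_jo hK hF (hjo l hl), hht]
        _ ≤ ∑ l ∈ Finset.range n, 3 * ((d : ℤ) - 1) * (d ^ l * ht k x) := by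
            refine Finset.sum_le_sum_of_subset_of_nonneg ?_ fun l _ _ => ?_
            · intro l hl
              exact Finset.mem_range.2 (Finset.mem_Ico.1 hl).2
            · have : (0 : ℤ) ≤ d ^ l * ht k x := by positivity
              have h8 : (0 : ℤ) ≤ 3 * ((d : ℤ) - 1) := by omega
              exact mul_nonneg h8 this
        _ ≤ 3 * ht k (iter F x n) := by rw [hht]; exact h7 n
    have h9 := hlow n hn hnE
    rw [h4, h5] at hglob
    push_cast at h9
    nlinarith [hglob, h6, h9]
  -- conclusion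
  set B : ℤ := Cst + C - ∑ i ∈ Γ, ht k (iter F x i) with hB
  obtain ⟨n, hnS, hn⟩ := (hSinf.sdiff (hE.union (Set.finite_le_nat (Γ.sup id + B.toNat + 1)))).nonempty
  rw [Set.mem_union, not_or] at hn
  have hn2 : ¬ n ≤ Γ.sup id + B.toNat + 1 := hn.2
  have h1 := hkey n hnS hn.1 (fun i hi => by
    have : i ≤ Γ.sup id := Finset.le_sup (f := id) hi
    omega)
  rw [hht] at h1
  have h2 : (n : ℤ) < d ^ n := by
    have h3 : n < 2 ^ n := Nat.lt_two_pow_self
    have h4 : 2 ^ n ≤ d ^ n := Nat.pow_le_pow_left hF.two_le n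
    exact_mod_cast h3.trans_le h4
  have h3 : (d : ℤ) ^ n ≤ d ^ n * ht k x := le_mul_of_one_le_right (by positivity) hht1
  have h4 : B ≤ B.toNat := Int.self_le_toNat B
  omega

end Pool.Agent.Helper30.TP
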