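import Pool.Agent.Helper30.TP.LFin
import Pool.Agent.Helper30.TP.Form

/-!
# Points of a plane curve which impose independent conditions
-/

set_option autoImplicit false

namespace Pool.Agent.Helper30.TP

open MvPolynomial

variable {K : Type} [Field K]

theorem finrank_forms (K : Type) [Field K] (m : ℕ) :
    FiniteDimensional K (homogeneousSubmodule (Fin 3) K m) ∧
      Module.finrank K (homogeneousSubmodule (Fin 3) K m) = (m + 2).choose 2 := by
  classical
  let b : (Finset.finsuppAntidiag (Finset.univ : Finset (Fin 3)) m) → MvPolynomial (Fin 3) K :=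
    fun e => monomial e.1 1
  have hb : LinearIndependent K b :=
    (basisMonomials (Fin 3) K).linearIndependent.comp _ Subtype.val_injective
  have hs : Submodule.span K (Set.range b) = homogeneousSubmodule (Fin 3) K m := by
    apply le_antisymm
    · rw [Submodule.span_le]
      rintro _ ⟨e, rfl⟩
      refine (mem_homogeneousSubmodule _ _).2 (isHomogeneous_monomial _ ?_)
      have := (Finset.mem_finsuppAntidiag.1 e.2).1
      rw [Finsupp.degree_eq_sum]
      exact this
    · intro p hp
      rw [p.as_sum]
      refine Submodule.sum_mem _ fun e he => ?_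
      have h1 : (monomial e (coeff e p) : MvPolynomial (Fin 3) K) =
          coeff e p • monomial e 1 := by
        rw [smul_monomial, smul_eq_mul, mul_one]
      rw [h1]
      refine Submodule.smul_mem _ _ (Submodule.subset_span ⟨⟨e, ?_⟩, rfl⟩)
      rw [Finset.mem_finsuppAntidiag]
      refine ⟨?_, Finset.subset_univ _⟩
      have h2 : e.degree = m := by
        by_contra hc
        exact (mem_support_iff.1 he) (((mem_homogeneousSubmodule _ _).1 hp).coeff_eq_zero hc)
      rw [← h2, Finsupp.degree_eq_sum]
  refine ⟨?_, ?_⟩
  · rw [← hs]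
    exact FiniteDimensional.span_of_finite K (Set.finite_range b)
  · rw [← hs, finrank_span_eq_card hb, Fintype.card_coe,
      Finset.card_finsuppAntidiag_nat_eq_choose, Finset.card_univ, Fintype.card_fin,
      show 3 + m - 1 = m + 2 by omega]
    exact Nat.choose_symm_add

/-- evaluation of forms at a point -/
noncomputable def dimEv (x : Fin 3 → K) (m : ℕ) :
    Module.Dual K (homogeneousSubmodule (Fin 3) K m) :=
  (aeval x : MvPolynomial (Fin 3) K →ₐ[K] K).toLinearMap ∘ₗ
    (homogeneousSubmodule (Fin 3) K m).subtype

theorem dimEv_apply (x : Fin 3 → K) (m : ℕ) (P : homogeneousSubmodule (Fin 3) K m) :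
    dimEv x m P = eval x (P : MvPolynomial (Fin 3) K) := by
  show aeval x (P : MvPolynomial (Fin 3) K) = _
  rw [← MvPolynomial.coe_aeval_eq_eval]
  rfl

/-- independent functionals take arbitrary values -/
theorem dim_surj {V κ : Type*} [AddCommGroup V] [Module K V] [Fintype κ]
    (f : κ → Module.Dual K V) (hf : LinearIndependent K f) :
    Function.Surjective (LinearMap.pi f : V →ₗ[K] κ → K) := by
  classical
  rw [← LinearMap.range_eq_top]
  by_contra hne
  obtain ⟨g, hg0, hg⟩ := Submodule.exists_le_ker_of_lt_top _ (lt_top_iff_ne_top.2 hne)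
  apply hg0
  have h1 : ∑ j, g (Pi.single j 1) • f j = 0 := by
    ext P
    have h2 : g (LinearMap.pi f P) = 0 := hg ⟨P, rfl⟩
    have h3 : (LinearMap.pi f P : κ → K) = ∑ j, f j P • (Pi.single j (1 : K) : κ → K) := by
      ext i
      simp [Finset.sum_apply, Pi.single_apply]
    rw [h3, map_sum] at h2
    simp only [map_smul, smul_eq_mul] at h2
    rw [LinearMap.sum_apply, LinearMap.zero_apply]
    simp only [LinearMap.smul_apply, smul_eq_mul]
    rw [← h2]
    exact Finset.sum_congr rfl fun j _ => mul_comm _ _
  have h4 := Fintype.linearIndependent_iff.1 hf _ h1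
  apply LinearMap.pi_ext'
  intro j
  ext
  simpa using h4 j

/-- The infinitely many points `x n`, `n ∈ S`, lie on the irreducible curve `g = 0` of degree `D`.
There are finitely many of them which impose the same conditions as all of them on the forms of
degree `m`, and impose independent conditions. -/
theorem exists_basis_points {x : ℕ → Fin 3 → K} {S : Set ℕ} (hS : S.Infinite)
    (hx : ∀ n ∈ S, x n ≠ 0) (hnp : ∀ n ∈ S, ∀ n' ∈ S, n ≠ n' → ¬ PEq (x n) (x n'))
    {g : MvPolynomial (Fin 3) K} {D : ℕ} (hg : g.IsHomogeneous D) (hirr : Irreducible g)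
    (hgx : ∀ n ∈ S, eval (x n) g = 0) (m : ℕ) :
    ∃ Γ : Finset ℕ, (↑Γ ⊆ S) ∧
      (∀ P : MvPolynomial (Fin 3) K, P.IsHomogeneous m → (∀ i ∈ Γ, eval (x i) P = 0) → g ∣ P) ∧
      (∀ v : ℕ → K, ∃ P : MvPolynomial (Fin 3) K, P.IsHomogeneous m ∧
        ∀ i ∈ Γ, eval (x i) P = v i) ∧
      (D ≤ m → Γ.card + (m - D + 2).choose 2 = (m + 2).choose 2) := by
  classical
  obtain ⟨hfin, hdim⟩ := finrank_forms K m
  obtain ⟨κ, a, hainj, haspan, hali⟩ :=
    exists_linearIndependent' K (fun n : S => dimEv (x n) m)
  have hκ : Finite κ := hali.finite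
  have : Fintype κ := Fintype.ofFinite κ
  have hinj : Function.Injective fun j => (a j : ℕ) := Subtype.val_injective.comp hainj
  -- vanishing at the chosen points
  have key : ∀ P : MvPolynomial (Fin 3) K, P.IsHomogeneous m →
      (∀ j, eval (x (a j)) P = 0) → g ∣ P := by
    intro P hP h0
    by_contra hnd
    have h1 : ∀ n ∈ S, eval (x n) P = 0 := by
      intro n hn
      have h2 : dimEv (x n) m ∈ Submodule.span K
          (Set.range ((fun n : S => dimEv (x n) m) ∘ a)) := by
        rw [haspan]
        exact Submodule.subset_span ⟨⟨n, hn⟩, rfl⟩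
      have h3 : ∀ f ∈ Submodule.span K (Set.range ((fun n : S => dimEv (x n) m) ∘ a)),
          f ⟨P, (mem_homogeneousSubmodule _ _).2 hP⟩ = 0 := by
        intro f hf
        induction hf using Submodule.span_induction with
        | mem f hf =>
          obtain ⟨j, rfl⟩ := hf
          rw [Function.comp_apply, dimEv_apply]
          exact h0 j
        | zero => rfl
        | add f f' _ _ h h' => rw [LinearMap.add_apply, h, h', add_zero]
        | smul c f _ h => rw [LinearMap.smul_apply, h, smul_zero]
      have h4 := h3 _ h2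
      rwa [dimEv_apply] at h4
    have h5 := finite_common_zeros hg hP hirr hnd (fun n : S => x n) (fun n => hx n n.2)
      (fun i j hij => hnp i i.2 j j.2 fun h => hij (Subtype.ext h))
    have h6 : {i : S | eval (x i) g = 0 ∧ eval (x i) P = 0} = Set.univ := by
      ext i
      simp only [Set.mem_ofPred_eq, Set.mem_univ, iff_true]
      exact ⟨hgx i i.2, h1 i i.2⟩
    rw [h6] at h5
    exact hS (Set.finite_coe_iff.1 (Set.finite_univ_iff.1 h5))
  have hsurj := dim_surj _ hali
  refine ⟨Finset.univ.image fun j => (a j : ℕ), ?_, ?_, ?_, ?_⟩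
  · intro n hn
    simp only [Finset.coe_image, Finset.coe_univ, Set.image_univ, Set.mem_range] at hn
    obtain ⟨j, rfl⟩ := hn
    exact (a j).2
  · intro P hP h0
    exact key P hP fun j => h0 _ (Finset.mem_image_of_mem _ (Finset.mem_univ j))
  · intro v
    obtain ⟨P, hP⟩ := hsurj fun j => v (a j)
    refine ⟨P, (mem_homogeneousSubmodule _ _).1 P.2, ?_⟩
    intro i hi
    obtain ⟨j, -, rfl⟩ := Finset.mem_image.1 hi
    have h1 := congrFun hP j
    rwa [LinearMap.pi_apply, Function.comp_apply, dimEv_apply] at h1
  · intro hDm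
    rw [Finset.card_image_of_injective _ hinj, Finset.card_univ]
    obtain ⟨hfin', hdim'⟩ := finrank_forms K (m - D)
    -- multiplication by `g`
    let ψ : homogeneousSubmodule (Fin 3) K (m - D) →ₗ[K] homogeneousSubmodule (Fin 3) K m :=
      { toFun := fun Q => ⟨g * Q, (mem_homogeneousSubmodule _ _).2 (by
          have := hg.mul ((mem_homogeneousSubmodule _ _).1 Q.2)
          rwa [show D + (m - D) = m by omega] at this)⟩
        map_add' := fun Q Q' => Subtype.ext (by
          simp only [Submodule.coe_add]
          ring)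
        map_smul' := fun c Q => Subtype.ext (by
          simp only [Submodule.coe_smul, RingHom.id_apply, mul_smul_comm]) }
    have hψ : Function.Injective ψ := by
      intro Q Q' h
      have h1 : g * (Q : MvPolynomial (Fin 3) K) = g * Q' := congrArg Subtype.val h
      exact Subtype.ext (mul_left_cancel₀ hirr.ne_zero h1)
    have hker : LinearMap.ker (LinearMap.pi ((fun n : S => dimEv (x n) m) ∘ a)) =
        LinearMap.range ψ := by
      apply le_antisymm
      · intro P hP
        rw [LinearMap.mem_ker] at hP
        obtain ⟨q, hq⟩ := key P ((mem_homogeneousSubmodule _ _).1 P.2) (by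
          intro j
          have h1 := congrFun hP j
          rwa [LinearMap.pi_apply, Function.comp_apply, dimEv_apply] at h1)
        by_cases hP0 : (P : MvPolynomial (Fin 3) K) = 0
        · have : P = 0 := Subtype.ext hP0
          rw [this]
          exact Submodule.zero_mem _
        · obtain ⟨i, j, hi, hj, hij⟩ := form_of_mul ((mem_homogeneousSubmodule _ _).1 P.2) hP0 hq
          have h2 : i = D := hi.inj_right hg hirr.ne_zero
          refine ⟨⟨q, (mem_homogeneousSubmodule _ _).2 ?_⟩, Subtype.ext hq.symm⟩
          rwa [show m - D = j by omega]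
      · rintro _ ⟨Q, rfl⟩
        rw [LinearMap.mem_ker]
        funext j
        rw [LinearMap.pi_apply, Function.comp_apply, dimEv_apply]
        show eval (x (a j)) (g * (Q : MvPolynomial (Fin 3) K)) = 0
        rw [map_mul, hgx _ (a j).2, zero_mul]
    have h1 := LinearMap.finrank_range_add_finrank_ker
      (LinearMap.pi ((fun n : S => dimEv (x n) m) ∘ a))
    rw [hker, LinearMap.finrank_range_of_inj hψ, LinearMap.range_eq_top.2 hsurj, finrank_top,
      Module.finrank_fintype_fun_eq_card, hdim, hdim'] at h1
    exact h1

end Pool.Agent.Helper30.TP
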