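import Pool.Agent.Helper30.TP.PtHeight
import Mathlib.LinearAlgebra.CrossProduct

/-!
# The contact of two points at a place
-/

set_option autoImplicit false

namespace Pool.Agent.Helper30.TP

open MvPolynomial
open Pool.Agent.Helper16 (Place IsFunctionField)
open Pool.Agent.Helper36 (step iter)

variable {k K : Type} [Field k] [Field K] [Algebra k K]

/-- The contact of the points `x` and `y` at the place `b`. -/
noncomputable def cl (b : Place k K) (x y : Fin 3 → K) : ℤ :=
  WithZero.log (nrm b x) + WithZero.log (nrm b y) - WithZero.log (nrm b (crossProduct x y))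

theorem Cl_cross_apply {L : Type} [Field L] (x y : Fin 3 → L) :
    crossProduct x y 0 = x 1 * y 2 - x 2 * y 1 ∧ crossProduct x y 1 = x 2 * y 0 - x 0 * y 2 ∧
      crossProduct x y 2 = x 0 * y 1 - x 1 * y 0 := by
  rw [cross_apply]
  exact ⟨rfl, rfl, rfl⟩

theorem Cl_pq {L : Type} [Field L] (x y : Fin 3 → L) (p q : Fin 3) :
    x p * y q - x q * y p = 0 ∨ ∃ i, x p * y q - x q * y p = crossProduct x y i ∨
      x p * y q - x q * y p = - crossProduct x y i := by
  obtain ⟨h0, h1, h2⟩ := Cl_cross_apply x y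
  fin_cases p <;> fin_cases q <;> simp only [Fin.zero_eta, Fin.mk_one, Fin.reduceFinMk]
  · left; ring
  · exact Or.inr ⟨2, Or.inl h2.symm⟩
  · exact Or.inr ⟨1, Or.inr (by rw [h1]; ring)⟩
  · exact Or.inr ⟨2, Or.inr (by rw [h2]; ring)⟩
  · left; ring
  · exact Or.inr ⟨0, Or.inl h0.symm⟩
  · exact Or.inr ⟨1, Or.inl h1.symm⟩
  · exact Or.inr ⟨0, Or.inr (by rw [h0]; ring)⟩
  · left; ring

theorem Cl_cross_eq_zero {L : Type} [Field L] {x y : Fin 3 → L} (h : crossProduct x y = 0)
    (p q : Fin 3) : x p * y q - x q * y p = 0 := by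
  rcases Cl_pq x y p q with h1 | ⟨i, h1 | h1⟩
  · exact h1
  · rw [h1, h]; rfl
  · rw [h1, h]; simp

theorem Cl_peq {L : Type} [Field L] {x y : Fin 3 → L} (hx : x ≠ 0) (hy : y ≠ 0)
    (h : crossProduct x y = 0) : PEq x y := by
  obtain ⟨i0, hi0⟩ : ∃ i, x i ≠ 0 := by
    by_contra hc
    push Not at hc
    exact hx (funext hc)
  have h1 : ∀ j, y j = y i0 / x i0 * x j := by
    intro j
    have h2 := Cl_cross_eq_zero h i0 j
    field_simp
    linear_combination h2
  refine ⟨y i0 / x i0, ?_, funext h1⟩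
  intro h0
  apply hy
  funext j
  rw [h1 j, h0, zero_mul]
  rfl

theorem Cl_symm {L : Type} [Field L] {x y : Fin 3 → L} (h : PEq x y) : PEq y x := by
  obtain ⟨c, hc, rfl⟩ := h
  exact ⟨c⁻¹, inv_ne_zero hc, by rw [smul_smul, inv_mul_cancel₀ hc, one_smul]⟩

omit [Algebra k K] [Field k] in
theorem cross_ne_zero {x y : Fin 3 → K} (hx : x ≠ 0) (hy : y ≠ 0) (h : ¬ PEq x y) :
    crossProduct x y ≠ 0 := fun h0 => h (Cl_peq hx hy h0)

theorem Cl_val_pq (b : Place k K) (x y : Fin 3 → K) (p q : Fin 3) :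
    b.val (x p * y q - x q * y p) ≤ nrm b (crossProduct x y) := by
  rcases Cl_pq x y p q with h1 | ⟨i, h1 | h1⟩
  · rw [h1, map_zero]; exact zero_le
  · rw [h1]; exact val_le_nrm b _ i
  · rw [h1, Valuation.map_neg]; exact val_le_nrm b _ i

theorem Cl_nrm_cross_le (b : Place k K) (x y : Fin 3 → K) :
    nrm b (crossProduct x y) ≤ nrm b x * nrm b y := by
  have key : ∀ p q : Fin 3, b.val (x p * y q - x q * y p) ≤ nrm b x * nrm b y := by
    intro p q
    refine (b.val.map_sub _ _).trans (max_le ?_ ?_)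
    · rw [map_mul]; exact mul_le_mul' (val_le_nrm b x p) (val_le_nrm b y q)
    · rw [map_mul]; exact mul_le_mul' (val_le_nrm b x q) (val_le_nrm b y p)
  obtain ⟨h0, h1, h2⟩ := Cl_cross_apply x y
  refine nrm_le fun i => ?_
  fin_cases i <;> simp only [Fin.zero_eta, Fin.mk_one, Fin.reduceFinMk]
  · rw [h0]; exact key 1 2
  · rw [h1]; exact key 2 0
  · rw [h2]; exact key 0 1

theorem Cl_nrm_neg (b : Place k K) (x : Fin 3 → K) : nrm b (-x) = nrm b x := by
  unfold nrm
  congr 1
  funext i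
  rw [Pi.neg_apply, Valuation.map_neg]

theorem cl_comm (b : Place k K) (x y : Fin 3 → K) : cl b x y = cl b y x := by
  unfold cl
  rw [← cross_anticomm, Cl_nrm_neg]
  ring

theorem cl_nonneg (b : Place k K) {x y : Fin 3 → K} (hx : x ≠ 0) (hy : y ≠ 0) (h : ¬ PEq x y) :
    0 ≤ cl b x y := by
  unfold cl
  have h1 : WithZero.log (nrm b (crossProduct x y)) ≤ WithZero.log (nrm b x * nrm b y) := by
    rw [WithZero.log_le_log (nrm_ne_zero (cross_ne_zero hx hy h))
      (mul_ne_zero (nrm_ne_zero hx) (nrm_ne_zero hy))]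
    exact Cl_nrm_cross_le b x y
  rw [WithZero.log_mul (nrm_ne_zero hx) (nrm_ne_zero hy)] at h1
  omega

theorem Cl_nrm_red {b : Place k K} {u : Fin 3 → K} {z : Fin 3 → k} (hz : z ≠ 0)
    (h : ∀ i, b.val (u i - algebraMap k K (z i)) < 1) : nrm b u = 1 := by
  have h1 : ∀ i, b.val (u i) ≤ 1 := by
    intro i
    have h3 : u i = (u i - algebraMap k K (z i)) + algebraMap k K (z i) := by ring
    rw [h3]
    exact (b.val.map_add _ _).trans (max_le (h i).le (b.val_algebraMap_le _))
  obtain ⟨i0, hi0⟩ : ∃ i, z i ≠ 0 := by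
    by_contra hc
    push Not at hc
    exact hz (funext hc)
  have h2 : b.val (u i0) = 1 := by
    refine le_antisymm (h1 i0) ?_
    by_contra hlt
    rw [not_le] at hlt
    have h3 : algebraMap k K (z i0) = u i0 - (u i0 - algebraMap k K (z i0)) := by ring
    have h4 : b.val (algebraMap k K (z i0)) < 1 := by
      rw [h3]
      exact (b.val.map_sub _ _).trans_lt (max_lt hlt (h i0))
    rw [b.triv (z i0) hi0] at h4
    exact lt_irrefl _ h4
  refine le_antisymm (nrm_le h1) ?_
  rw [← h2]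
  exact val_le_nrm b u i0

/-- If the contact is positive the reductions agree. -/
theorem peq_of_cl_pos {b : Place k K} {x y : Fin 3 → K} (hx : x ≠ 0) (hy : y ≠ 0)
    (h : ¬ PEq x y) (hcl : 0 < cl b x y) {z w : Fin 3 → k} (hz : Red b x z) (hw : Red b y w) :
    PEq z w := by
  obtain ⟨hz0, c1, hc1, h1⟩ := hz
  obtain ⟨hw0, c2, hc2, h2⟩ := hw
  have hxy := cross_ne_zero hx hy h
  have n1 : nrm b (c1 • x) = 1 := Cl_nrm_red hz0 h1
  have n2 : nrm b (c2 • y) = 1 := Cl_nrm_red hw0 h2
  have l1 := log_nrm_smul b hc1 hx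
  have l2 := log_nrm_smul b hc2 hy
  rw [n1, WithZero.log_one] at l1
  rw [n2, WithZero.log_one] at l2
  have h3 : crossProduct (c1 • x) (c2 • y) = (c1 * c2) • crossProduct x y := by
    rw [map_smul (crossProduct (c1 • x)) c2 y, map_smul crossProduct c1 x, LinearMap.smul_apply,
      smul_smul, mul_comm]
  have h4 : nrm b (crossProduct (c1 • x) (c2 • y)) < 1 := by
    have h5 := log_nrm_smul b (mul_ne_zero hc1 hc2) hxy
    rw [map_mul, WithZero.log_mul (by simpa using hc1) (by simpa using hc2)] at h5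
    unfold cl at hcl
    rw [h3, ← WithZero.log_lt_log (nrm_ne_zero (smul_ne_zero (mul_ne_zero hc1 hc2) hxy))
      one_ne_zero, WithZero.log_one]
    omega
  apply Cl_peq hz0 hw0
  have h5 : ∀ p q, z p * w q - z q * w p = 0 := by
    intro p q
    by_contra hne
    have h6 := b.triv _ hne
    have h7 : algebraMap k K (z p * w q - z q * w p) =
        ((c1 • x) p * (c2 • y) q - (c1 • x) q * (c2 • y) p)
        - (((c1 * x p - algebraMap k K (z p)) * (c2 * y q) +
            algebraMap k K (z p) * (c2 * y q - algebraMap k K (w q)))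
          - ((c1 * x q - algebraMap k K (z q)) * (c2 * y p) +
            algebraMap k K (z q) * (c2 * y p - algebraMap k K (w p)))) := by
      simp only [map_sub, map_mul, Pi.smul_apply, smul_eq_mul]
      ring
    have h8 : ∀ i j, b.val ((c1 * x i - algebraMap k K (z i)) * (c2 * y j) +
        algebraMap k K (z i) * (c2 * y j - algebraMap k K (w j))) < 1 := by
      intro i j
      have hy1 : b.val (c2 * y j) ≤ 1 := by
        rw [← n2]; exact val_le_nrm b (c2 • y) j
      refine (b.val.map_add _ _).trans_lt (max_lt ?_ ?_)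
      · rw [map_mul]
        exact mul_lt_one_of_lt_of_le (h1 i) hy1
      · rw [map_mul, mul_comm]
        exact mul_lt_one_of_lt_of_le (h2 j) (b.val_algebraMap_le _)
    have h9 : b.val (algebraMap k K (z p * w q - z q * w p)) < 1 := by
      rw [h7]
      refine (b.val.map_sub _ _).trans_lt (max_lt ?_ ?_)
      · exact (Cl_val_pq b _ _ p q).trans_lt h4
      · exact (b.val.map_sub _ _).trans_lt (max_lt (h8 p q) (h8 q p))
    rw [h6] at h9
    exact lt_irrefl _ h9
  obtain ⟨e0, e1, e2⟩ := Cl_cross_apply z w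
  funext i
  fin_cases i <;> simp only [Fin.zero_eta, Fin.mk_one, Fin.reduceFinMk, Pi.zero_apply]
  · rw [e0]; exact h5 1 2
  · rw [e1]; exact h5 2 0
  · rw [e2]; exact h5 0 1

theorem Cl_plucker (b : Place k K) (x y z : Fin 3 → K) :
    nrm b y * nrm b (crossProduct x z) ≤
      max (nrm b x * nrm b (crossProduct y z)) (nrm b z * nrm b (crossProduct x y)) := by
  obtain ⟨l, hl⟩ := exists_val_eq_nrm b y
  have key : ∀ p q : Fin 3, b.val (y l * (x p * z q - x q * z p)) ≤
      max (nrm b x * nrm b (crossProduct y z)) (nrm b z * nrm b (crossProduct x y)) := by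
    intro p q
    have h1 : y l * (x p * z q - x q * z p) = x l * (y p * z q - y q * z p) +
        (z q * (x p * y l - x l * y p) - z p * (x q * y l - x l * y q)) := by ring
    rw [h1]
    refine (b.val.map_add _ _).trans (max_le ?_ ?_)
    · refine le_max_of_le_left ?_
      rw [map_mul]
      exact mul_le_mul' (val_le_nrm b x l) (Cl_val_pq b y z p q)
    · refine le_max_of_le_right ?_
      refine (b.val.map_sub _ _).trans (max_le ?_ ?_)
      · rw [map_mul]
        exact mul_le_mul' (val_le_nrm b z q) (Cl_val_pq b x y p l)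
      · rw [map_mul]
        exact mul_le_mul' (val_le_nrm b z p) (Cl_val_pq b x y q l)
  obtain ⟨i, hi⟩ := exists_val_eq_nrm b (crossProduct x z)
  rw [← hl, ← hi, ← map_mul]
  obtain ⟨e0, e1, e2⟩ := Cl_cross_apply x z
  fin_cases i <;> simp only [Fin.zero_eta, Fin.mk_one, Fin.reduceFinMk]
  · rw [e0]; exact key 1 2
  · rw [e1]; exact key 2 0
  · rw [e2]; exact key 0 1

theorem cl_ultra (b : Place k K) {x y z : Fin 3 → K} (hx : x ≠ 0) (hy : y ≠ 0) (hz : z ≠ 0)
    (hxy : ¬ PEq x y) (hyz : ¬ PEq y z) (hxz : ¬ PEq x z) :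
    min (cl b x y) (cl b y z) ≤ cl b x z := by
  have h := Cl_plucker b x y z
  have nx := nrm_ne_zero (b := b) hx
  have ny := nrm_ne_zero (b := b) hy
  have nz := nrm_ne_zero (b := b) hz
  have nxy := nrm_ne_zero (b := b) (cross_ne_zero hx hy hxy)
  have nyz := nrm_ne_zero (b := b) (cross_ne_zero hy hz hyz)
  have nxz := nrm_ne_zero (b := b) (cross_ne_zero hx hz hxz)
  unfold cl
  rcases le_max_iff.1 h with h1 | h1
  · rw [← WithZero.log_le_log (mul_ne_zero ny nxz) (mul_ne_zero nx nyz),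
      WithZero.log_mul ny nxz, WithZero.log_mul nx nyz] at h1
    refine (min_le_right _ _).trans ?_
    omega
  · rw [← WithZero.log_le_log (mul_ne_zero ny nxz) (mul_ne_zero nz nxy),
      WithZero.log_mul ny nxz, WithZero.log_mul nz nxy] at h1
    refine (min_le_left _ _).trans ?_
    omega

theorem cl_support [IsAlgClosed k] (hK : IsFunctionField k K) {x y : Fin 3 → K} (hx : x ≠ 0)
    (hy : y ≠ 0) (h : ¬ PEq x y) :
    (Function.support fun b : Place k K => cl b x y).Finite := by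
  refine (((nrm_support hK x hx).union (nrm_support hK y hy)).union
    (nrm_support hK _ (cross_ne_zero hx hy h))).subset ?_
  intro b hb
  by_contra hc
  apply hb
  simp only [Set.mem_union, Function.mem_support, not_or, not_not] at hc
  show cl b x y = 0
  unfold cl
  rw [hc.1.1, hc.1.2, hc.2]
  ring

theorem finsum_cl [IsAlgClosed k] (hK : IsFunctionField k K) {x y : Fin 3 → K} (hx : x ≠ 0)
    (hy : y ≠ 0) (h : ¬ PEq x y) :
    ∑ᶠ b : Place k K, cl b x y = ht k x + ht k y - ht k (crossProduct x y) := by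
  have sx := nrm_support hK x hx
  have sy := nrm_support hK y hy
  have sxy := nrm_support hK _ (cross_ne_zero hx hy h)
  unfold cl ht
  rw [finsum_sub_distrib _ sxy, finsum_add_distrib sx sy]
  refine ((sx.union sy)).subset ?_
  intro b hb
  by_contra hc
  apply hb
  simp only [Set.mem_union, Function.mem_support, not_or, not_not] at hc
  show WithZero.log (nrm b x) + WithZero.log (nrm b y) = 0
  rw [hc.1, hc.2]
  ring

/-- A point has positive contact (up to a constant) with at most one of the points `P i`. -/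
theorem sum_cl_le (b : Place k K) (Γ : Finset ℕ) (P : ℕ → Fin 3 → K) (Q : Fin 3 → K)
    (hP : ∀ i ∈ Γ, P i ≠ 0) (hQ : Q ≠ 0) (hPQ : ∀ i ∈ Γ, ¬ PEq (P i) Q)
    (hPP : ∀ i ∈ Γ, ∀ j ∈ Γ, i ≠ j → ¬ PEq (P i) (P j)) {M : ℤ} (hM0 : 0 ≤ M)
    (hM : ∀ i ∈ Γ, cl b (P i) Q ≤ M) :
    ∑ i ∈ Γ, cl b (P i) Q ≤ M + ∑ i ∈ Γ, ∑ j ∈ Γ.erase i, cl b (P i) (P j) := by
  have hnn : ∀ i ∈ Γ, 0 ≤ ∑ j ∈ Γ.erase i, cl b (P i) (P j) := by
    intro i hi
    refine Finset.sum_nonneg fun j hj => ?_
    have hj1 := Finset.mem_of_mem_erase hj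
    have hj2 := Finset.ne_of_mem_erase hj
    exact cl_nonneg b (hP i hi) (hP j hj1) (hPP i hi j hj1 (Ne.symm hj2))
  rcases Γ.eq_empty_or_nonempty with rfl | hne
  · simpa using hM0
  obtain ⟨i0, hi0, hmax⟩ := Finset.exists_max_image Γ (fun i => cl b (P i) Q) hne
  rw [← Finset.add_sum_erase _ _ hi0, ← Finset.add_sum_erase (a := i0) (s := Γ)
    (fun i => ∑ j ∈ Γ.erase i, cl b (P i) (P j)) hi0]
  have h1 : ∑ i ∈ Γ.erase i0, cl b (P i) Q ≤
      ∑ i ∈ Γ.erase i0, ∑ j ∈ Γ.erase i, cl b (P i) (P j) := by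
    refine Finset.sum_le_sum fun i hi => ?_
    have hi1 := Finset.mem_of_mem_erase hi
    have hi2 := Finset.ne_of_mem_erase hi
    have h2 := cl_ultra b (hP i hi1) hQ (hP i0 hi0) (hPQ i hi1)
      (fun h => hPQ i0 hi0 (Cl_symm h)) (hPP i hi1 i0 hi0 hi2)
    rw [cl_comm b Q (P i0), min_eq_left (hmax i hi1)] at h2
    refine h2.trans ?_
    refine Finset.single_le_sum (f := fun j => cl b (P i) (P j)) (fun j hj => ?_)
      (Finset.mem_erase.2 ⟨Ne.symm hi2, hi0⟩)
    have hj1 := Finset.mem_of_mem_erase hj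
    have hj2 := Finset.ne_of_mem_erase hj
    exact cl_nonneg b (hP i hi1) (hP j hj1) (hPP i hi1 j hj1 (Ne.symm hj2))
  have h3 := hM i0 hi0
  have h4 := hnn i0 hi0
  omega

end Pool.Agent.Helper30.TP
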