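import Pool.Agent.Helper30.TP.Defs

/-!
# A determinant of small order
-/

set_option autoImplicit false

namespace Pool.Agent.Helper30.TP

open MvPolynomial
open Pool.Agent.Helper16 (Place IsFunctionField)
open Pool.Agent.Helper36 (step iter)

/-- The determinant of a matrix with integral entries is integral. -/
theorem greedy_det_le {K : Type} [Field K] (v : Valuation K (WithZero (Multiplicative ℤ)))
    {ι : Type} [Fintype ι] [DecidableEq ι] (M : Matrix ι ι K) (hM : ∀ i j, v (M i j) ≤ 1) :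
    v M.det ≤ 1 := by
  rw [Matrix.det_apply]
  refine v.map_sum_le fun σ _ => ?_
  rw [Units.smul_def, zsmul_eq_mul, map_mul, map_prod]
  have h1 : v (((Equiv.Perm.sign σ : ℤˣ) : ℤ) : K) ≤ 1 := by
    rcases Int.units_eq_one_or (Equiv.Perm.sign σ) with h | h <;> simp [h]
  have h2 : ∏ i, v (M (σ i) i) ≤ 1 := Finset.prod_le_one' fun i _ => hM _ _
  exact mul_le_one' h1 h2

/-- A nonzero vector orthogonal to few vectors, scaled. -/
theorem greedy_orth {K : Type} [Field K] (v : Valuation K (WithZero (Multiplicative ℤ)))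
    {ι : Type} [Fintype ι] [DecidableEq ι] (m : ℕ) (hm : m < Fintype.card ι)
    (r : ℕ → ι → K) :
    ∃ G : ι → K, (∀ i, v (G i) ≤ 1) ∧ (∃ i, v (G i) = 1) ∧
      ∀ i, i < m → ∑ k, G k * r i k = 0 := by
  classical
  obtain ⟨G, hG0, hG⟩ : ∃ G : ι → K, G ≠ 0 ∧ ∀ i, i < m → ∑ k, G k * r i k = 0 := by
    let f : (ι → K) →ₗ[K] (Fin m → K) :=
      LinearMap.pi fun i => ∑ k, (r i k) • LinearMap.proj k
    have hf : f.ker ≠ ⊥ := by
      apply LinearMap.ker_ne_bot_of_finrank_lt
      simpa using hm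
    obtain ⟨G, hG, hG0⟩ := (Submodule.ne_bot_iff _).1 hf
    refine ⟨G, hG0, fun i hi => ?_⟩
    have h1 := congrFun (LinearMap.mem_ker.1 hG) ⟨i, hi⟩
    simp only [f, LinearMap.pi_apply, LinearMap.sum_apply, LinearMap.smul_apply,
      LinearMap.proj_apply, smul_eq_mul, Pi.zero_apply] at h1
    rw [← h1]
    exact Finset.sum_congr rfl fun k _ => mul_comm _ _
  have hne : Nonempty ι := by
    obtain ⟨i, _⟩ := Function.ne_iff.1 hG0
    exact ⟨i⟩
  obtain ⟨i0, -, hi0⟩ := Finset.exists_max_image Finset.univ (fun i => v (G i))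
    Finset.univ_nonempty
  have hi1 : G i0 ≠ 0 := by
    intro h0
    apply hG0
    funext i
    have h1 := hi0 i (Finset.mem_univ i)
    rw [h0, map_zero] at h1
    exact (map_eq_zero v).1 (le_antisymm h1 zero_le)
  have hv0 : v (G i0) ≠ 0 := (Valuation.ne_zero_iff v).2 hi1
  refine ⟨fun i => (G i0)⁻¹ * G i, fun i => ?_, ⟨i0, ?_⟩, fun i hi => ?_⟩
  · rw [map_mul, map_inv₀]
    calc (v (G i0))⁻¹ * v (G i) ≤ (v (G i0))⁻¹ * v (G i0) :=
          mul_le_mul_right (hi0 i (Finset.mem_univ i)) _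
      _ = 1 := inv_mul_cancel₀ hv0
  · change v ((G i0)⁻¹ * G i0) = 1
    rw [inv_mul_cancel₀ hi1, map_one]
  · have h1 : ∑ k, (G i0)⁻¹ * G k * r i k = (G i0)⁻¹ * ∑ k, G k * r i k := by
      rw [Finset.mul_sum]
      exact Finset.sum_congr rfl fun k _ => mul_assoc _ _ _
    rw [h1, hG i hi, mul_zero]

theorem greedy_seq {K : Type} [Field K] (v : Valuation K (WithZero (Multiplicative ℤ)))
    {ι : Type} [Fintype ι] [DecidableEq ι] (l : ι) (T : Set (ι → K)) (a : ℕ)
    (hstar : ∀ G : ι → K, (∀ i, v (G i) ≤ 1) → G l = 0 → (∃ i, v (G i) = 1) →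
      ∃ r ∈ T, WithZero.exp (-(a : ℤ)) ≤ v (∑ i, G i * r i)) (m : ℕ)
    (hm : m < Fintype.card ι) :
    ∃ r c : ℕ → ι → K, r 0 = Pi.single l 1 ∧ c 0 = Pi.single l 1 ∧
      (∀ i, 1 ≤ i → i ≤ m → r i ∈ T ∧ (∀ j, v (c i j) ≤ 1) ∧
        WithZero.exp (-(a : ℤ)) ≤ v (∑ j, c i j * r i j)) ∧
      (∀ i j, i < j → j ≤ m → ∑ k, c j k * r i k = 0) := by
  induction m with
  | zero =>
    refine ⟨fun _ => Pi.single l 1, fun _ => Pi.single l 1, rfl, rfl, fun i h1 h2 => ?_,
      fun i j h1 h2 => ?_⟩ <;> omega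
  | succ m ih =>
    obtain ⟨r, c, hr0, hc0, h1, h2⟩ := ih (by omega)
    obtain ⟨G, hG1, hG2, hG3⟩ := greedy_orth v (m + 1) hm r
    have hGl : G l = 0 := by
      have h3 := hG3 0 (Nat.succ_pos m)
      rw [hr0] at h3
      simpa [Pi.single_apply] using h3
    obtain ⟨s, hs, hs1⟩ := hstar G hG1 hGl hG2
    refine ⟨fun i => if i = m + 1 then s else r i, fun i => if i = m + 1 then G else c i,
      by simpa using hr0, by simpa using hc0, fun i hi hi' => ?_, fun i j hij hj => ?_⟩
    · by_cases him : i = m + 1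
      · simp only [him, if_true]
        exact ⟨hs, hG1, hs1⟩
      · simp only [if_neg him]
        exact h1 i hi (by omega)
    · have hi : i ≠ m + 1 := by omega
      by_cases hjm : j = m + 1
      · simp only [hjm, if_true, if_neg hi]
        exact hG3 i (by omega)
      · simp only [if_neg hjm, if_neg hi]
        exact h2 i j hij (by omega)

theorem greedy {K : Type} [Field K] (v : Valuation K (WithZero (Multiplicative ℤ)))
    {ι : Type} [Fintype ι] [DecidableEq ι] (l : ι) (g : ι → K) (hg : ∀ i, v (g i) ≤ 1)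
    (hgl : g l = 1) (T : Set (ι → K))
    (hT : ∀ r ∈ T, (∀ i, v (r i) ≤ 1) ∧ ∑ i, g i * r i = 0) (a : ℕ)
    (hstar : ∀ G : ι → K, (∀ i, v (G i) ≤ 1) → G l = 0 → (∃ i, v (G i) = 1) →
      ∃ r ∈ T, WithZero.exp (-(a : ℤ)) ≤ v (∑ i, G i * r i)) :
    ∃ r : ι → ι → K, r l = Pi.single l 1 ∧ (∀ s, s ≠ l → r s ∈ T) ∧
      WithZero.exp (-((Fintype.card ι * a : ℕ) : ℤ)) ≤ v (Matrix.of r).det := by
  classical
  have hcard : 0 < Fintype.card ι := Fintype.card_pos_iff.2 ⟨l⟩
  obtain ⟨n, hn⟩ : ∃ n, Fintype.card ι = n + 1 := ⟨Fintype.card ι - 1, by omega⟩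
  obtain ⟨r, c, hr0, hc0, h1, h2⟩ := greedy_seq v l T a hstar n (by omega)
  let e0 : ι ≃ Fin (n + 1) := Fintype.equivFinOfCardEq hn
  let e : Fin (n + 1) ≃ ι := (Equiv.swap 0 (e0 l)).trans e0.symm
  have he0 : e 0 = l := by simp [e]
  have hel : e.symm l = 0 := by rw [← he0, Equiv.symm_apply_apply]
  let R : Matrix ι ι K := Matrix.of fun s => r (e.symm s : Fin (n + 1))
  let S : Matrix ι ι K := Matrix.of fun s => c (e.symm s : Fin (n + 1))
  refine ⟨fun s => r (e.symm s : Fin (n + 1)), by change r (e.symm l : Fin (n + 1)) = _; rw [hel]; exact hr0,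
    fun s hs => ?_, ?_⟩
  · have h3 : e.symm s ≠ 0 := fun h => hs (by rw [← e.apply_symm_apply s, h, he0])
    have h4 : ((e.symm s : Fin (n + 1)) : ℕ) ≠ 0 := fun h => h3 (Fin.ext h)
    exact (h1 _ (by omega) (by have := (e.symm s).2; omega)).1
  · change _ ≤ v R.det
    have hS : v S.det ≤ 1 := by
      apply greedy_det_le
      intro i j
      change v (c (e.symm i : Fin (n + 1)) j) ≤ 1
      by_cases h4 : ((e.symm i : Fin (n + 1)) : ℕ) = 0
      · rw [h4, hc0]
        by_cases hjl : j = l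
        · subst hjl; simp
        · simp [Pi.single_eq_of_ne hjl]
      · exact (h1 _ (by omega) (by have := (e.symm i).2; omega)).2.1 j
    have hM : ∀ i j : Fin (n + 1), ((R * S.transpose).submatrix e e) i j =
        ∑ k, c j k * r i k := by
      intro i j
      simp only [Matrix.submatrix_apply, Matrix.mul_apply, Matrix.transpose_apply, R, S,
        Matrix.of_apply, Equiv.symm_apply_apply]
      exact Finset.sum_congr rfl fun k _ => mul_comm _ _
    have hdet : (R * S.transpose).det = ∏ i : Fin (n + 1), ∑ k, c i k * r i k := by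
      rw [← Matrix.det_submatrix_equiv_self e, Matrix.det_of_isLowerTriangular]
      · exact Finset.prod_congr rfl fun i _ => hM i i
      · intro i j hij
        rw [hM]
        have hij' : i < j := hij
        exact h2 i j hij' (by have := j.2; omega)
    have hprod : WithZero.exp (-((Fintype.card ι * a : ℕ) : ℤ)) ≤ v (R * S.transpose).det := by
      rw [hdet, map_prod]
      have h5 : ∀ i : Fin (n + 1), WithZero.exp (-(a : ℤ)) ≤ v (∑ k, c i k * r i k) := by
        intro i
        by_cases hi : (i : ℕ) = 0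
        · rw [hi, hc0, hr0]
          have : (∑ k, (Pi.single l 1 : ι → K) k * (Pi.single l 1 : ι → K) k) = 1 := by
            simp [Pi.single_apply]
          rw [this, map_one, ← WithZero.exp_zero, WithZero.exp_le_exp]
          omega
        · exact (h1 _ (by omega) (by have := i.2; omega)).2.2
      calc WithZero.exp (-((Fintype.card ι * a : ℕ) : ℤ))
          = ∏ _i : Fin (n + 1), WithZero.exp (-(a : ℤ)) := by
            rw [Finset.prod_const, Finset.card_univ, Fintype.card_fin, ← WithZero.exp_nsmul, hn]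
            congr 1
            push_cast
            ring
        _ ≤ _ := Finset.prod_le_prod' fun i _ => h5 i
    rw [Matrix.det_mul, Matrix.det_transpose, map_mul] at hprod
    exact hprod.trans (mul_le_of_le_one_right' hS)

end Pool.Agent.Helper30.TP
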