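import Pool.Agent.Helper30.TP.PtHeight

/-!
# Limit fields
-/

set_option autoImplicit false

namespace Pool.Agent.Helper30.TP

open MvPolynomial
open Pool.Agent.Helper16 (Place IsFunctionField)
open Pool.Agent.Helper36 (step iter)

/-- Sequences which are bounded at `b`, along the ultrafilter. -/
def bddSub {k K : Type} [Field k] [Field K] [Algebra k K] (b : Place k K) (W : Ultrafilter ℕ) :
    Subring (ℕ → K) where
  carrier := {u | ∃ c : ℕ, ∀ᶠ a in (W : Filter ℕ), b.val (u a) ≤ WithZero.exp (c : ℤ)}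
  mul_mem' := by
    rintro u v ⟨c, hc⟩ ⟨c', hc'⟩
    refine ⟨c + c', ?_⟩
    filter_upwards [hc, hc'] with a h1 h2
    rw [Pi.mul_apply, map_mul, Nat.cast_add, WithZero.exp_add]
    exact mul_le_mul' h1 h2
  one_mem' := ⟨0, Filter.Eventually.of_forall fun a => by
    rw [Pi.one_apply, map_one, Nat.cast_zero, WithZero.exp_zero]⟩
  add_mem' := by
    rintro u v ⟨c, hc⟩ ⟨c', hc'⟩
    refine ⟨c + c', ?_⟩
    filter_upwards [hc, hc'] with a h1 h2
    rw [Pi.add_apply]
    refine (b.val.map_add (u a) (v a)).trans (max_le (h1.trans ?_) (h2.trans ?_))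
    · rw [WithZero.exp_le_exp]
      push_cast
      omega
    · rw [WithZero.exp_le_exp]
      push_cast
      omega
  zero_mem' := ⟨0, Filter.Eventually.of_forall fun a => by
    rw [Pi.zero_apply, map_zero]
    exact zero_le⟩
  neg_mem' := by
    rintro u ⟨c, hc⟩
    refine ⟨c, ?_⟩
    filter_upwards [hc] with a h1
    rw [Pi.neg_apply, Valuation.map_neg]
    exact h1

/-- Sequences which are integral at the places `bp a`, along the ultrafilter. -/
def intSub {k K : Type} [Field k] [Field K] [Algebra k K] (bp : ℕ → Place k K)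
    (W : Ultrafilter ℕ) : Subring (ℕ → K) where
  carrier := {u | ∀ᶠ a in (W : Filter ℕ), (bp a).val (u a) ≤ 1}
  mul_mem' := by
    intro u v hu hv
    filter_upwards [hu, hv] with a h1 h2
    rw [Pi.mul_apply, map_mul]
    exact mul_le_one' h1 h2
  one_mem' := Filter.Eventually.of_forall fun a => by
    rw [Pi.one_apply, map_one]
  add_mem' := by
    intro u v hu hv
    filter_upwards [hu, hv] with a h1 h2
    rw [Pi.add_apply]
    exact ((bp a).val.map_add (u a) (v a)).trans (max_le h1 h2)
  zero_mem' := Filter.Eventually.of_forall fun a => by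
    rw [Pi.zero_apply, map_zero]
    exact zero_le
  neg_mem' := by
    intro u hu
    filter_upwards [hu] with a h1
    rw [Pi.neg_apply, Valuation.map_neg]
    exact h1

theorem const_mem_bddSub {k K : Type} [Field k] [Field K] [Algebra k K] (b : Place k K)
    (W : Ultrafilter ℕ) (c : K) : (fun _ => c) ∈ bddSub b W := by
  by_cases hc : c = 0
  · subst hc
    exact (bddSub b W).zero_mem
  · refine ⟨(WithZero.log (b.val c)).toNat, Filter.Eventually.of_forall fun a => ?_⟩
    have h1 : b.val c ≠ 0 := (Valuation.ne_zero_iff _).2 hc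
    show b.val c ≤ _
    rw [← WithZero.log_le_iff_le_exp h1]
    exact Int.self_le_toNat _

theorem const_mem_intSub {k K : Type} [Field k] [IsAlgClosed k] [Field K] [Algebra k K]
    (hK : IsFunctionField k K) {bp : ℕ → Place k K} (hbp : Function.Injective bp)
    {W : Ultrafilter ℕ} (hW : Free W) (c : K) : (fun _ => c) ∈ intSub bp W := by
  by_cases hc : c = 0
  · subst hc
    exact (intSub bp W).zero_mem
  · have h1 := (finsum_log hK c hc).1
    have h2 := h1.preimage (f := bp) (hbp.injOn)
    obtain ⟨m, hm⟩ := h2.bddAbove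
    show ∀ᶠ a in (W : Filter ℕ), (bp a).val c ≤ 1
    filter_upwards [hW (m + 1)] with a ha
    have h3 : a ∉ bp ⁻¹' (Function.support fun b : Place k K => WithZero.log (b.val c)) := by
      intro h4
      have := hm h4
      omega
    have h4 : WithZero.log ((bp a).val c) = 0 := by
      by_contra h5
      exact h3 h5
    have h5 : (bp a).val c ≠ 0 := (Valuation.ne_zero_iff _).2 hc
    rw [← WithZero.exp_log h5, h4, WithZero.exp_zero]

/-- the quotient of a ring of sequences by a maximal ideal -/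
private theorem Germ_quot {K : Type} [Field K] (S : Subring (ℕ → K))
    (hc : ∀ c : K, (fun _ => c) ∈ S) (N : S → Prop) (h0 : N 0)
    (hadd : ∀ u v, N u → N v → N (u + v)) (hmul : ∀ u v, N v → N (u * v)) (h1 : ¬ N 1)
    (hinv : ∀ u, ¬ N u → ∃ v : S, N (1 - v * u)) :
    ∃ (K' : Type) (_ : Field K') (_ : Algebra K K') (ρ : S →+* K'),
      (∀ c : K, ρ ⟨fun _ => c, hc c⟩ = algebraMap K K' c) ∧ ∀ u, ρ u = 0 ↔ N u := by
  let I : Ideal S :=
    { carrier := {u | N u}
      add_mem' := fun {u v} hu hv => hadd u v hu hv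
      zero_mem' := h0
      smul_mem' := fun u v hv => hmul u v hv }
  have hI : I.IsMaximal := by
    rw [Ideal.isMaximal_iff]
    refine ⟨h1, fun J x hIJ hx hxJ => ?_⟩
    obtain ⟨v, hv⟩ := hinv x hx
    have h2 : (1 - v * x : S) ∈ J := hIJ hv
    have h3 : (1 : S) = (1 - v * x) + v * x := by ring
    rw [h3]
    exact J.add_mem h2 (J.mul_mem_left v hxJ)
  letI : Field (S ⧸ I) := Ideal.Quotient.field I
  let φ : K →+* (S ⧸ I) := (Ideal.Quotient.mk I).comp
    { toFun := fun c => ⟨fun _ => c, hc c⟩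
      map_one' := rfl
      map_mul' := fun _ _ => rfl
      map_zero' := rfl
      map_add' := fun _ _ => rfl }
  letI : Algebra K (S ⧸ I) := φ.toAlgebra
  refine ⟨S ⧸ I, inferInstance, inferInstance, Ideal.Quotient.mk I, fun c => rfl, fun u => ?_⟩
  exact Ideal.Quotient.eq_zero_iff_mem

/-- The field of the bounded sequences modulo the infinitesimal ones. -/
theorem exists_limit_field {k K : Type} [Field k] [Field K] [Algebra k K] (b : Place k K)
    (W : Ultrafilter ℕ) :
    ∃ (K' : Type) (_ : Field K') (_ : Algebra K K') (ρ : bddSub b W →+* K'),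
      (∀ c : K, ρ ⟨fun _ => c, const_mem_bddSub b W c⟩ = algebraMap K K' c) ∧
      ∀ u : bddSub b W, ρ u = 0 ↔
        ∀ c : ℕ, ∀ᶠ a in (W : Filter ℕ), b.val (u.1 a) < WithZero.exp (-(c : ℤ)) := by
  refine Germ_quot (bddSub b W) (const_mem_bddSub b W)
    (fun u => ∀ c : ℕ, ∀ᶠ a in (W : Filter ℕ), b.val (u.1 a) < WithZero.exp (-(c : ℤ)))
    ?_ ?_ ?_ ?_ ?_
  · intro c
    refine Filter.Eventually.of_forall fun a => ?_
    show b.val 0 < _
    rw [map_zero]
    exact WithZero.exp_pos
  · intro u v hu hv c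
    filter_upwards [hu c, hv c] with a h1 h2
    exact (b.val.map_add _ _).trans_lt (max_lt h1 h2)
  · rintro ⟨u, C, hC⟩ v hv c
    filter_upwards [hC, hv (c + C)] with a h1 h2
    show b.val (u a * v.1 a) < _
    rw [map_mul]
    have h3 : (WithZero.exp (-(c : ℤ)) : WithZero (Multiplicative ℤ)) =
        WithZero.exp (C : ℤ) * WithZero.exp (-((c + C : ℕ) : ℤ)) := by
      rw [← WithZero.exp_add]
      congr 1
      push_cast
      ring
    rw [h3]
    exact (mul_le_mul_left h1 _).trans_lt (mul_lt_mul_of_pos_left h2 WithZero.exp_pos)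
  · intro h
    obtain ⟨a, ha⟩ := (h 0).exists
    have h1 : b.val 1 < WithZero.exp (-((0 : ℕ) : ℤ)) := ha
    rw [map_one, Nat.cast_zero, neg_zero, WithZero.exp_zero] at h1
    exact lt_irrefl _ h1
  · intro u hu
    push Not at hu
    obtain ⟨c, hc⟩ := hu
    have h1 : ∀ᶠ a in (W : Filter ℕ), WithZero.exp (-(c : ℤ)) ≤ b.val (u.1 a) := hc
    refine ⟨⟨fun a => (u.1 a)⁻¹, c, ?_⟩, fun c' => ?_⟩
    · filter_upwards [h1] with a ha
      have h2 : (0 : WithZero (Multiplicative ℤ)) < b.val (u.1 a) := WithZero.exp_pos.trans_le ha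
      rw [map_inv₀]
      have h3 := inv_anti₀ WithZero.exp_pos ha
      rwa [← WithZero.exp_neg, neg_neg] at h3
    · filter_upwards [h1] with a ha
      have h2 : u.1 a ≠ 0 := by
        intro h3
        rw [h3, map_zero] at ha
        exact absurd ha (not_le.2 WithZero.exp_pos)
      show b.val (1 - (u.1 a)⁻¹ * u.1 a) < _
      rw [inv_mul_cancel₀ h2, sub_self, map_zero]
      exact WithZero.exp_pos

/-- The ultraproduct of the residue fields at infinitely many places. -/
theorem exists_residue_field {k K : Type} [Field k] [IsAlgClosed k] [Field K] [Algebra k K]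
    (hK : IsFunctionField k K) {bp : ℕ → Place k K} (hbp : Function.Injective bp)
    {W : Ultrafilter ℕ} (hW : Free W) :
    ∃ (K' : Type) (_ : Field K') (_ : Algebra K K') (ρ : intSub bp W →+* K'),
      (∀ c : K, ρ ⟨fun _ => c, const_mem_intSub hK hbp hW c⟩ = algebraMap K K' c) ∧
      ∀ u : intSub bp W, ρ u = 0 ↔
        ∀ᶠ a in (W : Filter ℕ), (bp a).val (u.1 a) < 1 := by
  refine Germ_quot (intSub bp W) (const_mem_intSub hK hbp hW)
    (fun u => ∀ᶠ a in (W : Filter ℕ), (bp a).val (u.1 a) < 1) ?_ ?_ ?_ ?_ ?_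
  · refine Filter.Eventually.of_forall fun a => ?_
    show (bp a).val 0 < _
    rw [map_zero]
    exact zero_lt_one
  · intro u v hu hv
    filter_upwards [hu, hv] with a h1 h2
    exact ((bp a).val.map_add _ _).trans_lt (max_lt h1 h2)
  · rintro ⟨u, hu⟩ v hv
    filter_upwards [hu, hv] with a h1 h2
    show (bp a).val (u a * v.1 a) < _
    rw [map_mul]
    exact (mul_le_of_le_one_left' h1).trans_lt h2
  · intro h
    obtain ⟨a, ha⟩ := h.exists
    have h1 : (bp a).val 1 < 1 := ha
    rw [map_one] at h1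
    exact lt_irrefl _ h1
  · intro u hu
    have h1 : ∀ᶠ a in (W : Filter ℕ), ¬ (bp a).val (u.1 a) < 1 := Ultrafilter.eventually_not.2 hu
    have h2 : ∀ᶠ a in (W : Filter ℕ), u.1 a ≠ 0 := by
      filter_upwards [h1] with a ha h3
      rw [h3, map_zero] at ha
      exact ha zero_lt_one
    refine ⟨⟨fun a => (u.1 a)⁻¹, ?_⟩, ?_⟩
    · show ∀ᶠ a in (W : Filter ℕ), (bp a).val ((u.1 a)⁻¹) ≤ 1
      filter_upwards [h1, h2] with a ha h3
      rw [map_inv₀]
      exact inv_le_one_of_one_le₀ (not_lt.1 ha)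
    · filter_upwards [h2] with a h3
      show (bp a).val (1 - (u.1 a)⁻¹ * u.1 a) < _
      rw [inv_mul_cancel₀ h3, sub_self, map_zero]
      exact zero_lt_one

end Pool.Agent.Helper30.TP
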