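import Pool.Agent.Helper30.TP.LFin
import Pool.Agent.Helper30.TP.PtHeight
import Pool.Agent.Helper30.TP.Germ
import Pool.Agent.Helper30.TP.Basic

/-!
# The uniform local estimate
-/

set_option autoImplicit false

namespace Pool.Agent.Helper30.TP

open MvPolynomial
open Pool.Agent.Helper16 (Place IsFunctionField)
open Pool.Agent.Helper36 (step iter)

/-! ### Generalities -/

theorem Star_pigeon {ι : Type*} [Finite ι] (W : Ultrafilter ℕ) (f : ℕ → ι) :
    ∃ i, ∀ᶠ a in (W : Filter ℕ), f a = i := by
  by_contra h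
  push Not at h
  have h1 : ∀ i, ∀ᶠ a in (W : Filter ℕ), f a ≠ i := h
  obtain ⟨a, ha⟩ := (Filter.eventually_all.2 h1).exists
  exact ha (f a) rfl

theorem Star_mem_mon {D : ℕ} {m : Fin 3 →₀ ℕ} (h : m.degree = D) :
    m ∈ (Finset.univ : Finset (Fin 3)).finsuppAntidiag D := by
  rw [Finset.mem_finsuppAntidiag]
  refine ⟨?_, Finset.subset_univ _⟩
  rw [← h, Finsupp.degree_eq_sum]

theorem Star_mon_degree {D : ℕ} (m : Mon D) : (m : Fin 3 →₀ ℕ).degree = D := by
  have h := (Finset.mem_finsuppAntidiag.1 m.2).1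
  rw [Finsupp.degree_eq_sum]
  exact h

theorem Star_hom_degree {L : Type} [Field L] {P : MvPolynomial (Fin 3) L} {D : ℕ}
    (hP : P.IsHomogeneous D) {m : Fin 3 →₀ ℕ} (hm : P.coeff m ≠ 0) : m.degree = D := by
  have := hP hm
  rw [Finsupp.weight_apply] at this
  rw [Finsupp.degree_eq_sum, ← this, Finsupp.sum_fintype]
  · simp
  · intro i; simp

theorem Star_mval_smul {L : Type} [Field L] {D : ℕ} (c : L) (y : Fin 3 → L) (m : Mon D) :
    mval (c • y) m = c ^ D * mval y m := by
  unfold mval
  simp only [Pi.smul_apply, smul_eq_mul, mul_pow, Finset.prod_mul_distrib]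
  rw [Finset.prod_pow_eq_pow_sum, ← Finsupp.degree_eq_sum, Star_mon_degree]

theorem Star_mval_map {A B : Type} [CommRing A] [CommRing B] (φ : A →+* B) {D : ℕ}
    (y : Fin 3 → A) (m : Mon D) : φ (mval y m) = mval (fun i => φ (y i)) m := by
  unfold mval
  rw [map_prod]
  simp

section form

variable {L : Type} [Field L]

/-- The form with given coefficients. -/
noncomputable def Star_form {D : ℕ} (G : Mon D → L) : MvPolynomial (Fin 3) L :=
  ∑ m : Mon D, monomial (m : Fin 3 →₀ ℕ) (G m)

theorem Star_form_hom {D : ℕ} (G : Mon D → L) : (Star_form G).IsHomogeneous D := by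
  unfold Star_form
  apply IsHomogeneous.sum
  intro m _
  exact isHomogeneous_monomial _ (Star_mon_degree m)

theorem Star_form_coeff {D : ℕ} (G : Mon D → L) (m : Mon D) :
    (Star_form G).coeff (m : Fin 3 →₀ ℕ) = G m := by
  classical
  unfold Star_form
  rw [coeff_sum, Finset.sum_eq_single m]
  · rw [coeff_monomial, if_pos rfl]
  · intro m' _ hne
    rw [coeff_monomial, if_neg]
    intro h
    exact hne (Subtype.ext h)
  · intro h
    exact absurd (Finset.mem_univ m) h

theorem Star_form_eval {D : ℕ} (G : Mon D → L) (y : Fin 3 → L) :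
    eval y (Star_form G) = ∑ m, G m * mval y m := by
  unfold Star_form
  rw [map_sum]
  refine Finset.sum_congr rfl fun m _ => ?_
  rw [eval_monomial, mval, Finsupp.prod_fintype]
  intro i
  exact pow_zero _

/-- a form divisible by a form of the same degree -/
theorem Star_same_degree {φ P : MvPolynomial (Fin 3) L} {D : ℕ} (hφ : φ.IsHomogeneous D)
    (hP : P.IsHomogeneous D) (hφ0 : φ ≠ 0) (h : φ ∣ P) : ∃ e : L, P = φ * C e := by
  obtain ⟨q, hq⟩ := h
  by_cases hP0 : P = 0
  · exact ⟨0, by rw [hP0, map_zero, mul_zero]⟩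
  · have hq0 : q ≠ 0 := by
      rintro rfl
      exact hP0 (by rw [hq, mul_zero])
    have h1 := totalDegree_mul_of_isDomain hφ0 hq0
    rw [← hq, hP.totalDegree hP0, hφ.totalDegree hφ0] at h1
    have h2 : q.totalDegree = 0 := by omega
    rw [totalDegree_eq_zero_iff_eq_C] at h2
    exact ⟨_, by rw [hq, ← h2]⟩

end form

/-! ### Reductions and minors -/

theorem Star_peq_of_minors {L : Type} [Field L] {y z : Fin 3 → L} (hy : y ≠ 0) (hz : z ≠ 0)
    (h : ∀ a b : Fin 3, y a * z b - y b * z a = 0) : PEq y z := by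
  have key : ∀ a b : Fin 3, y a * z b = y b * z a := fun a b => sub_eq_zero.1 (h a b)
  obtain ⟨a, ha⟩ := Function.ne_iff.1 hy
  have ha' : y a ≠ 0 := ha
  have hza : z a ≠ 0 := by
    intro h0
    apply hz
    funext b
    have := key a b
    rw [h0, mul_zero] at this
    exact (mul_eq_zero.1 this).resolve_left ha'
  refine ⟨z a / y a, div_ne_zero hza ha', ?_⟩
  funext b
  have := key a b
  simp only [Pi.smul_apply, smul_eq_mul]
  field_simp
  linear_combination this

section

variable {k K : Type} [Field k] [Field K] [Algebra k K]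

theorem Star_red_smul {b : Place k K} {x : Fin 3 → K} {z : Fin 3 → k} (h : Red b x z) {s : K}
    (hs : s ≠ 0) : Red b (s • x) z := by
  obtain ⟨hz, c, hc, h1⟩ := h
  refine ⟨hz, c * s⁻¹, mul_ne_zero hc (inv_ne_zero hs), fun i => ?_⟩
  have h2 : c * s⁻¹ * (s • x) i = c * x i := by
    rw [Pi.smul_apply, smul_eq_mul, mul_assoc, inv_mul_cancel_left₀ hs]
  rw [h2]
  exact h1 i

theorem Star_val_unit (b : Place k K) {t : k} (ht : t ≠ 0) : b.val (algebraMap k K t) = 1 := by
  refine le_antisymm (b.val_algebraMap_le t) ?_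
  have h1 := b.val_algebraMap_le t⁻¹
  have h2 : b.val (algebraMap k K t⁻¹) * b.val (algebraMap k K t) = 1 := by
    rw [← map_mul, ← map_mul, inv_mul_cancel₀ ht, map_one, map_one]
  calc (1 : WithZero (Multiplicative ℤ))
      = b.val (algebraMap k K t⁻¹) * b.val (algebraMap k K t) := h2.symm
    _ ≤ 1 * b.val (algebraMap k K t) := mul_le_mul_left h1 _
    _ = _ := one_mul _

theorem Star_val_scale {b : Place k K} {y : Fin 3 → K} {z : Fin 3 → k} (hy : nrm b y = 1)
    (hz : z ≠ 0) {c : K} (h : ∀ i, b.val (c * y i - algebraMap k K (z i)) < 1) : b.val c = 1 := by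
  have h1 : nrm b (c • y) = 1 := by
    refine le_antisymm (nrm_le fun i => ?_) ?_
    · have h3 : (c • y) i = (c * y i - algebraMap k K (z i)) + algebraMap k K (z i) := by
        rw [Pi.smul_apply, smul_eq_mul]
        ring
      rw [h3]
      exact (b.val.map_add _ _).trans (max_le (h i).le (b.val_algebraMap_le _))
    · obtain ⟨i, hi⟩ := Function.ne_iff.1 hz
      have h4 : algebraMap k K (z i) = (c • y) i - (c * y i - algebraMap k K (z i)) := by
        rw [Pi.smul_apply, smul_eq_mul]
        ring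
      have h5 : (1 : WithZero (Multiplicative ℤ)) ≤
          max (b.val ((c • y) i)) (b.val (c * y i - algebraMap k K (z i))) := by
        have h6 := Star_val_unit b hi
        rw [h4] at h6
        rw [← h6]
        exact b.val.map_sub _ _
      rcases le_max_iff.1 h5 with h6 | h6
      · exact h6.trans (val_le_nrm b _ i)
      · exact absurd (h i) (not_lt.2 h6)
  rw [nrm_smul, hy, mul_one] at h1
  exact h1

theorem Star_minor {b : Place k K} {y y' : Fin 3 → K} {z z' : Fin 3 → k} (hy : nrm b y = 1)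
    (hy' : nrm b y' = 1) (h : Red b y z) (h' : Red b y' z') (hzz : ¬ PEq z z') :
    ∃ p : Fin 3 × Fin 3, b.val (y p.1 * y' p.2 - y p.2 * y' p.1) = 1 := by
  obtain ⟨hz, c, hc, h1⟩ := h
  obtain ⟨hz', c', hc', h1'⟩ := h'
  have hcv := Star_val_scale hy hz h1
  have hcv' := Star_val_scale hy' hz' h1'
  have h2 : ∃ p : Fin 3 × Fin 3, z p.1 * z' p.2 - z p.2 * z' p.1 ≠ 0 := by
    by_contra h3
    push Not at h3
    exact hzz (Star_peq_of_minors hz hz' fun a b => h3 (a, b))
  obtain ⟨⟨p, q⟩, hpq⟩ := h2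
  refine ⟨(p, q), ?_⟩
  simp only at hpq ⊢
  have hle : ∀ i, b.val (y i) ≤ 1 := fun i => (val_le_nrm b y i).trans hy.le
  have hle' : ∀ i, b.val (y' i) ≤ 1 := fun i => (val_le_nrm b y' i).trans hy'.le
  -- the congruence
  have key : ∀ i j, b.val ((c * y i) * (c' * y' j) - algebraMap k K (z i * z' j)) < 1 := by
    intro i j
    have e : (c * y i) * (c' * y' j) - algebraMap k K (z i * z' j) =
        (c * y i - algebraMap k K (z i)) * (c' * y' j) +
          algebraMap k K (z i) * (c' * y' j - algebraMap k K (z' j)) := by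
      rw [map_mul]
      ring
    rw [e]
    refine (b.val.map_add _ _).trans_lt (max_lt ?_ ?_)
    · rw [map_mul, map_mul, hcv', one_mul]
      exact (mul_le_of_le_one_right' (hle' j)).trans_lt (h1 i)
    · rw [map_mul]
      exact (mul_le_of_le_one_left' (b.val_algebraMap_le _)).trans_lt (h1' j)
  have e2 : c * c' * (y p * y' q - y q * y' p) =
      algebraMap k K (z p * z' q - z q * z' p) +
        (((c * y p) * (c' * y' q) - algebraMap k K (z p * z' q)) -
          ((c * y q) * (c' * y' p) - algebraMap k K (z q * z' p))) := by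
    rw [map_sub]
    ring
  have h5 : b.val (c * c' * (y p * y' q - y q * y' p)) = 1 := by
    have h7 : b.val (((c * y p) * (c' * y' q) - algebraMap k K (z p * z' q)) -
          ((c * y q) * (c' * y' p) - algebraMap k K (z q * z' p))) < 1 :=
      (b.val.map_sub _ _).trans_lt (max_lt (key p q) (key q p))
    have h8 := Star_val_unit b hpq
    rw [e2, Valuation.map_add_eq_of_lt_left]
    · exact h8
    · rw [h8]
      exact h7
  rw [map_mul, map_mul, hcv, hcv', one_mul, one_mul] at h5
  exact h5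

end

/-! ### The limit argument -/

section core

variable {k K : Type} [Field k] [IsAlgClosed k] [Field K] [Algebra k K]

/-- The failure of the estimate with constant `c` at the place `b`. -/
def Star_Bad (F : Fin 3 → MvPolynomial (Fin 3) k) (x : Fin 3 → K) (g : MvPolynomial (Fin 3) K)
    (D : ℕ) (b : Place k K) (c : ℕ) : Prop :=
  ∃ l : Mon D, (∀ m : Mon D, b.val (g.coeff m) ≤ b.val (g.coeff l)) ∧
    ∃ (m₀ : ℕ) (G : Mon D → K), (∀ m, b.val (G m) ≤ 1) ∧ G l = 0 ∧ (∃ m, b.val (G m) = 1) ∧
      ∀ n, m₀ ≤ n → eval (iter F x n) g = 0 →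
        b.val (∑ m, G m * mval (iter F x n) m) <
          WithZero.exp (-(c : ℤ)) * nrm b (iter F x n) ^ D

theorem Star_core (hK : IsFunctionField k K) {d : ℕ} {F : Fin 3 → MvPolynomial (Fin 3) k}
    (hF : IsEndo d F) (x : Fin 3 → K) (hx : x ≠ 0)
    (hb : ∀ (b : Place k K) (z : Fin 3 → k), Red b x z → ¬ Preper F z)
    {U : Ultrafilter ℕ} (hU : Free U) {g : MvPolynomial (Fin 3) K} {D : ℕ}
    (hg : Gen (iter F x) U g D) (bp : ℕ → Place k K) (c : ℕ → ℕ) (W : Ultrafilter ℕ)
    {K' : Type} [Field K'] [Algebra K K'] (S : Subring (ℕ → K)) (ρ : S →+* K')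
    (hc : ∀ t : K, (fun _ => t) ∈ S)
    (hρc : ∀ t : K, ρ ⟨fun _ => t, hc t⟩ = algebraMap K K' t)
    (hint : ∀ u : ℕ → K, (∀ a, (bp a).val (u a) ≤ 1) → u ∈ S)
    (hzero : ∀ u : S, (∀ᶠ a in (W : Filter ℕ), (bp a).val (u.1 a) < WithZero.exp (-(c a : ℤ))) →
      ρ u = 0)
    (hunit : ∀ u : S, (∀ᶠ a in (W : Filter ℕ), (bp a).val (u.1 a) = 1) → ρ u ≠ 0)
    (hbad : ∀ a, Star_Bad F x g D (bp a) (c a)) : False := by
  classical
  choose l hl m₀ G hG hGl hG1 hfail using hbad
  choose μ hμ using hG1
  -- the infinite sets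
  have hS : ∀ a, {n | m₀ a ≤ n ∧ eval (iter F x n) g = 0}.Infinite := by
    intro a hfin
    obtain ⟨B, hB⟩ := hfin.bddAbove
    obtain ⟨n, ⟨h1, h2⟩, h3⟩ := (((hU (m₀ a)).and hg.van).and (hU (B + 1))).exists
    have := hB (show n ∈ {n | m₀ a ≤ n ∧ eval (iter F x n) g = 0} from ⟨h1, h2⟩)
    omega
  set N : ℕ → ℕ → ℕ := fun a r => Nat.nth (fun n => m₀ a ≤ n ∧ eval (iter F x n) g = 0) r with hN
  have hN1 : ∀ a r, m₀ a ≤ N a r ∧ eval (iter F x (N a r)) g = 0 := fun a r =>
    Nat.nth_mem_of_infinite (hS a) r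
  have hN2 : ∀ a, Function.Injective (N a) := fun a => Nat.nth_injective (hS a)
  have hx0 : ∀ n, iter F x n ≠ 0 := fun n => iter_ne_zero hF hx n
  -- the coordinate
  choose i hi using fun (a r : ℕ) => exists_val_eq_nrm (bp a) (iter F x (N a r))
  have hxi : ∀ a r, iter F x (N a r) (i a r) ≠ 0 := by
    intro a r h0
    apply nrm_ne_zero (b := bp a) (hx0 (N a r))
    rw [← hi, h0, map_zero]
  set s : ℕ → ℕ → K := fun a r => (iter F x (N a r) (i a r))⁻¹ with hs
  have hs0 : ∀ a r, s a r ≠ 0 := fun a r => inv_ne_zero (hxi a r)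
  have hsn : ∀ a r, (bp a).val (s a r) * nrm (bp a) (iter F x (N a r)) = 1 := by
    intro a r
    rw [← hi, hs, ← map_mul]
    simp only
    rw [inv_mul_cancel₀ (hxi a r), map_one]
  set y : ℕ → ℕ → Fin 3 → K := fun a r => s a r • iter F x (N a r) with hy
  have hy1 : ∀ a r, nrm (bp a) (y a r) = 1 := by
    intro a r
    rw [hy]
    simp only
    rw [nrm_smul, hsn]
  have hyi : ∀ a r, y a r (i a r) = 1 := by
    intro a r
    exact inv_mul_cancel₀ (hxi a r)
  have hyint : ∀ r j a, (bp a).val (y a r j) ≤ 1 := fun r j a =>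
    (val_le_nrm _ _ j).trans (hy1 a r).le
  -- the elements of the ring of sequences
  let yS : ℕ → Fin 3 → S := fun r j => ⟨fun a => y a r j, hint _ (hyint r j)⟩
  let Y : ℕ → Fin 3 → K' := fun r j => ρ (yS r j)
  let GS : Mon D → S := fun m => ⟨fun a => G a m, hint _ fun a => hG a m⟩
  let cS : K →+* S :=
    { toFun := fun t => ⟨fun _ => t, hc t⟩
      map_one' := rfl
      map_mul' := fun _ _ => rfl
      map_zero' := rfl
      map_add' := fun _ _ => rfl }
  have hcS : ρ.comp cS = algebraMap K K' := RingHom.ext fun t => hρc t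
  -- evaluation at `a`
  let ev : ℕ → S →+* K := fun a => (Pi.evalRingHom (fun _ : ℕ => K) a).comp S.subtype
  have hev : ∀ a (u : S), ev a u = u.1 a := fun a u => rfl
  have hext : ∀ u v : S, (∀ a, ev a u = ev a v) → u = v := by
    intro u v h
    apply Subtype.ext
    funext a
    exact h a
  -- nonzero
  have hY0 : ∀ r, Y r ≠ 0 := by
    intro r h0
    obtain ⟨i₀, hi₀⟩ := Star_pigeon W fun a => i a r
    have h1 : ρ (yS r i₀) = 0 := congrFun h0 i₀
    refine hunit _ ?_ h1
    filter_upwards [hi₀] with a ha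
    show (bp a).val (y a r i₀) = 1
    rw [← ha, hyi, map_one]
  -- zeros of `g`
  have hYg : ∀ r, eval (Y r) (map (algebraMap K K') g) = 0 := by
    intro r
    rw [eval_map, ← hcS]
    have h1 : eval₂ (ρ.comp cS) (Y r) g = ρ (eval₂ cS (yS r) g) :=
      (eval₂_comp_left ρ cS (yS r) g).symm
    rw [h1]
    have h2 : eval₂ cS (yS r) g = 0 := by
      apply hext
      intro a
      rw [map_zero, eval₂_comp_left]
      have h3 : (ev a).comp cS = RingHom.id K := RingHom.ext fun t => rfl
      have h4 : (ev a) ∘ (yS r) = s a r • iter F x (N a r) := rfl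
      rw [h3, h4]
      have h5 := eval_smul_hom hg.hom (s a r) (iter F x (N a r))
      rw [(hN1 a r).2, mul_zero] at h5
      exact h5
    rw [h2, map_zero]
  -- zeros of the limit form
  set P : MvPolynomial (Fin 3) K' := Star_form fun m => ρ (GS m) with hP
  have hYP : ∀ r, eval (Y r) P = 0 := by
    intro r
    rw [hP, Star_form_eval]
    have h1 : ∑ m, ρ (GS m) * mval (Y r) m = ρ (∑ m, GS m * mval (yS r) m) := by
      rw [map_sum]
      refine Finset.sum_congr rfl fun m _ => ?_
      rw [map_mul, Star_mval_map]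
    rw [h1]
    apply hzero
    refine Filter.Eventually.of_forall fun a => ?_
    have h2 : (∑ m, GS m * mval (yS r) m).1 a =
        s a r ^ D * ∑ m, G a m * mval (iter F x (N a r)) m := by
      rw [← hev, map_sum, Finset.mul_sum]
      refine Finset.sum_congr rfl fun m _ => ?_
      rw [map_mul, Star_mval_map]
      have h3 : (fun j => ev a (yS r j)) = s a r • iter F x (N a r) := rfl
      rw [h3, Star_mval_smul, hev]
      ring
    rw [h2, map_mul, map_pow]
    have h4 := hfail a (N a r) (hN1 a r).1 (hN1 a r).2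
    have h5 : 0 < (bp a).val (s a r) ^ D :=
      pow_pos (zero_lt_iff.2 ((Valuation.ne_zero_iff _).2 (hs0 a r))) D
    calc (bp a).val (s a r) ^ D * (bp a).val (∑ m, G a m * mval (iter F x (N a r)) m)
        < (bp a).val (s a r) ^ D *
            (WithZero.exp (-(c a : ℤ)) * nrm (bp a) (iter F x (N a r)) ^ D) :=
          mul_lt_mul_of_pos_left h4 h5
      _ = WithZero.exp (-(c a : ℤ)) *
            ((bp a).val (s a r) * nrm (bp a) (iter F x (N a r))) ^ D := by
          rw [mul_pow]
          ac_rfl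
      _ = WithZero.exp (-(c a : ℤ)) := by rw [hsn, one_pow, mul_one]
  -- the points are distinct
  have hdist : ∀ r r', r ≠ r' → ¬ PEq (Y r) (Y r') := by
    rintro r r' hne ⟨e, he, hee⟩
    have hmin : ∀ a, ∃ p : Fin 3 × Fin 3,
        (bp a).val (y a r p.1 * y a r' p.2 - y a r p.2 * y a r' p.1) = 1 := by
      intro a
      obtain ⟨z, hz⟩ := exists_red hK (bp a) x hx
      have hnp := hb (bp a) z hz
      have h1 : Red (bp a) (y a r) (iter F z (N a r)) :=
        Star_red_smul (Red.iter hF hz (N a r)) (hs0 a r)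
      have h2 : Red (bp a) (y a r') (iter F z (N a r')) :=
        Star_red_smul (Red.iter hF hz (N a r')) (hs0 a r')
      refine Star_minor (hy1 a r) (hy1 a r') h1 h2 ?_
      intro h3
      have h4 : N a r ≠ N a r' := fun h5 => hne (hN2 a h5)
      rcases lt_or_gt_of_ne h4 with h5 | h5
      · exact hnp ⟨_, _, h5, h3⟩
      · exact hnp ⟨_, _, h5, h3.symm⟩
    choose p hp using hmin
    obtain ⟨p₀, hp₀⟩ := Star_pigeon W p
    have h1 : ρ (yS r p₀.1 * yS r' p₀.2 - yS r p₀.2 * yS r' p₀.1) ≠ 0 := by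
      apply hunit
      filter_upwards [hp₀] with a ha
      have h2 := hp a
      rw [ha] at h2
      exact h2
    apply h1
    rw [map_sub, map_mul, map_mul]
    have h2 : ∀ j, ρ (yS r' j) = e * ρ (yS r j) := fun j => congrFun hee j
    rw [h2, h2]
    ring
  -- divisibility
  have hgK : (map (algebraMap K K') g).IsHomogeneous D := hg.hom.map _
  have hirr := hg.irr K'
  have hdvd : map (algebraMap K K') g ∣ P := by
    by_contra hnd
    have hfin := finite_common_zeros hgK (Star_form_hom _) hirr hnd Y hY0 hdist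
    have h1 : {r | eval (Y r) (map (algebraMap K K') g) = 0 ∧ eval (Y r) P = 0} =
        (Set.univ : Set ℕ) := Set.eq_univ_of_forall fun r => ⟨hYg r, hYP r⟩
    rw [h1] at hfin
    exact Set.infinite_univ hfin
  obtain ⟨e, he⟩ := Star_same_degree hgK (Star_form_hom _) hirr.ne_zero hdvd
  -- the coefficient at `l`
  obtain ⟨l₀, hl₀⟩ := Star_pigeon W l
  have hcl : P.coeff (l₀ : Fin 3 →₀ ℕ) = 0 := by
    rw [hP, Star_form_coeff]
    apply hzero
    filter_upwards [hl₀] with a ha
    show (bp a).val (G a l₀) < _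
    rw [← ha, hGl, map_zero]
    exact WithZero.exp_pos
  have hgl : g.coeff (l₀ : Fin 3 →₀ ℕ) ≠ 0 := by
    intro h0
    obtain ⟨a, ha⟩ := hl₀.exists
    apply hirr.ne_zero
    have hg0 : g = 0 := by
      ext m
      rw [coeff_zero]
      by_contra hm
      have h1 := hl a ⟨m, Star_mem_mon (Star_hom_degree hg.hom hm)⟩
      rw [ha, h0, map_zero] at h1
      exact hm ((map_eq_zero (bp a).val).1 (le_antisymm h1 zero_le))
    rw [hg0, map_zero]
  have he0 : e = 0 := by
    have h1 : P = C e * map (algebraMap K K') g := by rw [mul_comm]; exact he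
    rw [h1, coeff_C_mul, coeff_map] at hcl
    rcases mul_eq_zero.1 hcl with h2 | h2
    · exact h2
    · exact absurd ((map_eq_zero _).1 h2) hgl
  -- the unit coefficient
  obtain ⟨μ₀, hμ₀⟩ := Star_pigeon W μ
  have h1 : ρ (GS μ₀) ≠ 0 := by
    apply hunit
    filter_upwards [hμ₀] with a ha
    show (bp a).val (G a μ₀) = 1
    rw [← ha]
    exact hμ a
  apply h1
  have h2 := Star_form_coeff (fun m => ρ (GS m)) μ₀
  rw [← h2, he, he0, map_zero, mul_zero, coeff_zero]

end core

theorem Star_free_hyper : Free (Filter.hyperfilter ℕ) := by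
  intro m
  exact (Filter.Eventually.filter_mono Nat.hyperfilter_le_atTop (Filter.eventually_ge_atTop m))

theorem star {k K : Type} [Field k] [IsAlgClosed k] [Field K] [Algebra k K]
    (hK : IsFunctionField k K) {d : ℕ} {F : Fin 3 → MvPolynomial (Fin 3) k} (hF : IsEndo d F)
    (x : Fin 3 → K) (hx : x ≠ 0)
    (hb : ∀ (b : Place k K) (z : Fin 3 → k), Red b x z → ¬ Preper F z)
    {U : Ultrafilter ℕ} (hU : Free U) {g : MvPolynomial (Fin 3) K} {D : ℕ}
    (hg : Gen (iter F x) U g D) :
    ∃ a : Place k K → ℕ, (Function.support a).Finite ∧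
      ∀ (b : Place k K) (l : Mon D), (∀ m : Mon D, b.val (g.coeff m) ≤ b.val (g.coeff l)) →
        ∀ (m₀ : ℕ) (G : Mon D → K), (∀ m, b.val (G m) ≤ 1) → G l = 0 → (∃ m, b.val (G m) = 1) →
          ∃ n, m₀ ≤ n ∧ eval (iter F x n) g = 0 ∧
            WithZero.exp (-(a b : ℤ)) * nrm b (iter F x n) ^ D ≤
              b.val (∑ m, G m * mval (iter F x n) m) := by
  classical
  -- every place is good for some constant
  have hA : ∀ b : Place k K, ∃ c : ℕ, ¬ Star_Bad F x g D b c := by
    intro b
    by_contra h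
    push Not at h
    obtain ⟨K', i1, i2, ρ, hρ1, hρ2⟩ := exists_limit_field b (Filter.hyperfilter ℕ)
    refine Star_core hK hF x hx hb hU hg (fun _ => b) (fun a => a) (Filter.hyperfilter ℕ)
      (bddSub b (Filter.hyperfilter ℕ)) ρ (const_mem_bddSub b _) hρ1 ?_ ?_ ?_ h
    · intro u hu
      refine ⟨0, Filter.Eventually.of_forall fun a => ?_⟩
      rw [Nat.cast_zero, WithZero.exp_zero]
      exact hu a
    · intro u hu
      rw [hρ2]
      intro c
      filter_upwards [hu, Star_free_hyper c] with a h1 h2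
      refine h1.trans_le ?_
      rw [WithZero.exp_le_exp]
      omega
    · intro u hu h0
      rw [hρ2] at h0
      obtain ⟨a, h1, h2⟩ := (hu.and (h0 0)).exists
      rw [Nat.cast_zero, neg_zero, WithZero.exp_zero] at h2
      exact absurd h1 h2.ne
  -- almost every place is good for the constant zero
  have hB : {b : Place k K | Star_Bad F x g D b 0}.Finite := by
    by_contra h
    have hinf : {b : Place k K | Star_Bad F x g D b 0}.Infinite := h
    let bp : ℕ → Place k K := fun a => (Set.Infinite.natEmbedding _ hinf a : Place k K)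
    have hbp : Function.Injective bp := fun a a' haa =>
      (Set.Infinite.natEmbedding _ hinf).injective (Subtype.ext haa)
    have hbad : ∀ a, Star_Bad F x g D (bp a) 0 := fun a =>
      (Set.Infinite.natEmbedding _ hinf a).2
    obtain ⟨K', i1, i2, ρ, hρ1, hρ2⟩ := exists_residue_field hK hbp Star_free_hyper
    refine Star_core hK hF x hx hb hU hg bp (fun _ => 0) (Filter.hyperfilter ℕ)
      (intSub bp (Filter.hyperfilter ℕ)) ρ (const_mem_intSub hK hbp Star_free_hyper) hρ1
      ?_ ?_ ?_ hbad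
    · intro u hu
      exact Filter.Eventually.of_forall hu
    · intro u hu
      rw [hρ2]
      filter_upwards [hu] with a h1
      rw [Nat.cast_zero, neg_zero, WithZero.exp_zero] at h1
      exact h1
    · intro u hu h0
      rw [hρ2] at h0
      obtain ⟨a, h1, h2⟩ := (hu.and h0).exists
      exact absurd h1 h2.ne
  choose c hc using hA
  refine ⟨fun b => if Star_Bad F x g D b 0 then c b else 0, ?_, ?_⟩
  · refine hB.subset fun b hb' => ?_
    by_contra h
    exact hb' (if_neg h)
  · intro b l hl m₀ G hG hGl hG1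
    have hnb : ¬ Star_Bad F x g D b (if Star_Bad F x g D b 0 then c b else 0) := by
      by_cases h : Star_Bad F x g D b 0
      · rw [if_pos h]
        exact hc b
      · rw [if_neg h]
        exact h
    by_contra hcon
    push Not at hcon
    exact hnb ⟨l, hl, m₀, G, hG, hGl, hG1, hcon⟩

end Pool.Agent.Helper30.TP
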