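import Pool.Agent.Helper30.TP.Shift
import Pool.Agent.Helper30.TP.Star
import Pool.Agent.Helper30.TP.Greedy

/-!
# The determinant
-/

set_option autoImplicit false

namespace Pool.Agent.Helper30.TP

open MvPolynomial
open Pool.Agent.Helper16 (Place IsFunctionField)
open Pool.Agent.Helper36 (step iter iter_zero iter_succ iter_succ' iter_add iter_map)

theorem mem_mon {D : ℕ} {m : Fin 3 →₀ ℕ} (h : m.degree = D) :
    m ∈ (Finset.univ : Finset (Fin 3)).finsuppAntidiag D := by
  rw [Finset.mem_finsuppAntidiag]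
  refine ⟨?_, Finset.subset_univ _⟩
  rw [← h, Finsupp.degree_eq_sum]

theorem mon_degree {D : ℕ} (m : Mon D) : (m : Fin 3 →₀ ℕ).degree = D := by
  have h := (Finset.mem_finsuppAntidiag.1 m.2).1
  rw [Finsupp.degree_eq_sum]
  exact h

section

variable {L : Type} [Field L]

theorem hom_degree {P : MvPolynomial (Fin 3) L} {D : ℕ} (hP : P.IsHomogeneous D)
    {m : Fin 3 →₀ ℕ} (hm : P.coeff m ≠ 0) : m.degree = D := by
  have := hP hm
  rw [Finsupp.weight_apply] at this
  rw [Finsupp.degree_eq_sum, ← this, Finsupp.sum_fintype]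
  · simp
  · intro i; simp

theorem eval_eq_sum_mval {P : MvPolynomial (Fin 3) L} {D : ℕ} (hP : P.IsHomogeneous D)
    (y : Fin 3 → L) : eval y P = ∑ m : Mon D, P.coeff m * mval y m := by
  rw [eval_eq']
  have h1 : P.support ⊆ (Finset.univ : Finset (Fin 3)).finsuppAntidiag D := by
    intro m hm
    exact mem_mon (hom_degree hP (mem_support_iff.1 hm))
  rw [Finset.sum_subset h1]
  · rw [← Finset.sum_coe_sort]
    rfl
  · intro m _ hm
    rw [notMem_support_iff.1 hm, zero_mul]

theorem mval_smul {D : ℕ} (c : L) (y : Fin 3 → L) (m : Mon D) :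
    mval (c • y) m = c ^ D * mval y m := by
  unfold mval
  simp only [Pi.smul_apply, smul_eq_mul, mul_pow, Finset.prod_mul_distrib]
  rw [Finset.prod_pow_eq_pow_sum, ← Finsupp.degree_eq_sum, mon_degree]

end

section

variable {k K : Type} [Field k] [Field K] [Algebra k K]

/-- The matrix with entries in the polynomial ring. -/
noncomputable def dmat (F : Fin 3 → MvPolynomial (Fin 3) k) {D : ℕ} (l : Mon D) (j : Mon D → ℕ) :
    Matrix (Mon D) (Mon D) (MvPolynomial (Fin 3) k) := by
  classical
  exact Matrix.of fun s m => if s = l then (Pi.single l 1 : Mon D → MvPolynomial (Fin 3) k) m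
    else mval (iter F (X : Fin 3 → MvPolynomial (Fin 3) k) (j s)) m

theorem mval_map {A B : Type} [CommRing A] [CommRing B] (φ : A →+* B) {D : ℕ} (y : Fin 3 → A)
    (m : Mon D) : φ (mval y m) = mval (fun i => φ (y i)) m := by
  unfold mval
  rw [map_prod]
  simp

theorem aeval_iter_X (F : Fin 3 → MvPolynomial (Fin 3) k) (u : Fin 3 → K) (n : ℕ) :
    (fun i => aeval u (iter F (X : Fin 3 → MvPolynomial (Fin 3) k) n i)) = iter F u n := by
  have h := iter_map F (aeval u : MvPolynomial (Fin 3) k →ₐ[k] K) (X : Fin 3 → _) n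
  rw [← h]
  simp

open Classical in
theorem aeval_det_dmat (F : Fin 3 → MvPolynomial (Fin 3) k) {D : ℕ} (l : Mon D) (j : Mon D → ℕ)
    (u : Fin 3 → K) :
    aeval u (dmat F l j).det = (Matrix.of fun s m : Mon D =>
      if s = l then (Pi.single l 1 : Mon D → K) m else mval (iter F u (j s)) m).det := by
  have h := RingHom.map_det (aeval u : MvPolynomial (Fin 3) k →ₐ[k] K).toRingHom (dmat F l j)
  rw [AlgHom.toRingHom_eq_coe] at h
  rw [show aeval u (dmat F l j).det = ((aeval u : MvPolynomial (Fin 3) k →ₐ[k] K) :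
    MvPolynomial (Fin 3) k →+* K) (dmat F l j).det from rfl, h]
  congr 1
  ext s m
  rw [RingHom.mapMatrix_apply, Matrix.map_apply, dmat, Matrix.of_apply, Matrix.of_apply]
  split_ifs with hs
  · by_cases hm : m = l
    · subst hm; simp
    · simp [Pi.single_apply, hm]
  · rw [mval_map]
    congr 1
    exact aeval_iter_X F u (j s)

theorem iter_X_hom {d : ℕ} {F : Fin 3 → MvPolynomial (Fin 3) k} (hF : IsEndo d F) (n : ℕ)
    (i : Fin 3) : (iter F (X : Fin 3 → MvPolynomial (Fin 3) k) n i).IsHomogeneous (d ^ n) := by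
  induction n generalizing i with
  | zero => rw [pow_zero]; exact isHomogeneous_X _ _
  | succ n ih =>
    rw [iter_succ]
    change (aeval (iter F (X : Fin 3 → MvPolynomial (Fin 3) k) n) (F i)).IsHomogeneous _
    rw [aeval_def, eval₂_eq]
    apply IsHomogeneous.sum
    intro m hm
    have h1 : ((algebraMap k (MvPolynomial (Fin 3) k)) (coeff m (F i))).IsHomogeneous 0 :=
      isHomogeneous_C _ _
    have h2 : (∏ i' ∈ m.support, (iter F (X : Fin 3 → MvPolynomial (Fin 3) k) n i') ^ m i').IsHomogeneous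
        (∑ i' ∈ m.support, d ^ n * m i') := by
      apply IsHomogeneous.prod
      intro i' _
      exact (ih i').pow _
    have h3 : ∑ i' ∈ m.support, d ^ n * m i' = d ^ (n + 1) := by
      rw [← Finset.mul_sum, pow_succ]
      congr 1
      have := (hF.hom i) (mem_support_iff.1 hm)
      rw [Finsupp.weight_apply] at this
      simpa [Finsupp.sum] using this
    have h4 := h1.mul h2
    rwa [zero_add, h3] at h4

theorem mval_iter_X_hom {d : ℕ} {F : Fin 3 → MvPolynomial (Fin 3) k} (hF : IsEndo d F) (n : ℕ)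
    {D : ℕ} (m : Mon D) :
    (mval (iter F (X : Fin 3 → MvPolynomial (Fin 3) k) n) m).IsHomogeneous (d ^ n * D) := by
  unfold mval
  have h := IsHomogeneous.prod (Finset.univ : Finset (Fin 3))
    (fun i => iter F (X : Fin 3 → MvPolynomial (Fin 3) k) n i ^ (m : Fin 3 →₀ ℕ) i)
    (fun i => d ^ n * (m : Fin 3 →₀ ℕ) i) (fun i _ => (iter_X_hom hF n i).pow _)
  rwa [← Finset.mul_sum, ← Finsupp.degree_eq_sum, mon_degree] at h

theorem det_dmat_hom {d : ℕ} {F : Fin 3 → MvPolynomial (Fin 3) k} (hF : IsEndo d F) {D : ℕ}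
    (l : Mon D) (j : Mon D → ℕ) : ∃ t, (dmat F l j).det.IsHomogeneous t := by
  classical
  refine ⟨∑ s : Mon D, if s = l then 0 else d ^ j s * D, ?_⟩
  rw [Matrix.det_apply]
  apply IsHomogeneous.sum
  intro σ _
  have h1 : (∏ i : Mon D, dmat F l j (σ i) i).IsHomogeneous
      (∑ i : Mon D, if σ i = l then 0 else d ^ j (σ i) * D) := by
    apply IsHomogeneous.prod
    intro i _
    rw [dmat, Matrix.of_apply]
    split_ifs with hs
    · by_cases hm : i = l
      · subst hm
        rw [Pi.single_eq_same]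
        exact isHomogeneous_one _ _
      · rw [Pi.single_eq_of_ne hm]
        exact isHomogeneous_zero _ _ _
    · exact mval_iter_X_hom hF _ i
  rw [Equiv.sum_comp σ (fun s => if s = l then 0 else d ^ j s * D)] at h1
  rcases Int.units_eq_one_or (Equiv.Perm.sign σ) with h | h
  · rw [h, one_smul]; exact h1
  · rw [h, Units.neg_smul, one_smul]
    exact h1.neg

end

end Pool.Agent.Helper30.TP
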