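import Pool.Agent.Helper30.TP.PtHeight

/-!
# Echelon form of a form with coefficients in a function field
-/

set_option autoImplicit false

namespace Pool.Agent.Helper30.TP

open MvPolynomial
open Pool.Agent.Helper16 (Place IsFunctionField)
open Pool.Agent.Helper36 (step iter)

/-- Reduction of an element modulo a finite set with pairwise different valuations. -/
theorem ech_reduce {k K : Type} [Field k] [IsAlgClosed k] [Field K] [Algebra k K]
    (hK : IsFunctionField k K) (b : Place k K) (S : Finset K) (hS : ∀ e ∈ S, e ≠ 0) (n : ℕ) :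
    ∀ a : K, (S.filter fun e => b.val e ≤ b.val a).card ≤ n →
      ∃ a' : K, a - a' ∈ Submodule.span k (S : Set K) ∧ (a' = 0 ∨ ∀ e ∈ S, b.val e ≠ b.val a') := by
  classical
  induction n with
  | zero =>
    intro a ha
    refine ⟨a, by simp, Or.inr ?_⟩
    intro e he h
    have : e ∈ S.filter fun e => b.val e ≤ b.val a := Finset.mem_filter.2 ⟨he, h.le⟩
    rw [Finset.card_eq_zero.1 (Nat.le_zero.1 ha)] at this
    exact absurd this (Finset.notMem_empty e)
  | succ n ih =>
    intro a ha
    by_cases h : ∃ e ∈ S, b.val e = b.val a
    · obtain ⟨e, he, hv⟩ := h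
      have he0 : e ≠ 0 := hS e he
      have hve : b.val e ≠ 0 := (Valuation.ne_zero_iff _).2 he0
      have hu : b.val (a / e) ≤ 1 := by
        rw [map_div₀, ← hv, div_self hve]
      obtain ⟨c, hc⟩ := exists_residue hK b (a / e) hu
      have h1 : a - c • e = e * (a / e - algebraMap k K c) := by
        rw [Algebra.smul_def, mul_sub, mul_div_cancel₀ _ he0]
        ring
      have h2 : b.val (a - c • e) < b.val e := by
        rw [h1, map_mul]
        calc b.val e * b.val (a / e - algebraMap k K c) < b.val e * 1 := by
              exact mul_lt_mul_of_pos_left hc (zero_lt_iff.2 hve)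
          _ = b.val e := mul_one _
      have h3 : (S.filter fun x => b.val x ≤ b.val (a - c • e)).card ≤ n := by
        have hss : (S.filter fun x => b.val x ≤ b.val (a - c • e)) ⊂
            S.filter fun x => b.val x ≤ b.val a := by
          refine Finset.ssubset_iff_subset_ne.2 ⟨?_, ?_⟩
          · intro x hx
            rw [Finset.mem_filter] at hx ⊢
            exact ⟨hx.1, hx.2.trans (h2.le.trans hv.le)⟩
          · intro heq
            have : e ∈ S.filter fun x => b.val x ≤ b.val (a - c • e) := by
              rw [heq]
              exact Finset.mem_filter.2 ⟨he, hv.le⟩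
            exact absurd (Finset.mem_filter.1 this).2 (not_le.2 h2)
        exact Nat.le_of_lt_succ ((Finset.card_lt_card hss).trans_le ha)
      obtain ⟨a', ha', hor⟩ := ih (a - c • e) h3
      refine ⟨a', ?_, hor⟩
      have : a - a' = (a - c • e - a') + c • e := by ring
      rw [this]
      exact Submodule.add_mem _ ha' (Submodule.smul_mem _ _ (Submodule.subset_span he))
    · refine ⟨a, by simp, Or.inr ?_⟩
      intro e he hv
      exact h ⟨e, he, hv⟩

/-- A finite set of elements is contained in the span of a finite set with pairwise different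
valuations. -/
theorem ech_span {k K : Type} [Field k] [IsAlgClosed k] [Field K] [Algebra k K]
    (hK : IsFunctionField k K) (b : Place k K) (T : Finset K) :
    ∃ S : Finset K, (∀ e ∈ S, e ≠ 0) ∧ (∀ e ∈ S, ∀ e' ∈ S, e ≠ e' → b.val e ≠ b.val e') ∧
      ∀ a ∈ T, a ∈ Submodule.span k (S : Set K) := by
  classical
  induction T using Finset.induction_on with
  | empty => exact ⟨∅, by simp, by simp, by simp⟩
  | insert a T _ ih =>
    obtain ⟨S, hS, hd, hsp⟩ := ih
    obtain ⟨a', ha', hor⟩ := ech_reduce hK b S hS _ a le_rfl
    by_cases h0 : a' = 0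
    · refine ⟨S, hS, hd, ?_⟩
      intro x hx
      rcases Finset.mem_insert.1 hx with rfl | hx
      · simpa [h0] using ha'
      · exact hsp x hx
    · have hne : ∀ e ∈ S, b.val e ≠ b.val a' := hor.resolve_left h0
      refine ⟨insert a' S, ?_, ?_, ?_⟩
      · intro e he
        rcases Finset.mem_insert.1 he with rfl | he
        · exact h0
        · exact hS e he
      · intro e he e' he' hee
        rcases Finset.mem_insert.1 he with h1 | h1
        · rcases Finset.mem_insert.1 he' with h2 | h2
          · exact absurd (h1.trans h2.symm) hee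
          · rw [h1]
            exact (hne e' h2).symm
        · rcases Finset.mem_insert.1 he' with h2 | h2
          · rw [h2]
            exact hne e h1
          · exact hd e h1 e' h2 hee
      · have hmono : Submodule.span k (S : Set K) ≤ Submodule.span k (insert a' S : Finset K) := by
          apply Submodule.span_mono
          intro x hx
          exact Finset.mem_coe.2 (Finset.mem_insert_of_mem (Finset.mem_coe.1 hx))
        intro x hx
        rcases Finset.mem_insert.1 hx with rfl | hx
        · have : x = (x - a') + a' := by ring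
          rw [this]
          exact Submodule.add_mem _ (hmono ha')
            (Submodule.subset_span (Finset.mem_coe.2 (Finset.mem_insert_self _ _)))
        · exact hmono (hsp x hx)

theorem ech_fin_sum {K M : Type} [AddCommMonoid M] (S : Finset K) (f : K → M) :
    ∑ i : Fin S.card, f (S.equivFin.symm i : K) = ∑ x ∈ S, f x := by
  rw [← Finset.sum_coe_sort S f]
  exact Equiv.sum_comp S.equivFin.symm (fun x : S => f x)

/-- Decomposition of a form over `K` with respect to a space `N` of polynomials over `k`. -/
theorem exists_echelon {k K : Type} [Field k] [IsAlgClosed k] [Field K] [Algebra k K]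
    (hK : IsFunctionField k K) (b : Place k K) {g : MvPolynomial (Fin 3) K} {D : ℕ}
    (hg : g.IsHomogeneous D) (N : Submodule k (MvPolynomial (Fin 3) k)) :
    ∃ (s t : ℕ) (e : Fin s → K) (H : Fin s → MvPolynomial (Fin 3) k) (c : Fin t → K)
      (P : Fin t → MvPolynomial (Fin 3) k),
      g = ∑ i, C (e i) * map (algebraMap k K) (H i) + ∑ j, C (c j) * map (algebraMap k K) (P j) ∧
      (∀ i, e i ≠ 0) ∧ (∀ i j, i ≠ j → b.val (e i) ≠ b.val (e j)) ∧
      (∀ i, (H i).IsHomogeneous D ∧ H i ∉ N) ∧ (∀ j, (P j).IsHomogeneous D ∧ P j ∈ N) := by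
  classical
  obtain ⟨S, hS, hd, hsp⟩ := ech_span hK b (g.support.image fun m => coeff m g)
  have hex : ∀ m : Fin 3 →₀ ℕ, ∃ f : K → k, m ∈ g.support → ∑ x ∈ S, f x • x = coeff m g := by
    intro m
    by_cases hm : m ∈ g.support
    · have h1 := hsp (coeff m g) (Finset.mem_image_of_mem _ hm)
      obtain ⟨f, -, hf⟩ := Submodule.mem_span_finset.1 h1
      exact ⟨f, fun _ => hf⟩
    · exact ⟨0, fun h => absurd h hm⟩
  choose f hf using hex
  let G : K → MvPolynomial (Fin 3) k := fun x => ∑ m ∈ g.support, monomial m (f m x)
  have hGh : ∀ x, (G x).IsHomogeneous D := by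
    intro x
    refine IsHomogeneous.sum _ _ _ ?_
    intro m hm
    refine isHomogeneous_monomial _ ?_
    have := hg (mem_support_iff.1 hm)
    rw [Finsupp.degree_eq_weight_one]
    exact this
  have hgG : g = ∑ x ∈ S, C x * map (algebraMap k K) (G x) := by
    have h1 : ∀ x ∈ S, C x * map (algebraMap k K) (G x) =
        ∑ m ∈ g.support, monomial m (f m x • x) := by
      intro x _
      simp only [G, map_sum, Finset.mul_sum, map_monomial, C_mul_monomial]
      refine Finset.sum_congr rfl ?_
      intro m _
      rw [Algebra.smul_def, mul_comm]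
    rw [Finset.sum_congr rfl h1, Finset.sum_comm]
    conv_lhs => rw [g.as_sum]
    refine Finset.sum_congr rfl ?_
    intro m hm
    rw [← map_sum, hf m hm]
  let S1 := S.filter fun x => G x ∉ N
  let S2 := S.filter fun x => G x ∈ N
  refine ⟨S1.card, S2.card, fun i => (S1.equivFin.symm i : K), fun i => G (S1.equivFin.symm i : K),
    fun i => (S2.equivFin.symm i : K), fun i => G (S2.equivFin.symm i : K), ?_, ?_, ?_, ?_, ?_⟩
  · rw [ech_fin_sum S1 (fun x => C x * map (algebraMap k K) (G x)),
      ech_fin_sum S2 (fun x => C x * map (algebraMap k K) (G x))]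
    conv_lhs => rw [hgG]
    rw [add_comm]
    exact (Finset.sum_filter_add_sum_filter_not S (fun x => G x ∈ N) _).symm
  · intro i
    exact hS _ (Finset.mem_filter.1 (S1.equivFin.symm i).2).1
  · intro i j hij
    refine hd _ (Finset.mem_filter.1 (S1.equivFin.symm i).2).1 _
      (Finset.mem_filter.1 (S1.equivFin.symm j).2).1 ?_
    intro h
    exact hij (S1.equivFin.symm.injective (Subtype.ext h))
  · intro i
    exact ⟨hGh _, (Finset.mem_filter.1 (S1.equivFin.symm i).2).2⟩
  · intro j
    exact ⟨hGh _, (Finset.mem_filter.1 (S2.equivFin.symm j).2).2⟩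

end Pool.Agent.Helper30.TP
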