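import Pool.Agent.Helper30.TP.OZDefs
import Pool.Agent.Helper30.TP.Basic
import Pool.Agent.Helper30.TP.Ech
import Pool.Agent.Helper30.TP.Const
import Pool.Agent.Helper30.TP.Germ

/-!
# One eigenvalue zero, the other not a root of unity
-/

set_option autoImplicit false

namespace Pool.Agent.Helper30.TP

open MvPolynomial
open Pool.Agent.Helper16 (Place IsFunctionField)
open Pool.Agent.Helper36 (step iter iter_zero iter_succ iter_succ')

section Fil

variable {k : Type} [Field k]

/-- all monomials have degree at least `r` in the last two variables -/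
private def OZ3_Fil (r : ℕ) (P : MvPolynomial (Fin 3) k) : Prop :=
  ∀ m, coeff m P ≠ 0 → r ≤ m 1 + m 2

private theorem OZ3_Fil.mono {r s : ℕ} (h : r ≤ s) {P : MvPolynomial (Fin 3) k}
    (hP : OZ3_Fil s P) : OZ3_Fil r P := fun m hm => h.trans (hP m hm)

private theorem OZ3_Fil.zeroP (r : ℕ) : OZ3_Fil r (0 : MvPolynomial (Fin 3) k) := by
  intro m hm
  exact absurd (coeff_zero m) hm

private theorem OZ3_Fil.all (P : MvPolynomial (Fin 3) k) : OZ3_Fil 0 P := fun _ _ => Nat.zero_le _

private theorem OZ3_Fil.add {r : ℕ} {P Q : MvPolynomial (Fin 3) k} (hP : OZ3_Fil r P)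
    (hQ : OZ3_Fil r Q) : OZ3_Fil r (P + Q) := by
  intro m hm
  rw [coeff_add] at hm
  by_cases h : coeff m P = 0
  · rw [h, zero_add] at hm
    exact hQ m hm
  · exact hP m h

private theorem OZ3_Fil.neg {r : ℕ} {P : MvPolynomial (Fin 3) k} (hP : OZ3_Fil r P) :
    OZ3_Fil r (-P) := by
  intro m hm
  rw [coeff_neg, neg_ne_zero] at hm
  exact hP m hm

private theorem OZ3_Fil.sub {r : ℕ} {P Q : MvPolynomial (Fin 3) k} (hP : OZ3_Fil r P)
    (hQ : OZ3_Fil r Q) : OZ3_Fil r (P - Q) := by
  rw [sub_eq_add_neg]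
  exact hP.add hQ.neg

private theorem OZ3_Fil.mul {r s : ℕ} {P Q : MvPolynomial (Fin 3) k} (hP : OZ3_Fil r P)
    (hQ : OZ3_Fil s Q) : OZ3_Fil (r + s) (P * Q) := by
  classical
  intro m hm
  rw [coeff_mul] at hm
  obtain ⟨⟨a, b⟩, hab, hne⟩ := Finset.exists_ne_zero_of_sum_ne_zero hm
  rw [Finset.HasAntidiagonal.mem_antidiagonal] at hab
  have h1 := hP a (left_ne_zero_of_mul hne)
  have h2 := hQ b (right_ne_zero_of_mul hne)
  rw [← hab]
  simp only [Finsupp.add_apply]
  omega

private theorem OZ3_Fil.pow {r : ℕ} {P : MvPolynomial (Fin 3) k} (hP : OZ3_Fil r P) (n : ℕ) :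
    OZ3_Fil (r * n) (P ^ n) := by
  induction n with
  | zero => exact (OZ3_Fil.all _).mono (by simp)
  | succ n ih =>
    rw [pow_succ]
    exact (ih.mul hP).mono (by rw [Nat.mul_succ])

private theorem OZ3_Fil.sum {ι : Type} {s : Finset ι} {f : ι → MvPolynomial (Fin 3) k} {r : ℕ}
    (h : ∀ i ∈ s, OZ3_Fil r (f i)) : OZ3_Fil r (∑ i ∈ s, f i) := by
  classical
  induction s using Finset.induction_on with
  | empty => rw [Finset.sum_empty]; exact OZ3_Fil.zeroP r
  | insert a s ha ih =>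
    rw [Finset.sum_insert ha]
    exact (h a (Finset.mem_insert_self _ _)).add
      (ih fun i hi => h i (Finset.mem_insert_of_mem hi))

private theorem OZ3_Fil.mulLeft {r : ℕ} {P : MvPolynomial (Fin 3) k} (hP : OZ3_Fil r P)
    (Q : MvPolynomial (Fin 3) k) : OZ3_Fil r (Q * P) :=
  ((OZ3_Fil.all Q).mul hP).mono (by omega)

private theorem OZ3_Fil.mulRight {r : ℕ} {P : MvPolynomial (Fin 3) k} (hP : OZ3_Fil r P)
    (Q : MvPolynomial (Fin 3) k) : OZ3_Fil r (P * Q) :=
  (hP.mul (OZ3_Fil.all Q)).mono (by omega)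

private theorem OZ3_Fil.X1 : OZ3_Fil 1 (X 1 : MvPolynomial (Fin 3) k) := by
  classical
  intro m hm
  rw [coeff_X] at hm
  split_ifs at hm with h
  · rw [← h]
    simp
  · exact absurd rfl hm

/-- weighted degrees and composition -/
private theorem OZ3_Fil.compW {F : Fin 3 → MvPolynomial (Fin 3) k} {r w1 w2 : ℕ}
    (h1 : OZ3_Fil w1 (F 1)) (h2 : OZ3_Fil w2 (F 2)) {P : MvPolynomial (Fin 3) k}
    (hP : ∀ m, coeff m P ≠ 0 → r ≤ w1 * m 1 + w2 * m 2) : OZ3_Fil r (compk F P) := by
  unfold compk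
  rw [aeval_def, eval₂_eq']
  refine OZ3_Fil.sum fun m hm => ?_
  refine OZ3_Fil.mulLeft ?_ _
  rw [Fin.prod_univ_three]
  exact ((((OZ3_Fil.all (F 0 ^ m 0)).mul (h1.pow (m 1))).mul (h2.pow (m 2)))).mono
    (by have := hP m (mem_support_iff.1 hm); omega)

private theorem OZ3_Fil.comp {F : Fin 3 → MvPolynomial (Fin 3) k} {r : ℕ}
    (h1 : OZ3_Fil 1 (F 1)) (h2 : OZ3_Fil 1 (F 2)) {P : MvPolynomial (Fin 3) k}
    (hP : OZ3_Fil r P) : OZ3_Fil r (compk F P) :=
  OZ3_Fil.compW h1 h2 fun m hm => by have := hP m hm; omega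

/-- the leading term is `c X_1^r` (up to a power of `X_0`) -/
private def OZ3_Lead (r : ℕ) (c : k) (P : MvPolynomial (Fin 3) k) : Prop :=
  ∃ m : ℕ, OZ3_Fil (r + 1) (P - C c * (X 0 ^ m * X 1 ^ r))

/-- The shape of the map -/
private structure OZ3_Shape (d : ℕ) (F : Fin 3 → MvPolynomial (Fin 3) k) (μ : k) : Prop where
  f0 : OZ3_Fil 1 (F 0 - X 0 ^ d)
  f1 : OZ3_Fil 2 (F 1 - C μ * (X 0 ^ (d - 1) * X 1))
  f2 : OZ3_Fil 2 (F 2)

private theorem OZ3_Shape.g1 {d : ℕ} {F : Fin 3 → MvPolynomial (Fin 3) k} {μ : k}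
    (h : OZ3_Shape d F μ) : OZ3_Fil 1 (F 1) := by
  have h1 : F 1 = (F 1 - C μ * (X 0 ^ (d - 1) * X 1)) + C μ * (X 0 ^ (d - 1) * X 1) := by ring
  rw [h1]
  exact (h.f1.mono (by norm_num)).add ((OZ3_Fil.X1.mulLeft _).mulLeft _)

private theorem OZ3_Shape.p0 {d : ℕ} {F : Fin 3 → MvPolynomial (Fin 3) k} {μ : k}
    (h : OZ3_Shape d F μ) (m : ℕ) : OZ3_Fil 1 (F 0 ^ m - X 0 ^ (d * m)) := by
  rw [pow_mul]
  obtain ⟨q, hq⟩ := sub_dvd_pow_sub_pow (F 0) (X 0 ^ d) m
  rw [hq]
  exact h.f0.mulRight q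

private theorem OZ3_Shape.p1 {d : ℕ} {F : Fin 3 → MvPolynomial (Fin 3) k} {μ : k}
    (h : OZ3_Shape d F μ) (r : ℕ) :
    OZ3_Fil (r + 1) (F 1 ^ r - (C μ * (X 0 ^ (d - 1) * X 1)) ^ r) := by
  induction r with
  | zero => rw [pow_zero, pow_zero, sub_self]; exact OZ3_Fil.zeroP _
  | succ r ih =>
    have h1 : F 1 ^ (r + 1) - (C μ * (X 0 ^ (d - 1) * X 1)) ^ (r + 1)
        = (F 1 - C μ * (X 0 ^ (d - 1) * X 1)) * F 1 ^ r
          + (C μ * (X 0 ^ (d - 1) * X 1))
            * (F 1 ^ r - (C μ * (X 0 ^ (d - 1) * X 1)) ^ r) := by ring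
    rw [h1]
    exact ((h.f1.mul (h.g1.pow r)).mono (by omega)).add
      ((((OZ3_Fil.X1.mulLeft (X 0 ^ (d - 1))).mulLeft (C μ)).mul ih).mono (by omega))

private theorem OZ3_Lead.comp {d : ℕ} {F : Fin 3 → MvPolynomial (Fin 3) k} {μ : k}
    (h : OZ3_Shape d F μ) {r : ℕ} {c : k} {P : MvPolynomial (Fin 3) k}
    (hP : OZ3_Lead r c P) : OZ3_Lead r (c * μ ^ r) (compk F P) := by
  obtain ⟨m, hm⟩ := hP
  refine ⟨d * m + (d - 1) * r, ?_⟩
  have h1 := OZ3_Fil.comp h.g1 (h.f2.mono (by norm_num)) hm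
  have h2 : compk F (P - C c * (X 0 ^ m * X 1 ^ r)) =
      compk F P - C c * (F 0 ^ m * F 1 ^ r) := by
    unfold compk
    rw [map_sub, map_mul, map_mul, map_pow, map_pow, aeval_X, aeval_X, aeval_C]
    rfl
  rw [h2] at h1
  have h3 : compk F P - C (c * μ ^ r) * (X 0 ^ (d * m + (d - 1) * r) * X 1 ^ r)
      = (compk F P - C c * (F 0 ^ m * F 1 ^ r))
        + (C c * ((F 0 ^ m - X 0 ^ (d * m)) * F 1 ^ r)
          + C c * (X 0 ^ (d * m) * (F 1 ^ r - (C μ * (X 0 ^ (d - 1) * X 1)) ^ r))) := by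
    rw [C_mul, C_pow]
    ring
  rw [h3]
  refine h1.add (OZ3_Fil.add ?_ ?_)
  · exact (((h.p0 m).mul (h.g1.pow r)).mulLeft _).mono (by omega)
  · exact (((h.p1 r).mulLeft _).mulLeft _)

private theorem OZ3_Lead.addFil {r : ℕ} {c : k} {P Q : MvPolynomial (Fin 3) k}
    (hP : OZ3_Lead r c P) (hQ : OZ3_Fil (r + 1) Q) : OZ3_Lead r c (P + Q) := by
  obtain ⟨m, hm⟩ := hP
  refine ⟨m, ?_⟩
  have h1 : P + Q - C c * (X 0 ^ m * X 1 ^ r) = (P - C c * (X 0 ^ m * X 1 ^ r)) + Q := by ring
  rw [h1]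
  exact hm.add hQ

private theorem OZ3_Lead.fil {r : ℕ} {P : MvPolynomial (Fin 3) k} (hP : OZ3_Lead r 0 P) :
    OZ3_Fil (r + 1) P := by
  obtain ⟨m, hm⟩ := hP
  rwa [C_0, zero_mul, sub_zero] at hm

private theorem OZ3_lead_of_fil {d : ℕ} {F : Fin 3 → MvPolynomial (Fin 3) k} {μ : k}
    (h : OZ3_Shape d F μ) {r t : ℕ} {P : MvPolynomial (Fin 3) k} (hP : P.IsHomogeneous t)
    (hr : OZ3_Fil r P) : ∃ c, OZ3_Lead r c (compk F P) := by
  classical
  let m0 : Fin 3 →₀ ℕ := Finsupp.single 0 (t - r) + Finsupp.single 1 r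
  have hm0 : (monomial m0 (coeff m0 P) : MvPolynomial (Fin 3) k)
      = C (coeff m0 P) * (X 0 ^ (t - r) * X 1 ^ r) := by
    rw [X_pow_eq_monomial, X_pow_eq_monomial, monomial_mul, C_mul_monomial]
    simp [m0]
  have h1 : OZ3_Lead r (coeff m0 P * μ ^ r) (compk F (monomial m0 (coeff m0 P))) := by
    apply OZ3_Lead.comp h
    refine ⟨t - r, ?_⟩
    rw [hm0, sub_self]
    exact OZ3_Fil.zeroP _
  have h2 : OZ3_Fil (r + 1) (compk F (P - monomial m0 (coeff m0 P))) := by
    refine OZ3_Fil.compW h.g1 h.f2 fun m hm => ?_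
    rw [coeff_sub, coeff_monomial] at hm
    split_ifs at hm with heq
    · rw [← heq, sub_self] at hm
      exact absurd rfl hm
    · rw [sub_zero] at hm
      have h3 := hr m hm
      have h4 := hP hm
      rw [Finsupp.weight_apply, Finsupp.sum_fintype _ _ (by intro i; simp),
        Fin.sum_univ_three] at h4
      simp only [Pi.one_apply, smul_eq_mul, mul_one] at h4
      by_contra h5
      apply heq
      ext i
      fin_cases i
      · simp [m0]; omega
      · simp [m0]; omega
      · simp [m0]; omega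
  have h3 : compk F P = compk F (monomial m0 (coeff m0 P)) +
      compk F (P - monomial m0 (coeff m0 P)) := by
    unfold compk
    rw [← map_add]
    congr 1
    ring
  rw [h3]
  exact ⟨_, h1.addFil h2⟩

/-- the shape of a map in normal form -/
private theorem OZ3_coeff_eval {G : MvPolynomial (Fin 3) k} {e : ℕ} (hG : G.IsHomogeneous e) :
    eval (Pi.single 0 1) G = coeff (Finsupp.single 0 e) G := by
  classical
  rw [eval_eq']
  rw [Finset.sum_eq_single (Finsupp.single 0 e)]
  · rw [Fin.prod_univ_three]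
    simp
  · intro m hm hne
    rw [mem_support_iff] at hm
    have h4 := hG hm
    rw [Finsupp.weight_apply, Finsupp.sum_fintype _ _ (by intro i; simp),
      Fin.sum_univ_three] at h4
    simp only [Pi.one_apply, smul_eq_mul, mul_one] at h4
    rw [Fin.prod_univ_three]
    by_cases h1 : m 1 = 0
    · by_cases h2 : m 2 = 0
      · exfalso
        apply hne
        ext i
        fin_cases i
        · simp; omega
        · simp [h1]
        · simp [h2]
      · simp [h2]
    · simp [h1]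
  · intro hm
    rw [notMem_support_iff] at hm
    rw [hm, zero_mul]

private theorem OZ3_coeff_pderiv {G : MvPolynomial (Fin 3) k} {e : ℕ} (hG : G.IsHomogeneous e)
    (i : Fin 3) (hi : i ≠ 0) :
    eval (Pi.single 0 1) (pderiv i G)
      = coeff (Finsupp.single 0 (e - 1) + Finsupp.single i 1) G := by
  classical
  have h1 : (pderiv i G).IsHomogeneous (e - 1) := hG.pderiv
  rw [OZ3_coeff_eval h1, coeff_pderiv]
  simp [hi.symm]

private theorem OZ3_shape {d : ℕ} {F : Fin 3 → MvPolynomial (Fin 3) k} {μ : k}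
    (hF : IsEndo d F) (hn : Normal F μ) : OZ3_Shape d F μ := by
  classical
  have hd := hF.two_le
  have e0 := OZ3_coeff_eval (hF.hom 0)
  have e1 := OZ3_coeff_eval (hF.hom 1)
  have e2 := OZ3_coeff_eval (hF.hom 2)
  rw [hn.fix] at e0 e1 e2
  have j11 := OZ3_coeff_pderiv (hF.hom 1) 1 (by decide)
  have j12 := OZ3_coeff_pderiv (hF.hom 1) 2 (by decide)
  have j21 := OZ3_coeff_pderiv (hF.hom 2) 1 (by decide)
  have j22 := OZ3_coeff_pderiv (hF.hom 2) 2 (by decide)
  have n11 : eval (Pi.single 0 1) (pderiv 1 (F 1)) = μ := hn.j11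
  have n12 : eval (Pi.single 0 1) (pderiv 2 (F 1)) = 0 := hn.j12
  have n21 : eval (Pi.single 0 1) (pderiv 1 (F 2)) = 0 := hn.j21
  have n22 : eval (Pi.single 0 1) (pderiv 2 (F 2)) = 0 := hn.j22
  rw [n11] at j11
  rw [n12] at j12
  rw [n21] at j21
  rw [n22] at j22
  have key : ∀ (i : Fin 3) (m : Fin 3 →₀ ℕ), coeff m (F i) ≠ 0 → m 0 + m 1 + m 2 = d := by
    intro i m hm
    have h4 := hF.hom i hm
    rw [Finsupp.weight_apply, Finsupp.sum_fintype _ _ (by intro i; simp),
      Fin.sum_univ_three] at h4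
    simpa only [Pi.one_apply, smul_eq_mul, mul_one] using h4
  have ext3 : ∀ m m' : Fin 3 →₀ ℕ, m 0 = m' 0 → m 1 = m' 1 → m 2 = m' 2 → m = m' := by
    intro m m' h0 h1 h2
    ext i
    fin_cases i
    · exact h0
    · exact h1
    · exact h2
  refine ⟨?_, ?_, ?_⟩
  · intro m hm
    by_contra hlt
    have hm1 : m 1 = 0 := by omega
    have hm2 : m 2 = 0 := by omega
    apply hm
    rw [coeff_sub, X_pow_eq_monomial, coeff_monomial]
    split_ifs with h
    · rw [← h, ← e0]
      simp
    · rw [sub_zero]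
      by_contra h5
      apply h
      have := key 0 m h5
      apply ext3
      · simp; omega
      · simp [hm1]
      · simp [hm2]
  · intro m hm
    by_contra hlt
    apply hm
    have hX : (C μ * (X 0 ^ (d - 1) * X 1) : MvPolynomial (Fin 3) k)
        = monomial (Finsupp.single 0 (d - 1) + Finsupp.single 1 1) μ := by
      rw [X_pow_eq_monomial, X, monomial_mul, C_mul_monomial]
      simp
    rw [coeff_sub, hX, coeff_monomial]
    split_ifs with h
    · rw [← h, ← j11, sub_self]
    · rw [sub_zero]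
      by_contra h5
      have h6 := key 1 m h5
      rcases (show (m 1 = 0 ∧ m 2 = 0) ∨ (m 1 = 1 ∧ m 2 = 0) ∨ (m 1 = 0 ∧ m 2 = 1) by omega) with
        ⟨a, b⟩ | ⟨a, b⟩ | ⟨a, b⟩
      · apply h5
        have : m = Finsupp.single 0 d := by
          apply ext3
          · simp; omega
          · simp [a]
          · simp [b]
        rw [this, ← e1]
        simp
      · apply h
        apply ext3
        · simp; omega
        · simp [a]
        · simp [b]
      · apply h5
        have : m = Finsupp.single 0 (d - 1) + Finsupp.single 2 1 := by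
          apply ext3
          · simp; omega
          · simp [a]
          · simp [b]
        rw [this, ← j12]
  · intro m h5
    by_contra hlt
    have h6 := key 2 m h5
    rcases (show (m 1 = 0 ∧ m 2 = 0) ∨ (m 1 = 1 ∧ m 2 = 0) ∨ (m 1 = 0 ∧ m 2 = 1) by omega) with
      ⟨a, b⟩ | ⟨a, b⟩ | ⟨a, b⟩
    · apply h5
      have : m = Finsupp.single 0 d := by
        apply ext3
        · simp; omega
        · simp [a]
        · simp [b]
      rw [this, ← e2]
      simp
    · apply h5
      have : m = Finsupp.single 0 (d - 1) + Finsupp.single 1 1 := by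
        apply ext3
        · simp; omega
        · simp [a]
        · simp [b]
      rw [this, ← j21]
    · apply h5
      have : m = Finsupp.single 0 (d - 1) + Finsupp.single 2 1 := by
        apply ext3
        · simp; omega
        · simp [a]
        · simp [b]
      rw [this, ← j22]

/-- iterated composition with the map -/
private noncomputable def OZ3_cn (F : Fin 3 → MvPolynomial (Fin 3) k) (n : ℕ) :
    MvPolynomial (Fin 3) k →ₐ[k] MvPolynomial (Fin 3) k := (aeval F) ^ n

private theorem OZ3_cn_succ (F : Fin 3 → MvPolynomial (Fin 3) k) (n : ℕ)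
    (P : MvPolynomial (Fin 3) k) : OZ3_cn F (n + 1) P = compk F (OZ3_cn F n P) := by
  unfold OZ3_cn compk
  rw [pow_succ']
  rfl

private theorem OZ3_cn_hom {d : ℕ} {F : Fin 3 → MvPolynomial (Fin 3) k} (hF : IsEndo d F)
    {P : MvPolynomial (Fin 3) k} {t : ℕ} (hP : P.IsHomogeneous t) (n : ℕ) :
    ∃ t', (OZ3_cn F n P).IsHomogeneous t' := by
  induction n with
  | zero => exact ⟨t, by unfold OZ3_cn; rwa [pow_zero]⟩
  | succ n ih =>
    obtain ⟨t', ht'⟩ := ih
    rw [OZ3_cn_succ]
    exact ⟨_, compk_hom hF ht'⟩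

private theorem OZ3_cn_mono {d : ℕ} {F : Fin 3 → MvPolynomial (Fin 3) k} {μ : k}
    (h : OZ3_Shape d F μ) {P : MvPolynomial (Fin 3) k} {r n : ℕ} (hP : OZ3_Fil r (OZ3_cn F n P))
    (m : ℕ) (hm : n ≤ m) : OZ3_Fil r (OZ3_cn F m P) := by
  induction m, hm using Nat.le_induction with
  | base => exact hP
  | succ m _ ih =>
    rw [OZ3_cn_succ]
    exact OZ3_Fil.comp h.g1 (h.f2.mono (by norm_num)) ih

/-- the polynomials whose compositions with the iterates vanish to higher and higher order -/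
private def OZ3_N (F : Fin 3 → MvPolynomial (Fin 3) k) :
    Submodule k (MvPolynomial (Fin 3) k) where
  carrier := {P | ∀ r, ∃ n, ∀ m, n ≤ m → OZ3_Fil r (OZ3_cn F m P)}
  add_mem' := by
    intro P Q hP hQ r
    obtain ⟨n, hn⟩ := hP r
    obtain ⟨n', hn'⟩ := hQ r
    refine ⟨max n n', fun m hm => ?_⟩
    rw [map_add]
    exact (hn m (le_trans (le_max_left _ _) hm)).add (hn' m (le_trans (le_max_right _ _) hm))
  zero_mem' := by
    intro r
    refine ⟨0, fun m _ => ?_⟩
    rw [map_zero]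
    exact OZ3_Fil.zeroP r
  smul_mem' := by
    intro a P hP r
    obtain ⟨n, hn⟩ := hP r
    refine ⟨n, fun m hm => ?_⟩
    rw [map_smul, smul_eq_C_mul]
    exact (hn m hm).mulLeft _

private theorem OZ3_not_mem {d : ℕ} {F : Fin 3 → MvPolynomial (Fin 3) k} {μ : k}
    (hF : IsEndo d F) (hμ : μ ≠ 0) (h : OZ3_Shape d F μ) {P : MvPolynomial (Fin 3) k} {t : ℕ}
    (hP : P.IsHomogeneous t) (hN : P ∉ OZ3_N F) :
    ∃ (r n0 : ℕ) (c : k), c ≠ 0 ∧ ∀ n, n0 ≤ n → OZ3_Lead r (c * μ ^ (r * n)) (OZ3_cn F n P) := by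
  classical
  have h1 : ∃ r, ∀ n, ¬ OZ3_Fil r (OZ3_cn F n P) := by
    by_contra hc
    push Not at hc
    apply hN
    intro r
    obtain ⟨n, hn⟩ := hc r
    exact ⟨n, OZ3_cn_mono h hn⟩
  let R := Nat.find h1
  have hR : ∀ n, ¬ OZ3_Fil R (OZ3_cn F n P) := Nat.find_spec h1
  have hR0 : R ≠ 0 := by
    intro h0
    apply hR 0
    rw [h0]
    exact OZ3_Fil.all _
  obtain ⟨r, hr⟩ := Nat.exists_eq_succ_of_ne_zero hR0
  have h2 : ¬ ∀ n, ¬ OZ3_Fil r (OZ3_cn F n P) := Nat.find_min h1 (by
    show r < R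
    omega)
  push Not at h2
  obtain ⟨n1, hn1⟩ := h2
  obtain ⟨t', ht'⟩ := OZ3_cn_hom hF hP n1
  obtain ⟨c, hc⟩ := OZ3_lead_of_fil h ht' hn1
  rw [← OZ3_cn_succ] at hc
  have hc0 : c ≠ 0 := by
    rintro rfl
    apply hR (n1 + 1)
    rw [hr]
    exact hc.fil
  refine ⟨r, n1 + 1, c * (μ ^ (r * (n1 + 1)))⁻¹,
    mul_ne_zero hc0 (inv_ne_zero (pow_ne_zero _ hμ)), fun n hn => ?_⟩
  induction n, hn using Nat.le_induction with
  | base =>
    rw [mul_assoc, inv_mul_cancel₀ (pow_ne_zero _ hμ), mul_one]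
    exact hc
  | succ n _ ih =>
    rw [OZ3_cn_succ]
    have := ih.comp h
    rwa [mul_assoc _ (μ ^ (r * n)) (μ ^ r), ← pow_add, ← Nat.mul_succ] at this

end Fil

section Val

variable {k K : Type} [Field k] [Field K] [Algebra k K]

private theorem OZ3_val_alg (b : Place k K) (c : k) : b.val (algebraMap k K c) ≤ 1 := by
  by_cases hc : c = 0
  · rw [hc, map_zero, map_zero]
    exact zero_le_one
  · exact (b.triv c hc).le

private theorem OZ3_alg_zero (b : Place k K) {c : k} (h : b.val (algebraMap k K c) < 1) :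
    c = 0 := by
  by_contra hc
  rw [b.triv c hc] at h
  exact lt_irrefl _ h

private theorem OZ3_val_le (b : Place k K) {x : Fin 3 → K} {ε : WithZero (Multiplicative ℤ)}
    (h0 : b.val (x 0) ≤ 1) (h1 : b.val (x 1) ≤ ε) (h2 : b.val (x 2) ≤ ε) (hε : ε ≤ 1) {r : ℕ}
    {P : MvPolynomial (Fin 3) k} (hP : OZ3_Fil r P) : b.val (aeval x P) ≤ ε ^ r := by
  rw [aeval_def, eval₂_eq']
  refine b.val.map_sum_le fun m hm => ?_
  rw [Fin.prod_univ_three, map_mul, map_mul, map_mul, map_pow, map_pow, map_pow]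
  have hr := hP m (mem_support_iff.1 hm)
  calc b.val (algebraMap k K (coeff m P)) *
        (b.val (x 0) ^ m 0 * b.val (x 1) ^ m 1 * b.val (x 2) ^ m 2)
      ≤ 1 * (1 * ε ^ m 1 * ε ^ m 2) := by
        refine mul_le_mul' (OZ3_val_alg b _) (mul_le_mul' (mul_le_mul' ?_ ?_) ?_)
        · exact pow_le_one₀ zero_le h0
        · exact pow_le_pow_left₀ zero_le h1 _
        · exact pow_le_pow_left₀ zero_le h2 _
    _ = ε ^ (m 1 + m 2) := by rw [one_mul, one_mul, pow_add]
    _ ≤ ε ^ r := pow_le_pow_of_le_one zero_le hε hr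

private theorem OZ3_aeval_cn (F : Fin 3 → MvPolynomial (Fin 3) k) (n : ℕ)
    (P : MvPolynomial (Fin 3) k) (x : Fin 3 → K) :
    aeval x (OZ3_cn F n P) = aeval (iter F x n) P := by
  induction n generalizing x with
  | zero => unfold OZ3_cn; rw [pow_zero]; rfl
  | succ n ih => rw [OZ3_cn_succ, aeval_compk, ih, iter_succ']

private theorem OZ3_val_lead (b : Place k K) {x : Fin 3 → K} (h0 : x 0 = 1)
    (h1 : b.val (x 1) ≤ 1) (h2 : b.val (x 2) ≤ b.val (x 1)) {r : ℕ} {c : k}
    {P : MvPolynomial (Fin 3) k} (hP : OZ3_Lead r c P) :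
    b.val (aeval x P - algebraMap k K c * x 1 ^ r) ≤ b.val (x 1) ^ (r + 1) := by
  obtain ⟨m, hm⟩ := hP
  have h3 := OZ3_val_le b (x := x) (by rw [h0, map_one]) le_rfl h2 h1 hm
  have h4 : aeval x (P - C c * (X 0 ^ m * X 1 ^ r)) = aeval x P - algebraMap k K c * x 1 ^ r := by
    rw [map_sub, map_mul, map_mul, map_pow, map_pow, aeval_X, aeval_X, aeval_C, h0, one_pow,
      one_mul]
  rwa [h4] at h3

private theorem OZ3_pow_small {ε w : WithZero (Multiplicative ℤ)} (hε : ε < 1) (hw : w ≠ 0) :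
    ∃ R : ℕ, ε ^ R < w :=
  exists_pow_lt₀ hε (Units.mk0 w hw)

private theorem OZ3_free : Free (Filter.hyperfilter ℕ) := by
  intro m
  have h1 : (Filter.hyperfilter ℕ : Filter ℕ) ≤ Filter.atTop := by
    rw [← Nat.cofinite_eq_atTop]
    exact Filter.hyperfilter_le_cofinite
  exact h1 (Filter.eventually_ge_atTop m)

private theorem OZ3_coeff_lam (ℓ : K →ₗ[k] k) (g : MvPolynomial (Fin 3) K) (m : Fin 3 →₀ ℕ) :
    coeff m (lam ℓ g) = ℓ (coeff m g) := by
  classical
  unfold lam
  rw [coeff_sum]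
  simp only [coeff_monomial]
  rw [Finset.sum_ite_eq' g.support m]
  split_ifs with h
  · rfl
  · rw [notMem_support_iff] at h
    rw [h, map_zero]

end Val

/-- the case of no terms outside the space `N` -/
private theorem OZ3_s0 {k K : Type} [Field k] [IsAlgClosed k] [Field K] [Algebra k K]
    {d : ℕ} {F : Fin 3 → MvPolynomial (Fin 3) k} (hF : IsEndo d F)
    {μ : k} (hn : Normal F μ) (x : Fin 3 → K) (b : Place k K)
    (h0 : x 0 = 1) (h1 : b.val (x 1) < 1) (h10 : x 1 ≠ 0) (h2 : b.val (x 2) ≤ b.val (x 1))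
    {g : MvPolynomial (Fin 3) K} {D : ℕ} (hg : g.IsHomogeneous D) (hirr : Irreducible g)
    {t : ℕ} (c : Fin t → K) (P : Fin t → MvPolynomial (Fin 3) k)
    (hgP : g = ∑ j, C (c j) * map (algebraMap k K) (P j)) (hP : ∀ j, P j ∈ OZ3_N F) :
    OverK k g := by
  classical
  have hsh := OZ3_shape hF hn
  have hlam : ∀ ℓ : K →ₗ[k] k, lam ℓ g ∈ OZ3_N F := by
    intro ℓ
    have h3 : lam ℓ g = ∑ j, ℓ (c j) • P j := by
      ext m
      rw [OZ3_coeff_lam, hgP, coeff_sum, coeff_sum, map_sum]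
      refine Finset.sum_congr rfl fun j _ => ?_
      rw [coeff_C_mul, coeff_map, coeff_smul, mul_comm (c j), ← Algebra.smul_def, map_smul,
        smul_eq_mul, smul_eq_mul, mul_comm]
    rw [h3]
    exact Submodule.sum_mem _ fun j _ => Submodule.smul_mem _ _ (hP j)
  obtain ⟨K', _, _, ρ, hρc, hρ⟩ := exists_limit_field b (Filter.hyperfilter ℕ)
  letI : Algebra k K' := ((algebraMap K K').comp (algebraMap k K)).toAlgebra
  have hval : ∀ n i, b.val (iter F x n i) ≤ 1 := by
    intro n i
    have h3 := OZ3_val_le b (x := x) (ε := b.val (x 1)) (by rw [h0, map_one]) le_rfl h2 h1.le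
      (OZ3_Fil.all (OZ3_cn F n (X i)))
    rwa [OZ3_aeval_cn, aeval_X, pow_zero] at h3
  have hmem : ∀ P : MvPolynomial (Fin 3) k,
      (fun n => aeval (iter F x n) P) ∈ bddSub b (Filter.hyperfilter ℕ) := by
    intro P
    refine ⟨0, Filter.Eventually.of_forall fun n => ?_⟩
    rw [Nat.cast_zero, WithZero.exp_zero]
    have h3 := OZ3_val_le b (x := iter F x n) (ε := 1) (hval n 0) (hval n 1) (hval n 2) le_rfl
      (OZ3_Fil.all P)
    rwa [pow_zero] at h3
  let y : Fin 3 → K' := fun i => ρ ⟨fun n => aeval (iter F x n) (X i), hmem (X i)⟩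
  have hy : ∀ P : MvPolynomial (Fin 3) k,
      aeval y P = ρ ⟨fun n => aeval (iter F x n) P, hmem P⟩ := by
    let Ψ : MvPolynomial (Fin 3) k →+* bddSub b (Filter.hyperfilter ℕ) :=
      { toFun := fun P => ⟨fun n => aeval (iter F x n) P, hmem P⟩
        map_one' := Subtype.ext (funext fun n => map_one _)
        map_mul' := fun P Q => Subtype.ext (funext fun n => map_mul _ P Q)
        map_zero' := Subtype.ext (funext fun n => map_zero _)
        map_add' := fun P Q => Subtype.ext (funext fun n => map_add _ P Q) }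
    have h3 : (aeval (R := k) y).toRingHom = ρ.comp Ψ := by
      apply MvPolynomial.ringHom_ext
      · intro a
        have h4 : Ψ (C a) = ⟨fun _ => algebraMap k K a,
            const_mem_bddSub b (Filter.hyperfilter ℕ) (algebraMap k K a)⟩ := by
          apply Subtype.ext
          funext n
          exact aeval_C _ _
        rw [RingHom.comp_apply, h4, hρc]
        exact aeval_C _ _
      · intro i
        exact aeval_X _ _
    intro P
    exact congrArg (fun φ => φ P) h3
  -- orders of the values of the second coordinate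
  have hx1 : ∀ n, b.val (iter F x n 1) = b.val (x 1) := by
    intro n
    have h3 : OZ3_Lead 1 (μ ^ n) (OZ3_cn F n (X 1)) := by
      induction n with
      | zero =>
        refine ⟨0, ?_⟩
        have : (OZ3_cn F 0 (X 1) - C (μ ^ 0) * (X 0 ^ 0 * X 1 ^ 1) : MvPolynomial (Fin 3) k)
            = 0 := by
          unfold OZ3_cn
          rw [pow_zero, pow_zero, pow_zero, pow_one, C_1, one_mul, one_mul]
          exact sub_self _
        rw [this]
        exact OZ3_Fil.zeroP _
      | succ n ih =>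
        rw [OZ3_cn_succ, pow_succ]
        have := ih.comp hsh
        rwa [pow_one] at this
    have h4 := OZ3_val_lead b h0 h1.le h2 h3
    rw [OZ3_aeval_cn, aeval_X, pow_one, pow_succ, pow_one] at h4
    have h5 : b.val (algebraMap k K (μ ^ n) * x 1) = b.val (x 1) := by
      rw [map_mul, b.triv _ (pow_ne_zero _ hn.ne), one_mul]
    have h6 : b.val (x 1) ≠ 0 := (Valuation.ne_zero_iff _).2 h10
    have h7 : b.val (iter F x n 1 - algebraMap k K (μ ^ n) * x 1) < b.val (x 1) :=
      h4.trans_lt (mul_lt_of_lt_one_left (zero_lt_iff.2 h6) h1)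
    have h8 : iter F x n 1 = (iter F x n 1 - algebraMap k K (μ ^ n) * x 1)
        + algebraMap k K (μ ^ n) * x 1 := by ring
    rw [h8, Valuation.map_add_eq_of_lt_right _ (by rw [h5]; exact h7), h5]
  have hx0 : ∀ n, b.val (iter F x n 0 - 1) < 1 := by
    intro n
    have h3 : OZ3_Lead 0 1 (OZ3_cn F n (X 0)) := by
      induction n with
      | zero =>
        refine ⟨1, ?_⟩
        have : (OZ3_cn F 0 (X 0) - C 1 * (X 0 ^ 1 * X 1 ^ 0) : MvPolynomial (Fin 3) k)
            = 0 := by
          unfold OZ3_cn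
          rw [pow_zero, pow_zero, pow_one, C_1, one_mul, mul_one]
          exact sub_self _
        rw [this]
        exact OZ3_Fil.zeroP _
      | succ n ih =>
        rw [OZ3_cn_succ]
        have := ih.comp hsh
        rwa [pow_zero, mul_one] at this
    have h4 := OZ3_val_lead b h0 h1.le h2 h3
    rw [OZ3_aeval_cn, aeval_X, map_one, pow_zero, one_mul, zero_add, pow_one] at h4
    exact h4.trans_lt h1
  have hx0' : ∀ n, b.val (iter F x n 0) = 1 := by
    intro n
    have h8 : iter F x n 0 = (iter F x n 0 - 1) + 1 := by ring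
    rw [h8, Valuation.map_add_eq_of_lt_right _ (by rw [map_one]; exact hx0 n), map_one]
  have hx1pos : b.val (x 1) ≠ 0 := (Valuation.ne_zero_iff _).2 h10
  -- the limit point
  have hlin : ∀ w : k, aeval y (X 1 - C w * X 0) ≠ 0 := by
    intro w hw
    rw [hy] at hw
    obtain ⟨R, hR⟩ := OZ3_pow_small (ε := WithZero.exp (-1 : ℤ)) (w := b.val (x 1))
      Pool.Agent.Helper16.exp_neg_one_lt hx1pos
    have h3 := (hρ _).1 hw R
    obtain ⟨n, hn'⟩ := h3.exists
    have h4 : b.val (iter F x n 1 - algebraMap k K w * iter F x n 0) <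
        WithZero.exp (-(R : ℤ)) := by
      have : aeval (iter F x n) (X 1 - C w * X 0) =
          iter F x n 1 - algebraMap k K w * iter F x n 0 := by
        rw [map_sub, map_mul, aeval_X, aeval_X, aeval_C]
      rw [← this]
      exact hn'
    have h5 : (WithZero.exp (-(R : ℤ)) : WithZero (Multiplicative ℤ)) < b.val (x 1) := by
      have : (WithZero.exp (-(R : ℤ)) : WithZero (Multiplicative ℤ))
          = WithZero.exp (-1 : ℤ) ^ R := by
        rw [← WithZero.exp_nsmul]
        congr 1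
        simp
      rw [this]
      exact hR
    have h6 := h4.trans h5
    by_cases hw0 : w = 0
    · rw [hw0, map_zero, zero_mul, sub_zero, hx1] at h6
      exact lt_irrefl _ h6
    · have h7 : b.val (algebraMap k K w * iter F x n 0) = 1 := by
        rw [map_mul, b.triv _ hw0, hx0', one_mul]
      have h8 : algebraMap k K w * iter F x n 0 = iter F x n 1
          - (iter F x n 1 - algebraMap k K w * iter F x n 0) := by ring
      have h9 : b.val (algebraMap k K w * iter F x n 0) < 1 := by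
        rw [h8]
        exact (b.val.map_sub _ _).trans_lt (max_lt (by rw [hx1]; exact h1) (h6.trans h1))
      rw [h7] at h9
      exact lt_irrefl _ h9
  have hy0 : y 0 ≠ 0 := by
    intro hw
    have hw' : aeval y (X 0 : MvPolynomial (Fin 3) k) = 0 := by rw [aeval_X]; exact hw
    rw [hy] at hw'
    obtain ⟨n, hn'⟩ := ((hρ _).1 hw' 0).exists
    have h4 : b.val (iter F x n 0) < WithZero.exp (-((0 : ℕ) : ℤ)) := by
      have : aeval (iter F x n) (X 0 : MvPolynomial (Fin 3) k) = iter F x n 0 := aeval_X _ _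
      rw [← this]
      exact hn'
    rw [hx0', Nat.cast_zero, neg_zero, WithZero.exp_zero] at h4
    exact lt_irrefl _ h4
  refine overK_of_common_zero hg hirr y ?_ ?_ ?_
  · intro h
    exact hy0 (congrFun h 0)
  · rintro ⟨z, a, ha, hz⟩
    have hz0 : z 0 ≠ 0 := by
      intro h
      apply hy0
      rw [hz]
      show a * algebraMap k K' (z 0) = 0
      rw [h, map_zero, mul_zero]
    apply hlin (z 1 / z 0)
    rw [map_sub, map_mul, aeval_X, aeval_X, aeval_C]
    have e0 : y 0 = a * algebraMap k K' (z 0) := congrFun hz 0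
    have e1 : y 1 = a * algebraMap k K' (z 1) := congrFun hz 1
    rw [e0, e1, map_div₀]
    have : algebraMap k K' (z 0) ≠ 0 := (map_ne_zero _).2 hz0
    field_simp
    ring
  · intro ℓ
    rw [hy, hρ]
    intro R
    obtain ⟨R', hR'⟩ := OZ3_pow_small (ε := b.val (x 1)) (w := WithZero.exp (-(R : ℤ))) h1
      WithZero.exp_ne_zero
    obtain ⟨n, hn'⟩ := hlam ℓ R'
    filter_upwards [OZ3_free n] with m hm
    have h3 := OZ3_val_le b (x := x) (ε := b.val (x 1)) (by rw [h0, map_one]) le_rfl h2 h1.le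
      (hn' m hm)
    rw [OZ3_aeval_cn] at h3
    exact h3.trans_lt hR'

/-- the case of a point with first coordinate one -/
private theorem OZ3_main {k K : Type} [Field k] [IsAlgClosed k] [Field K] [Algebra k K]
    (hK : IsFunctionField k K)
    {d : ℕ} {F : Fin 3 → MvPolynomial (Fin 3) k} (hF : IsEndo d F)
    {μ : k} (hn : Normal F μ) (x : Fin 3 → K) (b : Place k K)
    (h0 : x 0 = 1) (h1 : b.val (x 1) < 1) (h10 : x 1 ≠ 0) (h2 : b.val (x 2) ≤ b.val (x 1))
    (hμ : ∀ t : ℕ, 0 < t → μ ^ t ≠ 1)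
    {g : MvPolynomial (Fin 3) K} {D : ℕ} (hg : g.IsHomogeneous D) (hirr : Irreducible g)
    (hS : {n | eval (iter F x n) g = 0}.Infinite) : OverK k g := by
  classical
  have hsh := OZ3_shape hF hn
  obtain ⟨s, t, e, H, c, P, hgd, he0, hed, hH, hP⟩ := exists_echelon hK b hg (OZ3_N F)
  by_cases hs : s = 0
  · subst hs
    refine OZ3_s0 hF hn x b h0 h1 h10 h2 hg hirr c P ?_ (fun j => (hP j).2)
    rw [hgd, Fin.sum_univ_zero, zero_add]
  exfalso
  have hx1 : b.val (x 1) ≠ 0 := (Valuation.ne_zero_iff _).2 h10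
  have hε0 : 0 < b.val (x 1) := zero_lt_iff.2 hx1
  choose r n0 a ha0 ha using fun i => OZ3_not_mem hF hn.ne hsh (hH i).1 (hH i).2
  haveI : Nonempty (Fin s) := ⟨⟨0, Nat.pos_of_ne_zero hs⟩⟩
  obtain ⟨i0, hi0⟩ := Finite.exists_max fun i => b.val (e i * x 1 ^ r i)
  set E : K := e i0 * x 1 ^ r i0 with hE
  have hE0 : E ≠ 0 := mul_ne_zero (he0 i0) (pow_ne_zero _ h10)
  have hEv : b.val E ≠ 0 := (Valuation.ne_zero_iff _).2 hE0
  have hEp : 0 < b.val E := zero_lt_iff.2 hEv
  -- leading coefficients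
  have hu : ∀ i, b.val (e i * x 1 ^ r i / E) ≤ 1 := by
    intro i
    rw [map_div₀]
    exact (div_le_one₀ hEp).2 (hi0 i)
  choose q hq using fun i => exists_residue hK b _ (hu i)
  -- estimate for the terms outside `N`
  have hterm : ∀ i n, n0 i ≤ n → b.val (e i * aeval (iter F x n) (H i) / E
      - algebraMap k K (q i * (a i * μ ^ (r i * n)))) < 1 := by
    intro i n hin
    have h3 := OZ3_val_lead b h0 h1.le h2 (ha i n hin)
    rw [OZ3_aeval_cn] at h3
    have h4 : e i * aeval (iter F x n) (H i) / E - algebraMap k K (q i * (a i * μ ^ (r i * n)))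
        = e i / E * (aeval (iter F x n) (H i) - algebraMap k K (a i * μ ^ (r i * n)) * x 1 ^ r i)
          + (e i * x 1 ^ r i / E - algebraMap k K (q i)) * algebraMap k K (a i * μ ^ (r i * n)) := by
      rw [map_mul (algebraMap k K) (q i)]
      ring
    rw [h4]
    refine b.val.map_add_lt ?_ ?_
    · rw [map_mul]
      refine (mul_le_mul_right h3 _).trans_lt ?_
      rw [pow_succ, ← mul_assoc, ← map_pow, ← map_mul]
      have h5 : e i / E * x 1 ^ r i = e i * x 1 ^ r i / E := by ring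
      rw [h5]
      exact (mul_le_of_le_one_left' (hu i)).trans_lt h1
    · rw [map_mul]
      exact (mul_le_of_le_one_right' (OZ3_val_alg b _)).trans_lt (hq i)
  -- the terms in `N`
  have hsmall : ∀ j, ∃ n1, ∀ n, n1 ≤ n → b.val (c j * aeval (iter F x n) (P j) / E) < 1 := by
    intro j
    by_cases hc : c j = 0
    · refine ⟨0, fun n _ => ?_⟩
      rw [hc, zero_mul, zero_div, map_zero]
      exact zero_lt_one
    have h3 : b.val (E / c j) ≠ 0 := (Valuation.ne_zero_iff _).2 (div_ne_zero hE0 hc)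
    obtain ⟨R, hR⟩ := OZ3_pow_small h1 h3
    obtain ⟨n1, hn1⟩ := (hP j).2 R
    refine ⟨n1, fun n hin => ?_⟩
    have h4 := OZ3_val_le b (x := x) (ε := b.val (x 1)) (by rw [h0, map_one]) le_rfl h2 h1.le
      (hn1 n hin)
    rw [OZ3_aeval_cn] at h4
    have h5 := h4.trans_lt hR
    have h6 : c j * aeval (iter F x n) (P j) / E = c j / E * aeval (iter F x n) (P j) := by ring
    have h7 : c j / E * (E / c j) = 1 := by
      field_simp
    rw [h6, map_mul]
    have h8 : 0 < b.val (c j / E) := zero_lt_iff.2 ((Valuation.ne_zero_iff _).2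
      (div_ne_zero hc hE0))
    have h9 := mul_lt_mul_of_pos_left h5 h8
    rwa [← map_mul b.val (c j / E) (E / c j), h7, map_one] at h9
  choose n1 hn1 using hsmall
  -- the polynomial
  set Q : Polynomial k := ∑ i, Polynomial.C (q i * a i) * Polynomial.X ^ r i with hQ
  have hroot : ∀ n, (∀ i, n0 i ≤ n) → (∀ j, n1 j ≤ n) → eval (iter F x n) g = 0 →
      Q.eval (μ ^ n) = 0 := by
    intro n h3 h4 h5
    apply OZ3_alg_zero b
    have h6 : (0 : K) = ∑ i, e i * aeval (iter F x n) (H i) / E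
        + ∑ j, c j * aeval (iter F x n) (P j) / E := by
      rw [← Finset.sum_div, ← Finset.sum_div, ← add_div]
      have h7 : ∑ i, e i * aeval (iter F x n) (H i) + ∑ j, c j * aeval (iter F x n) (P j)
          = eval (iter F x n) g := by
        rw [hgd, map_add, map_sum, map_sum]
        congr 1
        · refine Finset.sum_congr rfl fun i _ => ?_
          rw [map_mul, eval_C, eval_map_k]
        · refine Finset.sum_congr rfl fun i _ => ?_
          rw [map_mul, eval_C, eval_map_k]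
      rw [h7, h5, zero_div]
    have h8 : algebraMap k K (Q.eval (μ ^ n)) = -(∑ i, (e i * aeval (iter F x n) (H i) / E
        - algebraMap k K (q i * (a i * μ ^ (r i * n))))
          + ∑ j, c j * aeval (iter F x n) (P j) / E) := by
      rw [Finset.sum_sub_distrib, ← map_sum]
      have h9 : Q.eval (μ ^ n) = ∑ i, q i * (a i * μ ^ (r i * n)) := by
        rw [hQ, Polynomial.eval_finset_sum]
        refine Finset.sum_congr rfl fun i _ => ?_
        rw [Polynomial.eval_mul, Polynomial.eval_C, Polynomial.eval_pow, Polynomial.eval_X,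
          ← pow_mul, mul_assoc, mul_comm n]
      rw [h9]
      linear_combination -h6
    rw [h8, Valuation.map_neg]
    refine b.val.map_add_lt ?_ ?_
    · exact b.val.map_sum_lt one_ne_zero fun i _ => hterm i n (h3 i)
    · exact b.val.map_sum_lt one_ne_zero fun j _ => hn1 j n (h4 j)
  have hQ0 : Q ≠ 0 := by
    intro h
    have h3 : Q.coeff (r i0) = q i0 * a i0 := by
      rw [hQ, Polynomial.finset_sum_coeff, Finset.sum_eq_single i0]
      · rw [Polynomial.coeff_C_mul_X_pow, if_pos rfl]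
      · intro i _ hne
        rw [Polynomial.coeff_C_mul_X_pow]
        split_ifs with hr
        · have h4 : q i = 0 := by
            apply OZ3_alg_zero b
            have h5 : algebraMap k K (q i) = e i * x 1 ^ r i / E
                - (e i * x 1 ^ r i / E - algebraMap k K (q i)) := by ring
            rw [h5]
            refine (b.val.map_sub _ _).trans_lt (max_lt ?_ (hq i))
            rw [map_div₀, div_lt_one₀ hEp]
            refine lt_of_le_of_ne (hi0 i) ?_
            intro h6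
            apply hed i i0 hne
            rw [hE, map_mul, map_mul, ← hr] at h6
            exact mul_right_cancel₀ ((Valuation.ne_zero_iff _).2 (pow_ne_zero _ h10)) h6
          rw [h4, zero_mul]
        · rfl
      · intro h
        exact absurd (Finset.mem_univ _) h
    have h4 : q i0 ≠ 0 := by
      intro h5
      have h6 := hq i0
      rw [h5, map_zero, sub_zero, div_self hE0, map_one] at h6
      exact lt_irrefl _ h6
    rw [h, Polynomial.coeff_zero] at h3
    exact mul_ne_zero h4 (ha0 i0) h3.symm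
  -- infinitely many roots
  have hinj : Function.Injective fun n : ℕ => μ ^ n := by
    intro m n hmn
    have hmn' : μ ^ m = μ ^ n := hmn
    by_contra hne
    rcases lt_or_gt_of_ne hne with h | h
    · apply hμ (n - m) (by omega)
      have h3 : μ ^ n = μ ^ (n - m) * μ ^ m := by rw [← pow_add]; congr 1; omega
      rw [h3] at hmn'
      exact (mul_right_cancel₀ (pow_ne_zero m hn.ne) (by rw [one_mul]; exact hmn')).symm
    · apply hμ (m - n) (by omega)
      have h3 : μ ^ m = μ ^ (m - n) * μ ^ n := by rw [← pow_add]; congr 1; omega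
      rw [h3] at hmn'
      exact (mul_right_cancel₀ (pow_ne_zero n hn.ne) (by rw [one_mul]; exact hmn'))
  obtain ⟨M, hM⟩ : ∃ M, (∀ i, n0 i ≤ M) ∧ ∀ j, n1 j ≤ M := by
    refine ⟨∑ i, n0 i + ∑ j, n1 j, fun i => ?_, fun j => ?_⟩
    · exact (Finset.single_le_sum (fun _ _ => Nat.zero_le _) (Finset.mem_univ i)).trans
        (Nat.le_add_right _ _)
    · exact (Finset.single_le_sum (fun _ _ => Nat.zero_le _) (Finset.mem_univ j)).trans
        (Nat.le_add_left _ _)
  have hinf : ({n | eval (iter F x n) g = 0} \ Set.Iio M).Infinite := hS.diff (Set.finite_Iio M)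
  have hroots : ((fun n : ℕ => μ ^ n) '' ({n | eval (iter F x n) g = 0} \ Set.Iio M)).Infinite :=
    hinf.image hinj.injOn
  apply hQ0
  refine Polynomial.eq_zero_of_infinite_isRoot Q (hroots.mono ?_)
  rintro _ ⟨n, ⟨hn1', hn2⟩, rfl⟩
  have hn3 : M ≤ n := not_lt.1 hn2
  exact hroot n (fun i => (hM.1 i).trans hn3) (fun j => (hM.2 j).trans hn3) hn1'

theorem one_zero_nonroot {k K : Type} [Field k] [IsAlgClosed k] [CharZero k] [Field K] [Algebra k K]
    (hK : IsFunctionField k K) {d : ℕ} {F : Fin 3 → MvPolynomial (Fin 3) k} (hF : IsEndo d F)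
    {μ : k} (hn : Normal F μ) (x : Fin 3 → K) (hx : x ≠ 0) (hxc : ¬ IsConst k x) (b : Place k K)
    (hred : Red b x (Pi.single 0 1))
    (hcase : b.val (x 2) ≤ b.val (x 1)) (hμ : ∀ t : ℕ, 0 < t → μ ^ t ≠ 1)
    {g : MvPolynomial (Fin 3) K} {D : ℕ} (hg : g.IsHomogeneous D) (hirr : Irreducible g)
    (hS : {n | eval (iter F x n) g = 0}.Infinite) : OverK k g := by
  obtain ⟨-, c, hc, h⟩ := hred
  have e0 : b.val (c * x 0 - 1) < 1 := by
    have := h 0
    rwa [Pi.single_eq_same, map_one] at this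
  have e1 : b.val (c * x 1) < 1 := by
    have := h 1
    rwa [Pi.single_eq_of_ne (by decide), map_zero, sub_zero] at this
  have e0' : b.val (c * x 0) = 1 := by
    have h8 : c * x 0 = (c * x 0 - 1) + 1 := by ring
    rw [h8, Valuation.map_add_eq_of_lt_right _ (by rw [map_one]; exact e0), map_one]
  have hx0 : x 0 ≠ 0 := by
    intro h3
    rw [h3, mul_zero, map_zero] at e0'
    exact zero_ne_one e0'
  have hx1 : x 1 ≠ 0 := by
    intro h3
    apply hxc
    have hx2 : x 2 = 0 := by
      rw [h3, map_zero] at hcase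
      exact (Valuation.zero_iff _).1 (le_antisymm hcase zero_le)
    refine ⟨Pi.single 0 1, x 0, hx0, ?_⟩
    funext i
    fin_cases i
    · show x 0 = x 0 * algebraMap k K ((Pi.single 0 1 : Fin 3 → k) 0)
      rw [Pi.single_eq_same, map_one, mul_one]
    · show x 1 = x 0 * algebraMap k K ((Pi.single 0 1 : Fin 3 → k) 1)
      rw [Pi.single_eq_of_ne (by decide), map_zero, mul_zero, h3]
    · show x 2 = x 0 * algebraMap k K ((Pi.single 0 1 : Fin 3 → k) 2)
      rw [Pi.single_eq_of_ne (by decide), map_zero, mul_zero, hx2]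
  have hv : ∀ i, b.val (((x 0)⁻¹ • x) i) = b.val (c * x i) := by
    intro i
    have h3 : ((x 0)⁻¹ • x) i = (c * x i) / (c * x 0) := by
      rw [Pi.smul_apply, smul_eq_mul]
      field_simp
    rw [h3, map_div₀, e0', div_one]
  refine OZ3_main hK hF hn ((x 0)⁻¹ • x) b ?_ ?_ ?_ ?_ hμ hg hirr ?_
  · rw [Pi.smul_apply, smul_eq_mul, inv_mul_cancel₀ hx0]
  · rw [hv]
    exact e1
  · rw [Pi.smul_apply, smul_eq_mul]
    exact mul_ne_zero (inv_ne_zero hx0) hx1
  · rw [hv, hv, map_mul, map_mul]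
    exact mul_le_mul_right hcase _
  · refine hS.mono ?_
    intro n hn'
    have hn2 : eval (iter F x n) g = 0 := hn'
    show eval (iter F ((x 0)⁻¹ • x) n) g = 0
    rw [iter_smul hF, eval_smul_hom hg, hn2, mul_zero]

/-- the case distinction is stable under the map -/
theorem OZ3_case_step {k K : Type} [Field k] [Field K] [Algebra k K]
    {d : ℕ} {F : Fin 3 → MvPolynomial (Fin 3) k} (hF : IsEndo d F)
    {μ : k} (hn : Normal F μ) (x : Fin 3 → K) (b : Place k K)
    (hred : Red b x (Pi.single 0 1)) (hcase : b.val (x 2) ≤ b.val (x 1)) :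
    b.val (step F x 2) ≤ b.val (step F x 1) := by
  have hsh := OZ3_shape hF hn
  obtain ⟨-, c, hc, h⟩ := hred
  have e0 : b.val (c * x 0 - 1) < 1 := by
    have := h 0
    rwa [Pi.single_eq_same, map_one] at this
  have e1 : b.val (c * x 1) < 1 := by
    have := h 1
    rwa [Pi.single_eq_of_ne (by decide), map_zero, sub_zero] at this
  have e0' : b.val (c * x 0) = 1 := by
    have h8 : c * x 0 = (c * x 0 - 1) + 1 := by ring
    rw [h8, Valuation.map_add_eq_of_lt_right _ (by rw [map_one]; exact e0), map_one]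
  have hx0 : x 0 ≠ 0 := by
    intro h3
    rw [h3, mul_zero, map_zero] at e0'
    exact zero_ne_one e0'
  set y : Fin 3 → K := (x 0)⁻¹ • x with hy
  have hv : ∀ i, b.val (y i) = b.val (c * x i) := by
    intro i
    have h3 : y i = (c * x i) / (c * x 0) := by
      rw [hy, Pi.smul_apply, smul_eq_mul]
      field_simp
    rw [h3, map_div₀, e0', div_one]
  have y0 : y 0 = 1 := by rw [hy, Pi.smul_apply, smul_eq_mul, inv_mul_cancel₀ hx0]
  have y1 : b.val (y 1) < 1 := by rw [hv]; exact e1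
  have y2 : b.val (y 2) ≤ b.val (y 1) := by
    rw [hv, hv, map_mul, map_mul]
    exact mul_le_mul_right hcase _
  have hxy : x = x 0 • y := by
    rw [hy, smul_smul, mul_inv_cancel₀ hx0, one_smul]
  have hst : ∀ i, step F x i = x 0 ^ d * aeval y (F i) := by
    intro i
    conv_lhs => rw [hxy]
    exact aeval_smul_hom (hF.hom i) (x 0) y
  rw [hst, hst, map_mul, map_mul]
  refine mul_le_mul_right ?_ _
  have h2 := OZ3_val_le b (x := y) (ε := b.val (y 1)) (by rw [y0, map_one]) le_rfl y2 y1.le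
    hsh.f2
  have h1 := OZ3_val_le b (x := y) (ε := b.val (y 1)) (by rw [y0, map_one]) le_rfl y2 y1.le
    hsh.f1
  by_cases hy1 : b.val (y 1) = 0
  · rw [hy1, zero_pow (by norm_num)] at h2
    exact h2.trans zero_le
  have hlt : b.val (y 1) ^ 2 < b.val (y 1) := by
    rw [pow_two]
    exact mul_lt_of_lt_one_left (zero_lt_iff.2 hy1) y1
  have h3 : b.val (algebraMap k K μ * y 1) = b.val (y 1) := by
    rw [map_mul, b.triv _ hn.ne, one_mul]
  have h4 : aeval y (F 1 - C μ * (X 0 ^ (d - 1) * X 1)) = aeval y (F 1) - algebraMap k K μ * y 1 := by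
    rw [map_sub, map_mul, map_mul, map_pow, aeval_X, aeval_X, aeval_C, y0, one_pow, one_mul]
  rw [h4] at h1
  have h5 : aeval y (F 1) = (aeval y (F 1) - algebraMap k K μ * y 1) + algebraMap k K μ * y 1 := by
    ring
  rw [h5, Valuation.map_add_eq_of_lt_right _ (by rw [h3]; exact h1.trans_lt hlt), h3]
  exact h2.trans hlt.le

end Pool.Agent.Helper30.TP
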