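import Pool.Agent.Helper30.TP.Const

/-!
# Preperiodic points are constant
-/

set_option autoImplicit false

namespace Pool.Agent.Helper30.TP

open MvPolynomial
open Pool.Agent.Helper16 (Place IsFunctionField)
open Pool.Agent.Helper36 (step iter iter_zero iter_succ iter_succ' iter_add)

section sub

variable {k : Type} [Field k]

/-- the substitution `X b ↦ t X a` -/
private noncomputable def PreperConst_sub (a b : Fin 3) (t : k) :
    MvPolynomial (Fin 3) k →ₐ[k] MvPolynomial (Fin 3) k :=
  aeval fun i => if i = b then C t * X a else X i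

private theorem PreperConst_sub_dvd (a b : Fin 3) (t : k) (P : MvPolynomial (Fin 3) k) :
    (X b - C t * X a) ∣ P - PreperConst_sub a b t P := by
  induction P using MvPolynomial.induction_on with
  | C r =>
    have h1 : PreperConst_sub a b t (C r) = C r := by
      rw [← algebraMap_eq, AlgHom.commutes]
    rw [h1, sub_self]
    exact dvd_zero _
  | add P Q hP hQ =>
    have h1 : P + Q - PreperConst_sub a b t (P + Q) =
        (P - PreperConst_sub a b t P) + (Q - PreperConst_sub a b t Q) := by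
      rw [map_add]
      ring
    rw [h1]
    exact dvd_add hP hQ
  | mul_X P i hP =>
    have h1 : P * X i - PreperConst_sub a b t (P * X i) =
        (P - PreperConst_sub a b t P) * X i +
          PreperConst_sub a b t P * (X i - PreperConst_sub a b t (X i)) := by
      rw [map_mul]
      ring
    rw [h1]
    refine dvd_add (Dvd.dvd.mul_right hP _) (Dvd.dvd.mul_left ?_ _)
    unfold PreperConst_sub
    rw [aeval_X]
    by_cases hi : i = b
    · rw [if_pos hi, hi]
    · rw [if_neg hi, sub_self]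
      exact dvd_zero _

private theorem PreperConst_sub_X_self (a b : Fin 3) (t : k) :
    PreperConst_sub a b t (X b) = C t * X a := by
  unfold PreperConst_sub
  rw [aeval_X, if_pos rfl]

private theorem PreperConst_sub_X (a b : Fin 3) (t : k) {i : Fin 3} (hi : i ≠ b) :
    PreperConst_sub a b t (X i) = X i := by
  unfold PreperConst_sub
  rw [aeval_X, if_neg hi]

private theorem PreperConst_sub_C (a b : Fin 3) (t r : k) :
    PreperConst_sub a b t (C r) = C r := by
  rw [← algebraMap_eq, AlgHom.commutes]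

private theorem PreperConst_sub_eval (a b : Fin 3) (t : k) (P : MvPolynomial (Fin 3) k)
    {q : Fin 3 → k} (hq : q b = t * q a) : eval q (PreperConst_sub a b t P) = eval q P := by
  obtain ⟨u, hu⟩ := PreperConst_sub_dvd a b t P
  have h1 := congrArg (eval q) hu
  rw [map_sub, map_mul, map_sub, map_mul, eval_C, eval_X, eval_X, hq, sub_self, zero_mul] at h1
  exact (sub_eq_zero.1 h1).symm

end sub

private theorem PreperConst_hC_dvd {k : Type} [Field k] {ρ : MvPolynomial (Fin 3) k} {e : ℕ}
    (hρ : ρ.IsHomogeneous e) (T : MvPolynomial (Fin 3) k) (n : ℕ) :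
    ρ ∣ homogeneousComponent n (T * ρ) := by
  rw [← Gam_coeff, map_mul, Gam_form hρ, ← mul_assoc, Polynomial.coeff_mul_X_pow']
  split_ifs
  · rw [Polynomial.coeff_mul_C]
    exact Dvd.intro_left _ rfl
  · exact dvd_zero _

/-- an endomorphism of the plane which has degree at least two does not fix all the points of a
curve -/
private theorem PreperConst_core {k : Type} [Field k] [IsAlgClosed k] {D : ℕ} (hD : 2 ≤ D)
    {G : Fin 3 → MvPolynomial (Fin 3) k} (hG : ∀ i, (G i).IsHomogeneous D)
    (hnz : ∀ x : Fin 3 → k, (∀ i, eval x (G i) = 0) → x = 0)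
    {ρ : MvPolynomial (Fin 3) k} {e : ℕ} (hρ : ρ.IsHomogeneous e) (he : 0 < e)
    (hirr : Irreducible ρ) (h : ∀ i j, ρ ∣ X i * G j - X j * G i) : False := by
  obtain ⟨q, hq⟩ : ∃ q, eval q ρ ≠ 0 := by
    by_contra hcon
    push Not at hcon
    exact hirr.ne_zero (MvPolynomial.funext fun x => by rw [hcon x, map_zero])
  obtain ⟨a, ha⟩ : ∃ a, q a ≠ 0 := by
    by_contra hcon
    push Not at hcon
    have h1 : q = (0 : k) • q := by
      rw [zero_smul]
      exact funext hcon
    rw [h1, eval_smul_hom hρ, zero_pow he.ne', zero_mul] at hq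
    exact hq rfl
  obtain ⟨b, c, hba, hca, hcb, habc⟩ : ∃ b c : Fin 3, b ≠ a ∧ c ≠ a ∧ c ≠ b ∧
      ∀ i, i = a ∨ i = b ∨ i = c := by
    have h7 : ∀ a : Fin 3, ∃ b c : Fin 3, b ≠ a ∧ c ≠ a ∧ c ≠ b ∧
      ∀ i, i = a ∨ i = b ∨ i = c := by decide
    exact h7 a
  obtain ⟨t, ht⟩ : ∃ t, t = q b / q a := ⟨_, rfl⟩
  obtain ⟨t', ht'⟩ : ∃ t', t' = q c / q a := ⟨_, rfl⟩
  have hqb : q b = t * q a := by rw [ht, div_mul_cancel₀ _ ha]
  have hqc : q c = t' * q a := by rw [ht', div_mul_cancel₀ _ ha]
  obtain ⟨Λ, hΛ⟩ : ∃ Λ : MvPolynomial (Fin 3) k, Λ = X b - C t * X a := ⟨_, rfl⟩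
  obtain ⟨Λ', hΛ'⟩ : ∃ Λ' : MvPolynomial (Fin 3) k, Λ' = X c - C t' * X a := ⟨_, rfl⟩
  obtain ⟨A, hA⟩ : ∃ A : MvPolynomial (Fin 3) k, A = G b - C t * G a := ⟨_, rfl⟩
  obtain ⟨B, hB⟩ : ∃ B : MvPolynomial (Fin 3) k, B = G c - C t' * G a := ⟨_, rfl⟩
  have hΛh : Λ.IsHomogeneous 1 := by
    rw [hΛ]
    exact (isHomogeneous_X k b).sub (isHomogeneous_C_mul_X t a)
  have hAh : A.IsHomogeneous D := by
    rw [hA]
    exact (hG b).sub ((hG a).C_mul t)
  have hΛ0 : Λ ≠ 0 := by
    intro h0
    have h1 := congrArg (eval (fun i => if i = b then (1 : k) else 0)) h0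
    rw [hΛ, map_sub, map_mul, eval_C, eval_X, eval_X, map_zero, if_pos rfl, if_neg hba.symm,
      mul_zero, sub_zero] at h1
    exact one_ne_zero h1
  have hΛ'0 : Λ' ≠ 0 := by
    intro h0
    have h1 := congrArg (eval (fun i => if i = c then (1 : k) else 0)) h0
    rw [hΛ', map_sub, map_mul, eval_C, eval_X, eval_X, map_zero, if_pos rfl, if_neg hca.symm,
      mul_zero, sub_zero] at h1
    exact one_ne_zero h1
  have hS : ρ ∣ Λ' * A - Λ * B := by
    have h1 : Λ' * A - Λ * B = (X c * G b - X b * G c) + C t * (X a * G c - X c * G a) +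
        C t' * (X b * G a - X a * G b) := by
      rw [hΛ, hΛ', hA, hB]
      ring
    rw [h1]
    exact dvd_add (dvd_add (h c b) (Dvd.dvd.mul_left (h a c) _)) (Dvd.dvd.mul_left (h b a) _)
  obtain ⟨S, hS⟩ := hS
  obtain ⟨T, hT⟩ : ∃ T, PreperConst_sub a b t A = PreperConst_sub a b t ρ * T := by
    have h1 := congrArg (PreperConst_sub a b t) hS
    have h2 : PreperConst_sub a b t Λ = 0 := by
      rw [hΛ, map_sub, map_mul, PreperConst_sub_X_self, PreperConst_sub_C,
        PreperConst_sub_X a b t hba.symm, sub_self]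
    have h3 : PreperConst_sub a b t Λ' = Λ' := by
      rw [hΛ', map_sub, map_mul, PreperConst_sub_X a b t hcb, PreperConst_sub_C,
        PreperConst_sub_X a b t hba.symm]
    rw [map_sub, map_mul, map_mul, map_mul, h2, h3, zero_mul, sub_zero] at h1
    have h4 := congrArg (PreperConst_sub a c t') h1
    have h5 : PreperConst_sub a c t' Λ' = 0 := by
      rw [hΛ', map_sub, map_mul, PreperConst_sub_X_self, PreperConst_sub_C,
        PreperConst_sub_X a c t' hca.symm, sub_self]
    rw [map_mul, map_mul, h5, zero_mul] at h4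
    have h6 : PreperConst_sub a c t' (PreperConst_sub a b t ρ) ≠ 0 := by
      intro h0
      have h7 := congrArg (eval q) h0
      rw [PreperConst_sub_eval a c t' _ hqc, PreperConst_sub_eval a b t _ hqb, map_zero] at h7
      exact hq h7
    have h8 : PreperConst_sub a c t' (PreperConst_sub a b t S) = 0 :=
      (mul_eq_zero.1 h4.symm).resolve_left h6
    obtain ⟨T, hT⟩ := PreperConst_sub_dvd a c t' (PreperConst_sub a b t S)
    rw [h8, sub_zero, ← hΛ'] at hT
    refine ⟨T, ?_⟩
    apply mul_left_cancel₀ hΛ'0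
    rw [h1, hT]
    ring
  obtain ⟨U₀, hU₀⟩ : Λ ∣ A - T * ρ := by
    have h1 : A - T * ρ = (A - PreperConst_sub a b t A) -
        (ρ - PreperConst_sub a b t ρ) * T := by
      rw [hT]
      ring
    rw [h1, hΛ]
    exact dvd_sub (PreperConst_sub_dvd a b t A)
      (Dvd.dvd.mul_right (PreperConst_sub_dvd a b t ρ) T)
  obtain ⟨U, T', hU, hAU⟩ : ∃ U T' : MvPolynomial (Fin 3) k, U.IsHomogeneous (D - 1) ∧
      A = Λ * U + ρ * T' := by
    obtain ⟨T', hT'⟩ := PreperConst_hC_dvd hρ T D
    refine ⟨homogeneousComponent (D - 1) U₀, T', homogeneousComponent_isHomogeneous _ _, ?_⟩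
    have h1 : A = U₀ * Λ + T * ρ := by
      rw [mul_comm U₀, ← hU₀]
      ring
    have h2 := congrArg (homogeneousComponent D) h1
    rw [map_add, hT', homogeneousComponent_of_mem hAh, if_pos rfl] at h2
    have h3 := Pool.Agent.Helper36.homogeneousComponent_mul_of_homogeneous hΛh U₀ (D - 1)
    rw [Nat.sub_add_cancel (by omega : 1 ≤ D)] at h3
    rw [h3] at h2
    rw [h2]
    ring
  have hB' : ρ ∣ Λ' * U - B := by
    have h1 : ρ ∣ Λ * (Λ' * U - B) := by
      refine ⟨S - Λ' * T', ?_⟩
      have h2 : Λ * (Λ' * U - B) = (Λ' * A - Λ * B) - Λ' * (ρ * T') := by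
        rw [hAU]
        ring
      rw [h2, hS]
      ring
    refine (hirr.prime.dvd_or_dvd h1).resolve_left ?_
    rintro ⟨u, hu⟩
    obtain ⟨i, j, hi, hj, hij⟩ := form_of_mul hΛh hΛ0 hu
    have h2 : e = i := hρ.inj_right hi hirr.ne_zero
    have h3 : j = 0 := by omega
    rw [h3] at hj
    have h4 : u = C (coeff 0 u) := by
      rw [← totalDegree_eq_zero_iff_eq_C]
      exact Nat.le_zero.1 hj.totalDegree_le
    have h5 := congrArg (eval q) hu
    rw [hΛ, map_sub, map_mul, map_mul, eval_C, eval_X, eval_X, hqb, sub_self, h4, eval_C] at h5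
    have h6 : coeff 0 u = 0 := (mul_eq_zero.1 h5.symm).resolve_left hq
    rw [h6, C_0] at h4
    rw [h4, mul_zero] at hu
    exact hΛ0 hu
  obtain ⟨p, hp0, hpρ, hpU⟩ := exists_common_zero hρ he hU (by omega)
  have hpA : eval p A = 0 := by
    rw [hAU, map_add, map_mul, map_mul, hpU, hpρ, mul_zero, zero_mul, add_zero]
  have hpB : eval p B = 0 := by
    obtain ⟨V, hV⟩ := hB'
    have h1 := congrArg (eval p) hV
    rw [map_sub, map_mul, map_mul, hpU, hpρ, mul_zero, zero_mul, zero_sub, neg_eq_zero] at h1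
    exact h1
  rw [hA, map_sub, map_mul, eval_C, sub_eq_zero] at hpA
  rw [hB, map_sub, map_mul, eval_C, sub_eq_zero] at hpB
  have hGa : eval p (G a) ≠ 0 := by
    intro h0
    apply hp0
    apply hnz
    intro i
    rcases habc i with rfl | rfl | rfl
    · exact h0
    · rw [hpA, h0, mul_zero]
    · rw [hpB, h0, mul_zero]
  have hmin : ∀ i j, p i * eval p (G j) = p j * eval p (G i) := by
    intro i j
    obtain ⟨u, hu⟩ := h i j
    have h1 := congrArg (eval p) hu
    rw [map_sub, map_mul, map_mul, map_mul, hpρ, zero_mul, eval_X, eval_X] at h1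
    exact sub_eq_zero.1 h1
  have hpb : p b = t * p a := by
    have h1 := hmin a b
    rw [hpA] at h1
    apply mul_right_cancel₀ hGa
    rw [← h1]
    ring
  have hpc : p c = t' * p a := by
    have h1 := hmin a c
    rw [hpB] at h1
    apply mul_right_cancel₀ hGa
    rw [← h1]
    ring
  have hpq : p = (p a / q a) • q := by
    funext i
    rw [Pi.smul_apply, smul_eq_mul]
    rcases habc i with rfl | rfl | rfl
    · rw [div_mul_cancel₀ _ ha]
    · rw [hpb, hqb, div_mul_eq_mul_div, eq_div_iff ha]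
      ring
    · rw [hpc, hqc, div_mul_eq_mul_div, eq_div_iff ha]
      ring
  rw [hpq, eval_smul_hom hρ] at hpρ
  rcases mul_eq_zero.1 hpρ with h9 | h9
  · have h10 : p a / q a = 0 := by
      by_contra h11
      exact pow_ne_zero _ h11 h9
    rw [h10, zero_smul] at hpq
    exact hp0 hpq
  · exact hq h9

/-- fixed points are constant -/
private theorem PreperConst_fixed {k L : Type} [Field k] [IsAlgClosed k] [Field L] [Algebra k L]
    {D : ℕ} {G : Fin 3 → MvPolynomial (Fin 3) k} (hG : IsEndo D G) (w : Fin 3 → L) (hw : w ≠ 0)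
    (c : L) (h : step G w = c • w) : IsConst k w := by
  by_contra hwc
  have hm : ∀ i j, aeval w (X i * G j - X j * G i) = 0 := by
    intro i j
    have h1 : ∀ i, aeval w (G i) = c * w i := fun i => congrFun h i
    rw [map_sub, map_mul, map_mul, aeval_X, aeval_X, h1, h1]
    ring
  have hmh : ∀ i j, (X i * G j - X j * G i).IsHomogeneous (1 + D) := fun i j =>
    ((isHomogeneous_X k i).mul (hG.hom j)).sub ((isHomogeneous_X k j).mul (hG.hom i))
  by_cases h0 : ∀ i j, X i * G j - X j * G i = 0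
  · obtain ⟨φ, e, hφ, he, hφi, -, -⟩ := const_exists_factor (isHomogeneous_X k (0 : Fin 3))
      (X_ne_zero 0) (0 : Fin 3 → k) (by rw [aeval_X]; rfl)
    exact PreperConst_core hG.two_le hG.hom hG.nz hφ he hφi
      (fun i j => by rw [h0 i j]; exact dvd_zero _)
  · push Not at h0
    obtain ⟨i₀, j₀, h0⟩ := h0
    obtain ⟨φ, e, hφ, he, hφi, -, hφw⟩ := const_exists_factor (hmh i₀ j₀) h0 w (hm i₀ j₀)
    exact PreperConst_core hG.two_le hG.hom hG.nz hφ he hφi (fun i j =>
      dvd_of_common_zero hφ (hmh i j) hφi w hw hwc hφw (hm i j))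

/-- preimages of constant points are constant -/
private theorem PreperConst_pull {k L : Type} [Field k] [IsAlgClosed k] [Field L] [Algebra k L]
    {D : ℕ} {G : Fin 3 → MvPolynomial (Fin 3) k} (hG : IsEndo D G) (x : Fin 3 → L) (hx : x ≠ 0)
    (h : IsConst k (step G x)) : IsConst k x := by
  by_contra hxc
  obtain ⟨z, c, hc, hz⟩ := h
  have hzG : ∀ i, aeval x (G i) = c * algebraMap k L (z i) := fun i => congrFun hz i
  obtain ⟨a, ha⟩ : ∃ a, z a ≠ 0 := by
    by_contra hcon
    push Not at hcon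
    apply step_ne_zero hG hx
    rw [hz]
    funext i
    rw [hcon i, map_zero, mul_zero]
    rfl
  have hm : ∀ b, aeval x (C (z a) * G b - C (z b) * G a) = 0 := by
    intro b
    rw [map_sub, map_mul, map_mul, aeval_C, aeval_C, hzG, hzG]
    ring
  have hmh : ∀ b, (C (z a) * G b - C (z b) * G a).IsHomogeneous D := fun b =>
    ((hG.hom b).C_mul _).sub ((hG.hom a).C_mul _)
  obtain ⟨φ, e, hφ, he, hφd⟩ : ∃ (φ : MvPolynomial (Fin 3) k) (e : ℕ), φ.IsHomogeneous e ∧
      0 < e ∧ ∀ b, φ ∣ C (z a) * G b - C (z b) * G a := by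
    by_cases h0 : ∀ b, C (z a) * G b - C (z b) * G a = 0
    · exact ⟨X 0, 1, isHomogeneous_X k 0, one_pos, fun b => by rw [h0 b]; exact dvd_zero _⟩
    · push Not at h0
      obtain ⟨b₀, h0⟩ := h0
      obtain ⟨φ, e, hφ, he, hφi, -, hφx⟩ := const_exists_factor (hmh b₀) h0 x (hm b₀)
      exact ⟨φ, e, hφ, he, fun b =>
        dvd_of_common_zero hφ (hmh b) hφi x hx hxc hφx (hm b)⟩
  have hd0 : 0 < D := lt_of_lt_of_le two_pos hG.two_le
  obtain ⟨p, hp0, hpφ, hpa⟩ := exists_common_zero hφ he (hG.hom a) hd0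
  apply hp0
  apply hG.nz
  intro b
  obtain ⟨u, hu⟩ := hφd b
  have h1 := congrArg (eval p) hu
  rw [map_sub, map_mul, map_mul, map_mul, eval_C, eval_C, hpφ, zero_mul, hpa, mul_zero,
    sub_zero] at h1
  exact (mul_eq_zero.1 h1).resolve_left ha

/-- the iterates as forms -/
private noncomputable def PreperConst_it {k : Type} [Field k]
    (F : Fin 3 → MvPolynomial (Fin 3) k) : ℕ → Fin 3 → MvPolynomial (Fin 3) k
  | 0 => X
  | n + 1 => fun i => compk F (PreperConst_it F n i)

private theorem PreperConst_it_hom {k : Type} [Field k] {d : ℕ}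
    {F : Fin 3 → MvPolynomial (Fin 3) k} (hF : IsEndo d F) (n : ℕ) (i : Fin 3) :
    (PreperConst_it F n i).IsHomogeneous (d ^ n) := by
  induction n with
  | zero =>
    rw [pow_zero]
    exact isHomogeneous_X k i
  | succ n ih =>
    rw [pow_succ']
    exact compk_hom hF ih

private theorem PreperConst_it_step {k L : Type} [Field k] [Field L] [Algebra k L]
    (F : Fin 3 → MvPolynomial (Fin 3) k) (n : ℕ) (x : Fin 3 → L) :
    step (PreperConst_it F n) x = iter F x n := by
  induction n generalizing x with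
  | zero =>
    funext i
    exact aeval_X x i
  | succ n ih =>
    rw [iter_succ', ← ih]
    funext i
    exact aeval_compk F _ x

private theorem PreperConst_it_endo {k : Type} [Field k] [IsAlgClosed k] {d : ℕ}
    {F : Fin 3 → MvPolynomial (Fin 3) k} (hF : IsEndo d F) {n : ℕ} (hn : 0 < n) :
    IsEndo (d ^ n) (PreperConst_it F n) := by
  refine ⟨?_, PreperConst_it_hom hF n, ?_⟩
  · exact hF.two_le.trans (Nat.le_self_pow hn.ne' d)
  · intro x hx
    by_contra hx0
    apply iter_ne_zero hF hx0 n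
    rw [← PreperConst_it_step]
    funext i
    exact hx i

theorem isConst_of_preper_general {k L : Type} [Field k] [IsAlgClosed k] [Field L] [Algebra k L]
    {d : ℕ} {F : Fin 3 → MvPolynomial (Fin 3) k} (hF : IsEndo d F) (x : Fin 3 → L) (hx : x ≠ 0)
    (h : Preper F x) : IsConst k x := by
  obtain ⟨n, m, hnm, c, hc, hcm⟩ := h
  have h1 : IsConst k (iter F x n) := by
    refine PreperConst_fixed (PreperConst_it_endo hF (Nat.sub_pos_of_lt hnm)) _
      (iter_ne_zero hF hx n) c ?_
    rw [PreperConst_it_step, ← iter_add, Nat.sub_add_cancel hnm.le, hcm]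
  clear hcm hnm
  induction n with
  | zero => exact h1
  | succ n ih =>
    apply ih
    rw [iter_succ] at h1
    exact PreperConst_pull hF _ (iter_ne_zero hF hx n) h1

end Pool.Agent.Helper30.TP
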