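import Pool.Agent.Helper30.TP.OZDefs
import Pool.Agent.Helper30.TP.PreperConst
import Pool.Agent.Helper30.TP.Germ
import Pool.Agent.Helper30.TP.FormHeight
import Pool.Agent.Helper30.TP.Form

/-!
# One eigenvalue zero, the other one
-/

set_option autoImplicit false

namespace Pool.Agent.Helper30.TP

open MvPolynomial
open Pool.Agent.Helper16 (Place IsFunctionField)
open Pool.Agent.Helper36 (step iter iter_succ iter_zero aeval_smul_homogeneous)

/-- The sequence operator `E (E - 1)`. -/
def oz4Seq {V : Type*} [AddCommGroup V] (s : ℕ → V) : ℕ → V := fun n => s (n + 2) - s (n + 1)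

theorem oz4_seq_iter {V : Type*} [AddCommGroup V] (N : ℕ) (s : ℕ → V) :
    oz4Seq^[N] s = (fwdDiff 1)^[N] fun n => s (n + N) := by
  induction N generalizing s with
  | zero => rfl
  | succ N ih =>
    rw [Function.iterate_succ_apply, Function.iterate_succ_apply, ih]
    congr 1
    funext n
    rw [fwdDiff]
    show s (n + N + 2) - s (n + N + 1) = s (n + 1 + (N + 1)) - s (n + (N + 1))
    rw [show n + 1 + (N + 1) = n + N + 2 by omega, show n + (N + 1) = n + N + 1 by omega]

theorem oz4_diff_dual {k V : Type*} [Field k] [AddCommGroup V] [Module k V] (l : V →ₗ[k] k)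
    (N : ℕ) (v : ℕ → V) :
    ((fwdDiff 1)^[N] fun n => l (v n)) = fun n => l ((fwdDiff 1)^[N] v n) := by
  induction N with
  | zero => rfl
  | succ N ih =>
    rw [Function.iterate_succ_apply', Function.iterate_succ_apply', ih]
    funext n
    simp only [fwdDiff, map_sub]

theorem oz4_newton_field {k : Type*} [Field k] [CharZero k] (N : ℕ) (f : ℕ → k)
    (h : ∀ n, (fwdDiff 1)^[N] f n = 0) (hinf : {n | f n = 0}.Infinite) (n : ℕ) : f n = 0 := by
  classical
  have hz : ∀ j, N ≤ j → (fwdDiff 1)^[j] f 0 = 0 := by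
    intro j hj
    obtain ⟨i, rfl⟩ := Nat.exists_eq_add_of_le' hj
    rw [Function.iterate_add_apply]
    have h0 : (fwdDiff 1)^[N] f = fun _ => (0 : k) := funext h
    rw [h0]
    have : ∀ i : ℕ, (fwdDiff 1)^[i] (fun _ : ℕ => (0 : k)) = fun _ => 0 := by
      intro i
      induction i with
      | zero => rfl
      | succ i ih =>
        rw [Function.iterate_succ_apply', ih]
        funext n
        simp [fwdDiff]
    rw [this]
  set p : Polynomial k := ∑ j ∈ Finset.range N,
    Polynomial.C ((fwdDiff 1)^[j] f 0 / (j.factorial : k)) * descPochhammer k j with hp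
  have hev : ∀ n : ℕ, p.eval (n : k) = f n := by
    intro n
    have h1 := shift_eq_sum_fwdDiff_iter (1 : ℕ) f n 0
    rw [zero_add, smul_eq_mul, mul_one] at h1
    have h2 : ∀ j ∈ Finset.range N, (Polynomial.C ((fwdDiff 1)^[j] f 0 / (j.factorial : k)) *
        descPochhammer k j).eval (n : k) = (n.choose j : k) * (fwdDiff 1)^[j] f 0 := by
      intro j _
      have hf : (j.factorial : k) ≠ 0 := Nat.cast_ne_zero.2 (Nat.factorial_ne_zero j)
      rw [Polynomial.eval_mul, Polynomial.eval_C, descPochhammer_eval_eq_descFactorial,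
        Nat.descFactorial_eq_factorial_mul_choose, Nat.cast_mul]
      field_simp
    rw [hp, Polynomial.eval_finsetSum, Finset.sum_congr rfl h2, h1]
    have h3 : ∀ j, n.choose j • (fwdDiff 1)^[j] f 0 = (n.choose j : k) * (fwdDiff 1)^[j] f 0 :=
      fun j => by rw [nsmul_eq_mul]
    simp only [h3]
    have h4 : ∑ j ∈ Finset.range (n + 1), (n.choose j : k) * (fwdDiff 1)^[j] f 0 =
        ∑ j ∈ Finset.range (n + 1 + N), (n.choose j : k) * (fwdDiff 1)^[j] f 0 := by
      refine Finset.sum_subset (Finset.range_mono (by omega)) fun j _ hj => ?_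
      rw [Finset.mem_range, not_lt] at hj
      rw [Nat.choose_eq_zero_of_lt (by omega), Nat.cast_zero, zero_mul]
    have h5 : ∑ j ∈ Finset.range N, (n.choose j : k) * (fwdDiff 1)^[j] f 0 =
        ∑ j ∈ Finset.range (n + 1 + N), (n.choose j : k) * (fwdDiff 1)^[j] f 0 := by
      refine Finset.sum_subset (Finset.range_mono (by omega)) fun j _ hj => ?_
      rw [Finset.mem_range, not_lt] at hj
      rw [hz j hj, mul_zero]
    rw [h4, h5]
  have hp0 : p = 0 := by
    apply Polynomial.eq_zero_of_infinite_isRoot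
    have hi : ((fun n : ℕ => (n : k)) '' {n | f n = 0}).Infinite :=
      hinf.image (Nat.cast_injective.injOn)
    refine hi.mono ?_
    rintro _ ⟨m, hm, rfl⟩
    show p.IsRoot (m : k)
    rw [Polynomial.IsRoot, hev]
    exact hm
  rw [← hev, hp0, Polynomial.eval_zero]

theorem oz4_newton {k V : Type*} [Field k] [CharZero k] [AddCommGroup V] [Module k V] (N : ℕ)
    (s : ℕ → V) (h : ∀ n, oz4Seq^[N] s n = 0) (hinf : {n | s n = 0}.Infinite) (n : ℕ)
    (hn : N ≤ n) : s n = 0 := by
  rw [← Module.forall_dual_apply_eq_zero_iff k]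
  intro l
  have h1 : ∀ n, (fwdDiff 1)^[N] (fun m => l (s (m + N))) n = 0 := by
    intro n
    rw [oz4_diff_dual l N fun m => s (m + N)]
    have := h n
    rw [oz4_seq_iter] at this
    show l ((fwdDiff 1)^[N] (fun m => s (m + N)) n) = 0
    rw [this, map_zero]
  have h2 : {m | l (s (m + N)) = 0}.Infinite := by
    have h3 : {m | s (m + N) = 0}.Infinite := by
      intro hf
      apply hinf
      refine ((hf.image fun m => m + N).union (Set.finite_lt_nat N)).subset ?_
      intro m hm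
      by_cases hmN : m < N
      · exact Or.inr hmN
      · refine Or.inl ⟨m - N, ?_, Nat.sub_add_cancel (not_lt.1 hmN)⟩
        show s (m - N + N) = 0
        rw [Nat.sub_add_cancel (not_lt.1 hmN)]
        exact hm
    refine h3.mono fun m hm => ?_
    show l (s (m + N)) = 0
    rw [show s (m + N) = 0 from hm, map_zero]
  have h4 := oz4_newton_field N (fun m => l (s (m + N))) h1 h2 (n - N)
  rwa [Nat.sub_add_cancel hn] at h4

section Abstract

variable {A : Type*} [CommRing A] (E : A →+* A) (m : Ideal A)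

/-- The operator `E (E - 1)`. -/
def oz4Op (u : A) : A := E (E u - u)

theorem oz4_op_mul (a b : A) :
    oz4Op E (a * b) = oz4Op E a * E (E b) + E a * oz4Op E b := by
  simp only [oz4Op, map_sub, map_mul]
  ring

theorem oz4_op_add (a b : A) : oz4Op E (a + b) = oz4Op E a + oz4Op E b := by
  simp only [oz4Op, map_sub, map_add]
  ring

theorem oz4_map_pow (h2 : ∀ u ∈ m, E u ∈ m) (i : ℕ) : ∀ u ∈ m ^ i, E u ∈ m ^ i := by
  intro u hu
  have h : (m ^ i).map E ≤ m ^ i := by
    rw [Ideal.map_pow]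
    exact Ideal.pow_right_mono (Ideal.map_le_iff_le_comap.2 h2) i
  exact h (Ideal.mem_map_of_mem E hu)

theorem oz4_op_pow (h1 : ∀ u, E u - u ∈ m) (h2 : ∀ u ∈ m, E u ∈ m)
    (h3 : ∀ u ∈ m, oz4Op E u ∈ m ^ 2) (i : ℕ) : ∀ u ∈ m ^ i, oz4Op E u ∈ m ^ (i + 1) := by
  induction i with
  | zero =>
    intro u _
    rw [zero_add, pow_one]
    exact h2 _ (h1 u)
  | succ i ih =>
    intro u hu
    rw [pow_succ] at hu
    refine Submodule.mul_induction_on hu (fun a ha b hb => ?_) fun a b ha hb => ?_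
    · rw [oz4_op_mul]
      refine Ideal.add_mem _ ?_ ?_
      · rw [pow_succ m (i + 1)]
        exact Ideal.mul_mem_mul (ih a ha) (h2 _ (h2 _ hb))
      · rw [show i + 1 + 1 = i + 2 from rfl, pow_add]
        exact Ideal.mul_mem_mul (oz4_map_pow E m h2 i a ha) (h3 b hb)
    · rw [oz4_op_add]
      exact Ideal.add_mem _ ha hb

theorem oz4_op_iter (h1 : ∀ u, E u - u ∈ m) (h2 : ∀ u ∈ m, E u ∈ m)
    (h3 : ∀ u ∈ m, oz4Op E u ∈ m ^ 2) (N : ℕ) (u : A) : (oz4Op E)^[N] u ∈ m ^ N := by
  induction N with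
  | zero => simp
  | succ N ih =>
    rw [Function.iterate_succ_apply']
    exact oz4_op_pow E m h1 h2 h3 N _ ih

end Abstract

section Poly

variable {k : Type} [Field k]

/-- The maximal ideal of the origin. -/
noncomputable def oz4Max (k : Type) [Field k] : Ideal (MvPolynomial (Fin 2) k) :=
  Ideal.span {X 0, X 1}

theorem oz4_X0_mem : (X 0 : MvPolynomial (Fin 2) k) ∈ oz4Max k :=
  Ideal.subset_span (by simp)

theorem oz4_X1_mem : (X 1 : MvPolynomial (Fin 2) k) ∈ oz4Max k :=
  Ideal.subset_span (by simp)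

theorem oz4_X_mem (i : Fin 2) : (X i : MvPolynomial (Fin 2) k) ∈ oz4Max k := by
  fin_cases i
  · exact oz4_X0_mem
  · exact oz4_X1_mem

/-- A substitution which is the identity modulo the maximal ideal. -/
theorem oz4_sub_mem (f : Fin 2 → MvPolynomial (Fin 2) k) (hf : ∀ i, f i ∈ oz4Max k)
    (u : MvPolynomial (Fin 2) k) : aeval f u - u ∈ oz4Max k := by
  induction u using MvPolynomial.induction_on with
  | C a => simp [MvPolynomial.algebraMap_eq]
  | add p q hp hq =>
    have : aeval f (p + q) - (p + q) = (aeval f p - p) + (aeval f q - q) := by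
      rw [map_add]; ring
    rw [this]
    exact Ideal.add_mem _ hp hq
  | mul_X p i hp =>
    rw [map_mul, aeval_X]
    exact Ideal.sub_mem _ (Ideal.mul_mem_left _ _ (hf i)) (Ideal.mul_mem_left _ _ (oz4_X_mem i))

theorem oz4_map_mem (f : Fin 2 → MvPolynomial (Fin 2) k) (hf : ∀ i, f i ∈ oz4Max k)
    (u : MvPolynomial (Fin 2) k) (hu : u ∈ oz4Max k) : aeval f u ∈ oz4Max k := by
  have := Ideal.add_mem _ (oz4_sub_mem f hf u) hu
  rwa [sub_add_cancel] at this

theorem oz4_op_mem (f : Fin 2 → MvPolynomial (Fin 2) k) (hf : ∀ i, f i ∈ oz4Max k)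
    (h0 : f 0 - X 0 ∈ oz4Max k ^ 2) (h1 : f 1 ∈ oz4Max k ^ 2)
    (u : MvPolynomial (Fin 2) k) (hu : u ∈ oz4Max k) :
    oz4Op (aeval f : MvPolynomial (Fin 2) k →ₐ[k] MvPolynomial (Fin 2) k).toRingHom u ∈
      oz4Max k ^ 2 := by
  set E : MvPolynomial (Fin 2) k →+* MvPolynomial (Fin 2) k :=
    (aeval f : MvPolynomial (Fin 2) k →ₐ[k] MvPolynomial (Fin 2) k).toRingHom with hE
  have hEa : ∀ v, E v = aeval f v := fun v => rfl
  have e1 : ∀ u, E u - u ∈ oz4Max k := fun u => oz4_sub_mem f hf u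
  have e2 : ∀ u ∈ oz4Max k, E u ∈ oz4Max k := fun u hu => oz4_map_mem f hf u hu
  have e3 : ∀ u ∈ oz4Max k ^ 2, E u ∈ oz4Max k ^ 2 := oz4_map_pow E _ e2 2
  have t0 : oz4Op E (X 0) ∈ oz4Max k ^ 2 := by
    apply e3
    rw [hEa, aeval_X]
    exact h0
  have t1 : oz4Op E (X 1) ∈ oz4Max k ^ 2 := by
    rw [oz4Op, map_sub]
    apply Ideal.sub_mem
    · rw [hEa (X 1), aeval_X]
      exact e3 _ h1
    · rw [hEa (X 1), aeval_X]
      exact h1
  obtain ⟨a, b, rfl⟩ := Ideal.mem_span_pair.1 hu
  rw [oz4_op_add, oz4_op_mul, oz4_op_mul]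
  have key : ∀ (a v : MvPolynomial (Fin 2) k), v ∈ oz4Max k → oz4Op E a * E (E v) ∈ oz4Max k ^ 2 := by
    intro a v hv
    rw [pow_two]
    exact Ideal.mul_mem_mul (e2 _ (e1 a)) (e2 _ (e2 _ hv))
  refine Ideal.add_mem _ (Ideal.add_mem _ (key a _ oz4_X0_mem) (Ideal.mul_mem_left _ _ t0))
    (Ideal.add_mem _ (key b _ oz4_X1_mem) (Ideal.mul_mem_left _ _ t1))

/-- The dynamical system modulo a nilpotent ideal: the sequences are annihilated by a power of
`E (E - 1)`. -/
theorem oz4_seq_zero {R : Type*} [CommRing R] [Algebra k R] (p : ℕ → Fin 2 → R) (N : ℕ)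
    (hN : ∀ n, ∀ u ∈ oz4Max k ^ N, aeval (p n) u = 0) (G : Fin 3 → MvPolynomial (Fin 2) k)
    (h0 : G 0 - 1 ∈ oz4Max k) (h1 : G 1 - X 0 ∈ oz4Max k ^ 2) (h2 : G 2 ∈ oz4Max k ^ 2)
    (hs0 : ∀ n, aeval (p n) (G 0) * p (n + 1) 0 = aeval (p n) (G 1))
    (hs1 : ∀ n, aeval (p n) (G 0) * p (n + 1) 1 = aeval (p n) (G 2))
    (u : MvPolynomial (Fin 2) k) (n : ℕ) : oz4Seq^[N] (fun n => aeval (p n) u) n = 0 := by
  set U : MvPolynomial (Fin 2) k := ∑ j ∈ Finset.range (N + 1), (1 - G 0) ^ j with hU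
  have hh0 : 1 - G 0 ∈ oz4Max k := by
    rw [← neg_sub]
    exact Ideal.neg_mem_iff _ |>.2 h0
  have hle : oz4Max k ^ 2 ≤ oz4Max k := Ideal.pow_le_self two_ne_zero
  have hU1 : U - 1 ∈ oz4Max k := by
    rw [hU, Finset.sum_range_succ', pow_zero, add_sub_cancel_right]
    exact Ideal.sum_mem _ fun j _ => Ideal.pow_le_self (by omega) (Ideal.pow_mem_pow hh0 (j + 1))
  have hUG : G 0 * U = 1 - (1 - G 0) ^ (N + 1) := by
    have := mul_neg_geom_sum (1 - G 0) (N + 1)
    rwa [sub_sub_cancel] at this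
  set f : Fin 2 → MvPolynomial (Fin 2) k := ![U * G 1, U * G 2] with hf
  have f0 : f 0 = U * G 1 := rfl
  have f1 : f 1 = U * G 2 := rfl
  have k1 : f 1 ∈ oz4Max k ^ 2 := by
    rw [f1]
    exact Ideal.mul_mem_left _ _ h2
  have k0 : f 0 - X 0 ∈ oz4Max k ^ 2 := by
    have : f 0 - X 0 = U * (G 1 - X 0) + (U - 1) * X 0 := by rw [f0]; ring
    rw [this, pow_two]
    refine Ideal.add_mem _ (Ideal.mul_mem_left _ _ ?_) (Ideal.mul_mem_mul hU1 oz4_X0_mem)
    rw [← pow_two]
    exact h1
  have km : ∀ i, f i ∈ oz4Max k := by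
    intro i
    fin_cases i
    · have := Ideal.add_mem _ (hle k0) oz4_X0_mem
      rwa [sub_add_cancel] at this
    · exact hle k1
  set E : MvPolynomial (Fin 2) k →+* MvPolynomial (Fin 2) k :=
    (aeval f : MvPolynomial (Fin 2) k →ₐ[k] MvPolynomial (Fin 2) k).toRingHom with hE
  have hunit : ∀ n, aeval (p n) (G 0) * aeval (p n) U = 1 := by
    intro n
    rw [← map_mul, hUG, map_sub, map_one, hN n ((1 - G 0) ^ (N + 1))
      (Ideal.pow_le_pow_right (Nat.le_succ N) (Ideal.pow_mem_pow hh0 (N + 1))), sub_zero]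
  have hcomp : ∀ n u, aeval (p n) (E u) = aeval (p (n + 1)) u := by
    intro n u
    have : (aeval (p n) : MvPolynomial (Fin 2) k →ₐ[k] R).comp (aeval f) = aeval (p (n + 1)) := by
      apply MvPolynomial.algHom_ext
      intro i
      rw [AlgHom.comp_apply, aeval_X, aeval_X]
      fin_cases i
      · show aeval (p n) (U * G 1) = p (n + 1) 0
        rw [map_mul, ← hs0 n, ← mul_assoc, mul_comm (aeval (p n) U), hunit, one_mul]
      · show aeval (p n) (U * G 2) = p (n + 1) 1
        rw [map_mul, ← hs1 n, ← mul_assoc, mul_comm (aeval (p n) U), hunit, one_mul]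
    rw [← this]
    rfl
  have hit : ∀ (N : ℕ) (u : MvPolynomial (Fin 2) k),
      oz4Seq^[N] (fun n => aeval (p n) u) = fun n => aeval (p n) ((oz4Op E)^[N] u) := by
    intro N
    induction N with
    | zero => intro u; rfl
    | succ N ih =>
      intro u
      rw [Function.iterate_succ_apply, Function.iterate_succ_apply]
      have : oz4Seq (fun n => aeval (p n) u) = fun n => aeval (p n) (oz4Op E u) := by
        funext n
        rw [oz4Seq, oz4Op, hcomp, map_sub, hcomp]
      rw [this, ih]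
  rw [hit]
  exact hN n _ (oz4_op_iter E _ (fun u => oz4_sub_mem f km u) (fun u hu => oz4_map_mem f km u hu)
    (fun u hu => oz4_op_mem f km k0 k1 u hu) N u)

/-- Linearity of the sequence operator. -/
theorem oz4_seq_sum {R ι : Type*} [CommRing R] (S : Finset ι) (a : ι → R) (s : ι → ℕ → R) (N : ℕ) :
    oz4Seq^[N] (fun n => ∑ i ∈ S, a i * s i n) = fun n => ∑ i ∈ S, a i * oz4Seq^[N] (s i) n := by
  induction N generalizing s with
  | zero => rfl
  | succ N ih =>
    rw [Function.iterate_succ_apply]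
    have : oz4Seq (fun n => ∑ i ∈ S, a i * s i n) = fun n => ∑ i ∈ S, a i * oz4Seq (s i) n := by
      funext n
      simp only [oz4Seq, mul_sub, Finset.sum_sub_distrib]
    rw [this, ih]
    rfl

/-- First order Taylor expansion at the point `(1, 0, 0)`. -/
theorem oz4_taylor (P : MvPolynomial (Fin 3) k) :
    aeval (![1, X 0, X 1] : Fin 3 → MvPolynomial (Fin 2) k) P - C (eval (Pi.single 0 1) P) -
      C (eval (Pi.single 0 1) (pderiv 1 P)) * X 0 - C (eval (Pi.single 0 1) (pderiv 2 P)) * X 1 ∈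
      oz4Max k ^ 2 := by
  induction P using MvPolynomial.induction_on with
  | C a => simp [MvPolynomial.algebraMap_eq]
  | add p q hp hq =>
    have h := Ideal.add_mem _ hp hq
    simp only [map_add] at h ⊢
    rw [show ∀ a b c d e f g h : MvPolynomial (Fin 2) k,
      a + b - (c + d) - (e + f) * X 0 - (g + h) * X 1 =
      (a - c - e * X 0 - g * X 1) + (b - d - f * X 0 - h * X 1) from fun a b c d e f g h => by ring]
    exact h
  | mul_X p i hp =>
    have hm : aeval (![1, X 0, X 1] : Fin 3 → MvPolynomial (Fin 2) k) p -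
        C (eval (Pi.single 0 1) p) ∈ oz4Max k := by
      have h1 : C (eval (Pi.single 0 1) (pderiv 1 p)) * X 0 ∈ oz4Max k :=
        Ideal.mul_mem_left _ _ oz4_X0_mem
      have h2 : C (eval (Pi.single 0 1) (pderiv 2 p)) * X 1 ∈ oz4Max k :=
        Ideal.mul_mem_left _ _ oz4_X1_mem
      have h3 := Ideal.add_mem _ (Ideal.add_mem _ (Ideal.pow_le_self two_ne_zero hp) h2) h1
      rwa [sub_add_cancel, sub_add_cancel] at h3
    fin_cases i
    · have e1 : pderiv (1 : Fin 3) (p * X 0) = pderiv 1 p * X 0 := by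
        rw [Derivation.leibniz, pderiv_X_of_ne (by decide), smul_zero, zero_add, smul_eq_mul,
          mul_comm]
      have e2 : pderiv (2 : Fin 3) (p * X 0) = pderiv 2 p * X 0 := by
        rw [Derivation.leibniz, pderiv_X_of_ne (by decide), smul_zero, zero_add, smul_eq_mul,
          mul_comm]
      show aeval _ (p * X 0) - C (eval _ (p * X 0)) - C (eval _ (pderiv 1 (p * X 0))) * X 0 -
        C (eval _ (pderiv 2 (p * X 0))) * X 1 ∈ _
      rw [e1, e2]
      simp only [map_mul, aeval_X, eval_X, Pi.single_eq_same, mul_one]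
      simpa using hp
    · have e1 : pderiv (1 : Fin 3) (p * X 1) = p + pderiv 1 p * X 1 := by
        rw [Derivation.leibniz, pderiv_X_self, smul_eq_mul, smul_eq_mul, mul_one, mul_comm (X 1)]
      have e2 : pderiv (2 : Fin 3) (p * X 1) = pderiv 2 p * X 1 := by
        rw [Derivation.leibniz, pderiv_X_of_ne (by decide), smul_zero, zero_add, smul_eq_mul,
          mul_comm]
      show aeval _ (p * X 1) - C (eval _ (p * X 1)) - C (eval _ (pderiv 1 (p * X 1))) * X 0 -
        C (eval _ (pderiv 2 (p * X 1))) * X 1 ∈ _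
      rw [e1, e2]
      have e3 : (Pi.single 0 1 : Fin 3 → k) 1 = 0 := by simp
      simp only [map_mul, map_add, aeval_X, eval_X, e3, mul_zero, map_zero, add_zero, zero_mul,
        sub_zero]
      rw [pow_two]
      have := Ideal.mul_mem_mul hm (oz4_X0_mem (k := k))
      rwa [sub_mul] at this
    · have e1 : pderiv (1 : Fin 3) (p * X 2) = pderiv 1 p * X 2 := by
        rw [Derivation.leibniz, pderiv_X_of_ne (by decide), smul_zero, zero_add, smul_eq_mul,
          mul_comm]
      have e2 : pderiv (2 : Fin 3) (p * X 2) = p + pderiv 2 p * X 2 := by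
        rw [Derivation.leibniz, pderiv_X_self, smul_eq_mul, smul_eq_mul, mul_one, mul_comm (X 2)]
      show aeval _ (p * X 2) - C (eval _ (p * X 2)) - C (eval _ (pderiv 1 (p * X 2))) * X 0 -
        C (eval _ (pderiv 2 (p * X 2))) * X 1 ∈ _
      rw [e1, e2]
      have e3 : (Pi.single 0 1 : Fin 3 → k) 2 = 0 := by simp
      simp only [map_mul, map_add, aeval_X, eval_X, e3, mul_zero, map_zero, add_zero, zero_mul,
        sub_zero]
      rw [pow_two]
      have := Ideal.mul_mem_mul hm (oz4_X1_mem (k := k))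
      rwa [sub_mul] at this

end Poly

section PlaceRing

variable {k K : Type} [Field k] [Field K] [Algebra k K]

/-- The ideal of the elements of valuation at most `ε ^ i`. -/
def oz4J (b : Place k K) (ε : WithZero (Multiplicative ℤ)) (i : ℕ) : Ideal b.ring where
  carrier := {x | b.val (x : K) ≤ ε ^ i}
  add_mem' := fun {x y} hx hy => (b.val.map_add (x : K) (y : K)).trans (max_le hx hy)
  zero_mem' := by
    show b.val ((0 : b.ring) : K) ≤ ε ^ i
    rw [ZeroMemClass.coe_zero, map_zero]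
    exact zero_le
  smul_mem' := fun c x hx => by
    show b.val ((c * x : b.ring) : K) ≤ ε ^ i
    rw [MulMemClass.coe_mul, map_mul]
    have hc : b.val (c : K) ≤ 1 := c.2
    calc b.val (c : K) * b.val (x : K) ≤ 1 * ε ^ i := mul_le_mul' hc hx
      _ = ε ^ i := one_mul _

theorem oz4J_mem (b : Place k K) (ε : WithZero (Multiplicative ℤ)) (i : ℕ) (x : b.ring) :
    x ∈ oz4J b ε i ↔ b.val (x : K) ≤ ε ^ i := Iff.rfl

theorem oz4J_pow (b : Place k K) (ε : WithZero (Multiplicative ℤ)) (N : ℕ) :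
    oz4J b ε 1 ^ N ≤ oz4J b ε N := by
  induction N with
  | zero =>
    intro x _
    rw [oz4J_mem, pow_zero]
    exact x.2
  | succ N ih =>
    rw [pow_succ, Ideal.mul_le]
    intro r hr s hs
    rw [oz4J_mem, MulMemClass.coe_mul, map_mul, pow_succ]
    have h1 := ih hr
    rw [oz4J_mem] at h1 hs
    rw [pow_one] at hs
    exact mul_le_mul' h1 hs

theorem oz4_aeval_mem (b : Place k K) (ε : WithZero (Multiplicative ℤ)) (p : Fin 2 → b.ring)
    (hp : ∀ i, p i ∈ oz4J b ε 1) (N : ℕ) (u : MvPolynomial (Fin 2) k) (hu : u ∈ oz4Max k ^ N) :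
    aeval p u ∈ oz4J b ε N := by
  have h1 : (oz4Max k).map (aeval p : MvPolynomial (Fin 2) k →ₐ[k] b.ring).toRingHom ≤
      oz4J b ε 1 := by
    rw [oz4Max, Ideal.map_span, Ideal.span_le]
    rintro _ ⟨y, hy, rfl⟩
    rcases hy with rfl | hy
    · show aeval p (X 0) ∈ oz4J b ε 1
      rw [aeval_X]
      exact hp 0
    · rw [Set.mem_singleton_iff] at hy
      subst hy
      show aeval p (X 1) ∈ oz4J b ε 1
      rw [aeval_X]
      exact hp 1
  have h2 : (oz4Max k ^ N).map (aeval p : MvPolynomial (Fin 2) k →ₐ[k] b.ring).toRingHom ≤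
      oz4J b ε N := by
    rw [Ideal.map_pow]
    exact (Ideal.pow_right_mono h1 N).trans (oz4J_pow b ε N)
  exact h2 (Ideal.mem_map_of_mem _ hu)

theorem oz4_coe_aeval (b : Place k K) (p : Fin 2 → b.ring) (u : MvPolynomial (Fin 2) k) :
    ((aeval p u : b.ring) : K) = aeval (fun i => ((p i : b.ring) : K)) u := by
  have := MvPolynomial.comp_aeval_apply p b.ring.val u
  exact this

/-- Values of polynomials of given order at small points. -/
theorem oz4_val_le (b : Place k K) {ε : WithZero (Multiplicative ℤ)} (hε : ε ≤ 1)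
    (p : Fin 2 → K) (hp : ∀ i, b.val (p i) ≤ ε) (N : ℕ) (u : MvPolynomial (Fin 2) k)
    (hu : u ∈ oz4Max k ^ N) : b.val (aeval p u) ≤ ε ^ N := by
  set q : Fin 2 → b.ring := fun i => ⟨p i, (hp i).trans hε⟩ with hq
  have h := oz4_aeval_mem b ε q (fun i => by rw [oz4J_mem, pow_one]; exact hp i) N u hu
  rw [oz4J_mem, oz4_coe_aeval] at h
  exact h

/-- The main estimate. -/
theorem oz4_small [CharZero k] (b : Place k K) {ε : WithZero (Multiplicative ℤ)} (hε : ε ≤ 1)
    (p : ℕ → Fin 2 → K) (hp : ∀ n i, b.val (p n i) ≤ ε) (G : Fin 3 → MvPolynomial (Fin 2) k)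
    (h0 : G 0 - 1 ∈ oz4Max k) (h1 : G 1 - X 0 ∈ oz4Max k ^ 2) (h2 : G 2 ∈ oz4Max k ^ 2)
    (hs0 : ∀ n, aeval (p n) (G 0) * p (n + 1) 0 = aeval (p n) (G 1))
    (hs1 : ∀ n, aeval (p n) (G 0) * p (n + 1) 1 = aeval (p n) (G 2))
    {ι : Type*} (S : Finset ι) (a : ι → K) (ha : ∀ i, b.val (a i) ≤ 1)
    (u : ι → MvPolynomial (Fin 2) k)
    (hinf : {n | ∑ i ∈ S, a i * aeval (p n) (u i) = 0}.Infinite) (N n : ℕ) (hn : N ≤ n) :
    b.val (∑ i ∈ S, a i * aeval (p n) (u i)) ≤ ε ^ N := by
  set q : ℕ → Fin 2 → b.ring := fun n i => ⟨p n i, (hp n i).trans hε⟩ with hq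
  have hqJ : ∀ n i, q n i ∈ oz4J b ε 1 := fun n i => by
    rw [oz4J_mem, pow_one]; exact hp n i
  set π : b.ring →ₐ[k] b.ring ⧸ oz4J b ε N := Ideal.Quotient.mkₐ k (oz4J b ε N) with hπ
  have hπ0 : ∀ x : b.ring, π x = 0 ↔ x ∈ oz4J b ε N := fun x =>
    Ideal.Quotient.eq_zero_iff_mem
  set p' : ℕ → Fin 2 → b.ring ⧸ oz4J b ε N := fun n i => π (q n i) with hp'
  have hev : ∀ n u, aeval (p' n) u = π (aeval (q n) u) := fun n u =>
    (MvPolynomial.comp_aeval_apply (q n) π u).symm
  have hcoe : ∀ n u, ((aeval (q n) u : b.ring) : K) = aeval (p n) u := fun n u =>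
    oz4_coe_aeval b (q n) u
  have key : ∀ i n, oz4Seq^[N] (fun n => aeval (p' n) (u i)) n = 0 := by
    intro i n
    refine oz4_seq_zero p' N (fun n v hv => ?_) G h0 h1 h2 (fun n => ?_) (fun n => ?_) (u i) n
    · rw [hev, hπ0]
      exact oz4_aeval_mem b ε (q n) (hqJ n) N v hv
    · rw [hev, hev, hp', ← map_mul]
      congr 1
      apply Subtype.ext
      rw [MulMemClass.coe_mul, hcoe, hcoe]
      exact hs0 n
    · rw [hev, hev, hp', ← map_mul]
      congr 1
      apply Subtype.ext
      rw [MulMemClass.coe_mul, hcoe, hcoe]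
      exact hs1 n
  set a' : ι → b.ring := fun i => ⟨a i, ha i⟩ with ha'
  set w : ℕ → b.ring := fun n => ∑ i ∈ S, a' i * aeval (q n) (u i) with hw
  have hwc : ∀ n, ((w n : b.ring) : K) = ∑ i ∈ S, a i * aeval (p n) (u i) := by
    intro n
    have h3 : ((w n : b.ring) : K) = b.ring.val (w n) := rfl
    rw [h3, hw, map_sum]
    refine Finset.sum_congr rfl fun i _ => ?_
    rw [map_mul]
    show a i * ((aeval (q n) (u i) : b.ring) : K) = _
    rw [hcoe]
  have hws : ∀ n, π (w n) = ∑ i ∈ S, π (a' i) * aeval (p' n) (u i) := by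
    intro n
    rw [hw, map_sum]
    refine Finset.sum_congr rfl fun i _ => ?_
    rw [map_mul, hev]
  have h5 : ∀ n, oz4Seq^[N] (fun n => π (w n)) n = 0 := by
    intro n
    have h6 : (fun n => π (w n)) = fun n => ∑ i ∈ S, π (a' i) * aeval (p' n) (u i) := funext hws
    rw [h6, oz4_seq_sum]
    refine Finset.sum_eq_zero fun i _ => ?_
    rw [key, mul_zero]
  have h7 : {n | π (w n) = 0}.Infinite := by
    refine hinf.mono fun n hn => ?_
    have h8 : w n = 0 := Subtype.ext (by rw [hwc]; exact hn)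
    show π (w n) = 0
    rw [h8, map_zero]
  have h9 := oz4_newton (k := k) N (fun n => π (w n)) h5 h7 n hn
  have h10 := (hπ0 _).1 h9
  rw [oz4J_mem, hwc] at h10
  exact h10

end PlaceRing

theorem oz4_step_smul {k L : Type} [Field k] [Field L] [Algebra k L] {d : ℕ}
    {F : Fin 3 → MvPolynomial (Fin 3) k} (hF : IsEndo d F) (c : L) (x : Fin 3 → L) :
    step F (c • x) = c ^ d • step F x := by
  funext i
  exact aeval_smul_homogeneous (hF.hom i) c x

theorem oz4_iter_smul {k L : Type} [Field k] [Field L] [Algebra k L] {d : ℕ}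
    {F : Fin 3 → MvPolynomial (Fin 3) k} (hF : IsEndo d F) (c : L) (x : Fin 3 → L) (n : ℕ) :
    iter F (c • x) n = c ^ d ^ n • iter F x n := by
  induction n with
  | zero => simp [iter_zero]
  | succ n ih => rw [iter_succ, ih, oz4_step_smul hF, iter_succ, ← pow_mul, ← pow_succ]

theorem oz4_eval_smul {L : Type} [Field L] {P : MvPolynomial (Fin 3) L} {e : ℕ}
    (hP : P.IsHomogeneous e) (c : L) (x : Fin 3 → L) :
    eval (c • x) P = c ^ e * eval x P := by
  have h := aeval_smul_homogeneous hP c x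
  have h1 := congrArg (fun φ => φ P) (coe_aeval_eq_eval (c • x))
  have h2 := congrArg (fun φ => φ P) (coe_aeval_eq_eval x)
  exact h1.symm.trans (h.trans (congrArg (fun a => c ^ e * a) h2))

section Dyn

variable {k K : Type} [Field k] [Field K] [Algebra k K]

/-- The components of the map in the affine chart. -/
noncomputable def oz4G (F : Fin 3 → MvPolynomial (Fin 3) k) (i : Fin 3) : MvPolynomial (Fin 2) k :=
  aeval (![1, X 0, X 1] : Fin 3 → MvPolynomial (Fin 2) k) (F i)

theorem oz4_G0 {F : Fin 3 → MvPolynomial (Fin 3) k} {μ : k} (hn : Normal F μ) :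
    oz4G F 0 - 1 ∈ oz4Max k := by
  have h := Ideal.pow_le_self two_ne_zero (oz4_taylor (F 0))
  have h2 : C (eval (Pi.single 0 1) (pderiv 1 (F 0))) * X 0 ∈ oz4Max k :=
    Ideal.mul_mem_left _ _ oz4_X0_mem
  have h3 : C (eval (Pi.single 0 1) (pderiv 2 (F 0))) * X 1 ∈ oz4Max k :=
    Ideal.mul_mem_left _ _ oz4_X1_mem
  have h4 := Ideal.add_mem _ (Ideal.add_mem _ h h3) h2
  rw [sub_add_cancel, sub_add_cancel, hn.fix 0, Pi.single_eq_same, C_1] at h4
  exact h4

theorem oz4_G1 {F : Fin 3 → MvPolynomial (Fin 3) k} (hn : Normal F (1 : k)) :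
    oz4G F 1 - X 0 ∈ oz4Max k ^ 2 := by
  have h := oz4_taylor (F 1)
  have h1 : eval (Pi.single 0 1) (pderiv 1 (F 1)) = 1 := hn.j11
  have h2 : eval (Pi.single 0 1) (pderiv 2 (F 1)) = 0 := hn.j12
  have h3 : eval (Pi.single 0 1) (F 1) = 0 := by
    rw [hn.fix 1]; simp
  rw [h1, h2, h3, C_0, C_1, sub_zero, one_mul, zero_mul, sub_zero] at h
  exact h

theorem oz4_G2 {F : Fin 3 → MvPolynomial (Fin 3) k} {μ : k} (hn : Normal F μ) :
    oz4G F 2 ∈ oz4Max k ^ 2 := by
  have h := oz4_taylor (F 2)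
  have h1 : eval (Pi.single 0 1) (pderiv 1 (F 2)) = 0 := hn.j21
  have h2 : eval (Pi.single 0 1) (pderiv 2 (F 2)) = 0 := hn.j22
  have h3 : eval (Pi.single 0 1) (F 2) = 0 := by
    rw [hn.fix 2]; simp
  rw [h1, h2, h3, C_0, sub_zero, zero_mul, sub_zero, zero_mul, sub_zero] at h
  exact h

/-- Composition with the chart. -/
theorem oz4_chart {L : Type*} [Field L] [Algebra k L] (p : Fin 2 → L)
    (P : MvPolynomial (Fin 3) k) :
    aeval p (aeval (![1, X 0, X 1] : Fin 3 → MvPolynomial (Fin 2) k) P) =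
      aeval (![1, p 0, p 1] : Fin 3 → L) P := by
  have : (aeval p).comp (aeval (![1, X 0, X 1] : Fin 3 → MvPolynomial (Fin 2) k)) =
      aeval (![1, p 0, p 1] : Fin 3 → L) := by
    apply MvPolynomial.algHom_ext
    intro i
    rw [AlgHom.comp_apply, aeval_X, aeval_X]
    fin_cases i
    · show aeval p (1 : MvPolynomial (Fin 2) k) = 1
      exact map_one _
    · show aeval p (X 0 : MvPolynomial (Fin 2) k) = p 0
      exact aeval_X _ _
    · show aeval p (X 1 : MvPolynomial (Fin 2) k) = p 1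
      exact aeval_X _ _
  exact congrArg (fun φ => φ P) this

/-- The affine coordinates. -/
noncomputable def oz4p (u : Fin 3 → K) : Fin 2 → K := ![u 1 / u 0, u 2 / u 0]

theorem oz4_eq_smul (u : Fin 3 → K) (hu : u 0 ≠ 0) :
    u = u 0 • (![1, oz4p u 0, oz4p u 1] : Fin 3 → K) := by
  funext i
  fin_cases i
  · show u 0 = u 0 * 1
    rw [mul_one]
  · show u 1 = u 0 * (u 1 / u 0)
    rw [mul_div_cancel₀ _ hu]
  · show u 2 = u 0 * (u 2 / u 0)
    rw [mul_div_cancel₀ _ hu]

theorem oz4_step {d : ℕ} {F : Fin 3 → MvPolynomial (Fin 3) k} (hF : IsEndo d F)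
    (u : Fin 3 → K) (hu : u 0 ≠ 0) (i : Fin 3) :
    step F u i = u 0 ^ d * aeval (oz4p u) (oz4G F i) := by
  have h1 : step F u = step F (u 0 • (![1, oz4p u 0, oz4p u 1] : Fin 3 → K)) := by
    rw [← oz4_eq_smul u hu]
  rw [h1, oz4_step_smul hF, Pi.smul_apply, smul_eq_mul]
  congr 1
  rw [oz4G, oz4_chart]
  rfl

theorem oz4_dyn {d : ℕ} {F : Fin 3 → MvPolynomial (Fin 3) k} (hF : IsEndo d F)
    (hn : Normal F (1 : k)) (x : Fin 3 → K) (b : Place k K) {ε : WithZero (Multiplicative ℤ)}
    (hε0 : ε ≠ 0) (hε : ε < 1) (hx0 : x 0 ≠ 0) (h1 : b.val (x 1 / x 0) = ε)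
    (h2 : b.val (x 2 / x 0) ≤ ε) (n : ℕ) :
    iter F x n 0 ≠ 0 ∧ b.val (oz4p (iter F x n) 0) = ε ∧ b.val (oz4p (iter F x n) 1) ≤ ε := by
  have hεε : ε ^ 2 < ε := by
    rw [pow_two]
    calc ε * ε < ε * 1 := by
          exact (mul_lt_mul_iff_right₀ (zero_lt_iff.2 hε0)).2 hε
      _ = ε := mul_one _
  induction n with
  | zero => exact ⟨hx0, h1, h2⟩
  | succ n ih =>
    obtain ⟨i0, i1, i2⟩ := ih
    set u := iter F x n with hu
    have hp : ∀ i, b.val (oz4p u i) ≤ ε := by
      intro i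
      fin_cases i
      · exact i1.le
      · exact i2
    have g0 : b.val (aeval (oz4p u) (oz4G F 0) - 1) ≤ ε := by
      have := oz4_val_le b hε.le (oz4p u) hp 1 (oz4G F 0 - 1) (by rw [pow_one]; exact oz4_G0 hn)
      rwa [map_sub, map_one, pow_one] at this
    have g1 : b.val (aeval (oz4p u) (oz4G F 1) - oz4p u 0) ≤ ε ^ 2 := by
      have := oz4_val_le b hε.le (oz4p u) hp 2 (oz4G F 1 - X 0) (oz4_G1 hn)
      rwa [map_sub, aeval_X] at this
    have g2 : b.val (aeval (oz4p u) (oz4G F 2)) ≤ ε ^ 2 :=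
      oz4_val_le b hε.le (oz4p u) hp 2 (oz4G F 2) (oz4_G2 hn)
    have v0 : b.val (aeval (oz4p u) (oz4G F 0)) = 1 := by
      have h3 : b.val (aeval (oz4p u) (oz4G F 0) - 1) < b.val (1 : K) := by
        rw [map_one]; exact g0.trans_lt hε
      have := Valuation.map_add_eq_of_lt_left b.val h3
      rwa [add_sub_cancel, map_one] at this
    have v1 : b.val (aeval (oz4p u) (oz4G F 1)) = ε := by
      have h3 : b.val (aeval (oz4p u) (oz4G F 1) - oz4p u 0) < b.val (oz4p u 0) := by
        rw [i1]; exact g1.trans_lt hεε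
      have := Valuation.map_add_eq_of_lt_left b.val h3
      rwa [add_sub_cancel, i1] at this
    have a0 : aeval (oz4p u) (oz4G F 0) ≠ 0 := by
      intro h; rw [h, map_zero] at v0; exact zero_ne_one v0
    have hd0 : u 0 ^ d ≠ 0 := pow_ne_zero _ i0
    have s : ∀ i, iter F x (n + 1) i = u 0 ^ d * aeval (oz4p u) (oz4G F i) := by
      intro i
      rw [iter_succ]
      exact oz4_step hF u i0 i
    have q0 : oz4p (iter F x (n + 1)) 0 =
        aeval (oz4p u) (oz4G F 1) / aeval (oz4p u) (oz4G F 0) := by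
      show iter F x (n + 1) 1 / iter F x (n + 1) 0 = _
      rw [s 1, s 0, mul_div_mul_left _ _ hd0]
    have q1 : oz4p (iter F x (n + 1)) 1 =
        aeval (oz4p u) (oz4G F 2) / aeval (oz4p u) (oz4G F 0) := by
      show iter F x (n + 1) 2 / iter F x (n + 1) 0 = _
      rw [s 2, s 0, mul_div_mul_left _ _ hd0]
    refine ⟨?_, ?_, ?_⟩
    · rw [s 0]
      exact mul_ne_zero hd0 a0
    · rw [q0, map_div₀, v0, v1, div_one]
    · rw [q1, map_div₀, v0, div_one]
      exact g2.trans hεε.le

end Dyn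

/-- Descent of divisibility from an extension field. -/
theorem oz4_dvd_descent {K K' : Type} [Field K] [Field K'] [Algebra K K']
    (g h : MvPolynomial (Fin 3) K) (hd : map (algebraMap K K') g ∣ map (algebraMap K K') h) :
    g ∣ h := by
  classical
  obtain ⟨q, hq⟩ := hd
  obtain ⟨l, hl⟩ : ∃ l : K' →ₗ[K] K, l 1 = 1 := by
    obtain ⟨l, hl⟩ := Module.Projective.exists_dual_ne_zero K (x := (1 : K')) one_ne_zero
    refine ⟨(l 1)⁻¹ • l, ?_⟩
    rw [LinearMap.smul_apply, smul_eq_mul, inv_mul_cancel₀ hl]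
  set q' : MvPolynomial (Fin 3) K := ∑ m ∈ q.support, monomial m (l (q.coeff m)) with hq'
  have hc : ∀ m, q'.coeff m = l (q.coeff m) := by
    intro m
    rw [hq', coeff_sum]
    simp only [coeff_monomial]
    rw [Finset.sum_ite_eq' q.support m]
    split_ifs with hm
    · rfl
    · rw [notMem_support_iff.1 hm, map_zero]
  refine ⟨q', ?_⟩
  ext m
  have h1 := congrArg (coeff m) hq
  rw [coeff_map, coeff_mul] at h1
  have h2 := congrArg l h1
  rw [map_sum, ← mul_one (algebraMap K K' (coeff m h)), ← Algebra.smul_def, map_smul, hl,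
    smul_eq_mul, mul_one] at h2
  rw [h2, coeff_mul]
  refine Finset.sum_congr rfl fun i _ => ?_
  rw [coeff_map, ← Algebra.smul_def, map_smul, smul_eq_mul, hc]

section Limit

variable {k K : Type} [Field k] [Field K] [Algebra k K]

/-- Constant sequences. -/
def oz4Const (b : Place k K) (W : Ultrafilter ℕ) : K →+* bddSub b W where
  toFun c := ⟨fun _ => c, const_mem_bddSub b W c⟩
  map_one' := rfl
  map_mul' _ _ := rfl
  map_zero' := rfl
  map_add' _ _ := rfl

theorem oz4_mem_bdd (b : Place k K) (W : Ultrafilter ℕ) (u : ℕ → K) (h : ∀ n, b.val (u n) ≤ 1) :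
    u ∈ bddSub b W :=
  ⟨0, Filter.Eventually.of_forall fun n => by
    rw [Nat.cast_zero, WithZero.exp_zero]; exact h n⟩

/-- The shifted sequences. -/
def oz4S (b : Place k K) (W : Ultrafilter ℕ) (Q : ℕ → Fin 3 → K) (hQ : ∀ n i, b.val (Q n i) ≤ 1)
    (j : ℕ) (i : Fin 3) : bddSub b W :=
  ⟨fun n => Q (n + j) i, oz4_mem_bdd b W _ fun n => hQ (n + j) i⟩

theorem oz4_eval_seq (b : Place k K) (W : Ultrafilter ℕ) (Q : ℕ → Fin 3 → K)
    (hQ : ∀ n i, b.val (Q n i) ≤ 1) (j : ℕ) (P : MvPolynomial (Fin 3) K) (n : ℕ) :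
    (eval₂ (oz4Const b W) (oz4S b W Q hQ j) P).1 n = eval (Q (n + j)) P := by
  set e : bddSub b W →+* K := (Pi.evalRingHom (fun _ : ℕ => K) n).comp (bddSub b W).subtype
    with he
  have h1 : (eval₂ (oz4Const b W) (oz4S b W Q hQ j) P).1 n =
      e (eval₂ (oz4Const b W) (oz4S b W Q hQ j) P) := rfl
  rw [h1, hom_eval₂]
  rfl

end Limit

theorem one_zero_one {k K : Type} [Field k] [IsAlgClosed k] [CharZero k] [Field K] [Algebra k K]
    (hK : IsFunctionField k K) {d : ℕ} {F : Fin 3 → MvPolynomial (Fin 3) k} (hF : IsEndo d F)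
    (hn : Normal F 1) (x : Fin 3 → K) (hx : x ≠ 0) (hxc : ¬ IsConst k x) (b : Place k K)
    (hred : Red b x (Pi.single 0 1))
    (hcase : b.val (x 2) ≤ b.val (x 1))
    {g : MvPolynomial (Fin 3) K} {D : ℕ} (hg : g.IsHomogeneous D)
    (hirr : ∀ (K' : Type) [Field K'] [Algebra K K'], Irreducible (map (algebraMap K K') g))
    (hS : {n | eval (iter F x n) g = 0}.Infinite) : OverK k g := by
  classical
  -- the start
  obtain ⟨-, c, hc, hcz⟩ := hred
  have hc0 : b.val (c * x 0) = 1 := by
    have h1 := hcz 0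
    rw [Pi.single_eq_same, map_one] at h1
    have h2 : b.val (c * x 0 - 1) < b.val (1 : K) := by rw [map_one]; exact h1
    have := Valuation.map_add_eq_of_lt_left b.val h2
    rwa [add_sub_cancel, map_one] at this
  have hx0 : x 0 ≠ 0 := by
    intro h; rw [h, mul_zero, map_zero] at hc0; exact zero_ne_one hc0
  have hdiv : ∀ i, x i / x 0 = (c * x i) / (c * x 0) := fun i => by
    rw [mul_div_mul_left _ _ hc]
  set ε : WithZero (Multiplicative ℤ) := b.val (x 1 / x 0) with hεdef
  have hε : ε < 1 := by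
    rw [hεdef, hdiv, map_div₀, hc0, div_one]
    have h1 := hcz 1
    rwa [Pi.single_eq_of_ne (by decide), map_zero, sub_zero] at h1
  have h2 : b.val (x 2 / x 0) ≤ ε := by
    rw [hεdef, map_div₀, map_div₀]
    exact div_le_div_of_nonneg_right hcase zero_le
  have hε0 : ε ≠ 0 := by
    intro h0
    apply hxc
    have e1 : x 1 = 0 := by
      rw [hεdef, (b.val).zero_iff, div_eq_zero_iff] at h0
      exact h0.resolve_right hx0
    have e2 : x 2 = 0 := by
      rw [e1, map_zero] at hcase
      exact (b.val).zero_iff.1 (le_antisymm hcase zero_le)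
    refine ⟨Pi.single 0 1, x 0, hx0, ?_⟩
    funext i
    fin_cases i
    · simp
    · simpa using e1
    · simpa using e2
  have dyn := oz4_dyn hF hn x b hε0 hε hx0 rfl h2
  set X : ℕ → Fin 3 → K := fun n => iter F x n with hX
  set p : ℕ → Fin 2 → K := fun n => oz4p (iter F x n) with hp
  have hpε : ∀ n i, b.val (p n i) ≤ ε := by
    intro n i
    fin_cases i
    · exact (dyn n).2.1.le
    · exact (dyn n).2.2
  -- values of polynomials in the chart
  set Q : ℕ → Fin 3 → K := fun n => ![1, p n 0, p n 1] with hQdef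
  have hQ1 : ∀ n i, b.val (Q n i) ≤ 1 := by
    intro n i
    fin_cases i
    · show b.val 1 ≤ 1
      rw [map_one]
    · exact (hpε n 0).trans hε.le
    · exact (hpε n 1).trans hε.le
  have hXQ : ∀ n, iter F x n = iter F x n 0 • Q n := fun n => oz4_eq_smul _ (dyn n).1
  have hval0 : ∀ n, b.val (aeval (p n) (oz4G F 0)) = 1 := by
    intro n
    have g0 := oz4_val_le b hε.le (p n) (hpε n) 1 (oz4G F 0 - 1) (by rw [pow_one]; exact oz4_G0 hn)
    rw [map_sub, map_one, pow_one] at g0
    have h3 : b.val (aeval (p n) (oz4G F 0) - 1) < b.val (1 : K) := by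
      rw [map_one]; exact g0.trans_lt hε
    have := Valuation.map_add_eq_of_lt_left b.val h3
    rwa [add_sub_cancel, map_one] at this
  have ha0 : ∀ n, aeval (p n) (oz4G F 0) ≠ 0 := fun n h => by
    have := hval0 n
    rw [h, map_zero] at this
    exact zero_ne_one this
  have hstepQ : ∀ n i, aeval (p n) (oz4G F i) = aeval (p n) (oz4G F 0) * Q (n + 1) i := by
    intro n i
    have hd0 : iter F x n 0 ^ d ≠ 0 := pow_ne_zero _ (dyn n).1
    have s : ∀ i, iter F x (n + 1) i = iter F x n 0 ^ d * aeval (p n) (oz4G F i) := by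
      intro i
      rw [iter_succ]
      exact oz4_step hF _ (dyn n).1 i
    have h3 := congrFun (hXQ (n + 1)) i
    rw [Pi.smul_apply, smul_eq_mul, s i, s 0, mul_assoc] at h3
    exact mul_left_cancel₀ hd0 h3
  -- scaling of `g`
  obtain ⟨a, ha, hag⟩ : ∃ a : K, a ≠ 0 ∧ ∀ m, b.val (a * coeff m g) ≤ 1 := by
    by_cases hM : gs b g = 0
    · refine ⟨1, one_ne_zero, fun m => ?_⟩
      rw [one_mul]
      by_cases hm : m ∈ g.support
      · have : b.val (coeff m g) ≤ gs b g := Finset.le_sup (f := fun m => b.val (coeff m g)) hm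
        rw [hM] at this
        exact this.trans zero_le_one
      · rw [notMem_support_iff.1 hm, map_zero]
        exact zero_le_one
    · obtain ⟨a, ha⟩ := b.surj (gs b g)⁻¹
      refine ⟨a, ?_, fun m => ?_⟩
      · intro h
        rw [h, map_zero] at ha
        exact hM (inv_eq_zero.1 ha.symm)
      · rw [map_mul, ha]
        by_cases hm : m ∈ g.support
        · have h3 : b.val (coeff m g) ≤ gs b g := Finset.le_sup (f := fun m => b.val (coeff m g)) hm
          calc (gs b g)⁻¹ * b.val (coeff m g) ≤ (gs b g)⁻¹ * gs b g := mul_le_mul' le_rfl h3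
            _ = 1 := inv_mul_cancel₀ hM
        · rw [notMem_support_iff.1 hm, map_zero, mul_zero]
          exact zero_le_one
  have hsum : ∀ n, ∑ m ∈ g.support, (a * coeff m g) *
      aeval (p n) (aeval (![1, MvPolynomial.X 0, MvPolynomial.X 1] : Fin 3 → MvPolynomial (Fin 2) k)
        (monomial m (1 : k))) = a * eval (Q n) g := by
    intro n
    rw [eval_eq, Finset.mul_sum]
    refine Finset.sum_congr rfl fun m _ => ?_
    rw [oz4_chart, aeval_monomial, map_one, one_mul, mul_assoc]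
    rfl
  have hQX : ∀ n, eval (Q n) g = 0 ↔ eval (iter F x n) g = 0 := by
    intro n
    have h3 : eval (iter F x n) g = iter F x n 0 ^ D * eval (Q n) g := by
      rw [← oz4_eval_smul hg, ← hXQ n]
    rw [h3, mul_eq_zero]
    exact ⟨fun h => Or.inr h, fun h => h.resolve_left (pow_ne_zero _ (dyn n).1)⟩
  have hsmall : ∀ N n, N ≤ n → b.val (a * eval (Q n) g) ≤ ε ^ N := by
    intro N n hNn
    rw [← hsum n]
    refine oz4_small b hε.le p hpε (oz4G F) (oz4_G0 hn) (oz4_G1 hn) (oz4_G2 hn) (fun n => ?_)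
      (fun n => ?_) g.support (fun m => a * coeff m g) hag _ ?_ N n hNn
    · exact (hstepQ n 1).symm
    · exact (hstepQ n 2).symm
    · refine hS.mono fun n hn => ?_
      show ∑ m ∈ g.support, (a * coeff m g) * aeval (p n) _ = 0
      rw [hsum n, (hQX n).2 hn, mul_zero]
  -- the exponent of `ε`
  obtain ⟨e, he⟩ : ∃ e : ℕ, WithZero.exp (-(e : ℤ)) = ε ∧ 0 < e := by
    have h3 : WithZero.exp (WithZero.log ε) = ε := WithZero.exp_log hε0
    have h4 : WithZero.log ε < 0 := by
      have : WithZero.exp (WithZero.log ε) < WithZero.exp 0 := by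
        rw [h3, WithZero.exp_zero]; exact hε
      exact WithZero.exp_lt_exp.1 this
    refine ⟨(-WithZero.log ε).toNat, ?_, ?_⟩
    · rw [Int.toNat_of_nonneg (by omega), neg_neg, h3]
    · omega
  -- the limit field
  set W : Ultrafilter ℕ := Filter.hyperfilter ℕ with hW
  have hWfree : ∀ m : ℕ, ∀ᶠ n in (W : Filter ℕ), m ≤ n := by
    intro m
    apply Filter.hyperfilter_le_cofinite
    show {n | m ≤ n}ᶜ.Finite
    refine (Set.finite_lt_nat m).subset fun n hn => ?_
    have hn' : ¬ m ≤ n := hn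
    show n < m
    omega
  obtain ⟨K', iF, iA, ρ, hρc, hρ0⟩ := exists_limit_field b W
  let _ := iF
  let _ := iA
  let algk : Algebra k K' := ((algebraMap K K').comp (algebraMap k K)).toAlgebra
  have hρconst : ρ.comp (oz4Const b W) = algebraMap K K' := RingHom.ext fun c => hρc c
  set y : ℕ → Fin 3 → K' := fun j i => ρ (oz4S b W Q hQ1 j i) with hy
  have hevy : ∀ j (P : MvPolynomial (Fin 3) K), eval (y j) (map (algebraMap K K') P) =
      ρ (eval₂ (oz4Const b W) (oz4S b W Q hQ1 j) P) := by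
    intro j P
    rw [eval_map, hom_eval₂, hρconst]
  have hy1 : ∀ j, y j 0 = 1 := by
    intro j
    have : oz4S b W Q hQ1 j 0 = 1 := Subtype.ext (funext fun n => rfl)
    rw [hy]
    show ρ (oz4S b W Q hQ1 j 0) = 1
    rw [this, map_one]
  -- `g` vanishes at `y j`
  have hgy : ∀ j, eval (y j) (map (algebraMap K K') g) = 0 := by
    intro j
    have h3 : algebraMap K K' a * eval (y j) (map (algebraMap K K') g) = 0 := by
      have h4 : algebraMap K K' a * eval (y j) (map (algebraMap K K') g) =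
          eval (y j) (map (algebraMap K K') (C a * g)) := by
        rw [map_mul (map (algebraMap K K')), map_C, map_mul (eval (y j)), eval_C]
      rw [h4, hevy, hρ0]
      intro N
      filter_upwards [hWfree (N + 1)] with n hn
      rw [oz4_eval_seq, map_mul, eval_C]
      refine (hsmall (N + 1) (n + j) (by omega)).trans_lt ?_
      rw [← he.1, ← WithZero.exp_nsmul, WithZero.exp_lt_exp, nsmul_eq_mul]
      push_cast
      have : (0 : ℤ) < e := by exact_mod_cast he.2
      nlinarith
    have h5 : algebraMap K K' a ≠ 0 := by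
      rw [Ne, map_eq_zero]
      exact ha
    exact (mul_eq_zero.1 h3).resolve_left h5
  -- the dynamics of `y`
  have hFy : ∀ j, ∃ c : K', c ≠ 0 ∧ step F (y j) = c • y (j + 1) := by
    intro j
    have h3 : ∀ i, step F (y j) i =
        ρ (eval₂ (oz4Const b W) (oz4S b W Q hQ1 j) (map (algebraMap k K) (F i))) := by
      intro i
      rw [← hevy, map_map, eval_map]
      rfl
    have h4 : ∀ i n, (eval₂ (oz4Const b W) (oz4S b W Q hQ1 j) (map (algebraMap k K) (F i))).1 n =
        aeval (p (n + j)) (oz4G F 0) * Q (n + j + 1) i := by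
      intro i n
      rw [oz4_eval_seq, eval_map, ← hstepQ, oz4G, oz4_chart]
      rfl
    have h5 : ∀ i, eval₂ (oz4Const b W) (oz4S b W Q hQ1 j) (map (algebraMap k K) (F i)) =
        eval₂ (oz4Const b W) (oz4S b W Q hQ1 j) (map (algebraMap k K) (F 0)) *
          oz4S b W Q hQ1 (j + 1) i := by
      intro i
      apply Subtype.ext
      funext n
      rw [h4 i n]
      show _ = (eval₂ (oz4Const b W) (oz4S b W Q hQ1 j) (map (algebraMap k K) (F 0))).1 n *
        Q (n + (j + 1)) i
      rw [h4 0 n]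
      show _ = aeval (p (n + j)) (oz4G F 0) * 1 * Q (n + (j + 1)) i
      rw [mul_one, add_assoc]
    refine ⟨ρ (eval₂ (oz4Const b W) (oz4S b W Q hQ1 j) (map (algebraMap k K) (F 0))), ?_, ?_⟩
    · intro h6
      rw [hρ0] at h6
      obtain ⟨n, hn⟩ := (h6 0).exists
      rw [h4 0 n] at hn
      have h7 : b.val (aeval (p (n + j)) (oz4G F 0) * Q (n + j + 1) 0) = 1 := by
        show b.val (aeval (p (n + j)) (oz4G F 0) * 1) = 1
        rw [mul_one]
        exact hval0 _
      rw [h7, Nat.cast_zero, neg_zero, WithZero.exp_zero] at hn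
      exact lt_irrefl _ hn
    · funext i
      rw [h3 i, h5 i, map_mul, Pi.smul_apply, smul_eq_mul]
  have hiter : ∀ j, ∃ c : K', c ≠ 0 ∧ iter F (y 0) j = c • y j := by
    intro j
    induction j with
    | zero => exact ⟨1, one_ne_zero, by rw [one_smul]; rfl⟩
    | succ j ih =>
      obtain ⟨c, hc, h⟩ := ih
      obtain ⟨c', hc', h'⟩ := hFy j
      refine ⟨c ^ d * c', mul_ne_zero (pow_ne_zero _ hc) hc', ?_⟩
      rw [iter_succ, h, oz4_step_smul hF, h', smul_smul]
  have hyne : ∀ j, y j ≠ 0 := by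
    intro j h
    have := congrFun h 0
    rw [hy1 j] at this
    exact one_ne_zero this
  have hynotconst : ¬ IsConst k (y 0) := by
    rintro ⟨z, c, hc, hz⟩
    have h0 : c * algebraMap k K' (z 0) = 1 := by
      rw [← hy1 0, hz]
    have hz0 : z 0 ≠ 0 := by
      intro h; rw [h, map_zero, mul_zero] at h0; exact zero_ne_one h0
    have h1 : y 0 1 = algebraMap K K' (algebraMap k K (z 1 / z 0)) := by
      have h3 : c = (algebraMap k K' (z 0))⁻¹ := eq_inv_of_mul_eq_one_left h0
      have h4 : y 0 1 = c * algebraMap k K' (z 1) := by rw [hz]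
      have h5 : algebraMap K K' (algebraMap k K (z 1 / z 0)) = algebraMap k K' (z 1 / z 0) := rfl
      rw [h4, h3, h5, map_div₀, div_eq_inv_mul]
    have h2 : ρ (oz4S b W Q hQ1 0 1 - oz4Const b W (algebraMap k K (z 1 / z 0))) = 0 := by
      rw [map_sub]
      have h6 : ρ (oz4Const b W (algebraMap k K (z 1 / z 0))) =
          algebraMap K K' (algebraMap k K (z 1 / z 0)) := hρc _
      rw [h6, ← h1]
      exact sub_self _
    rw [hρ0] at h2
    by_cases hα : z 1 / z 0 = 0
    · obtain ⟨n, hn⟩ := (h2 e).exists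
      have h7 : b.val ((oz4S b W Q hQ1 0 1 - oz4Const b W (algebraMap k K (z 1 / z 0))).1 n) = ε := by
        rw [hα, map_zero]
        show b.val (Q (n + 0) 1 - 0) = ε
        rw [sub_zero]
        exact (dyn (n + 0)).2.1
      rw [h7, he.1] at hn
      exact lt_irrefl _ hn
    · obtain ⟨n, hn⟩ := (h2 0).exists
      have h7 : b.val ((oz4S b W Q hQ1 0 1 - oz4Const b W (algebraMap k K (z 1 / z 0))).1 n) = 1 := by
        show b.val (Q (n + 0) 1 - algebraMap k K (z 1 / z 0)) = 1
        have h8 : b.val (algebraMap k K (z 1 / z 0)) = 1 := b.triv _ hα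
        have h9 : b.val (Q (n + 0) 1) < b.val (algebraMap k K (z 1 / z 0)) := by
          rw [h8]
          exact ((hpε (n + 0) 0).trans_lt hε)
        rw [Valuation.map_sub_eq_of_lt_right b.val h9, h8]
      rw [h7, Nat.cast_zero, neg_zero, WithZero.exp_zero] at hn
      exact lt_irrefl _ hn
  have hdist : ∀ i j, i ≠ j → ¬ PEq (y i) (y j) := by
    have hlt : ∀ i j, i < j → ¬ PEq (y i) (y j) := by
      intro i j hij hP
      apply hynotconst
      refine isConst_of_preper_general hF (y 0) (hyne 0) ⟨i, j, hij, ?_⟩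
      obtain ⟨ci, hci, hi⟩ := hiter i
      obtain ⟨cj, hcj, hj⟩ := hiter j
      obtain ⟨c, hc, hyc⟩ := hP
      refine ⟨cj * c * ci⁻¹, mul_ne_zero (mul_ne_zero hcj hc) (inv_ne_zero hci), ?_⟩
      rw [hi, hj, hyc, smul_smul, smul_smul, mul_assoc, inv_mul_cancel₀ hci, mul_one]
    intro i j hij hP
    rcases lt_or_gt_of_ne hij with h | h
    · exact hlt i j h hP
    · obtain ⟨c, hc, hyc⟩ := hP
      exact hlt j i h ⟨c⁻¹, inv_ne_zero hc, by rw [hyc, smul_smul, inv_mul_cancel₀ hc, one_smul]⟩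
  -- the form divides its composition
  have hcomph : (comp F g).IsHomogeneous (d * D) := by
    unfold comp
    rw [aeval_def, eval₂_eq]
    apply IsHomogeneous.sum
    intro m hm
    have h1 : ((algebraMap K (MvPolynomial (Fin 3) K)) (coeff m g)).IsHomogeneous 0 :=
      isHomogeneous_C _ _
    have h2 : (∏ i ∈ m.support, (map (algebraMap k K) (F i)) ^ m i).IsHomogeneous
        (∑ i ∈ m.support, d * m i) := by
      apply IsHomogeneous.prod
      intro i _
      exact ((hF.hom i).map _).pow _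
    have h3 : ∑ i ∈ m.support, d * m i = d * D := by
      rw [← Finset.mul_sum]
      congr 1
      have := hg (mem_support_iff.1 hm)
      rw [Finsupp.weight_apply] at this
      simpa [Finsupp.sum] using this
    have h4 := h1.mul h2
    rwa [zero_add, h3] at h4
  have hcompy : ∀ j, eval (y j) (map (algebraMap K K') (comp F g)) =
      eval (step F (y j)) (map (algebraMap K K') g) := by
    intro j
    have h : ((eval (y j)).comp (map (algebraMap K K'))).comp
        (aeval (R := K) fun i => map (algebraMap k K) (F i)).toRingHom =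
        (eval (step F (y j))).comp (map (algebraMap K K')) := by
      apply MvPolynomial.ringHom_ext
      · intro c
        simp
      · intro i
        simp only [AlgHom.toRingHom_eq_coe, RingHom.coe_comp, RingHom.coe_coe, Function.comp_apply,
          aeval_X, eval_X, map_X, map_map, eval_map]
        rfl
    exact congrArg (fun φ => φ g) h
  have hdvd' : map (algebraMap K K') g ∣ map (algebraMap K K') (comp F g) := by
    by_contra hnd
    have hfin := finite_common_zeros (hg.map (algebraMap K K')) (hcomph.map (algebraMap K K'))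
      (hirr K') hnd y hyne hdist
    apply Set.infinite_univ (α := ℕ)
    refine hfin.subset fun j _ => ⟨hgy j, ?_⟩
    obtain ⟨c, hc, h⟩ := hFy j
    rw [hcompy, h, oz4_eval_smul (hg.map (algebraMap K K')), hgy (j + 1), mul_zero]
  obtain ⟨r, hr⟩ := oz4_dvd_descent g (comp F g) hdvd'
  have hirrK : Irreducible g := by
    have := hirr K
    rwa [Algebra.algebraMap_self, map_id] at this
  have hg0 : g ≠ 0 := hirrK.ne_zero
  have hcomp0 : comp F g ≠ 0 := comp_ne_zero hK hF hg hg0
  have hr0 : r ≠ 0 := fun h => hcomp0 (by rw [hr, h, mul_zero])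
  have hhf : hf k r = 0 := by
    have h1 := hf_comp hK hF hg
    rw [hr, hf_mul hK hg0 hr0] at h1
    omega
  obtain ⟨c', σ, hc', hσ⟩ := (hf_eq_zero_iff hK hr0).1 hhf
  have hD : 0 < D := by
    rcases Nat.eq_zero_or_pos D with h | h
    · exfalso
      subst h
      apply hirrK.not_isUnit
      have h1 : g = C (coeff 0 g) := totalDegree_eq_zero_iff_eq_C.1 (hg.totalDegree hg0)
      have h2 : coeff 0 g ≠ 0 := by
        intro h3
        apply hg0
        rw [h1, h3, C_0]
      rw [h1]
      exact (isUnit_iff_ne_zero.2 h2).map C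
    · exact h
  obtain ⟨i, j, hi, hj, hij⟩ := form_of_mul hcomph hcomp0 hr
  have hiD : i = D := hi.inj_right hg hg0
  have hj' : j = d * D - D := by omega
  have hσhom : σ.IsHomogeneous j := by
    intro m hm
    apply hj
    rw [hσ, coeff_C_mul, coeff_map]
    refine mul_ne_zero hc' ?_
    rw [Ne, map_eq_zero]
    exact hm
  have hjpos : 0 < j := by
    rw [hj']
    have := hF.two_le
    have h2 : 2 * D ≤ d * D := Nat.mul_le_mul_right D this
    omega
  have hσ0 : σ ≠ 0 := by
    rintro rfl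
    apply hr0
    rw [hσ, map_zero, mul_zero]
  refine overK_of_dvd_comp hF hg hirrK hσhom hjpos hσ0 ?_
  rw [hr, hσ]
  refine ⟨g * C c', ?_⟩
  ring

end Pool.Agent.Helper30.TP
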