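import Pool.Agent.Helper30.TP.OZ2
import Pool.Agent.Helper30.TP.OZ3
import Pool.Agent.Helper30.TP.OZ4
import Pool.Agent.Helper30.TP.MainDet

/-!
# Points specialising to a cycle with exactly one eigenvalue zero
-/

set_option autoImplicit false

namespace Pool.Agent.Helper30.TP

open MvPolynomial
open Pool.Agent.Helper16 (Place IsFunctionField)
open Pool.Agent.Helper36 (step iter iter_zero iter_succ iter_succ' iter_add iter_map)

/-! ### Linear algebra -/

section LinAlg

variable {k : Type} [Field k]

/-- the second elementary symmetric function of the eigenvalues -/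
private def OneZero_e2 (M : Matrix (Fin 3) (Fin 3) k) : k :=
  (M 0 0 * M 1 1 - M 0 1 * M 1 0) + (M 0 0 * M 2 2 - M 0 2 * M 2 0)
    + (M 1 1 * M 2 2 - M 1 2 * M 2 1)

private theorem OneZero_e2_ne {M : Matrix (Fin 3) (Fin 3) k} (hdet : M.det = 0)
    (hnil : ∀ c : k, M.charpoly ≠ Polynomial.X ^ 2 * (Polynomial.X - Polynomial.C c)) :
    OneZero_e2 M ≠ 0 := by
  intro h
  apply hnil (M 0 0 + M 1 1 + M 2 2)
  have h1 : M.charpoly = Polynomial.X ^ 3
      - Polynomial.C (M 0 0 + M 1 1 + M 2 2) * Polynomial.X ^ 2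
      + Polynomial.C (OneZero_e2 M) * Polynomial.X - Polynomial.C M.det := by
    rw [Matrix.charpoly, Matrix.det_fin_three, Matrix.det_fin_three]
    simp only [Matrix.charmatrix_apply, Matrix.diagonal_apply]
    simp only [OneZero_e2, Fin.isValue, ↓reduceIte, map_add, map_sub, map_mul,
      show (0 : Fin 3) ≠ 1 by decide, show (0 : Fin 3) ≠ 2 by decide,
      show (1 : Fin 3) ≠ 0 by decide, show (1 : Fin 3) ≠ 2 by decide,
      show (2 : Fin 3) ≠ 0 by decide, show (2 : Fin 3) ≠ 1 by decide]
    ring
  rw [h1, h, hdet, Polynomial.C_0, zero_mul, add_zero, sub_zero]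
  ring

private theorem OneZero_two_e2 (M : Matrix (Fin 3) (Fin 3) k) :
    2 * OneZero_e2 M = M.trace ^ 2 - (M * M).trace := by
  simp only [OneZero_e2, Matrix.trace, Matrix.diag_apply, Matrix.mul_apply, Fin.sum_univ_three]
  ring

private theorem OneZero_e2_mul_comm [CharZero k] (A B : Matrix (Fin 3) (Fin 3) k) :
    OneZero_e2 (A * B) = OneZero_e2 (B * A) := by
  apply mul_left_cancel₀ (two_ne_zero (α := k))
  rw [OneZero_two_e2, OneZero_two_e2, Matrix.trace_mul_comm A B]
  congr 1
  rw [Matrix.mul_assoc, Matrix.trace_mul_comm A]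
  simp only [Matrix.mul_assoc]

private theorem OneZero_e2_smul (a : k) (A : Matrix (Fin 3) (Fin 3) k) :
    OneZero_e2 (a • A) = a ^ 2 * OneZero_e2 A := by
  simp only [OneZero_e2, Matrix.smul_apply, smul_eq_mul]
  ring

/-- a basis adapted to a matrix with the simple eigenvalue zero -/
private theorem OneZero_basis [CharZero k] {M : Matrix (Fin 3) (Fin 3) k} {u : Fin 3 → k} {δ : k} (hu : u ≠ 0)
    (hδ : δ ≠ 0) (hMu : M.mulVec u = δ • u) (hdet : M.det = 0) (he : OneZero_e2 M ≠ 0) :
    ∃ P Q : Matrix (Fin 3) (Fin 3) k, Q * P = 1 ∧ P * Q = 1 ∧ (∀ i, P i 0 = u i) ∧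
      (Q * M * P) 1 1 ≠ 0 ∧ (Q * M * P) 1 2 = 0 ∧ (Q * M * P) 2 1 = 0 ∧ (Q * M * P) 2 2 = 0 := by
  obtain ⟨w, hw, hMw⟩ := Matrix.exists_mulVec_eq_zero_iff.2 hdet
  -- completing to a basis
  obtain ⟨v, hv⟩ : ∃ v : Fin 3 → k,
      (Matrix.of fun i j => (![u i, v i, w i] : Fin 3 → k) j).det ≠ 0 := by
    by_contra hc
    push Not at hc
    have h0 := hc (Pi.single 0 1)
    have h1 := hc (Pi.single 1 1)
    have h2 := hc (Pi.single 2 1)
    simp [Matrix.det_fin_three] at h0 h1 h2
    have key : ∀ i j, u i * w j = w i * u j := by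
      intro i j
      fin_cases i <;> fin_cases j <;> simp only [Fin.zero_eta, Fin.mk_one, Fin.reduceFinMk] <;>
        first
        | ring1
        | linear_combination h0
        | linear_combination -h0
        | linear_combination h1
        | linear_combination -h1
        | linear_combination h2
        | linear_combination -h2
    apply hw
    funext i
    have h3 : u i • w = w i • u := by
      funext j
      exact key i j
    have h4 := congrArg M.mulVec h3
    rw [Matrix.mulVec_smul, Matrix.mulVec_smul, hMw, hMu, smul_zero, smul_smul] at h4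
    have h5 : w i * δ = 0 := by
      by_contra hne
      exact hu ((smul_eq_zero.1 h4.symm).resolve_left hne)
    exact (mul_eq_zero.1 h5).resolve_right hδ
  set P0 : Matrix (Fin 3) (Fin 3) k := Matrix.of fun i j => (![u i, v i, w i] : Fin 3 → k) j
    with hP0
  set Q0 : Matrix (Fin 3) (Fin 3) k := P0⁻¹ with hQ0
  have hunit : IsUnit P0.det := isUnit_iff_ne_zero.2 hv
  have hQP : Q0 * P0 = 1 := Matrix.nonsing_inv_mul P0 hunit
  have hPQ : P0 * Q0 = 1 := Matrix.mul_nonsing_inv P0 hunit
  set B : Matrix (Fin 3) (Fin 3) k := Q0 * M * P0 with hB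
  have c0 : P0.mulVec (Pi.single 0 1) = u := by
    funext i
    simp [hP0, Matrix.mulVec, dotProduct, Fin.sum_univ_three]
  have c2 : P0.mulVec (Pi.single 2 1) = w := by
    funext i
    simp [hP0, Matrix.mulVec, dotProduct, Fin.sum_univ_three]
  have B0 : B.mulVec (Pi.single 0 1) = δ • Pi.single 0 1 := by
    rw [hB, ← Matrix.mulVec_mulVec, c0, ← Matrix.mulVec_mulVec, hMu, Matrix.mulVec_smul, ← c0,
      Matrix.mulVec_mulVec, hQP, Matrix.one_mulVec]
  have B2 : B.mulVec (Pi.single 2 1) = 0 := by
    rw [hB, ← Matrix.mulVec_mulVec, c2, ← Matrix.mulVec_mulVec, hMw, Matrix.mulVec_zero]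
  have b00 : B 0 0 = δ := by
    have := congrFun B0 0
    simpa [Matrix.mulVec, dotProduct, Fin.sum_univ_three] using this
  have b10 : B 1 0 = 0 := by
    have := congrFun B0 1
    simpa [Matrix.mulVec, dotProduct, Fin.sum_univ_three] using this
  have b20 : B 2 0 = 0 := by
    have := congrFun B0 2
    simpa [Matrix.mulVec, dotProduct, Fin.sum_univ_three] using this
  have b02 : B 0 2 = 0 := by
    have := congrFun B2 0
    simpa [Matrix.mulVec, dotProduct, Fin.sum_univ_three] using this
  have b12 : B 1 2 = 0 := by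
    have := congrFun B2 1
    simpa [Matrix.mulVec, dotProduct, Fin.sum_univ_three] using this
  have b22 : B 2 2 = 0 := by
    have := congrFun B2 2
    simpa [Matrix.mulVec, dotProduct, Fin.sum_univ_three] using this
  have heB : OneZero_e2 B = OneZero_e2 M := by
    rw [hB, OneZero_e2_mul_comm, ← Matrix.mul_assoc, hPQ, Matrix.one_mul]
  have hμ : B 1 1 ≠ 0 := by
    intro h
    apply he
    rw [← heB]
    unfold OneZero_e2
    rw [b00, b10, b20, b02, b12, b22, h]
    ring
  set τ : k := B 2 1 / B 1 1 with hτ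
  have hτ' : τ * B 1 1 = B 2 1 := div_mul_cancel₀ _ hμ
  let E : Matrix (Fin 3) (Fin 3) k := Matrix.of ![![1, 0, 0], ![0, 1, 0], ![0, τ, 1]]
  let E' : Matrix (Fin 3) (Fin 3) k := Matrix.of ![![1, 0, 0], ![0, 1, 0], ![0, -τ, 1]]
  have hE : E' * E = 1 := by
    ext i j
    fin_cases i <;> fin_cases j <;> simp [E, E', Matrix.mul_apply, Fin.sum_univ_three]
  have hE' : E * E' = 1 := by
    ext i j
    fin_cases i <;> fin_cases j <;> simp [E, E', Matrix.mul_apply, Fin.sum_univ_three]
  have hQMP : E' * Q0 * M * (P0 * E) = E' * B * E := by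
    rw [hB]
    simp only [Matrix.mul_assoc]
  have hent : ∀ i j, (E' * B * E) i j
      = (E' i 0 * B 0 0 + E' i 1 * B 1 0 + E' i 2 * B 2 0) * E 0 j
        + (E' i 0 * B 0 1 + E' i 1 * B 1 1 + E' i 2 * B 2 1) * E 1 j
        + (E' i 0 * B 0 2 + E' i 1 * B 1 2 + E' i 2 * B 2 2) * E 2 j := by
    intro i j
    rw [Matrix.mul_apply, Fin.sum_univ_three, Matrix.mul_apply, Matrix.mul_apply, Matrix.mul_apply,
      Fin.sum_univ_three, Fin.sum_univ_three, Fin.sum_univ_three]
  have e01 : E 0 1 = 0 := rfl
  have e11 : E 1 1 = 1 := rfl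
  have e21 : E 2 1 = τ := rfl
  have e02 : E 0 2 = 0 := rfl
  have e12 : E 1 2 = 0 := rfl
  have e22 : E 2 2 = 1 := rfl
  have f10 : E' 1 0 = 0 := rfl
  have f11 : E' 1 1 = 1 := rfl
  have f12 : E' 1 2 = 0 := rfl
  have f20 : E' 2 0 = 0 := rfl
  have f21 : E' 2 1 = -τ := rfl
  have f22 : E' 2 2 = 1 := rfl
  refine ⟨P0 * E, E' * Q0, ?_, ?_, ?_, ?_, ?_, ?_, ?_⟩
  · rw [Matrix.mul_assoc, ← Matrix.mul_assoc Q0, hQP, Matrix.one_mul, hE]
  · rw [Matrix.mul_assoc, ← Matrix.mul_assoc E, hE', Matrix.one_mul, hPQ]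
  · intro i
    simp [E, hP0, Matrix.mul_apply, Fin.sum_univ_three]
  · rw [hQMP, hent 1 1]
    simp only [f10, f11, f12, e01, e11, e21, b00, b10, b20, b02, b12, b22]
    simpa using hμ
  · rw [hQMP, hent 1 2]
    simp only [f10, f11, f12, e02, e12, e22, b00, b10, b20, b02, b12, b22]
    ring
  · rw [hQMP, hent 2 1]
    simp only [f20, f21, f22, e01, e11, e21, b00, b10, b20, b02, b12, b22]
    linear_combination -hτ'
  · rw [hQMP, hent 2 2]
    simp only [f20, f21, f22, e02, e12, e22, b00, b10, b20, b02, b12, b22]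
    ring

end LinAlg

/-! ### The chain rule -/

section Chain

variable {k : Type} [Field k]

private theorem OneZero_chain (q : Fin 3 → MvPolynomial (Fin 3) k) (l : Fin 3)
    (p : MvPolynomial (Fin 3) k) :
    pderiv l (aeval q p) = ∑ m, aeval q (pderiv m p) * pderiv l (q m) := by
  induction p using MvPolynomial.induction_on with
  | C a =>
    rw [aeval_C, algebraMap_eq, pderiv_C]
    simp
  | add p p' hp hp' =>
    rw [map_add, map_add, hp, hp', ← Finset.sum_add_distrib]
    refine Finset.sum_congr rfl fun m _ => ?_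
    rw [map_add, map_add, add_mul]
  | mul_X p i hp =>
    rw [map_mul, aeval_X, pderiv_mul, hp, Finset.sum_mul]
    have h1 : ∀ m : Fin 3, aeval q (pderiv m (p * X i)) * pderiv l (q m)
        = aeval q (pderiv m p) * pderiv l (q m) * q i
          + aeval q p * (if m = i then pderiv l (q m) else 0) := by
      intro m
      rw [pderiv_mul, map_add, map_mul, map_mul, aeval_X, pderiv_X]
      by_cases h : m = i
      · subst h
        rw [Pi.single_eq_same, map_one, if_pos rfl]
        ring
      · rw [Pi.single_eq_of_ne (Ne.symm h), map_zero, if_neg h]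
        ring
    rw [Finset.sum_congr rfl fun m _ => h1 m, Finset.sum_add_distrib, ← Finset.mul_sum,
      Finset.sum_ite_eq' Finset.univ i, if_pos (Finset.mem_univ i)]

/-- the polynomials of the iterate -/
private noncomputable def OneZero_it (F : Fin 3 → MvPolynomial (Fin 3) k) (n : ℕ) :
    Fin 3 → MvPolynomial (Fin 3) k := iter F (X : Fin 3 → MvPolynomial (Fin 3) k) n

private theorem OneZero_it_step {L : Type} [Field L] [Algebra k L]
    (F : Fin 3 → MvPolynomial (Fin 3) k) (n : ℕ) (x : Fin 3 → L) :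
    step (OneZero_it F n) x = iter F x n := aeval_iter_X F x n

private theorem OneZero_it_iter {L : Type} [Field L] [Algebra k L]
    (F : Fin 3 → MvPolynomial (Fin 3) k) (n : ℕ) (x : Fin 3 → L) (j : ℕ) :
    iter (OneZero_it F n) x j = iter F x (n * j) := by
  induction j with
  | zero => rfl
  | succ j ih => rw [iter_succ, ih, OneZero_it_step, ← iter_add, Nat.mul_succ, Nat.add_comm]

private theorem OneZero_it_endo [IsAlgClosed k] {d : ℕ} {F : Fin 3 → MvPolynomial (Fin 3) k}
    (hF : IsEndo d F) {n : ℕ} (hn : 0 < n) : IsEndo (d ^ n) (OneZero_it F n) where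
  two_le := hF.two_le.trans (Nat.le_self_pow hn.ne' d)
  hom := iter_X_hom hF n
  nz := by
    intro x hx
    by_contra hne
    apply iter_ne_zero hF hne n
    rw [← OneZero_it_step]
    funext i
    have h1 := hx i
    have h2 := congrArg (fun φ => φ (OneZero_it F n i)) (coe_aeval_eq_eval x)
    exact h2.trans h1

private theorem OneZero_jac_it (F : Fin 3 → MvPolynomial (Fin 3) k) (z : Fin 3 → k) (n : ℕ) :
    jac (OneZero_it F n) z = mult F z n := by
  induction n with
  | zero =>
    ext i j
    show eval z (pderiv j (X i)) = (1 : Matrix (Fin 3) (Fin 3) k) i j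
    rw [pderiv_X, Matrix.one_apply]
    by_cases h : i = j
    · subst h
      rw [Pi.single_eq_same, map_one, if_pos rfl]
    · rw [Pi.single_eq_of_ne h, map_zero, if_neg h]
  | succ n ih =>
    ext i j
    have h1 : OneZero_it F (n + 1) i = aeval (OneZero_it F n) (F i) := by
      unfold OneZero_it
      rw [iter_succ]
      rfl
    show eval z (pderiv j (OneZero_it F (n + 1) i)) = (jac F (iter F z n) * mult F z n) i j
    rw [h1, OneZero_chain, map_sum, Matrix.mul_apply]
    refine Finset.sum_congr rfl fun m _ => ?_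
    rw [map_mul, ← ih]
    congr 1
    have h2 : iter F z n = fun i => eval z (OneZero_it F n i) := by
      rw [← OneZero_it_step]
      funext i
      exact congrArg (fun φ => φ (OneZero_it F n i)) (coe_aeval_eq_eval z)
    show eval z (aeval (OneZero_it F n) (pderiv m (F i))) = eval (iter F z n) (pderiv m (F i))
    rw [h2]
    have h3 : (eval z).comp (aeval (R := k) (OneZero_it F n)).toRingHom
        = eval (fun i => eval z (OneZero_it F n i)) := by
      apply MvPolynomial.ringHom_ext
      · intro c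
        simp
      · intro i
        simp
    exact congrArg (fun φ => φ (pderiv m (F i))) h3

private theorem OneZero_jac_smul {d : ℕ} {F : Fin 3 → MvPolynomial (Fin 3) k} (hF : IsEndo d F)
    (c : k) (z : Fin 3 → k) : jac F (c • z) = c ^ (d - 1) • jac F z := by
  ext i j
  exact eval_smul_hom ((hF.hom i).pderiv) c z

private theorem OneZero_mult_smul {d : ℕ} {F : Fin 3 → MvPolynomial (Fin 3) k} (hF : IsEndo d F)
    {c : k} (hc : c ≠ 0) (z : Fin 3 → k) (n : ℕ) :
    ∃ a : k, a ≠ 0 ∧ mult F (c • z) n = a • mult F z n := by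
  induction n with
  | zero => exact ⟨1, one_ne_zero, by rw [one_smul]; rfl⟩
  | succ n ih =>
    obtain ⟨a, ha, h⟩ := ih
    refine ⟨(c ^ d ^ n) ^ (d - 1) * a, mul_ne_zero (pow_ne_zero _ (pow_ne_zero _ hc)) ha, ?_⟩
    show jac F (iter F (c • z) n) * mult F (c • z) n = _ • (jac F (iter F z n) * mult F z n)
    rw [h, iter_smul hF, OneZero_jac_smul hF, Matrix.smul_mul, Matrix.mul_smul, smul_smul]

private theorem OneZero_mult_add (F : Fin 3 → MvPolynomial (Fin 3) k) (z : Fin 3 → k)
    (m n : ℕ) : mult F z (m + n) = mult F (iter F z m) n * mult F z m := by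
  induction n with
  | zero =>
    show mult F z m = 1 * mult F z m
    rw [Matrix.one_mul]
  | succ n ih =>
    show jac F (iter F z (m + n)) * mult F z (m + n)
      = jac F (iter F (iter F z m) n) * mult F (iter F z m) n * mult F z m
    rw [ih, ← iter_add, Nat.add_comm n m, Matrix.mul_assoc]

/-- Euler -/
private theorem OneZero_euler {d : ℕ} {F : Fin 3 → MvPolynomial (Fin 3) k}
    (hF : ∀ i, (F i).IsHomogeneous d) (z : Fin 3 → k) :
    (jac F z).mulVec z = (d : k) • fun i => eval z (F i) := by
  funext i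
  have h := congrArg (eval z) (hF i).sum_X_mul_pderiv
  rw [map_sum, map_nsmul] at h
  simp only [map_mul, eval_X] at h
  rw [Pi.smul_apply, smul_eq_mul, ← nsmul_eq_mul, ← h]
  show ∑ j, jac F z i j * z j = _
  refine Finset.sum_congr rfl fun j _ => ?_
  rw [mul_comm]
  rfl

end Chain

/-! ### Linear substitutions -/

section Sub

variable {L : Type} [Field L]

/-- the linear forms given by the rows of a matrix -/
private noncomputable def OneZero_LX (P : Matrix (Fin 3) (Fin 3) L) :
    Fin 3 → MvPolynomial (Fin 3) L := fun i => ∑ l, C (P i l) * X l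

/-- linear substitution -/
private noncomputable def OneZero_sub (P : Matrix (Fin 3) (Fin 3) L) :
    MvPolynomial (Fin 3) L →ₐ[L] MvPolynomial (Fin 3) L := aeval (OneZero_LX P)

private theorem OneZero_LX_hom (P : Matrix (Fin 3) (Fin 3) L) (i : Fin 3) :
    (OneZero_LX P i).IsHomogeneous 1 := by
  apply IsHomogeneous.sum
  intro l _
  have := (isHomogeneous_C (Fin 3) (P i l)).mul (isHomogeneous_X L l)
  rwa [zero_add] at this

private theorem OneZero_sub_hom (P : Matrix (Fin 3) (Fin 3) L) {g : MvPolynomial (Fin 3) L}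
    {D : ℕ} (hg : g.IsHomogeneous D) : (OneZero_sub P g).IsHomogeneous D := by
  have := hg.aeval (OneZero_LX P) (OneZero_LX_hom P)
  rwa [one_mul] at this

private theorem OneZero_sub_C (P : Matrix (Fin 3) (Fin 3) L) (c : L) :
    OneZero_sub P (C c) = C c := by
  unfold OneZero_sub
  rw [aeval_C, algebraMap_eq]

private theorem OneZero_sub_sub (P Q : Matrix (Fin 3) (Fin 3) L) (g : MvPolynomial (Fin 3) L) :
    OneZero_sub Q (OneZero_sub P g) = OneZero_sub (P * Q) g := by
  have h : (OneZero_sub Q).comp (OneZero_sub P) = OneZero_sub (P * Q) := by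
    apply MvPolynomial.algHom_ext
    intro i
    rw [AlgHom.comp_apply]
    unfold OneZero_sub
    rw [aeval_X, aeval_X]
    show aeval (OneZero_LX Q) (∑ l, C (P i l) * X l) = ∑ m, C ((P * Q) i m) * X m
    rw [map_sum]
    have h1 : ∀ l, aeval (OneZero_LX Q) (C (P i l) * X l)
        = ∑ m, C (P i l * Q l m) * X m := by
      intro l
      rw [map_mul, aeval_C, aeval_X, algebraMap_eq]
      show C (P i l) * (∑ m, C (Q l m) * X m) = _
      rw [Finset.mul_sum]
      refine Finset.sum_congr rfl fun m _ => ?_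
      rw [C_mul, mul_assoc]
    rw [Finset.sum_congr rfl fun l _ => h1 l, Finset.sum_comm]
    refine Finset.sum_congr rfl fun m _ => ?_
    rw [Matrix.mul_apply, map_sum, Finset.sum_mul]
  exact congrArg (fun φ => φ g) h

private theorem OneZero_sub_one (g : MvPolynomial (Fin 3) L) : OneZero_sub 1 g = g := by
  have h : OneZero_sub (1 : Matrix (Fin 3) (Fin 3) L) = AlgHom.id L _ := by
    apply MvPolynomial.algHom_ext
    intro i
    unfold OneZero_sub
    rw [aeval_X]
    show (∑ l, C ((1 : Matrix (Fin 3) (Fin 3) L) i l) * X l) = X i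
    rw [Finset.sum_eq_single i]
    · rw [Matrix.one_apply_eq, C_1, one_mul]
    · intro l _ hl
      rw [Matrix.one_apply_ne (Ne.symm hl), C_0, zero_mul]
    · intro h
      exact absurd (Finset.mem_univ _) h
  rw [h]
  rfl

private theorem OneZero_sub_irr {P Q : Matrix (Fin 3) (Fin 3) L} (hPQ : P * Q = 1)
    (hQP : Q * P = 1) {g : MvPolynomial (Fin 3) L} (hg : Irreducible g) :
    Irreducible (OneZero_sub P g) := by
  let e : MvPolynomial (Fin 3) L ≃* MvPolynomial (Fin 3) L :=
    { toFun := OneZero_sub P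
      invFun := OneZero_sub Q
      left_inv := fun p => by rw [OneZero_sub_sub, hPQ, OneZero_sub_one]
      right_inv := fun p => by rw [OneZero_sub_sub, hQP, OneZero_sub_one]
      map_mul' := fun p q => map_mul (OneZero_sub P) p q }
  exact (MulEquiv.irreducible_iff e).2 hg

private theorem OneZero_map_sub {L' : Type} [Field L'] (φ : L →+* L')
    (P : Matrix (Fin 3) (Fin 3) L) (g : MvPolynomial (Fin 3) L) :
    map φ (OneZero_sub P g) = OneZero_sub (P.map φ) (map φ g) := by
  have h : (map φ).comp (OneZero_sub P).toRingHom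
      = (OneZero_sub (P.map φ)).toRingHom.comp (map φ) := by
    apply MvPolynomial.ringHom_ext
    · intro c
      show map φ (OneZero_sub P (C c)) = OneZero_sub (P.map φ) (map φ (C c))
      unfold OneZero_sub
      rw [aeval_C, map_C, aeval_C, algebraMap_eq, algebraMap_eq, map_C]
    · intro i
      show map φ (OneZero_sub P (X i)) = OneZero_sub (P.map φ) (map φ (X i))
      unfold OneZero_sub
      rw [aeval_X, map_X, aeval_X]
      show map φ (∑ l, C (P i l) * X l) = ∑ l, C ((P.map φ) i l) * X l
      rw [map_sum]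
      refine Finset.sum_congr rfl fun l _ => ?_
      rw [map_mul, map_C, map_X, Matrix.map_apply]
  exact congrArg (fun ψ => ψ g) h

/-- the action of a matrix over `k` on vectors over an extension -/
private noncomputable def OneZero_act {k : Type} [Field k] [Algebra k L]
    (P : Matrix (Fin 3) (Fin 3) k) (y : Fin 3 → L) : Fin 3 → L :=
  (P.map (algebraMap k L)).mulVec y

variable {k : Type} [Field k] [Algebra k L]

private theorem OneZero_act_act (P Q : Matrix (Fin 3) (Fin 3) k) (y : Fin 3 → L) :
    OneZero_act P (OneZero_act Q y) = OneZero_act (P * Q) y := by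
  unfold OneZero_act
  rw [Matrix.mulVec_mulVec, Matrix.map_mul]

private theorem OneZero_act_one (y : Fin 3 → L) :
    OneZero_act (1 : Matrix (Fin 3) (Fin 3) k) y = y := by
  unfold OneZero_act
  rw [Matrix.map_one _ (map_zero _) (map_one _), Matrix.one_mulVec]

private theorem OneZero_aeval_sub (P : Matrix (Fin 3) (Fin 3) k) (y : Fin 3 → L)
    (p : MvPolynomial (Fin 3) k) : aeval y (OneZero_sub P p) = aeval (OneZero_act P y) p := by
  have h : (aeval y).comp (OneZero_sub P) = aeval (OneZero_act P y) := by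
    apply MvPolynomial.algHom_ext
    intro i
    rw [AlgHom.comp_apply, aeval_X]
    unfold OneZero_sub
    rw [aeval_X]
    show aeval y (∑ l, C (P i l) * X l) = ∑ l, (P.map (algebraMap k L)) i l * y l
    rw [map_sum]
    refine Finset.sum_congr rfl fun l _ => ?_
    rw [map_mul, aeval_C, aeval_X, Matrix.map_apply]
  exact congrArg (fun ψ => ψ p) h

private theorem OneZero_eval_sub (P : Matrix (Fin 3) (Fin 3) L) (y : Fin 3 → L)
    (p : MvPolynomial (Fin 3) L) : eval y (OneZero_sub P p) = eval (P.mulVec y) p := by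
  have h := OneZero_aeval_sub (k := L) P y p
  have h1 : OneZero_act P y = P.mulVec y := by
    unfold OneZero_act
    congr 1
  rw [h1] at h
  have h2 := congrArg (fun φ => φ (OneZero_sub P p)) (coe_aeval_eq_eval y)
  have h3 := congrArg (fun φ => φ p) (coe_aeval_eq_eval (P.mulVec y))
  exact h2.symm.trans (h.trans h3)

end Sub

/-- the conjugated iterate -/
private theorem OneZero_conj {k : Type} [Field k] [IsAlgClosed k] [CharZero k] {d : ℕ}
    {F : Fin 3 → MvPolynomial (Fin 3) k} (hF : IsEndo d F) {N : ℕ} (hN : 0 < N) {z : Fin 3 → k}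
    (hz : z ≠ 0) {c : k} (hc : c ≠ 0) (hper : iter F z N = c • z)
    (hdet : (mult F z N).det = 0) (he : OneZero_e2 (mult F z N) ≠ 0) :
    ∃ (H : Fin 3 → MvPolynomial (Fin 3) k) (δ : ℕ) (μ s : k) (P Q : Matrix (Fin 3) (Fin 3) k),
      s ≠ 0 ∧ IsEndo δ H ∧ Normal H μ ∧ Q * P = 1 ∧ P * Q = 1 ∧ (∀ i, P i 0 = s * z i) ∧
      (∀ (L : Type) [Field L] [Algebra k L] (y : Fin 3 → L),
        step H y = OneZero_act Q (iter F (OneZero_act P y) N)) := by
  have hδ2 : 2 ≤ d ^ N := hF.two_le.trans (Nat.le_self_pow hN.ne' d)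
  obtain ⟨s, hs⟩ := IsAlgClosed.exists_pow_nat_eq c⁻¹ (n := d ^ N - 1) (by omega)
  have hs0 : s ≠ 0 := by
    rintro rfl
    rw [zero_pow (by omega)] at hs
    exact inv_ne_zero hc hs.symm
  set u : Fin 3 → k := s • z with hu
  have hu0 : u ≠ 0 := smul_ne_zero hs0 hz
  have hGu : iter F u N = u := by
    rw [hu, iter_smul hF, hper, smul_smul]
    congr 1
    have h1 : d ^ N = (d ^ N - 1) + 1 := by omega
    rw [h1, pow_succ, hs]
    field_simp
  obtain ⟨a, ha, hmult⟩ := OneZero_mult_smul hF hs0 z N
  rw [← hu] at hmult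
  have hG := OneZero_it_endo hF hN
  have hfixG : (fun i => eval u (OneZero_it F N i)) = u := by
    have h1 := OneZero_it_step F N u
    rw [hGu] at h1
    conv_rhs => rw [← h1]
    funext i
    exact (congrArg (fun φ => φ (OneZero_it F N i)) (coe_aeval_eq_eval u)).symm
  have hMu : (mult F u N).mulVec u = ((d ^ N : ℕ) : k) • u := by
    rw [← OneZero_jac_it]
    have h1 := OneZero_euler hG.hom u
    rwa [hfixG] at h1
  have hdk : ((d ^ N : ℕ) : k) ≠ 0 := Nat.cast_ne_zero.2 (by omega)
  have hdet' : (mult F u N).det = 0 := by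
    rw [hmult, Matrix.det_smul, hdet, mul_zero]
  have he' : OneZero_e2 (mult F u N) ≠ 0 := by
    rw [hmult, OneZero_e2_smul]
    exact mul_ne_zero (pow_ne_zero _ ha) he
  obtain ⟨P, Q, hQP, hPQ, hP0, h11, h12, h21, h22⟩ := OneZero_basis hu0 hdk hMu hdet' he'
  have hPe : P.mulVec (Pi.single 0 1) = u := by
    funext i
    rw [← hP0]
    simp [Matrix.mulVec, dotProduct, Fin.sum_univ_three]
  let H : Fin 3 → MvPolynomial (Fin 3) k := fun i =>
    ∑ j, C (Q i j) * OneZero_sub P (OneZero_it F N j)
  have hstep : ∀ (L : Type) [Field L] [Algebra k L] (y : Fin 3 → L),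
      step H y = OneZero_act Q (iter F (OneZero_act P y) N) := by
    intro L _ _ y
    rw [← OneZero_it_step]
    funext i
    show aeval y (∑ j, C (Q i j) * OneZero_sub P (OneZero_it F N j))
      = ∑ j, (Q.map (algebraMap k L)) i j * aeval (OneZero_act P y) (OneZero_it F N j)
    rw [map_sum]
    refine Finset.sum_congr rfl fun j _ => ?_
    rw [map_mul, aeval_C, OneZero_aeval_sub, Matrix.map_apply]
  have hactk : ∀ (R : Matrix (Fin 3) (Fin 3) k) (y : Fin 3 → k), OneZero_act R y = R.mulVec y := by
    intro R y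
    unfold OneZero_act
    congr 1
  have hQu : Q.mulVec u = Pi.single 0 1 := by
    rw [← hPe, Matrix.mulVec_mulVec, hQP, Matrix.one_mulVec]
  have hstepe : step H (Pi.single 0 1 : Fin 3 → k) = Pi.single 0 1 := by
    rw [hstep, hactk, hactk, hPe, hGu, hQu]
  have hjac : jac H (Pi.single 0 1) = Q * mult F u N * P := by
    ext i l
    show eval (Pi.single 0 1) (pderiv l (∑ j, C (Q i j) * OneZero_sub P (OneZero_it F N j))) = _
    rw [map_sum, map_sum, Matrix.mul_assoc, Matrix.mul_apply]
    refine Finset.sum_congr rfl fun j _ => ?_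
    rw [pderiv_C_mul, map_mul, eval_C]
    congr 1
    have h1 : pderiv l (OneZero_sub P (OneZero_it F N j))
        = ∑ m, OneZero_sub P (pderiv m (OneZero_it F N j)) * C (P m l) := by
      have h2 := OneZero_chain (OneZero_LX P) l (OneZero_it F N j)
      refine h2.trans (Finset.sum_congr rfl fun m _ => ?_)
      congr 1
      show pderiv l (∑ l', C (P m l') * X l') = C (P m l)
      rw [map_sum, Finset.sum_eq_single l]
      · rw [pderiv_C_mul, pderiv_X_self, mul_one]
      · intro l' _ hl
        rw [pderiv_C_mul, pderiv_X_of_ne hl, mul_zero]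
      · intro h
        exact absurd (Finset.mem_univ _) h
    rw [h1, map_sum, Matrix.mul_apply]
    refine Finset.sum_congr rfl fun m _ => ?_
    rw [map_mul, eval_C, OneZero_eval_sub, hPe, ← OneZero_jac_it]
    rfl
  refine ⟨H, d ^ N, (Q * mult F u N * P) 1 1, s, P, Q, hs0, ?_, ?_, hQP, hPQ, ?_, hstep⟩
  · refine ⟨hδ2, fun i => ?_, fun y hy => ?_⟩
    · apply IsHomogeneous.sum
      intro j _
      have := (isHomogeneous_C (Fin 3) (Q i j)).mul (OneZero_sub_hom P (hG.hom j))
      rwa [zero_add] at this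
    · have h1 : step H y = 0 := by
        funext i
        have h2 := congrArg (fun φ => φ (H i)) (coe_aeval_eq_eval y)
        exact h2.trans (hy i)
      rw [hstep, hactk, hactk] at h1
      have h3 := congrArg P.mulVec h1
      rw [Matrix.mulVec_mulVec, hPQ, Matrix.one_mulVec, Matrix.mulVec_zero] at h3
      by_contra hne
      have h4 : P.mulVec y ≠ 0 := by
        intro h5
        apply hne
        have h6 := congrArg Q.mulVec h5
        rwa [Matrix.mulVec_mulVec, hQP, Matrix.one_mulVec, Matrix.mulVec_zero] at h6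
      exact iter_ne_zero hF h4 N h3
  · refine ⟨fun i => ?_, h11, ?_, ?_, ?_, ?_⟩
    · have h1 := congrFun hstepe i
      have h2 := congrArg (fun φ => φ (H i)) (coe_aeval_eq_eval (Pi.single 0 1 : Fin 3 → k))
      exact h2.symm.trans h1
    · rw [hjac]
    · rw [hjac]; exact h12
    · rw [hjac]; exact h21
    · rw [hjac]; exact h22
  · intro i
    rw [hP0, hu, Pi.smul_apply, smul_eq_mul]

private theorem OneZero_residue {S : Set ℕ} (hS : S.Infinite) (n0 : ℕ) {t : ℕ} (ht : 0 < t) :
    ∃ r, r < t ∧ {j | n0 + r + t * j ∈ S}.Infinite := by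
  by_contra hc
  push Not at hc
  have h1 : ∀ r, r < t → ((fun j => n0 + r + t * j) '' {j | n0 + r + t * j ∈ S}).Finite :=
    fun r hr => (Set.not_infinite.1 (by simpa using hc r hr)).image _
  have h2 : (⋃ r ∈ Finset.range t,
      ((fun j => n0 + r + t * j) '' {j | n0 + r + t * j ∈ S})).Finite := by
    apply Set.Finite.biUnion (Finset.finite_toSet _)
    intro r hr
    exact h1 r (Finset.mem_range.1 hr)
  apply hS
  refine ((Set.finite_Iio n0).union h2).subset ?_
  intro m hm
  by_cases h : m < n0
  · exact Or.inl h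
  · right
    rw [Set.mem_iUnion₂]
    have h3 : n0 + (m - n0) % t + t * ((m - n0) / t) = m := by
      have := Nat.mod_add_div (m - n0) t
      omega
    refine ⟨(m - n0) % t, Finset.mem_range.2 (Nat.mod_lt _ ht), (m - n0) / t, ?_, h3⟩
    show n0 + (m - n0) % t + t * ((m - n0) / t) ∈ S
    rw [h3]
    exact hm

/-- the case of a fixed point in normal form -/
private theorem OneZero_normal {k K : Type} [Field k] [IsAlgClosed k] [CharZero k] [Field K]
    [Algebra k K] (hK : IsFunctionField k K) {d : ℕ} {F : Fin 3 → MvPolynomial (Fin 3) k}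
    (hF : IsEndo d F) {μ : k} (hn : Normal F μ) (x : Fin 3 → K) (hx : x ≠ 0)
    (hxc : ¬ IsConst k x) (b : Place k K) (hred : Red b x (Pi.single 0 1))
    {g : MvPolynomial (Fin 3) K} {D : ℕ} (hg : g.IsHomogeneous D)
    (hirr : ∀ (K' : Type) [Field K'] [Algebra K K'], Irreducible (map (algebraMap K K') g))
    (hS : {n | eval (iter F x n) g = 0}.Infinite) : OverK k g := by
  have hirr0 : Irreducible g := by
    have := hirr K
    rwa [Algebra.algebraMap_self, map_id] at this
  by_cases hcase : ∀ n, b.val (iter F x n 1) < b.val (iter F x n 2)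
  · exact one_zero_stable hK hF hn x hx hxc b hred hcase hg hirr0 hS
  push Not at hcase
  obtain ⟨n0, hn0⟩ := hcase
  have hstepe : step F (Pi.single 0 1 : Fin 3 → k) = Pi.single 0 1 := by
    funext i
    have h2 := congrArg (fun φ => φ (F i)) (coe_aeval_eq_eval (Pi.single 0 1 : Fin 3 → k))
    exact h2.trans (hn.fix i)
  have hfix : ∀ n, iter F (Pi.single 0 1 : Fin 3 → k) n = Pi.single 0 1 := by
    intro n
    induction n with
    | zero => rfl
    | succ n ih => rw [iter_succ, ih, hstepe]
  have hredn : ∀ n, Red b (iter F x n) (Pi.single 0 1) := by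
    intro n
    have := hred.iter hF n
    rwa [hfix] at this
  have hcasen : ∀ n, n0 ≤ n → b.val (iter F x n 2) ≤ b.val (iter F x n 1) := by
    intro n hle
    induction n, hle using Nat.le_induction with
    | base => exact hn0
    | succ n _ ih =>
      rw [iter_succ]
      exact OZ3_case_step hF hn _ b (hredn n) ih
  have hne : ∀ n, iter F x n ≠ 0 := fun n => iter_ne_zero hF hx n
  have hnc : ∀ n, ¬ IsConst k (iter F x n) := fun n h => hxc (IsConst.of_iter hK hF hx n h)
  by_cases hμ : ∀ t : ℕ, 0 < t → μ ^ t ≠ 1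
  · obtain ⟨r, -, hr⟩ := OneZero_residue hS n0 (t := 1) one_pos
    refine one_zero_nonroot hK hF hn (iter F x (n0 + r)) (hne _) (hnc _) b (hredn _)
      (hcasen _ (Nat.le_add_right _ _)) hμ hg hirr0 (hr.mono ?_)
    intro j hj
    show eval (iter F (iter F x (n0 + r)) j) g = 0
    rw [← iter_add, Nat.add_comm j]
    have hj' : eval (iter F x (n0 + r + 1 * j)) g = 0 := hj
    rwa [one_mul] at hj'
  · push Not at hμ
    obtain ⟨t, ht, hμt⟩ := hμ
    obtain ⟨r, -, hr⟩ := OneZero_residue hS n0 ht
    have hE := OneZero_it_endo hF ht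
    -- the Jacobian matrix at the fixed point
    have hJe : (jac F (Pi.single 0 1)).mulVec (Pi.single 0 1)
        = (d : k) • (Pi.single 0 1 : Fin 3 → k) := by
      rw [OneZero_euler hF.hom]
      exact congrArg (fun v => (d : k) • v) (funext hn.fix)
    have j10 : jac F (Pi.single 0 1) 1 0 = 0 := by
      have := congrFun hJe 1
      simpa [Matrix.mulVec, dotProduct, Fin.sum_univ_three] using this
    have j20 : jac F (Pi.single 0 1) 2 0 = 0 := by
      have := congrFun hJe 2
      simpa [Matrix.mulVec, dotProduct, Fin.sum_univ_three] using this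
    have hm1 : ∀ t, mult F (Pi.single 0 1) t 1 1 = μ ^ t ∧ mult F (Pi.single 0 1) t 1 2 = 0 := by
      intro t
      induction t with
      | zero =>
        refine ⟨?_, ?_⟩
        · show (1 : Matrix (Fin 3) (Fin 3) k) 1 1 = _
          rw [Matrix.one_apply_eq, pow_zero]
        · show (1 : Matrix (Fin 3) (Fin 3) k) 1 2 = _
          exact Matrix.one_apply_ne (by decide)
      | succ t ih =>
        obtain ⟨a1, a2⟩ := ih
        have hm : mult F (Pi.single 0 1) (t + 1)
            = jac F (Pi.single 0 1) * mult F (Pi.single 0 1) t := by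
          show jac F (iter F (Pi.single 0 1) t) * _ = _
          rw [hfix]
        rw [hm]
        refine ⟨?_, ?_⟩
        · rw [Matrix.mul_apply, Fin.sum_univ_three, j10, hn.j11, hn.j12, a1, pow_succ]
          ring
        · rw [Matrix.mul_apply, Fin.sum_univ_three, j10, hn.j11, hn.j12, a2]
          ring
    have hm2 : mult F (Pi.single 0 1) t 2 1 = 0 ∧ mult F (Pi.single 0 1) t 2 2 = 0 := by
      obtain ⟨t', rfl⟩ := Nat.exists_eq_succ_of_ne_zero ht.ne'
      have hm : mult F (Pi.single 0 1) (t' + 1)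
          = jac F (Pi.single 0 1) * mult F (Pi.single 0 1) t' := by
        show jac F (iter F (Pi.single 0 1) t') * _ = _
        rw [hfix]
      rw [Nat.succ_eq_add_one, hm]
      refine ⟨?_, ?_⟩
      · rw [Matrix.mul_apply, Fin.sum_univ_three, j20, hn.j21, hn.j22]
        ring
      · rw [Matrix.mul_apply, Fin.sum_univ_three, j20, hn.j21, hn.j22]
        ring
    have hN : Normal (OneZero_it F t) 1 := by
      refine ⟨fun i => ?_, one_ne_zero, ?_, ?_, ?_, ?_⟩
      · have h1 := OneZero_it_step F t (Pi.single 0 1 : Fin 3 → k)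
        rw [hfix] at h1
        have h2 := congrArg (fun φ => φ (OneZero_it F t i))
          (coe_aeval_eq_eval (Pi.single 0 1 : Fin 3 → k))
        exact h2.symm.trans (congrFun h1 i)
      · rw [OneZero_jac_it, (hm1 t).1, hμt]
      · rw [OneZero_jac_it]; exact (hm1 t).2
      · rw [OneZero_jac_it]; exact hm2.1
      · rw [OneZero_jac_it]; exact hm2.2
    refine one_zero_one hK hE hN (iter F x (n0 + r)) (hne _) (hnc _) b (hredn _)
      (hcasen _ (Nat.le_add_right _ _)) hg hirr (hr.mono ?_)
    intro j hj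
    show eval (iter (OneZero_it F t) (iter F x (n0 + r)) j) g = 0
    rw [OneZero_it_iter, ← iter_add, Nat.add_comm (t * j)]
    exact hj

theorem one_zero {k K : Type} [Field k] [IsAlgClosed k] [CharZero k] [Field K] [Algebra k K]
    (hK : IsFunctionField k K) {d : ℕ} {F : Fin 3 → MvPolynomial (Fin 3) k} (hF : IsEndo d F)
    (x : Fin 3 → K) (hx : x ≠ 0) (hxc : ¬ IsConst k x) (b : Place k K) (z : Fin 3 → k)
    (hred : Red b x z) (n N : ℕ) (hN : 0 < N) (hper : PEq (iter F z n) (iter F z (n + N)))
    (hdet : (mult F (iter F z n) N).det = 0)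
    (hnil : ∀ c : k, (mult F (iter F z n) N).charpoly ≠
      Polynomial.X ^ 2 * (Polynomial.X - Polynomial.C c))
    {U : Ultrafilter ℕ} (hU : Free U) {g : MvPolynomial (Fin 3) K} {D : ℕ}
    (hg : Gen (iter F x) U g D) : OverK k g := by
  classical
  -- infinitely many returns
  have hS : {m | eval (iter F x m) g = 0}.Infinite := by
    intro hfin
    obtain ⟨M, hM⟩ := hfin.bddAbove
    obtain ⟨m, hm1, hm2⟩ := (hg.van.and (hU (M + 1))).exists
    have := hM hm1
    omega
  obtain ⟨r, hrN, hr⟩ := OneZero_residue hS n hN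
  -- the point of the cycle
  set y0 : Fin 3 → k := iter F z n with hy0
  have hz0 : z ≠ 0 := hred.1
  have hy00 : y0 ≠ 0 := iter_ne_zero hF hz0 n
  obtain ⟨c, hc, hcy⟩ := hper
  have hcy' : iter F y0 N = c • y0 := by
    rw [← hcy, hy0, ← iter_add, Nat.add_comm]
  set y1 : Fin 3 → k := iter F y0 r with hy1
  have hy10 : y1 ≠ 0 := iter_ne_zero hF hy00 r
  have hy1z : y1 = iter F z (n + r) := by
    rw [hy1, hy0, ← iter_add, Nat.add_comm]
  have hy1N : iter F y1 N = c ^ d ^ r • y1 := by
    have h1 : iter F y1 N = iter F (iter F y0 N) r := by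
      rw [hy1]
      exact (iter_add F y0 N r).symm.trans
        ((congrArg (iter F y0) (Nat.add_comm N r)).trans (iter_add F y0 r N))
    rw [h1, hcy', iter_smul hF]
  have he0 := OneZero_e2_ne hdet hnil
  have hM0 : mult F y0 N = mult F y1 (N - r) * mult F y0 r := by
    have h1 := OneZero_mult_add F y0 r (N - r)
    rwa [Nat.add_sub_cancel' hrN.le] at h1
  obtain ⟨a, ha, hmul⟩ := OneZero_mult_smul hF hc y0 r
  have hM1 : mult F y1 N = a • (mult F y0 r * mult F y1 (N - r)) := by
    have h1 := OneZero_mult_add F y1 (N - r) r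
    have h2 : iter F y1 (N - r) = c • y0 := by
      rw [hy1, ← hcy']
      exact (iter_add F y0 (N - r) r).symm.trans
        (congrArg (iter F y0) (Nat.sub_add_cancel hrN.le))
    rw [Nat.sub_add_cancel hrN.le, h2, hmul, Matrix.smul_mul] at h1
    exact h1
  have hdet1 : (mult F y1 N).det = 0 := by
    rw [hM1, Matrix.det_smul, Matrix.det_mul, mul_comm (mult F y0 r).det, ← Matrix.det_mul, ← hM0,
      hdet, mul_zero]
  have he1 : OneZero_e2 (mult F y1 N) ≠ 0 := by
    rw [hM1, OneZero_e2_smul, OneZero_e2_mul_comm, ← hM0]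
    exact mul_ne_zero (pow_ne_zero _ ha) he0
  obtain ⟨H, δ, μ, s, P, Q, hs, hH, hHn, hQP, hPQ, hP0, hstep⟩ :=
    OneZero_conj hF hN hy10 (pow_ne_zero _ hc) hy1N hdet1 he1
  -- the orbit in the new coordinates
  set w : Fin 3 → K := iter F x (n + r) with hw
  have hw0 : w ≠ 0 := iter_ne_zero hF hx _
  set x' : Fin 3 → K := OneZero_act Q w with hx'
  have hPx' : OneZero_act P x' = w := by
    rw [hx', OneZero_act_act, hPQ, OneZero_act_one]
  have hiter : ∀ j, iter H x' j = OneZero_act Q (iter F w (N * j)) := by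
    intro j
    induction j with
    | zero => rfl
    | succ j ih =>
      rw [iter_succ, ih, hstep, OneZero_act_act, hPQ, OneZero_act_one, ← iter_add, Nat.mul_succ,
        Nat.add_comm]
  have hx'0 : x' ≠ 0 := by
    intro h
    apply hw0
    rw [← hPx', h]
    unfold OneZero_act
    rw [Matrix.mulVec_zero]
  have hx'c : ¬ IsConst k x' := by
    rintro ⟨z1, c1, hc1, hz1⟩
    apply hxc
    apply IsConst.of_iter hK hF hx (n + r)
    refine ⟨P.mulVec z1, c1, hc1, ?_⟩
    rw [← hw, ← hPx', hz1]
    funext i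
    show ∑ j, (P.map (algebraMap k K)) i j * (c1 * algebraMap k K (z1 j))
      = c1 * algebraMap k K (∑ j, P i j * z1 j)
    rw [map_sum, Finset.mul_sum]
    refine Finset.sum_congr rfl fun j _ => ?_
    rw [Matrix.map_apply, map_mul]
    ring
  have hred' : Red b x' (Pi.single 0 1) := by
    have h1 : Red b w y1 := by
      rw [hy1z]
      exact hred.iter hF _
    obtain ⟨-, c1, hc1, h2⟩ := h1
    have hsK : algebraMap k K s ≠ 0 := (map_ne_zero _).2 hs
    refine ⟨fun h => ?_, algebraMap k K s * c1, mul_ne_zero hsK hc1, fun i => ?_⟩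
    · have := congrFun h 0
      rw [Pi.single_eq_same] at this
      exact one_ne_zero this
    · have hQy : ∑ j, Q i j * (s * y1 j) = (Pi.single 0 1 : Fin 3 → k) i := by
        have h3 : ∑ j, Q i j * (s * y1 j) = (Q * P) i 0 := by
          rw [Matrix.mul_apply]
          refine Finset.sum_congr rfl fun j _ => ?_
          rw [hP0]
        rw [h3, hQP, Matrix.one_apply, Pi.single_apply]
      have h4 : algebraMap k K s * c1 * x' i - algebraMap k K ((Pi.single 0 1 : Fin 3 → k) i)
          = ∑ j, algebraMap k K (Q i j) * (algebraMap k K s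
            * (c1 * w j - algebraMap k K (y1 j))) := by
        rw [← hQy, map_sum]
        have h5 : x' i = ∑ j, algebraMap k K (Q i j) * w j := rfl
        rw [h5, Finset.mul_sum, ← Finset.sum_sub_distrib]
        refine Finset.sum_congr rfl fun j _ => ?_
        rw [map_mul, map_mul]
        ring
      rw [h4]
      refine b.val.map_sum_lt one_ne_zero fun j _ => ?_
      rw [map_mul, map_mul, b.triv s hs, one_mul]
      have h6 : b.val (algebraMap k K (Q i j)) ≤ 1 := by
        by_cases h0 : Q i j = 0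
        · rw [h0, map_zero, map_zero]; exact zero_le_one
        · exact (b.triv _ h0).le
      exact (mul_le_of_le_one_left' h6).trans_lt (h2 j)
  -- the form in the new coordinates
  set PK : Matrix (Fin 3) (Fin 3) K := P.map (algebraMap k K) with hPK
  set QK : Matrix (Fin 3) (Fin 3) K := Q.map (algebraMap k K) with hQK
  have hPQK : PK * QK = 1 := by
    rw [hPK, hQK, ← Matrix.map_mul, hPQ, Matrix.map_one _ (map_zero _) (map_one _)]
  have hQPK : QK * PK = 1 := by
    rw [hPK, hQK, ← Matrix.map_mul, hQP, Matrix.map_one _ (map_zero _) (map_one _)]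
  have hmain : OverK k (OneZero_sub PK g) := by
    refine OneZero_normal hK hH hHn x' hx'0 hx'c b hred' (OneZero_sub_hom PK hg.hom) ?_
      (hr.mono ?_)
    · intro K' _ _
      rw [OneZero_map_sub]
      refine OneZero_sub_irr (Q := QK.map (algebraMap K K')) ?_ ?_ (hg.irr K')
      · rw [← Matrix.map_mul, hPQK, Matrix.map_one _ (map_zero _) (map_one _)]
      · rw [← Matrix.map_mul, hQPK, Matrix.map_one _ (map_zero _) (map_one _)]
    · intro j hj
      show eval (iter H x' j) (OneZero_sub PK g) = 0
      have h1 : PK.mulVec (iter H x' j) = iter F x (n + r + N * j) := by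
        have h2 : PK.mulVec (iter H x' j) = OneZero_act P (iter H x' j) := rfl
        rw [h2, hiter, OneZero_act_act, hPQ, OneZero_act_one, hw, ← iter_add,
          Nat.add_comm (N * j)]
      rw [OneZero_eval_sub, h1]
      exact hj
  obtain ⟨c2, ρ, hc2, hρ⟩ := hmain
  refine ⟨c2, OneZero_sub Q ρ, hc2, ?_⟩
  have h1 : g = OneZero_sub QK (OneZero_sub PK g) := by
    rw [OneZero_sub_sub, hPQK, OneZero_sub_one]
  rw [h1, hρ, map_mul, OneZero_map_sub, OneZero_sub_C]

end Pool.Agent.Helper30.TP
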