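import Pool.Agent.Helper30.TP.Shift
import Pool.Agent.Helper30.TP.Plc
import Pool.Agent.Helper38.Sym.GenEngine

/-!
# The return sets when all forms attached to ultrafilters are defined over `k`
-/

set_option autoImplicit false

namespace Pool.Agent.Helper30.TP

open MvPolynomial
open Pool.Agent.Helper16 (Place IsFunctionField)
open Pool.Agent.Helper36 (step iter iter_zero iter_succ iter_succ' iter_add iter_map)

variable {k K : Type} [Field k] [IsAlgClosed k] [Field K] [Algebra k K]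

theorem aeval_compk_iter (F : Fin 3 → MvPolynomial (Fin 3) k) (P : MvPolynomial (Fin 3) k)
    (x : Fin 3 → K) (j : ℕ) : aeval x ((compk F)^[j] P) = aeval (iter F x j) P := by
  induction j generalizing x with
  | zero => rfl
  | succ j ih => rw [Function.iterate_succ_apply', aeval_compk, ih, ← iter_succ']

theorem compk_iter_hom {d : ℕ} {F : Fin 3 → MvPolynomial (Fin 3) k} (hF : IsEndo d F)
    {P : MvPolynomial (Fin 3) k} {e : ℕ} (hP : P.IsHomogeneous e) (j : ℕ) :
    ∃ t, ((compk F)^[j] P).IsHomogeneous t := by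
  induction j with
  | zero => exact ⟨e, hP⟩
  | succ j ih =>
    obtain ⟨t, ht⟩ := ih
    rw [Function.iterate_succ_apply']
    exact ⟨_, compk_hom hF ht⟩

/-- The times at which an irreducible form over `k` vanishes form a progression. -/
theorem progression (hK : IsFunctionField k K) {d : ℕ}
    {F : Fin 3 → MvPolynomial (Fin 3) k} (hF : IsEndo d F) {x : Fin 3 → K} (hx : x ≠ 0)
    (hxc : ¬ IsConst k x) {ρ : MvPolynomial (Fin 3) k} {e : ℕ} (hρ : ρ.IsHomogeneous e)
    (hirr : Irreducible ρ) (hinf : {n | aeval (iter F x n) ρ = 0}.Infinite) :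
    ∃ q r : ℕ, {n | aeval (iter F x n) ρ = 0} = {n | ∃ m, n = q * m + r} := by
  classical
  set W := {n | aeval (iter F x n) ρ = 0} with hW
  have htrans : ∀ n n' j, n ∈ W → n' ∈ W → n + j ∈ W → n' + j ∈ W := by
    intro n n' j hn hn' hj
    obtain ⟨t, ht⟩ := compk_iter_hom hF hρ j
    have h1 : ρ ∣ (compk F)^[j] ρ := dvd_compk hK hF hx hxc hρ ht hirr n hn (by
      rw [aeval_compk_iter, ← iter_add, add_comm]; exact hj)
    obtain ⟨q, hq⟩ := h1
    have h2 : aeval (iter F x n') ((compk F)^[j] ρ) = 0 := by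
      rw [hq, map_mul]
      have : aeval (iter F x n') ρ = 0 := hn'
      rw [this, zero_mul]
    rw [aeval_compk_iter, ← iter_add, add_comm] at h2
    exact h2
  have hne : ∃ n, n ∈ W := hinf.nonempty
  obtain ⟨r, hr, hrmin⟩ : ∃ r, r ∈ W ∧ ∀ n ∈ W, r ≤ n :=
    ⟨Nat.find hne, Nat.find_spec hne, fun n hn => Nat.find_min' hne hn⟩
  have hpos : ∃ j, 0 < j ∧ r + j ∈ W := by
    obtain ⟨n, hn, hnr⟩ := hinf.exists_gt r
    exact ⟨n - r, by omega, by rw [Nat.add_sub_cancel' hnr.le]; exact hn⟩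
  obtain ⟨q, ⟨hq0, hq⟩, hqmin⟩ : ∃ q, (0 < q ∧ r + q ∈ W) ∧ ∀ j, 0 < j → r + j ∈ W → q ≤ j :=
    ⟨Nat.find hpos, Nat.find_spec hpos, fun j h1 h2 => Nat.find_min' hpos ⟨h1, h2⟩⟩
  have hmul : ∀ m, r + q * m ∈ W := by
    intro m
    induction m with
    | zero => simpa using hr
    | succ m ih =>
      have := htrans r (r + q * m) q hr ih hq
      rwa [add_assoc, ← Nat.mul_succ] at this
  refine ⟨q, r, ?_⟩
  ext n
  constructor
  · intro hn
    have hrn := hrmin n hn
    obtain ⟨j, rfl⟩ := Nat.exists_eq_add_of_le hrn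
    have h1 : r + q * (j / q) + j % q = r + j := by
      rw [add_assoc, Nat.div_add_mod]
    have h2 : r + j % q ∈ W := by
      apply htrans (r + q * (j / q)) r (j % q) (hmul _) hr
      rw [h1]
      exact hn
    have h3 : j % q = 0 := by
      by_contra h
      have h4 := hqmin _ (Nat.pos_of_ne_zero h) h2
      have h5 := Nat.mod_lt j hq0
      omega
    refine ⟨j / q, ?_⟩
    rw [h3, add_zero] at h1
    omega
  · rintro ⟨m, rfl⟩
    rw [add_comm]
    exact hmul m

/-- The Dynamical Mordell-Lang property when all forms attached to ultrafilters are defined over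
`k`. -/
theorem dml_of_overK [Algebra k ℂ] [Algebra K ℂ] [IsScalarTower k K ℂ]
    (hK : IsFunctionField k K) {d : ℕ} {F : Fin 3 → MvPolynomial (Fin 3) k} (hF : IsEndo d F)
    {x : Fin 3 → K} (hx : x ≠ 0) (hxc : ¬ IsConst k x)
    (hover : ∀ (U : Ultrafilter ℕ), Free U → ∀ (g : MvPolynomial (Fin 3) K) (D : ℕ),
      Gen (iter F x) U g D → OverK k g) (c : ℂ) (hc : c ≠ 0) :
    Pool.Agent.Helper38.Sym.DMLgen (fun i => map (algebraMap k ℂ) (F i))
      (fun i => c * algebraMap K ℂ (x i)) := by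
  intro S hS
  -- the orbit
  have horb : ∀ n, (fun (x : Fin 3 → ℂ) (i : Fin 3) =>
      eval x (map (algebraMap k ℂ) (F i)))^[n] (fun i => c * algebraMap K ℂ (x i)) =
      c ^ d ^ n • fun i => algebraMap K ℂ (iter F x n i) := by
    intro n
    have h1 : (fun (x : Fin 3 → ℂ) (i : Fin 3) => eval x (map (algebraMap k ℂ) (F i))) =
        step F := by
      funext x i
      rw [eval_map]
      rfl
    rw [h1]
    have h2 : (fun i => c * algebraMap K ℂ (x i)) = c • fun i => algebraMap K ℂ (x i) := rfl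
    rw [h2]
    change iter F (c • fun i => algebraMap K ℂ (x i)) n = _
    rw [iter_smul hF]
    congr 1
    exact iter_map F (IsScalarTower.toAlgHom k K ℂ) x n
  have hiff : ∀ n, ∀ g ∈ S, (eval ((fun (x : Fin 3 → ℂ) (i : Fin 3) =>
      eval x (map (algebraMap k ℂ) (F i)))^[n] (fun i => c * algebraMap K ℂ (x i))) g = 0 ↔
      eval (fun i => algebraMap K ℂ (iter F x n i)) g = 0) := by
    intro n g hg
    obtain ⟨e, he⟩ := hS g hg
    rw [horb, eval_smul_hom he, mul_eq_zero]
    exact ⟨fun h => h.resolve_left (pow_ne_zero _ (pow_ne_zero _ hc)), Or.inr⟩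
  have hset : {n : ℕ | ∀ g ∈ S, eval ((fun (x : Fin 3 → ℂ) (i : Fin 3) =>
      eval x (map (algebraMap k ℂ) (F i)))^[n] (fun i => c * algebraMap K ℂ (x i))) g = 0} =
      {n : ℕ | ∀ g ∈ S, eval (fun i => algebraMap K ℂ (iter F x n i)) g = 0} := by
    ext n
    exact forall₂_congr fun g hg => hiff n g hg
  rw [hset]
  apply union_of_ultra
  intro U hU hSU
  by_cases hall : ∀ g ∈ S, g = 0
  · refine ⟨1, 0, ?_, ?_⟩
    · refine Filter.mem_of_superset hSU fun n _ => ⟨n, by omega⟩
    · intro n _ g hg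
      rw [hall g hg, map_zero]
  push Not at hall
  obtain ⟨g₁, hg₁, hg₁0⟩ := hall
  obtain ⟨e₁, he₁⟩ := hS g₁ hg₁
  -- a form over `K`
  obtain ⟨ℓ, hℓ⟩ : ∃ ℓ : ℂ →ₗ[K] K, lam ℓ g₁ ≠ 0 := by
    obtain ⟨s, hs⟩ := ultra_expand (Module.Basis.ofVectorSpace K ℂ) g₁
    by_contra hcon
    push Not at hcon
    apply hg₁0
    rw [hs]
    apply Finset.sum_eq_zero
    intro l _
    rw [hcon, map_zero, mul_zero]
  have hv : ∀ᶠ n in (U : Filter ℕ), eval (iter F x n) (lam ℓ g₁) = 0 := by
    filter_upwards [hSU] with n hn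
    rw [ultra_eval_lam, hn g₁ hg₁, map_zero]
  obtain ⟨D, g, hg⟩ := exists_gen (fun n => iter_ne_zero hF hx n) (iter_distinct hK hF hx hxc) hU
    (ultra_lam_hom ℓ he₁) hℓ hv
  obtain ⟨a, ρ, ha, hgρ, hρ, hρh⟩ := (hover U hU g D hg).exists_irreducible hg.hom hg.irreducible
  have hvan : {n | aeval (iter F x n) ρ = 0} ∈ U := by
    refine Filter.mem_of_superset hg.van fun n hn => ?_
    have hn' : eval (iter F x n) g = 0 := hn
    rw [hgρ, map_mul, eval_C, eval_map_k, mul_eq_zero] at hn'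
    exact hn'.resolve_left ha
  have hinf : {n | aeval (iter F x n) ρ = 0}.Infinite := by
    intro hfin
    obtain ⟨n, hn1, hn2⟩ := ultra_exists_notMem hU hfin hvan
    exact hn2 hn1
  obtain ⟨q, r, hqr⟩ := progression hK hF hx hxc hρh hρ hinf
  refine ⟨q, r, ?_, ?_⟩
  · rw [← hqr]; exact hvan
  · rw [← hqr]
    intro n hn g' hg'
    obtain ⟨e', he'⟩ := hS g' hg'
    obtain ⟨h, hh⟩ := hg.dvd ℂ g' e' he' (by
      filter_upwards [hSU] with n hn
      exact hn g' hg')
    have h0 : eval (fun i => algebraMap K ℂ (iter F x n i)) (map (algebraMap K ℂ) g) = 0 := by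
      rw [← Pool.Agent.Helper38.Sym.map_eval_gen]
      have : eval (iter F x n) g = 0 := by
        rw [hgρ, map_mul, eval_map_k]
        have hn' : aeval (iter F x n) ρ = 0 := hn
        rw [hn', mul_zero]
      rw [this, map_zero]
    rw [hh, map_mul, h0, zero_mul]

end Pool.Agent.Helper30.TP
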