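import Pool.Agent.Helper30.TP.Sup
import Pool.Agent.Helper30.TP.Ret
import Pool.Agent.Helper30.TP.NonCrit
import Pool.Agent.Helper30.TP.OneZero

/-!
# Points over a function field of one variable
-/

set_option autoImplicit false

namespace Pool.Agent.Helper30.TP

open MvPolynomial
open Pool.Agent.Helper16 (Place IsFunctionField)
open Pool.Agent.Helper36 (step iter iter_zero iter_succ iter_succ' iter_add iter_map)

/-- The Dynamical Mordell-Lang property of all nonconstant points over a function field of one
variable. -/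
theorem ff_dml {k K : Type} [Field k] [IsAlgClosed k] [CharZero k] [Field K] [Algebra k K]
    [Algebra k ℂ] [Algebra K ℂ] [IsScalarTower k K ℂ] (hK : IsFunctionField k K) {d : ℕ}
    {F : Fin 3 → MvPolynomial (Fin 3) k} (hF : IsEndo d F) {x : Fin 3 → K} (hx : x ≠ 0)
    (hxc : ¬ IsConst k x) (c : ℂ) (hc : c ≠ 0) :
    Pool.Agent.Helper38.Sym.DMLgen (fun i => map (algebraMap k ℂ) (F i))
      (fun i => c * algebraMap K ℂ (x i)) := by
  by_cases h : ∃ (b : Place k K) (z : Fin 3 → k), Red b x z ∧ ∃ n N : ℕ, 0 < N ∧
      PEq (iter F z n) (iter F z (n + N)) ∧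
        ∀ c : k, (mult F (iter F z n) N).charpoly ≠
          Polynomial.X ^ 2 * (Polynomial.X - Polynomial.C c)
  · obtain ⟨b, z, hb, n, N, hN, hper, hnil⟩ := h
    by_cases hdet : (mult F (iter F z n) N).det = 0
    · exact dml_of_overK hK hF hx hxc (fun U hU g D hg =>
        one_zero hK hF x hx hxc b z hb n N hN hper hdet hnil hU hg) c hc
    · exact noncritical hK hF x hx b z hb n N hN hper hdet c hc
  · exact dml_of_overK hK hF hx hxc (fun U hU g D hg =>
      sup_overK hK hF hx hxc (fun b z hb n N hN hper => by
        by_contra hcon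
        push Not at hcon
        exact h ⟨b, z, hb, n, N, hN, hper, hcon⟩) hU hg) c hc

end Pool.Agent.Helper30.TP
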