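import Pool.Agent.Helper16.FF10
import Pool.Agent.Helper36.Growth

/-!
# Orbits of points of the projective plane over a function field: definitions

`k` is an algebraically closed field, `K` a function field of one variable over `k`,
`F : Fin 3 → k[X_0, X_1, X_2]` an endomorphism of the projective plane. Points are nonzero vectors.
-/

set_option autoImplicit false

namespace Pool.Agent.Helper30.TP

open MvPolynomial
open Pool.Agent.Helper16 (Place IsFunctionField)
open Pool.Agent.Helper36 (step iter)

/-- `F` defines an endomorphism of degree `d ≥ 2` of the projective plane over `k` (meant for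
algebraically closed `k`). -/
structure IsEndo {k : Type} [Field k] (d : ℕ) (F : Fin 3 → MvPolynomial (Fin 3) k) : Prop where
  two_le : 2 ≤ d
  hom : ∀ i, (F i).IsHomogeneous d
  nz : ∀ x : Fin 3 → k, (∀ i, eval x (F i) = 0) → x = 0

/-- Proportional vectors. -/
def PEq {L : Type} [Field L] (x y : Fin 3 → L) : Prop := ∃ c : L, c ≠ 0 ∧ y = c • x

/-- The vector is proportional to a vector with entries in `k`. -/
def IsConst (k : Type) {L : Type} [Field k] [Field L] [Algebra k L] (x : Fin 3 → L) : Prop :=
  ∃ (z : Fin 3 → k) (c : L), c ≠ 0 ∧ x = fun i => c * algebraMap k L (z i)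

/-- Preperiodic points. -/
def Preper {k L : Type} [Field k] [Field L] [Algebra k L] (F : Fin 3 → MvPolynomial (Fin 3) k)
    (x : Fin 3 → L) : Prop :=
  ∃ n m : ℕ, n < m ∧ PEq (iter F x n) (iter F x m)

section

variable {k K : Type} [Field k] [Field K] [Algebra k K]

/-- The maximum norm of a vector at a place. -/
noncomputable def nrm (b : Place k K) (x : Fin 3 → K) : WithZero (Multiplicative ℤ) :=
  Finset.univ.sup fun i => b.val (x i)

/-- The maximum norm of a polynomial at a place. -/
noncomputable def gs (b : Place k K) (P : MvPolynomial (Fin 3) K) : WithZero (Multiplicative ℤ) :=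
  P.support.sup fun m => b.val (P.coeff m)

/-- The point `x` specialises at `b` to the point `z`. -/
def Red (b : Place k K) (x : Fin 3 → K) (z : Fin 3 → k) : Prop :=
  z ≠ 0 ∧ ∃ c : K, c ≠ 0 ∧ ∀ i, b.val (c * x i - algebraMap k K (z i)) < 1

/-- The height of a point. -/
noncomputable def ht (k : Type) {K : Type} [Field k] [Field K] [Algebra k K] (x : Fin 3 → K) : ℤ :=
  ∑ᶠ b : Place k K, WithZero.log (nrm b x)

/-- The height of a polynomial. -/
noncomputable def hf (k : Type) {K : Type} [Field k] [Field K] [Algebra k K]
    (P : MvPolynomial (Fin 3) K) : ℤ :=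
  ∑ᶠ b : Place k K, WithZero.log (gs b P)

/-- The composition of a polynomial over `K` with the map `F`. -/
noncomputable def comp (F : Fin 3 → MvPolynomial (Fin 3) k) (P : MvPolynomial (Fin 3) K) :
    MvPolynomial (Fin 3) K :=
  aeval (fun i => map (algebraMap k K) (F i)) P

/-- The polynomial is proportional to a polynomial over `k`. -/
def OverK (k : Type) {K : Type} [Field k] [Field K] [Algebra k K] (g : MvPolynomial (Fin 3) K) :
    Prop :=
  ∃ (c : K) (ρ : MvPolynomial (Fin 3) k), c ≠ 0 ∧ g = C c * map (algebraMap k K) ρ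

/-- Application of a linear form to the coefficients. -/
noncomputable def lam (ℓ : K →ₗ[k] k) (g : MvPolynomial (Fin 3) K) : MvPolynomial (Fin 3) k :=
  ∑ m ∈ g.support, monomial m (ℓ (g.coeff m))

/-- A free ultrafilter on the natural numbers. -/
def Free (U : Ultrafilter ℕ) : Prop := ∀ m : ℕ, ∀ᶠ n in (U : Filter ℕ), m ≤ n

/-- The form `g` generates the ideal of the forms which vanish at `x n` for `U`-many `n`, over `K`
and over every extension field of `K`; it is irreducible over all of them. -/
structure Gen (x : ℕ → Fin 3 → K) (U : Ultrafilter ℕ) (g : MvPolynomial (Fin 3) K) (D : ℕ) :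
    Prop where
  hom : g.IsHomogeneous D
  pos : 0 < D
  van : ∀ᶠ n in (U : Filter ℕ), eval (x n) g = 0
  dvd : ∀ (K' : Type) [Field K'] [Algebra K K'] (P : MvPolynomial (Fin 3) K') (e : ℕ),
    P.IsHomogeneous e → (∀ᶠ n in (U : Filter ℕ), eval (fun i => algebraMap K K' (x n i)) P = 0) →
      map (algebraMap K K') g ∣ P
  irr : ∀ (K' : Type) [Field K'] [Algebra K K'], Irreducible (map (algebraMap K K') g)

end

/-- The Jacobian matrix. -/
noncomputable def jac {k : Type} [Field k] (F : Fin 3 → MvPolynomial (Fin 3) k) (z : Fin 3 → k) :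
    Matrix (Fin 3) (Fin 3) k :=
  Matrix.of fun i j => eval z (pderiv j (F i))

/-- The Jacobian matrix of the `N`-th iterate. -/
noncomputable def mult {k : Type} [Field k] (F : Fin 3 → MvPolynomial (Fin 3) k) (z : Fin 3 → k) :
    ℕ → Matrix (Fin 3) (Fin 3) k
  | 0 => 1
  | N + 1 => jac F (iter F z N) * mult F z N

/-- The exponents of the monomials of degree `D` in three variables. -/
abbrev Mon (D : ℕ) : Type := ↥((Finset.univ : Finset (Fin 3)).finsuppAntidiag D)

/-- The value of a monomial. -/
def mval {A : Type} [CommRing A] {D : ℕ} (y : Fin 3 → A) (m : Mon D) : A :=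
  ∏ i, y i ^ (m : Fin 3 →₀ ℕ) i

end Pool.Agent.Helper30.TP
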