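import Pool.Agent.Helper30.TP.Cases
import Pool.Agent.Helper30.TP.Emb

/-!
# Complex points
-/

set_option autoImplicit false

namespace Pool.Agent.Helper30.TP

open MvPolynomial
open Pool.Agent.Helper16 (Place IsFunctionField)
open Pool.Agent.Helper36 (step iter iter_zero iter_succ iter_succ' iter_add iter_map)

theorem isConst_smul {k L : Type} [Field k] [Field L] [Algebra k L] {x : Fin 3 → L}
    {c : L} (hc : c ≠ 0) : IsConst k (c • x) ↔ IsConst k x := by
  constructor
  · rintro ⟨z, s, hs, h⟩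
    refine ⟨z, c⁻¹ * s, mul_ne_zero (inv_ne_zero hc) hs, ?_⟩
    funext i
    have h1 := congrFun h i
    rw [Pi.smul_apply, smul_eq_mul] at h1
    rw [mul_assoc, ← h1, ← mul_assoc, inv_mul_cancel₀ hc, one_mul]
  · rintro ⟨z, s, hs, h⟩
    refine ⟨z, c * s, mul_ne_zero hc hs, ?_⟩
    funext i
    rw [Pi.smul_apply, smul_eq_mul, h, mul_assoc]

/-- Points at which some nonzero form vanishes. -/
theorem final_one {k : Type} [Field k] [IsAlgClosed k] [Algebra k ℂ] {d : ℕ}
    {F : Fin 3 → MvPolynomial (Fin 3) k} (hF : IsEndo d F) {a : Fin 3 → ℂ} (ha : a ≠ 0)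
    (hac : ¬ IsConst k a)
    {P : MvPolynomial (Fin 3) k} {e : ℕ} (hP : P.IsHomogeneous e) (hP0 : P ≠ 0)
    (hPa : aeval a P = 0) :
    Pool.Agent.Helper38.Sym.DMLgen (fun i => map (algebraMap k ℂ) (F i)) a := by
  haveI : CharZero k := (algebraMap k ℂ).charZero
  obtain ⟨i₀, hi₀⟩ := Function.ne_iff.1 ha
  have hi₀' : a i₀ ≠ 0 := hi₀
  set x : Fin 3 → ℂ := (a i₀)⁻¹ • a with hx
  have hx1 : x i₀ = 1 := by
    rw [hx, Pi.smul_apply, smul_eq_mul, inv_mul_cancel₀ hi₀']
  have hxc : ¬ IsConst k x := by rwa [hx, isConst_smul (inv_ne_zero hi₀')]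
  have hPx : aeval x P = 0 := by rw [hx, aeval_smul_hom hP, hPa, mul_zero]
  have hK := isFunctionField_of_form x i₀ hx1 hxc hP hP0 hPx
  set K := IntermediateField.adjoin k (Set.range x)
  let y : Fin 3 → K := fun i => ⟨x i, IntermediateField.subset_adjoin _ _ ⟨i, rfl⟩⟩
  have hyx : (fun i => algebraMap K ℂ (y i)) = x := rfl
  have hy0 : y ≠ 0 := by
    intro h
    have h1 := congrArg (fun w : Fin 3 → K => algebraMap K ℂ (w i₀)) h
    simp only [Pi.zero_apply, map_zero] at h1
    have h2 : algebraMap K ℂ (y i₀) = x i₀ := rfl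
    rw [h2, hx1] at h1
    exact one_ne_zero h1
  have hyc : ¬ IsConst k y := by
    rintro ⟨z, s, hs, h⟩
    apply hxc
    refine ⟨z, algebraMap K ℂ s, (by rwa [ne_eq, map_eq_zero]), ?_⟩
    rw [← hyx, h]
    funext i
    rw [map_mul, ← IsScalarTower.algebraMap_apply]
  have h := ff_dml hK hF hy0 hyc (a i₀) hi₀'
  have h2 : (fun i => a i₀ * algebraMap K ℂ (y i)) = a := by
    funext i
    change a i₀ * x i = a i
    rw [hx, Pi.smul_apply, smul_eq_mul, ← mul_assoc, mul_inv_cancel₀ hi₀', one_mul]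
  rwa [h2] at h

/-- Over an algebraically closed subfield `k` of `ℂ`: all points outside the plane over `k`. -/
theorem final {k : Type} [Field k] [IsAlgClosed k] [Algebra k ℂ] {d : ℕ}
    {F : Fin 3 → MvPolynomial (Fin 3) k} (hF : IsEndo d F) {a : Fin 3 → ℂ} (ha : a ≠ 0)
    (hac : ¬ IsConst k a) :
    Pool.Agent.Helper38.Sym.DMLgen (fun i => map (algebraMap k ℂ) (F i)) a := by
  by_cases hall : ∃ (P : MvPolynomial (Fin 3) k) (e : ℕ), P.IsHomogeneous e ∧ P ≠ 0 ∧
      aeval a P = 0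
  · obtain ⟨P, e, hP, hP0, hPa⟩ := hall
    exact final_one hF ha hac hP hP0 hPa
  push Not at hall
  obtain ⟨k', _, _, _, _, _, t, ht, hline, hac'⟩ := exists_big_field a (fun P e hP hPa => by
    by_contra h
    exact hall P e hP h hPa)
  set F' : Fin 3 → MvPolynomial (Fin 3) k' := fun i => map (algebraMap k k') (F i) with hF'
  have hF'e : IsEndo d F' := by
    refine ⟨hF.two_le, fun i => (hF.hom i).map _, fun w hw => ?_⟩
    by_contra hne
    apply step_ne_zero hF (L := k') hne
    funext i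
    have h1 := hw i
    rw [hF', eval_map] at h1
    exact h1
  have hP'h : (X 0 + C t * X 1 + C (t ^ 2) * X 2 : MvPolynomial (Fin 3) k').IsHomogeneous 1 :=
    ((isHomogeneous_X _ _).add ((isHomogeneous_X _ _).C_mul _)).add ((isHomogeneous_X _ _).C_mul _)
  have hP'0 : (X 0 + C t * X 1 + C (t ^ 2) * X 2 : MvPolynomial (Fin 3) k') ≠ 0 := by
    intro h
    have h1 := congrArg (eval (Pi.single 0 1 : Fin 3 → k')) h
    simp at h1
  have h := final_one hF'e ha hac' hP'h hP'0 (by
    simp only [map_add, map_mul, aeval_X, aeval_C, map_pow]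
    exact hline)
  have hmap : (fun i => map (algebraMap k' ℂ) (F' i)) = fun i => map (algebraMap k ℂ) (F i) := by
    funext i
    rw [hF', map_map, ← IsScalarTower.algebraMap_eq]
  rwa [hmap] at h

end Pool.Agent.Helper30.TP
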