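import Pool.Agent.Helper30.TP.Cl
import Pool.Agent.Helper30.TP.Jac

/-!
# The contact near a superattracting cycle
-/

set_option autoImplicit false

namespace Pool.Agent.Helper30.TP

open MvPolynomial
open Pool.Agent.Helper16 (Place IsFunctionField)
open Pool.Agent.Helper36 (step iter)

variable {k K : Type} [Field k] [IsAlgClosed k] [Field K] [Algebra k K]

/-- The order of vanishing of the Jacobian determinant at a point of norm one proportional to
`y`. -/
noncomputable def jo (d : ℕ) (F : Fin 3 → MvPolynomial (Fin 3) k) (b : Place k K)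
    (y : Fin 3 → K) : ℤ :=
  3 * (d - 1) * WithZero.log (nrm b y) - WithZero.log (b.val (aeval y (jf F)))

omit [IsAlgClosed k] in
theorem JLoc_ne {d : ℕ} {F : Fin 3 → MvPolynomial (Fin 3) k} (hF : IsEndo d F)
    {y : Fin 3 → K} (hy : aeval y (jf F) ≠ 0) : y ≠ 0 := by
  rintro rfl
  apply hy
  have h := aeval_smul_hom (jf_hom hF.hom) (0 : K) (0 : Fin 3 → K)
  rw [zero_smul, zero_pow (by have := hF.two_le; omega), zero_mul] at h
  exact h

omit [IsAlgClosed k] in
theorem jo_nonneg {d : ℕ} {F : Fin 3 → MvPolynomial (Fin 3) k} (hF : IsEndo d F) (b : Place k K)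
    {y : Fin 3 → K} (hy : aeval y (jf F) ≠ 0) : 0 ≤ jo d F b y := by
  have h0 : b.val (aeval y (jf F)) ≠ 0 := (map_ne_zero b.val).2 hy
  have hn : nrm b y ≠ 0 := nrm_ne_zero (JLoc_ne hF hy)
  have h1 := val_aeval_le (jf_hom hF.hom) b y
  have h2 := (WithZero.log_le_log h0 (pow_ne_zero _ hn)).2 h1
  rw [WithZero.log_pow] at h2
  have h3 : ((3 * (d - 1) : ℕ) : ℤ) = 3 * ((d : ℤ) - 1) := by
    have := hF.two_le
    push_cast [Nat.cast_sub (show 1 ≤ d by omega)]
    ring
  rw [nsmul_eq_mul, h3] at h2
  unfold jo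
  linarith

theorem jo_support (hK : IsFunctionField k K) {d : ℕ} {F : Fin 3 → MvPolynomial (Fin 3) k}
    (hF : IsEndo d F) {y : Fin 3 → K} (hy : aeval y (jf F) ≠ 0) :
    (Function.support fun b : Place k K => jo d F b y).Finite := by
  refine ((nrm_support hK y (JLoc_ne hF hy)).union (finsum_log hK _ hy).1).subset ?_
  intro b hb
  by_contra h
  rw [Set.mem_union, not_or, Function.notMem_support, Function.notMem_support] at h
  apply hb
  show 3 * ((d : ℤ) - 1) * WithZero.log (nrm b y) - WithZero.log (b.val (aeval y (jf F))) = 0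
  rw [h.1, h.2]
  ring

theorem finsum_jo (hK : IsFunctionField k K) {d : ℕ} {F : Fin 3 → MvPolynomial (Fin 3) k}
    (hF : IsEndo d F) {y : Fin 3 → K} (hy : aeval y (jf F) ≠ 0) :
    ∑ᶠ b : Place k K, jo d F b y = 3 * (d - 1) * ht k y := by
  have h1 := nrm_support hK y (JLoc_ne hF hy)
  obtain ⟨h2, h3⟩ := finsum_log hK _ hy
  unfold jo
  have h4 : (Function.support fun b : Place k K =>
      3 * ((d : ℤ) - 1) * WithZero.log (nrm b y)).Finite := by
    refine h1.subset ?_
    intro b hb h
    apply hb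
    have h' : WithZero.log (nrm b y) = 0 := h
    show 3 * ((d : ℤ) - 1) * WithZero.log (nrm b y) = 0
    rw [h', mul_zero]
  rw [finsum_sub_distrib h4 h2, h3, sub_zero]
  unfold ht
  rw [mul_finsum]

omit [IsAlgClosed k] in
/-- Taylor expansion of first order. -/
theorem JLoc_taylor (b : Place k K) (u : Fin 3 → k) (h : Fin 3 → K)
    (ε : WithZero (Multiplicative ℤ)) (hε : ε ≤ 1) (hh : ∀ i, b.val (h i) ≤ ε)
    (P : MvPolynomial (Fin 3) k) :
    b.val (aeval (fun i => algebraMap k K (u i) + h i) P - algebraMap k K (eval u P) -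
      ∑ j, algebraMap k K (eval u (pderiv j P)) * h j) ≤ ε ^ 2 := by
  have hu : ∀ i, b.val (algebraMap k K (u i) + h i) ≤ 1 := fun i =>
    (b.val.map_add _ _).trans (max_le (b.val_algebraMap_le _) ((hh i).trans hε))
  induction P using MvPolynomial.induction_on with
  | C a => simp
  | add p q hp hq =>
    have e : aeval (fun i => algebraMap k K (u i) + h i) (p + q) - algebraMap k K (eval u (p + q)) -
        ∑ j, algebraMap k K (eval u (pderiv j (p + q))) * h j =
        (aeval (fun i => algebraMap k K (u i) + h i) p - algebraMap k K (eval u p) -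
          ∑ j, algebraMap k K (eval u (pderiv j p)) * h j) +
        (aeval (fun i => algebraMap k K (u i) + h i) q - algebraMap k K (eval u q) -
          ∑ j, algebraMap k K (eval u (pderiv j q)) * h j) := by
      simp only [map_add, add_mul, Finset.sum_add_distrib]
      ring
    rw [e]
    exact (b.val.map_add _ _).trans (max_le hp hq)
  | mul_X p i hp =>
    set A := aeval (fun i => algebraMap k K (u i) + h i) p with hA
    set L := ∑ j, algebraMap k K (eval u (pderiv j p)) * h j with hL
    set c := algebraMap k K (eval u p) with hc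
    have e1 : ∑ j, algebraMap k K (eval u (pderiv j (p * X i))) * h j =
        L * algebraMap k K (u i) + c * h i := by
      have : ∀ j, algebraMap k K (eval u (pderiv j (p * X i))) * h j =
          (algebraMap k K (eval u (pderiv j p)) * h j) * algebraMap k K (u i) +
            c * (if j = i then h i else 0) := by
        intro j
        rw [Derivation.leibniz, pderiv_X]
        by_cases hj : j = i
        · subst hj
          simp only [Pi.single_eq_same, smul_eq_mul, map_add, map_mul, eval_X, mul_one,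
            if_true, hc]
          ring
        · have hj' : (Pi.single j (1 : MvPolynomial (Fin 3) k) : Fin 3 → _) i = 0 :=
            Pi.single_eq_of_ne (Ne.symm hj) _
          simp only [hj', if_neg hj, smul_eq_mul, map_mul, eval_X, mul_zero, zero_add, add_zero]
          ring
      rw [Finset.sum_congr rfl fun j _ => this j, Finset.sum_add_distrib, ← Finset.sum_mul,
        ← Finset.mul_sum, Finset.sum_ite_eq']
      simp [hL]
    have e2 : aeval (fun i => algebraMap k K (u i) + h i) (p * X i) -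
        algebraMap k K (eval u (p * X i)) -
        ∑ j, algebraMap k K (eval u (pderiv j (p * X i))) * h j =
        L * h i + (A - c - L) * (algebraMap k K (u i) + h i) := by
      rw [e1, map_mul (aeval _), map_mul (eval u), aeval_X, eval_X, map_mul (algebraMap k K), ← hA,
        ← hc]
      ring
    rw [e2]
    have hLε : b.val L ≤ ε := by
      rw [hL]
      refine b.val.map_sum_le fun j _ => ?_
      rw [map_mul]
      calc _ ≤ 1 * ε := mul_le_mul' (b.val_algebraMap_le _) (hh j)
        _ = ε := one_mul _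
    refine (b.val.map_add _ _).trans (max_le ?_ ?_)
    · rw [map_mul, pow_two]
      exact mul_le_mul' hLε (hh i)
    · rw [map_mul]
      calc _ ≤ ε ^ 2 * 1 := mul_le_mul' hp (hu i)
        _ = ε ^ 2 := mul_one _

omit [IsAlgClosed k] in
/-- Taylor expansion of the iterates. -/
theorem JLoc_iter (F : Fin 3 → MvPolynomial (Fin 3) k) (b : Place k K) (z : Fin 3 → k)
    (w : Fin 3 → K) (ε : WithZero (Multiplicative ℤ)) (hε : ε ≤ 1) (hw : ∀ i, b.val (w i) ≤ ε)
    (l : ℕ) : ∀ i, b.val (iter F (fun i => algebraMap k K (z i) + w i) l i -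
      algebraMap k K (iter F z l i) - ∑ j, algebraMap k K (mult F z l i j) * w j) ≤ ε ^ 2 := by
  have hε2 : ε ^ 2 ≤ ε := by
    rw [pow_two]
    calc ε * ε ≤ ε * 1 := mul_le_mul' le_rfl hε
      _ = ε := mul_one _
  induction l with
  | zero =>
    intro i
    have e : ∑ j, algebraMap k K (mult F z 0 i j) * w j = w i := by
      have : ∀ j, algebraMap k K (mult F z 0 i j) * w j = if i = j then w j else 0 := by
        intro j
        show algebraMap k K ((1 : Matrix (Fin 3) (Fin 3) k) i j) * w j = _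
        rw [Matrix.one_apply]
        split_ifs <;> simp
      rw [Finset.sum_congr rfl fun j _ => this j, Finset.sum_ite_eq]
      simp
    rw [e, Pool.Agent.Helper36.iter_zero, Pool.Agent.Helper36.iter_zero]
    simp
  | succ l ih =>
    intro i
    set y := iter F (fun i => algebraMap k K (z i) + w i) l with hy
    set u := iter F z l with hu
    set M := mult F z l with hMl
    set r : Fin 3 → K := fun j => y j - algebraMap k K (u j) -
      ∑ m, algebraMap k K (M j m) * w m with hr
    have hr2 : ∀ j, b.val (r j) ≤ ε ^ 2 := ih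
    have hlin : ∀ j, b.val (∑ m, algebraMap k K (M j m) * w m) ≤ ε := by
      intro j
      refine b.val.map_sum_le fun m _ => ?_
      rw [map_mul]
      calc _ ≤ 1 * ε := mul_le_mul' (b.val_algebraMap_le _) (hw m)
        _ = ε := one_mul _
    have hh : ∀ j, b.val (y j - algebraMap k K (u j)) ≤ ε := by
      intro j
      have e : y j - algebraMap k K (u j) = r j + ∑ m, algebraMap k K (M j m) * w m := by
        rw [hr]; ring
      rw [e]
      exact (b.val.map_add _ _).trans (max_le ((hr2 j).trans hε2) (hlin j))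
    have ht := JLoc_taylor b u (fun j => y j - algebraMap k K (u j)) ε hε hh (F i)
    have hyy : (fun j => algebraMap k K (u j) + (y j - algebraMap k K (u j))) = y := by
      funext j; ring
    rw [hyy] at ht
    have e1 : iter F (fun i => algebraMap k K (z i) + w i) (l + 1) i = aeval y (F i) := by
      rw [Pool.Agent.Helper36.iter_succ]; rfl
    have e2 : iter F z (l + 1) i = eval u (F i) := by
      rw [Pool.Agent.Helper36.iter_succ]
      exact congrArg (fun φ => φ (F i)) (MvPolynomial.coe_aeval_eq_eval u)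
    have e3 : ∑ j, algebraMap k K (mult F z (l + 1) i j) * w j =
        ∑ j, algebraMap k K (eval u (pderiv j (F i))) * (∑ m, algebraMap k K (M j m) * w m) := by
      have : ∀ j, algebraMap k K (mult F z (l + 1) i j) * w j =
          ∑ m, algebraMap k K (eval u (pderiv m (F i))) * (algebraMap k K (M m j) * w j) := by
        intro j
        show algebraMap k K ((jac F u * M) i j) * w j = _
        rw [Matrix.mul_apply, map_sum, Finset.sum_mul]
        refine Finset.sum_congr rfl fun m _ => ?_
        rw [map_mul]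
        show algebraMap k K (eval u (pderiv m (F i))) * _ * _ = _
        ring
      rw [Finset.sum_congr rfl fun j _ => this j, Finset.sum_comm]
      refine Finset.sum_congr rfl fun m _ => ?_
      rw [Finset.mul_sum]
    have e4 : iter F (fun i => algebraMap k K (z i) + w i) (l + 1) i -
        algebraMap k K (iter F z (l + 1) i) -
        ∑ j, algebraMap k K (mult F z (l + 1) i j) * w j =
        (aeval y (F i) - algebraMap k K (eval u (F i)) -
          ∑ j, algebraMap k K (eval u (pderiv j (F i))) * (y j - algebraMap k K (u j))) +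
        ∑ j, algebraMap k K (eval u (pderiv j (F i))) * r j := by
      rw [e1, e2, e3, hr]
      simp only [mul_sub, Finset.sum_sub_distrib]
      ring
    rw [e4]
    refine (b.val.map_add _ _).trans (max_le ht ?_)
    refine b.val.map_sum_le fun j _ => ?_
    rw [map_mul]
    calc _ ≤ 1 * ε ^ 2 := mul_le_mul' (b.val_algebraMap_le _) (hr2 j)
      _ = ε ^ 2 := one_mul _

theorem JLoc_det {k : Type} [Field k] (F : Fin 3 → MvPolynomial (Fin 3) k) (z : Fin 3 → k)
    (N : ℕ) : (mult F z N).det = ∏ l ∈ Finset.range N, eval (iter F z l) (jf F) := by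
  induction N with
  | zero => simp [mult]
  | succ N ih =>
    rw [Finset.prod_range_succ, ← ih]
    show (jac F (iter F z N) * mult F z N).det = _
    rw [Matrix.det_mul, eval_jf, mul_comm]

theorem JLoc_euler {k : Type} [Field k] {d : ℕ} {F : Fin 3 → MvPolynomial (Fin 3) k}
    (hF : ∀ i, (F i).IsHomogeneous d) (z : Fin 3 → k) (N : ℕ) :
    (mult F z N).mulVec z = ((d : k) ^ N) • iter F z N := by
  induction N with
  | zero => simp [mult, Pool.Agent.Helper36.iter_zero]
  | succ N ih =>
    show (jac F (iter F z N) * mult F z N).mulVec z = _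
    rw [← Matrix.mulVec_mulVec, ih, Matrix.mulVec_smul]
    have h1 : (jac F (iter F z N)).mulVec (iter F z N) = (d : k) • iter F z (N + 1) := by
      funext i
      have h2 := congrArg (eval (iter F z N)) (hF i).sum_X_mul_pderiv
      rw [map_sum, map_nsmul, nsmul_eq_mul] at h2
      rw [Pool.Agent.Helper36.iter_succ, Pi.smul_apply, smul_eq_mul]
      have h3 : step F (iter F z N) i = eval (iter F z N) (F i) :=
        congrArg (fun φ => φ (F i)) (MvPolynomial.coe_aeval_eq_eval (iter F z N))
      rw [h3, ← h2]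
      show ∑ j, eval (iter F z N) (pderiv j (F i)) * iter F z N j = _
      refine Finset.sum_congr rfl fun j _ => ?_
      rw [map_mul, eval_X, mul_comm]
    rw [h1, smul_smul, pow_succ]

theorem JLoc_root {k : Type} [Field k] {M : Matrix (Fin 3) (Fin 3) k} {c : k}
    (hM : M.charpoly = Polynomial.X ^ 2 * (Polynomial.X - Polynomial.C c)) {t : k} (ht : t ≠ 0)
    {v : Fin 3 → k} (hv : v ≠ 0) (h : M.mulVec v = t • v) : t = c := by
  have h1 : (Matrix.scalar (Fin 3) t - M).det = 0 := by
    rw [← Matrix.exists_mulVec_eq_zero_iff]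
    refine ⟨v, hv, ?_⟩
    rw [Matrix.sub_mulVec, h]
    simp
  rw [← Matrix.eval_charpoly, hM] at h1
  simp only [Polynomial.eval_mul, Polynomial.eval_pow, Polynomial.eval_X, Polynomial.eval_sub,
    Polynomial.eval_C] at h1
  rcases mul_eq_zero.1 h1 with h2 | h2
  · exact absurd (eq_zero_of_pow_eq_zero h2) ht
  · exact sub_eq_zero.1 h2

theorem JLoc_linear {k : Type} [Field k] {M : Matrix (Fin 3) (Fin 3) k} {c c0 μ : k}
    (hM : M.charpoly = Polynomial.X ^ 2 * (Polynomial.X - Polynomial.C c)) {z : Fin 3 → k}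
    (hMz : M.mulVec z = μ • z) (hc0 : c0 ≠ 0) (hμ : μ ≠ 0) (hne : μ ≠ c0) {i0 : Fin 3}
    (hi0 : z i0 ≠ 0) {v : Fin 3 → k} (hv : v i0 = 0)
    (h : crossProduct z (M.mulVec v - c0 • v) = 0) : v = 0 := by
  have hz : z ≠ 0 := fun h0 => hi0 (by rw [h0]; rfl)
  have hμc := JLoc_root hM hμ hz hMz
  by_contra hv0
  -- (M - c0) v = lam z
  have h1 : ∃ lam : k, M.mulVec v - c0 • v = lam • z := by
    by_cases h2 : M.mulVec v - c0 • v = 0
    · exact ⟨0, by rw [h2, zero_smul]⟩
    · obtain ⟨e, -, he⟩ := Cl_peq hz h2 h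
      exact ⟨e, he⟩
  obtain ⟨lam, hlam⟩ := h1
  have hne' : μ - c0 ≠ 0 := sub_ne_zero.2 hne
  set t : k := -(lam / (μ - c0)) with ht
  have h2 : v + t • z ≠ 0 := by
    intro h3
    have h4 := congrFun h3 i0
    simp only [Pi.add_apply, hv, Pi.smul_apply, smul_eq_mul, zero_add, Pi.zero_apply] at h4
    have h5 : t = 0 := (mul_eq_zero.1 h4).resolve_right hi0
    rw [h5, zero_smul, add_zero] at h3
    exact hv0 h3
  have h3 : M.mulVec (v + t • z) = c0 • (v + t • z) := by
    have h4 : M.mulVec v = c0 • v + lam • z := by rw [← hlam]; abel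
    rw [Matrix.mulVec_add, Matrix.mulVec_smul, hMz, h4]
    funext i
    simp only [Pi.add_apply, Pi.smul_apply, smul_eq_mul]
    have h5 : lam = -(t * (μ - c0)) := by
      rw [ht]; field_simp
    rw [h5]; ring
  have h4 := JLoc_root hM hc0 h2 h3
  exact hne (hμc.trans h4.symm)

/-- The matrix of `v ↦ z × N v`. -/
def JLoc_T {R : Type} [CommRing R] (z : Fin 3 → R) (N : Matrix (Fin 3) (Fin 3) R) :
    Matrix (Fin 3) (Fin 3) R :=
  Matrix.of fun i j => ![z 1 * N 2 j - z 2 * N 1 j, z 2 * N 0 j - z 0 * N 2 j,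
    z 0 * N 1 j - z 1 * N 0 j] i

theorem JLoc_T_mulVec {L : Type} [Field L] (z : Fin 3 → L) (N : Matrix (Fin 3) (Fin 3) L)
    (v : Fin 3 → L) : (JLoc_T z N).mulVec v = crossProduct z (N.mulVec v) := by
  obtain ⟨h0, h1, h2⟩ := Cl_cross_apply z (N.mulVec v)
  funext i
  fin_cases i <;> simp only [Fin.zero_eta, Fin.mk_one, Fin.reduceFinMk]
  · rw [h0]; simp [JLoc_T, Matrix.mulVec, dotProduct, Fin.sum_univ_three]; ring
  · rw [h1]; simp [JLoc_T, Matrix.mulVec, dotProduct, Fin.sum_univ_three]; ring
  · rw [h2]; simp [JLoc_T, Matrix.mulVec, dotProduct, Fin.sum_univ_three]; ring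

omit [IsAlgClosed k] in
theorem JLoc_T_map (z : Fin 3 → k) (N : Matrix (Fin 3) (Fin 3) k) :
    JLoc_T (fun i => algebraMap k K (z i)) (N.map (algebraMap k K)) =
      (JLoc_T z N).map (algebraMap k K) := by
  ext i j
  fin_cases i <;> simp [JLoc_T]

/-- The left inverse. -/
theorem JLoc_inv {k : Type} [Field k] (T : Matrix (Fin 3) (Fin 3) k) (i0 : Fin 3)
    (h : ∀ v : Fin 3 → k, v i0 = 0 → T.mulVec v = 0 → v = 0) :
    ∃ S : Matrix (Fin 3) (Fin 3) k, ∀ v : Fin 3 → k, v i0 = 0 → S.mulVec (T.mulVec v) = v := by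
  set V : Submodule k (Fin 3 → k) := LinearMap.ker (LinearMap.proj i0) with hV
  set f : V →ₗ[k] (Fin 3 → k) := T.mulVecLin.comp V.subtype with hf
  have hker : LinearMap.ker f = ⊥ := by
    rw [LinearMap.ker_eq_bot']
    intro m hm
    exact Subtype.ext (h m.1 m.2 hm)
  obtain ⟨g, hg⟩ := LinearMap.exists_leftInverse_of_injective f hker
  refine ⟨LinearMap.toMatrix' (V.subtype.comp g), fun v hv => ?_⟩
  rw [LinearMap.toMatrix'_mulVec]
  have h1 := congrArg (fun φ => φ ⟨v, hv⟩) hg
  exact congrArg Subtype.val h1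

omit [IsAlgClosed k] in
theorem JLoc_inv_map {S T : Matrix (Fin 3) (Fin 3) k} {i0 : Fin 3}
    (h : ∀ v : Fin 3 → k, v i0 = 0 → S.mulVec (T.mulVec v) = v) {w : Fin 3 → K} (hw : w i0 = 0) :
    (S.map (algebraMap k K)).mulVec ((T.map (algebraMap k K)).mulVec w) = w := by
  rw [Matrix.mulVec_mulVec, ← Matrix.map_mul]
  have h1 : ∀ j, j ≠ i0 → ∀ i, (S * T) i j = if i = j then 1 else 0 := by
    intro j hj i
    have h2 := congrFun (h (Pi.single j 1) (Pi.single_eq_of_ne (Ne.symm hj) _)) i
    rw [Matrix.mulVec_mulVec, Matrix.mulVec_single_one] at h2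
    rw [← Pi.single_apply j (1 : k) i, ← h2]
    rfl
  funext i
  show ∑ j, algebraMap k K ((S * T) i j) * w j = w i
  have h2 : ∀ j, algebraMap k K ((S * T) i j) * w j = if i = j then w j else 0 := by
    intro j
    by_cases hj : j = i0
    · subst hj
      rw [hw, mul_zero]
      split_ifs <;> rfl
    · rw [h1 j hj i]
      split_ifs <;> simp
  rw [Finset.sum_congr rfl fun j _ => h2 j, Finset.sum_ite_eq]
  simp

omit [IsAlgClosed k] in
theorem JLoc_nrm_mulVec (b : Place k K) (S : Matrix (Fin 3) (Fin 3) k) (u : Fin 3 → K) :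
    nrm b ((S.map (algebraMap k K)).mulVec u) ≤ nrm b u := by
  refine nrm_le fun i => ?_
  show b.val (∑ j, algebraMap k K (S i j) * u j) ≤ _
  refine b.val.map_sum_le fun j _ => ?_
  rw [map_mul]
  calc _ ≤ 1 * nrm b u := mul_le_mul' (b.val_algebraMap_le _) (val_le_nrm b u j)
    _ = nrm b u := one_mul _

omit [IsAlgClosed k] in
theorem JLoc_lip (F : Fin 3 → MvPolynomial (Fin 3) k) (b : Place k K) (z : Fin 3 → k)
    (w : Fin 3 → K) (ε : WithZero (Multiplicative ℤ)) (hε : ε ≤ 1) (hw : ∀ i, b.val (w i) ≤ ε)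
    (l : ℕ) (P : MvPolynomial (Fin 3) k) :
    b.val (aeval (iter F (fun i => algebraMap k K (z i) + w i) l) P -
      algebraMap k K (eval (iter F z l) P)) ≤ ε := by
  have hε2 : ε ^ 2 ≤ ε := by
    rw [pow_two]
    calc ε * ε ≤ ε * 1 := mul_le_mul' le_rfl hε
      _ = ε := mul_one _
  have hr2 := JLoc_iter F b z w ε hε hw l
  set y := iter F (fun i => algebraMap k K (z i) + w i) l with hy
  set u := iter F z l with hu
  set M := mult F z l with hMl
  have hlin : ∀ j, b.val (∑ m, algebraMap k K (M j m) * w m) ≤ ε := by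
    intro j
    refine b.val.map_sum_le fun m _ => ?_
    rw [map_mul]
    calc _ ≤ 1 * ε := mul_le_mul' (b.val_algebraMap_le _) (hw m)
      _ = ε := one_mul _
  have hh : ∀ j, b.val (y j - algebraMap k K (u j)) ≤ ε := by
    intro j
    have e : y j - algebraMap k K (u j) = (y j - algebraMap k K (u j) -
        ∑ m, algebraMap k K (M j m) * w m) + ∑ m, algebraMap k K (M j m) * w m := by
      ring
    rw [e]
    exact (b.val.map_add _ _).trans (max_le ((hr2 j).trans hε2) (hlin j))
  have ht := JLoc_taylor b u (fun j => y j - algebraMap k K (u j)) ε hε hh P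
  have hyy : (fun j => algebraMap k K (u j) + (y j - algebraMap k K (u j))) = y := by
    funext j; ring
  rw [hyy] at ht
  have e : aeval y P - algebraMap k K (eval u P) = (aeval y P - algebraMap k K (eval u P) -
      ∑ j, algebraMap k K (eval u (pderiv j P)) * (y j - algebraMap k K (u j))) +
      ∑ j, algebraMap k K (eval u (pderiv j P)) * (y j - algebraMap k K (u j)) := by
    ring
  rw [e]
  refine (b.val.map_add _ _).trans (max_le (ht.trans hε2) ?_)
  refine b.val.map_sum_le fun m _ => ?_
  rw [map_mul]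
  calc _ ≤ 1 * ε := mul_le_mul' (b.val_algebraMap_le _) (hh m)
    _ = ε := one_mul _

theorem JLoc_cross {L : Type} [Field L] (z w m r : Fin 3 → L) (a : L) :
    crossProduct (z + w) (a • z + m + r) =
      crossProduct z (m - a • w) + (crossProduct z r + crossProduct w m + crossProduct w r) := by
  simp only [cross_apply]
  funext i
  fin_cases i <;> simp <;> ring

omit [IsAlgClosed k] in
theorem JLoc_norm_sub (b : Place k K) (u v : Fin 3 → K) :
    nrm b (u - v) ≤ max (nrm b u) (nrm b v) :=
  nrm_le fun i => (b.val.map_sub _ _).trans (max_le_max (val_le_nrm b u i) (val_le_nrm b v i))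

omit [IsAlgClosed k] in
theorem JLoc_norm_add (b : Place k K) (u v : Fin 3 → K) :
    nrm b (u + v) ≤ max (nrm b u) (nrm b v) :=
  nrm_le fun i => (b.val.map_add _ _).trans (max_le_max (val_le_nrm b u i) (val_le_nrm b v i))

/-- The normalised case. -/
theorem JLoc_main [CharZero k] {d : ℕ} {F : Fin 3 → MvPolynomial (Fin 3) k} (hF : IsEndo d F)
    {b : Place k K} {z : Fin 3 → k} {i0 : Fin 3} (hi0 : z i0 ≠ 0) {w : Fin 3 → K} (hw0 : w i0 = 0)
    (hw : ∀ i, b.val (w i) < 1) (N : ℕ) (hN : 0 < N) (hper : PEq z (iter F z N)) (c : k)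
    (hM : (mult F z N).charpoly = Polynomial.X ^ 2 * (Polynomial.X - Polynomial.C c))
    {x : Fin 3 → K} (hx : x = fun i => algebraMap k K (z i) + w i)
    (hne : ¬ PEq x (iter F x N)) (hJ : ∀ l < N, aeval (iter F x l) (jf F) ≠ 0) :
    cl b x (iter F x N) ≤ ∑ l ∈ Finset.range N, jo d F b (iter F x l) := by
  have hz : z ≠ 0 := fun h0 => hi0 (by rw [h0]; rfl)
  obtain ⟨c0, hc0, hz1⟩ := hper
  have hwne : w ≠ 0 := by
    intro h
    apply hne
    refine ⟨algebraMap k K c0, by simpa using hc0, ?_⟩
    have hx' : x = fun i => Algebra.ofId k K (z i) := by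
      rw [hx, h]
      funext i
      simp [Algebra.ofId_apply]
    rw [hx', Pool.Agent.Helper36.iter_map, hz1]
    funext i
    simp [Algebra.ofId_apply]
  set ε := nrm b w with hε
  have hε0 : ε ≠ 0 := nrm_ne_zero hwne
  have hε1 : ε < 1 := by
    obtain ⟨i, hi⟩ := exists_val_eq_nrm b w
    rw [hε, ← hi]
    exact hw i
  have hwε : ∀ i, b.val (w i) ≤ ε := fun i => val_le_nrm b w i
  have hε2 : ε ^ 2 < ε := by
    by_contra h
    rw [not_lt, pow_two] at h
    have h1 : ε * 1 ≤ ε * ε := by rwa [mul_one]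
    have h2 := le_of_mul_le_mul_left h1 (zero_lt_iff.2 hε0)
    exact absurd h2 (not_le.2 hε1)
  have hnx : nrm b x = 1 := by
    refine Cl_nrm_red hz fun i => ?_
    rw [hx]
    show b.val (algebraMap k K (z i) + w i - algebraMap k K (z i)) < 1
    rw [add_sub_cancel_left]
    exact hw i
  have hnl : ∀ l, nrm b (iter F x l) = 1 := by
    intro l
    rw [nrm_iter hF, hnx, one_pow]
  set M := mult F z N with hMdef
  have hEul : M.mulVec z = ((d : k) ^ N * c0) • z := by
    rw [hMdef, JLoc_euler hF.hom, hz1, smul_smul]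
  have hd2 := hF.two_le
  have hμ : (d : k) ^ N * c0 ≠ 0 :=
    mul_ne_zero (pow_ne_zero _ (Nat.cast_ne_zero.2 (by omega))) hc0
  have hμne : (d : k) ^ N * c0 ≠ c0 := by
    intro h
    have h1 : (d : k) ^ N = 1 := mul_right_cancel₀ hc0 (by rw [h, one_mul])
    have h2 : d ^ N = 1 := by exact_mod_cast h1
    have h3 := Nat.one_lt_pow (by omega : N ≠ 0) (by omega : 1 < d)
    omega
  have hsub : ∀ {L : Type} [Field L] (A : Matrix (Fin 3) (Fin 3) L) (a : L) (v : Fin 3 → L),
      (A - a • (1 : Matrix (Fin 3) (Fin 3) L)).mulVec v = A.mulVec v - a • v := by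
    intro L _ A a v
    rw [Matrix.sub_mulVec, Matrix.smul_mulVec, Matrix.one_mulVec]
  set T := JLoc_T z (M - c0 • (1 : Matrix (Fin 3) (Fin 3) k)) with hT
  obtain ⟨S, hS⟩ := JLoc_inv T i0 fun v hv h => by
    rw [hT, JLoc_T_mulVec, hsub] at h
    exact JLoc_linear hM hEul hc0 hμ hμne hi0 hv h
  have hSw := JLoc_inv_map (K := K) hS hw0
  set z' : Fin 3 → K := fun i => algebraMap k K (z i) with hz'
  set m : Fin 3 → K := (M.map (algebraMap k K)).mulVec w with hm
  have hTw : (T.map (algebraMap k K)).mulVec w = crossProduct z' (m - algebraMap k K c0 • w) := by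
    rw [hT, ← JLoc_T_map, JLoc_T_mulVec]
    congr 1
    have e : (M - c0 • (1 : Matrix (Fin 3) (Fin 3) k)).map (algebraMap k K) =
        M.map (algebraMap k K) - algebraMap k K c0 • (1 : Matrix (Fin 3) (Fin 3) K) := by
      ext i j
      simp only [Matrix.map_apply, Matrix.sub_apply, Matrix.smul_apply, smul_eq_mul, map_sub,
        map_mul, Matrix.one_apply]
      split_ifs <;> simp
    rw [e, hsub]
  have h1 : ε ≤ nrm b ((T.map (algebraMap k K)).mulVec w) := by
    have h2 := JLoc_nrm_mulVec b S ((T.map (algebraMap k K)).mulVec w)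
    rwa [hSw] at h2
  set Y := iter F x N with hY
  set r : Fin 3 → K := fun i => Y i - algebraMap k K (iter F z N i) -
    ∑ j, algebraMap k K (M i j) * w j with hr
  have hr2 : nrm b r ≤ ε ^ 2 := by
    refine nrm_le fun i => ?_
    have h2 := JLoc_iter F b z w ε hε1.le hwε N i
    rw [← hx] at h2
    exact h2
  have hYe : Y = algebraMap k K c0 • z' + m + r := by
    funext i
    have h2 : iter F z N i = c0 * z i := by rw [hz1]; rfl
    show Y i = algebraMap k K c0 * algebraMap k K (z i) + (∑ j, algebraMap k K (M i j) * w j) +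
      (Y i - algebraMap k K (iter F z N i) - ∑ j, algebraMap k K (M i j) * w j)
    rw [h2, map_mul]
    ring
  have hxe : x = z' + w := by rw [hx]; rfl
  have hcross := JLoc_cross z' w m r (algebraMap k K c0)
  rw [← hYe, ← hxe, ← hTw] at hcross
  have hnm : nrm b m ≤ ε := JLoc_nrm_mulVec b M w
  have hnz : nrm b z' ≤ 1 := nrm_le fun i => b.val_algebraMap_le _
  have hE : nrm b (crossProduct z' r + crossProduct w m + crossProduct w r) ≤ ε ^ 2 := by
    refine (JLoc_norm_add b _ _).trans (max_le ((JLoc_norm_add b _ _).trans (max_le ?_ ?_)) ?_)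
    · calc _ ≤ nrm b z' * nrm b r := Cl_nrm_cross_le b _ _
        _ ≤ 1 * ε ^ 2 := mul_le_mul' hnz hr2
        _ = ε ^ 2 := one_mul _
    · calc _ ≤ nrm b w * nrm b m := Cl_nrm_cross_le b _ _
        _ ≤ ε * ε := mul_le_mul' le_rfl hnm
        _ = ε ^ 2 := (pow_two _).symm
    · calc _ ≤ nrm b w * nrm b r := Cl_nrm_cross_le b _ _
        _ ≤ 1 * ε ^ 2 := mul_le_mul' hε1.le hr2
        _ = ε ^ 2 := one_mul _
  have h2 : ε ≤ nrm b (crossProduct x Y) := by
    have e : (T.map (algebraMap k K)).mulVec w = crossProduct x Y -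
        (crossProduct z' r + crossProduct w m + crossProduct w r) := by
      rw [hcross, add_sub_cancel_right]
    rw [e] at h1
    rcases le_max_iff.1 (h1.trans (JLoc_norm_sub b _ _)) with h3 | h3
    · exact h3
    · exact absurd (h3.trans hE) (not_le.2 hε2)
  have hxne : x ≠ 0 := by
    intro h
    rw [h, nrm_zero] at hnx
    exact zero_ne_one hnx
  have hYne : Y ≠ 0 := ptHeight_iter_ne_zero hF b x hxne N
  have h3 : WithZero.log ε ≤ WithZero.log (nrm b (crossProduct x Y)) :=
    (WithZero.log_le_log hε0 (nrm_ne_zero (cross_ne_zero hxne hYne hne))).2 h2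
  have h4 : cl b x Y ≤ - WithZero.log ε := by
    unfold cl
    rw [hnx, hnl N, WithZero.log_one]
    omega
  refine h4.trans ?_
  -- the Jacobian
  have hdet : M.det = 0 := by
    rw [Matrix.det_eq_sign_charpoly_coeff, hM, Polynomial.coeff_zero_eq_eval_zero]
    simp
  rw [hMdef, JLoc_det, Finset.prod_eq_zero_iff] at hdet
  obtain ⟨l0, hl0, hl⟩ := hdet
  have h5 : - WithZero.log ε ≤ jo d F b (iter F x l0) := by
    unfold jo
    rw [hnl l0, WithZero.log_one, mul_zero, zero_sub, neg_le_neg_iff]
    have h6 := JLoc_lip F b z w ε hε1.le hwε l0 (jf F)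
    rw [hl, map_zero, sub_zero, ← hx] at h6
    exact (WithZero.log_le_log ((map_ne_zero b.val).2 (hJ l0 (Finset.mem_range.1 hl0))) hε0).2 h6
  refine h5.trans ?_
  exact Finset.single_le_sum (f := fun l => jo d F b (iter F x l))
    (fun l hl => jo_nonneg hF b (hJ l (Finset.mem_range.1 hl))) hl0

omit [IsAlgClosed k] in
theorem JLoc_cl_smul (b : Place k K) {x y : Fin 3 → K} (hx : x ≠ 0) (hy : y ≠ 0)
    (h : ¬ PEq x y) {s t : K} (hs : s ≠ 0) (ht : t ≠ 0) :
    cl b (s • x) (t • y) = cl b x y := by
  have h3 : crossProduct (s • x) (t • y) = (s * t) • crossProduct x y := by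
    rw [map_smul (crossProduct (s • x)) t y, map_smul crossProduct s x, LinearMap.smul_apply,
      smul_smul, mul_comm]
  unfold cl
  rw [h3, log_nrm_smul b hs hx, log_nrm_smul b ht hy,
    log_nrm_smul b (mul_ne_zero hs ht) (cross_ne_zero hx hy h), map_mul,
    WithZero.log_mul (by simpa using hs) (by simpa using ht)]
  ring

omit [IsAlgClosed k] in
theorem JLoc_jo_smul {d : ℕ} {F : Fin 3 → MvPolynomial (Fin 3) k} (hF : IsEndo d F)
    (b : Place k K) {y : Fin 3 → K} (hy : aeval y (jf F) ≠ 0) {s : K} (hs : s ≠ 0) :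
    jo d F b (s • y) = jo d F b y := by
  unfold jo
  rw [aeval_smul_hom (jf_hom hF.hom), log_nrm_smul b hs (JLoc_ne hF hy), map_mul,
    WithZero.log_mul (by simpa using pow_ne_zero _ hs) (by simpa using hy), map_pow,
    WithZero.log_pow]
  have h3 : ((3 * (d - 1) : ℕ) : ℤ) = 3 * ((d : ℤ) - 1) := by
    have := hF.two_le
    push_cast [Nat.cast_sub (show 1 ≤ d by omega)]
    ring
  rw [nsmul_eq_mul, h3]
  ring

theorem cl_le_jo [CharZero k] {d : ℕ} {F : Fin 3 → MvPolynomial (Fin 3) k} (hF : IsEndo d F)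
    {b : Place k K}
    {x : Fin 3 → K} (hx : x ≠ 0) {z : Fin 3 → k} (hb : Red b x z) (N : ℕ) (hN : 0 < N)
    (hper : PEq z (iter F z N)) (c : k)
    (hM : (mult F z N).charpoly = Polynomial.X ^ 2 * (Polynomial.X - Polynomial.C c))
    (hne : ¬ PEq x (iter F x N)) (hJ : ∀ l < N, aeval (iter F x l) (jf F) ≠ 0) :
    cl b x (iter F x N) ≤ ∑ l ∈ Finset.range N, jo d F b (iter F x l) := by
  obtain ⟨hz, s, hs, h1⟩ := hb
  obtain ⟨i0, hi0⟩ : ∃ i, z i ≠ 0 := by
    by_contra h
    push Not at h
    exact hz (funext h)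
  have hzi : algebraMap k K (z i0) ≠ 0 := by simpa using hi0
  have hu1 : b.val (s * x i0) = 1 := by
    refine le_antisymm ?_ ?_
    · have h3 : s * x i0 = (s * x i0 - algebraMap k K (z i0)) + algebraMap k K (z i0) := by ring
      rw [h3]
      exact (b.val.map_add _ _).trans (max_le (h1 i0).le (b.val_algebraMap_le _))
    · by_contra hlt
      rw [not_le] at hlt
      have h3 : algebraMap k K (z i0) = s * x i0 - (s * x i0 - algebraMap k K (z i0)) := by ring
      have h4 : b.val (algebraMap k K (z i0)) < 1 := by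
        rw [h3]
        exact (b.val.map_sub _ _).trans_lt (max_lt hlt (h1 i0))
      rw [b.triv (z i0) hi0] at h4
      exact lt_irrefl _ h4
  have hune : s * x i0 ≠ 0 := by
    intro h
    rw [h, map_zero] at hu1
    exact zero_ne_one hu1
  set t : K := s * (algebraMap k K (z i0) / (s * x i0)) with ht
  have ht0 : t ≠ 0 := mul_ne_zero hs (div_ne_zero hzi hune)
  have hti0 : t * x i0 = algebraMap k K (z i0) := by
    rw [ht]
    have : s * (algebraMap k K (z i0) / (s * x i0)) * x i0 =
        algebraMap k K (z i0) / (s * x i0) * (s * x i0) := by ring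
    rw [this, div_mul_cancel₀ _ hune]
  have hti : ∀ i, b.val (t * x i - algebraMap k K (z i)) < 1 := by
    intro i
    have e : t * x i - algebraMap k K (z i) =
        (s * x i - algebraMap k K (z i)) - (s * x i0 - algebraMap k K (z i0)) *
          (s * x i0)⁻¹ * (s * x i) := by
      have hxi0 : x i0 ≠ 0 := right_ne_zero_of_mul hune
      rw [ht]
      field_simp
      ring
    rw [e]
    refine (b.val.map_sub _ _).trans_lt (max_lt (h1 i) ?_)
    have h3 : b.val (s * x i) ≤ 1 := by
      have h4 : s * x i = (s * x i - algebraMap k K (z i)) + algebraMap k K (z i) := by ring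
      rw [h4]
      exact (b.val.map_add _ _).trans (max_le (h1 i).le (b.val_algebraMap_le _))
    rw [map_mul, map_mul, map_inv₀, hu1, inv_one, mul_one]
    exact mul_lt_one_of_lt_of_le (h1 i0) h3
  set w : Fin 3 → K := fun i => t * x i - algebraMap k K (z i) with hw
  have hw0 : w i0 = 0 := by
    rw [hw]
    show t * x i0 - algebraMap k K (z i0) = 0
    rw [hti0, sub_self]
  have hxe : t • x = fun i => algebraMap k K (z i) + w i := by
    funext i
    rw [hw]
    show t * x i = algebraMap k K (z i) + (t * x i - algebraMap k K (z i))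
    ring
  have hit : ∀ l, iter F (t • x) l = t ^ d ^ l • iter F x l := fun l => iter_smul hF t x l
  have hyne : iter F x N ≠ 0 := ptHeight_iter_ne_zero hF b x hx N
  have hmain := JLoc_main (x := t • x) hF hi0 hw0 hti N hN hper c hM hxe ?_ ?_
  · rw [hit N, JLoc_cl_smul b hx hyne hne ht0 (pow_ne_zero _ ht0)] at hmain
    refine hmain.trans (le_of_eq ?_)
    refine Finset.sum_congr rfl fun l hl => ?_
    rw [hit l, JLoc_jo_smul hF b (hJ l (Finset.mem_range.1 hl)) (pow_ne_zero _ ht0)]
  · intro h
    rw [hit N] at h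
    apply hne
    obtain ⟨e, he, h2⟩ := h
    refine ⟨(t ^ d ^ N)⁻¹ * (e * t), mul_ne_zero (inv_ne_zero (pow_ne_zero _ ht0))
      (mul_ne_zero he ht0), ?_⟩
    rw [← smul_smul, ← smul_smul, ← h2, smul_smul, inv_mul_cancel₀ (pow_ne_zero _ ht0), one_smul]
  · intro l hl
    rw [hit l, aeval_smul_hom (jf_hom hF.hom)]
    exact mul_ne_zero (pow_ne_zero _ (pow_ne_zero _ ht0)) (hJ l hl)

end Pool.Agent.Helper30.TP
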