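import Pool.Agent.Helper30.TP.MainDet

/-!
# No place over a preperiodic point: the form is defined over `k`
-/

set_option autoImplicit false

namespace Pool.Agent.Helper30.TP

open MvPolynomial
open Pool.Agent.Helper16 (Place IsFunctionField)
open Pool.Agent.Helper36 (step iter iter_zero iter_succ iter_succ' iter_add iter_map)

variable {k K : Type} [Field k] [Field K] [Algebra k K]

open Classical in
theorem aeval_det_eq_zero {F : Fin 3 → MvPolynomial (Fin 3) k} {g' : MvPolynomial (Fin 3) K}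
    {D D' : ℕ} (hg' : g'.IsHomogeneous D') (hg0 : g' ≠ 0) (hD : D' < D) (l : Mon D)
    (j : Mon D → ℕ) (u : Fin 3 → K) (hj : ∀ s, s ≠ l → eval (iter F u (j s)) g' = 0) :
    aeval u (dmat F l j).det = 0 := by
  obtain ⟨t, ht, ht0⟩ : ∃ t, D' + t = D ∧ 0 < t := ⟨D - D', by omega, by omega⟩
  obtain ⟨q, hq, hq0, hql⟩ : ∃ q : MvPolynomial (Fin 3) K, q.IsHomogeneous t ∧ q ≠ 0 ∧
      coeff (l : Fin 3 →₀ ℕ) (g' * q) = 0 := by
    by_cases hA : coeff (l : Fin 3 →₀ ℕ) (g' * X 0 ^ t) = 0
    · exact ⟨X 0 ^ t, isHomogeneous_X_pow _ _, pow_ne_zero _ (X_ne_zero _), hA⟩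
    · refine ⟨C (coeff (l : Fin 3 →₀ ℕ) (g' * X 1 ^ t)) * X 0 ^ t -
        C (coeff (l : Fin 3 →₀ ℕ) (g' * X 0 ^ t)) * X 1 ^ t, ?_, ?_, ?_⟩
      · exact ((isHomogeneous_X_pow _ _).C_mul _).sub ((isHomogeneous_X_pow _ _).C_mul _)
      · intro h
        have h1 := congrArg (coeff (Finsupp.single 1 t)) h
        rw [coeff_sub, coeff_C_mul, coeff_C_mul, coeff_X_pow, coeff_X_pow, if_pos rfl, if_neg,
          mul_zero, mul_one, zero_sub, coeff_zero, neg_eq_zero] at h1
        · exact hA h1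
        · intro h2
          have := congrArg (fun f : Fin 3 →₀ ℕ => f 1) h2
          simp at this
          omega
      · rw [mul_sub, coeff_sub, mul_left_comm, coeff_C_mul, mul_left_comm, coeff_C_mul]
        ring
  have hP : (g' * q).IsHomogeneous D := ht ▸ hg'.mul hq
  have hP0 : g' * q ≠ 0 := mul_ne_zero hg0 hq0
  rw [aeval_det_dmat, ← Matrix.exists_mulVec_eq_zero_iff]
  refine ⟨fun m => coeff (m : Fin 3 →₀ ℕ) (g' * q), ?_, ?_⟩
  · intro h
    apply hP0
    ext m
    rw [coeff_zero]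
    by_contra hm
    exact hm (congrFun h ⟨m, mem_mon (hom_degree hP hm)⟩)
  · funext s
    rw [Matrix.mulVec, dotProduct, Pi.zero_apply]
    by_cases hs : s = l
    · subst hs
      simp only [Matrix.of_apply, if_true]
      rw [Finset.sum_eq_single s]
      · rw [hql, mul_zero]
      · intro m _ hm
        rw [Pi.single_eq_of_ne hm, zero_mul]
      · intro h; exact absurd (Finset.mem_univ s) h
    · simp only [Matrix.of_apply, if_neg hs]
      have h1 := eval_eq_sum_mval hP (iter F u (j s))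
      rw [map_mul, hj s hs, zero_mul] at h1
      rw [h1]
      exact Finset.sum_congr rfl fun m _ => mul_comm _ _

theorem exists_scale (b : Place k K) {x : Fin 3 → K} (hx : x ≠ 0) :
    ∃ c : K, c ≠ 0 ∧ nrm b (c • x) = 1 := by
  obtain ⟨i, _, hi⟩ := Finset.exists_mem_eq_sup (Finset.univ : Finset (Fin 3))
      Finset.univ_nonempty (fun i => b.val (x i))
  have h1 : nrm b x = b.val (x i) := hi
  have h2 : x i ≠ 0 := by
    intro h
    rw [h, map_zero] at h1
    exact nrm_ne_zero hx h1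
  refine ⟨(x i)⁻¹, inv_ne_zero h2, ?_⟩
  rw [nrm_smul, h1, ← map_mul, inv_mul_cancel₀ h2, map_one]

theorem val_aeval_le_one (b : Place k K) (P : MvPolynomial (Fin 3) k) {y : Fin 3 → K}
    (hy : ∀ i, b.val (y i) ≤ 1) : b.val (aeval y P) ≤ 1 := by
  have h : aeval y P ∈ b.ring := by
    rw [aeval_def, eval₂_eq]
    apply Subalgebra.sum_mem
    intro m _
    apply Subalgebra.mul_mem
    · exact b.ring.algebraMap_mem _
    · exact Subalgebra.prod_mem _ fun i _ => Subalgebra.pow_mem _ (hy i) _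
  exact h

theorem val_mval_le_one (b : Place k K) {D : ℕ} (m : Mon D) {y : Fin 3 → K}
    (hy : ∀ i, b.val (y i) ≤ 1) : b.val (mval y m) ≤ 1 := by
  unfold mval
  rw [map_prod]
  apply Finset.prod_le_one'
  intro i _
  rw [map_pow]
  exact pow_le_one₀ zero_le (hy i)

theorem local_estimate [IsAlgClosed k] (hK : IsFunctionField k K) {d : ℕ}
    {F : Fin 3 → MvPolynomial (Fin 3) k} (hF : IsEndo d F) {x : Fin 3 → K} (hx : x ≠ 0)
    (hxc : ¬ IsConst k x) {g g' : MvPolynomial (Fin 3) K} {D D' : ℕ} (hg : g.IsHomogeneous D)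
    (hg0 : g ≠ 0) (hg' : g'.IsHomogeneous D') (hg'0 : g' ≠ 0) (hD : D' < D) {c : K}
    (hcomp : comp F g' = C c * g) (b : Place k K) (a : ℕ)
    (hstar : ∀ (l : Mon D), (∀ m : Mon D, b.val (g.coeff m) ≤ b.val (g.coeff l)) →
        ∀ (m₀ : ℕ) (G : Mon D → K), (∀ m, b.val (G m) ≤ 1) → G l = 0 → (∃ m, b.val (G m) = 1) →
          ∃ n, m₀ ≤ n ∧ eval (iter F x n) g = 0 ∧
            WithZero.exp (-(a : ℤ)) * nrm b (iter F x n) ^ D ≤
              b.val (∑ m, G m * mval (iter F x n) m))
    (m₁ : ℕ) {φ : MvPolynomial (Fin 3) k} {e : ℕ} (hφ : φ.IsHomogeneous e) (hirr : Irreducible φ)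
    (hφ0 : aeval (iter F x (m₁ + 1)) φ = 0) :
    WithZero.exp (-((Fintype.card (Mon D) * a : ℕ) : ℤ)) * nrm b (iter F x m₁) ^ e ≤
      b.val (aeval (iter F x m₁) φ) := by
  classical
  -- the index `l`
  have hne : Nonempty (Mon D) := by
    obtain ⟨m, hm⟩ := ne_zero_iff.1 hg0
    exact ⟨⟨m, mem_mon (hom_degree hg hm)⟩⟩
  obtain ⟨l, hl⟩ := Finite.exists_max (fun m : Mon D => b.val (g.coeff m))
  have hgl : g.coeff (l : Fin 3 →₀ ℕ) ≠ 0 := by
    intro h0
    obtain ⟨m, hm⟩ := ne_zero_iff.1 hg0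
    have h1 := hl ⟨m, mem_mon (hom_degree hg hm)⟩
    simp only [h0, map_zero] at h1
    exact hm ((map_eq_zero b.val).1 (le_antisymm h1 zero_le))
  -- the scaled point
  obtain ⟨s, hs0, hs⟩ := exists_scale b (iter_ne_zero hF hx m₁)
  set y := s • iter F x m₁ with hy
  have hyint : ∀ n i, b.val (iter F y n i) ≤ 1 := by
    intro n i
    refine (val_le_nrm b _ i).trans ?_
    rw [nrm_iter hF, hs, one_pow]
  have hiter : ∀ n, iter F y n = s ^ d ^ n • iter F x (n + m₁) := by
    intro n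
    rw [hy, iter_smul hF, iter_add]
  let T : Set (Mon D → K) := {r | ∃ n, eval (iter F x (n + m₁)) g = 0 ∧
    r = fun m => mval (iter F y n) m}
  obtain ⟨r, hrl, hrs, hrdet⟩ := greedy b.val l (fun m => g.coeff (m : Fin 3 →₀ ℕ) /
      g.coeff (l : Fin 3 →₀ ℕ)) (by
        intro m
        rw [map_div₀]
        exact (div_le_one₀ (zero_lt_iff.2 ((map_ne_zero b.val).2 hgl))).2 (hl m))
      (div_self hgl) T (by
        rintro r ⟨n, hn, rfl⟩
        refine ⟨fun m => val_mval_le_one b m (hyint n), ?_⟩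
        have h1 : eval (iter F y n) g = 0 := by
          rw [hiter, eval_smul_hom hg, hn, mul_zero]
        rw [eval_eq_sum_mval hg] at h1
        calc ∑ m : Mon D, g.coeff (m : Fin 3 →₀ ℕ) / g.coeff (l : Fin 3 →₀ ℕ) *
              mval (iter F y n) m
            = (g.coeff (l : Fin 3 →₀ ℕ))⁻¹ * ∑ m : Mon D, g.coeff (m : Fin 3 →₀ ℕ) *
              mval (iter F y n) m := by
              rw [Finset.mul_sum]
              exact Finset.sum_congr rfl fun m _ => by ring
          _ = 0 := by rw [h1, mul_zero]) a (by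
        intro G hG hGl hG1
        obtain ⟨n, hn, hgn, hle⟩ := hstar l hl m₁ G hG hGl hG1
        obtain ⟨j, rfl⟩ := Nat.exists_eq_add_of_le' hn
        refine ⟨fun m => mval (iter F y j) m, ⟨j, hgn, rfl⟩, ?_⟩
        have h1 : ∑ m : Mon D, G m * mval (iter F y j) m =
            (s ^ d ^ j) ^ D * ∑ m : Mon D, G m * mval (iter F x (j + m₁)) m := by
          rw [Finset.mul_sum]
          refine Finset.sum_congr rfl fun m _ => ?_
          rw [hiter, mval_smul]; ring
        rw [h1, map_mul, map_pow]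
        have h2 : b.val (s ^ d ^ j) * nrm b (iter F x (j + m₁)) = 1 := by
          rw [← nrm_smul, ← hiter, nrm_iter hF, hs, one_pow]
        calc WithZero.exp (-(a : ℤ)) = b.val (s ^ d ^ j) ^ D *
              (WithZero.exp (-(a : ℤ)) * nrm b (iter F x (j + m₁)) ^ D) := by
              rw [mul_left_comm, ← mul_pow, h2, one_pow, mul_one]
          _ ≤ _ := mul_le_mul_right hle _)
  -- the exponents
  have hex : ∀ s' : Mon D, ∃ n, s' ≠ l → eval (iter F x (n + m₁)) g = 0 ∧
      r s' = fun m => mval (iter F y n) m := by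
    intro s'
    by_cases h : s' = l
    · exact ⟨0, fun h' => absurd h h'⟩
    · obtain ⟨n, hn⟩ := hrs s' h
      exact ⟨n, fun _ => hn⟩
  choose j hj using hex
  have hdet1 : aeval y (dmat F l j).det = (Matrix.of r).det := by
    rw [aeval_det_dmat]
    congr 1
    ext s' m
    rw [Matrix.of_apply, Matrix.of_apply]
    split_ifs with h
    · rw [h, hrl]
    · rw [(hj s' h).2]
  have hdet2 : aeval (iter F x (m₁ + 1)) (dmat F l j).det = 0 := by
    apply aeval_det_eq_zero hg' hg'0 hD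
    intro s' hs'
    have h1 := (hj s' hs').1
    have h2 : iter F (iter F x (m₁ + 1)) (j s') = step F (iter F x (j s' + m₁)) := by
      rw [← iter_add, ← iter_succ]
      congr 1
    rw [h2, ← eval_comp, hcomp, map_mul, h1, mul_zero]
  obtain ⟨t, ht⟩ := det_dmat_hom hF l j
  obtain ⟨ψ, hψ⟩ := dvd_compk hK hF hx hxc hφ ht hirr (m₁ + 1) hφ0 hdet2
  have h3 : WithZero.exp (-((Fintype.card (Mon D) * a : ℕ) : ℤ)) ≤ b.val (aeval y φ) := by
    refine hrdet.trans ?_
    rw [← hdet1, hψ, map_mul, map_mul]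
    exact mul_le_of_le_one_right zero_le (val_aeval_le_one b ψ fun i => by
      have := hyint 0 i
      rwa [iter_zero] at this)
  have h4 : aeval y φ = s ^ e * aeval (iter F x m₁) φ := aeval_smul_hom hφ s _
  have h5 : b.val s * nrm b (iter F x m₁) = 1 := by rw [← nrm_smul, ← hy, hs]
  have h6 : b.val (aeval (iter F x m₁) φ) = nrm b (iter F x m₁) ^ e * b.val (aeval y φ) := by
    rw [h4, map_mul, map_pow, ← mul_assoc, ← mul_pow, mul_comm (nrm b _), h5, one_pow, one_mul]
  rw [h6, mul_comm]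
  exact mul_le_mul_right h3 _

theorem main_overK [IsAlgClosed k] (hK : IsFunctionField k K) {d : ℕ}
    {F : Fin 3 → MvPolynomial (Fin 3) k} (hF : IsEndo d F) {x : Fin 3 → K} (hx : x ≠ 0)
    (hxc : ¬ IsConst k x) (hb : ∀ (b : Place k K) (z : Fin 3 → k), Red b x z → ¬ Preper F z)
    {U : Ultrafilter ℕ} (hU : Free U) {g : MvPolynomial (Fin 3) K} {D : ℕ}
    (hg : Gen (iter F x) U g D) : OverK k g := by
  classical
  by_contra hmov
  obtain ⟨U', g₁, D₁, g₂, D₂, c, hU', hg₁, hm₁, hg₂, hD₂, hg₂0, hc, hcomp, hD⟩ :=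
    exists_total hK hF hx hxc hU hg hmov
  have hdd := hF.two_le
  have hlt : D₂ < D₁ := by rw [hD]; nlinarith
  obtain ⟨a, ha, hstar⟩ := star hK hF x hx hb hU' hg₁
  have hg₁0 : g₁ ≠ 0 := hg₁.irreducible.ne_zero
  set M : ℕ := Fintype.card (Mon D₁)
  set A : ℤ := ∑ᶠ b : Place k K, (a b : ℤ) with hA
  -- choose the time
  obtain ⟨m, hm⟩ : ∃ m : ℕ, (M : ℤ) * A < (d : ℤ) ^ m := by
    obtain ⟨m, hm⟩ := exists_nat_gt ((M : ℤ) * A)
    have h1 : (m : ℤ) < (d : ℤ) ^ m := by exact_mod_cast Nat.lt_pow_self (by omega : 1 < d)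
    exact ⟨m, by exact lt_trans (by exact_mod_cast hm) h1⟩
  obtain ⟨e, φ, hφ, he, hφi, hφ0⟩ := exists_irreducible_form hK (iter F x (m + 1))
    (iter_ne_zero hF hx _)
  -- `φ` does not vanish at `x_m`
  have hne : aeval (iter F x m) φ ≠ 0 := by
    intro h0
    have h1 : φ ∣ compk F φ := dvd_compk hK hF hx hxc hφ (compk_hom hF hφ) hφi m h0 (by
      rw [aeval_compk, ← iter_succ]; exact hφ0)
    obtain ⟨q, hq⟩ := h1
    have h2 : ∀ n, aeval (iter F x (m + n)) φ = 0 := by
      intro n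
      induction n with
      | zero => exact h0
      | succ n ih =>
        rw [← add_assoc, iter_succ, ← aeval_compk, hq, map_mul, ih, zero_mul]
    have h3 : g₁ ∣ map (algebraMap k K) φ := by
      apply hg₁.dvd' (hφ.map _)
      filter_upwards [hU' m] with n hn
      obtain ⟨j, rfl⟩ := Nat.exists_eq_add_of_le hn
      rw [eval_map_k]
      exact h2 j
    exact hm₁ (overK_of_dvd_map hK hφi.ne_zero h3)
  have hloc : ∀ b : Place k K, -((M * a b : ℕ) : ℤ) + e * WithZero.log (nrm b (iter F x m)) ≤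
      WithZero.log (b.val (aeval (iter F x m) φ)) := by
    intro b
    have h1 := local_estimate hK hF hx hxc hg₁.hom hg₁0 hg₂ hg₂0 hlt hcomp b (a b)
      (fun l hl => hstar b l hl) m hφ hφi hφ0
    have h2 : nrm b (iter F x m) ≠ 0 := nrm_ne_zero (iter_ne_zero hF hx m)
    have h3 := (WithZero.log_le_log (mul_ne_zero WithZero.exp_ne_zero (pow_ne_zero _ h2))
      ((map_ne_zero b.val).2 hne)).2 h1
    rw [WithZero.log_mul WithZero.exp_ne_zero (pow_ne_zero _ h2), WithZero.log_exp,
      WithZero.log_pow, nsmul_eq_mul] at h3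
    exact h3
  obtain ⟨hfin, hsum⟩ := finsum_log hK (aeval (iter F x m) φ) hne
  have hfin2 := nrm_support hK (iter F x m) (iter_ne_zero hF hx m)
  have hfa : (Function.support fun b : Place k K => (a b : ℤ)).Finite :=
    ha.subset fun b hb => by
      rw [Function.mem_support] at hb ⊢
      exact_mod_cast hb
  have h1 : ∑ᶠ b : Place k K, (-((M * a b : ℕ) : ℤ) + e * WithZero.log (nrm b (iter F x m))) =
      -((M : ℤ) * A) + e * ht k (iter F x m) := by
    rw [finsum_add_distrib, hA, ht, mul_finsum, mul_finsum, finsum_neg_distrib]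
    · push_cast
      rfl
    · exact hfa.subset fun b hb => by
        rw [Function.mem_support] at hb ⊢
        intro h
        apply hb
        have : a b = 0 := by exact_mod_cast h
        simp [this]
    · exact hfin2.subset fun b hb => by
        rw [Function.mem_support] at hb ⊢
        intro h
        apply hb
        simp [h]
  have h2 : ∑ᶠ b : Place k K, (-((M * a b : ℕ) : ℤ) + e * WithZero.log (nrm b (iter F x m))) ≤
      ∑ᶠ b : Place k K, WithZero.log (b.val (aeval (iter F x m) φ)) := by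
    refine finsum_le_finsum' ?_ hfin hloc
    refine (hfa.union hfin2).subset fun b hb => ?_
    rw [Function.mem_support] at hb
    rw [Set.mem_union, Function.mem_support, Function.mem_support]
    by_contra hcon
    push Not at hcon
    obtain ⟨h3, h4⟩ := hcon
    apply hb
    have : a b = 0 := by exact_mod_cast h3
    simp [this, h4]
  rw [h1, hsum, ht_iter hK hF x hx m] at h2
  have h3 := one_le_ht hK x hx hxc
  have h4 : (d : ℤ) ^ m ≤ e * ((d : ℤ) ^ m * ht k x) := by
    have h5 : (0 : ℤ) < (d : ℤ) ^ m := by positivity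
    have h6 : (1 : ℤ) ≤ e := by exact_mod_cast he
    nlinarith [mul_pos h5 (lt_of_lt_of_le one_pos h3), mul_le_mul_of_nonneg_left h3 h5.le]
  omega

end Pool.Agent.Helper30.TP
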