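import Pool.Agent.Helper30.TP.OZDefs
import Pool.Agent.Helper30.TP.Ech
import Pool.Agent.Helper30.TP.Const

/-!
# One eigenvalue zero: the stable curve
-/

set_option autoImplicit false

namespace Pool.Agent.Helper30.TP

open MvPolynomial
open Pool.Agent.Helper16 (Place IsFunctionField)
open Pool.Agent.Helper36 (step iter)

namespace OZ2

section jets

variable {k K : Type} [Field k] [Field K] [Algebra k K] (b : Place k K)

theorem val_poly_le {y : K} (hy : b.val y ≤ 1) (w : Polynomial k) :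
    b.val (Polynomial.aeval y w) ≤ 1 := by
  induction w using Polynomial.induction_on' with
  | add p q hp hq =>
    rw [map_add]
    exact (b.val.map_add _ _).trans (max_le hp hq)
  | monomial n a =>
    rw [Polynomial.aeval_monomial, map_mul, map_pow]
    exact mul_le_one' (b.val_algebraMap_le _) (pow_le_one' hy n)

theorem val_poly_lt {y : K} (hy : b.val y ≤ 1) {w : Polynomial k} (hw : w.coeff 0 = 0) :
    b.val (Polynomial.aeval y w) ≤ b.val y := by
  obtain ⟨q, rfl⟩ := Polynomial.X_dvd_iff.2 hw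
  rw [map_mul, Polynomial.aeval_X, map_mul]
  exact mul_le_of_le_one_right' (val_poly_le b hy q)

theorem val_poly_eq {y : K} (hy : b.val y < 1) {w : Polynomial k} (hw : w.coeff 0 ≠ 0) :
    b.val (Polynomial.aeval y w) = 1 := by
  have h1 : Polynomial.aeval y w = algebraMap k K (w.coeff 0) +
      Polynomial.aeval y (w - Polynomial.C (w.coeff 0)) := by
    rw [map_sub, Polynomial.aeval_C]
    ring
  have h2 : b.val (Polynomial.aeval y (w - Polynomial.C (w.coeff 0))) ≤ b.val y :=
    val_poly_lt b hy.le (by simp)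
  have h3 : b.val (Polynomial.aeval y (w - Polynomial.C (w.coeff 0))) <
      b.val (algebraMap k K (w.coeff 0)) := by
    rw [b.triv _ hw]
    exact h2.trans_lt hy
  rw [h1, b.val.map_add_eq_of_lt_left h3, b.triv _ hw]

theorem val_poly_pow {y : K} (hy : b.val y < 1) {w : Polynomial k} (hw : w ≠ 0) :
    Polynomial.X ^ (w.rootMultiplicity 0) ∣ w ∧
      b.val (Polynomial.aeval y w) = b.val y ^ (w.rootMultiplicity 0) := by
  obtain ⟨q, hq, hd⟩ := Polynomial.exists_eq_pow_rootMultiplicity_mul_and_not_dvd w hw 0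
  rw [Polynomial.C_0, sub_zero] at hq hd
  have h3 : q.coeff 0 ≠ 0 := fun h => hd (Polynomial.X_dvd_iff.2 h)
  refine ⟨⟨q, hq⟩, ?_⟩
  have h4 := congrArg (fun p => b.val (Polynomial.aeval y p)) hq
  refine h4.trans ?_
  rw [map_mul, map_pow, Polynomial.aeval_X, map_mul, map_pow, val_poly_eq b hy h3, mul_one]

/-- the sequence `u` has a jet of order `N` along `Y` -/
def Jet (Y : ℕ → K) (N : ℕ) (u : ℕ → K) : Prop :=
  ∃ w : Polynomial k, ∀ n, b.val (u n - Polynomial.aeval (Y n) w) ≤ b.val (Y n) ^ N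

variable {b} {Y : ℕ → K}

theorem Jet.poly (w : Polynomial k) (N : ℕ) : Jet b Y N fun n => Polynomial.aeval (Y n) w :=
  ⟨w, fun n => by rw [sub_self, map_zero]; exact zero_le⟩

theorem Jet.const (a : k) (N : ℕ) : Jet b Y N fun _ => algebraMap k K a := by
  have := Jet.poly (b := b) (Y := Y) (Polynomial.C a) N
  simpa using this

theorem Jet.mono (hY : ∀ n, b.val (Y n) < 1) {M N : ℕ} (h : M ≤ N) {u : ℕ → K}
    (hu : Jet b Y N u) : Jet b Y M u := by
  obtain ⟨w, hw⟩ := hu
  exact ⟨w, fun n => (hw n).trans (pow_le_pow_right_of_le_one' (hY n).le h)⟩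

theorem Jet.add {N : ℕ} {u v : ℕ → K} (hu : Jet b Y N u) (hv : Jet b Y N v) :
    Jet b Y N fun n => u n + v n := by
  obtain ⟨w, hw⟩ := hu
  obtain ⟨w', hw'⟩ := hv
  refine ⟨w + w', fun n => ?_⟩
  have e : u n + v n - Polynomial.aeval (Y n) (w + w') =
      (u n - Polynomial.aeval (Y n) w) + (v n - Polynomial.aeval (Y n) w') := by
    rw [map_add]; ring
  rw [e]
  exact (b.val.map_add _ _).trans (max_le (hw n) (hw' n))

theorem Jet.integral (hY : ∀ n, b.val (Y n) < 1) {N : ℕ} {u : ℕ → K} (hu : Jet b Y N u) (n : ℕ) :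
    b.val (u n) ≤ 1 := by
  obtain ⟨w, hw⟩ := hu
  have e : u n = (u n - Polynomial.aeval (Y n) w) + Polynomial.aeval (Y n) w := by ring
  rw [e]
  refine (b.val.map_add _ _).trans (max_le ?_ (val_poly_le b (hY n).le w))
  exact (hw n).trans (pow_le_one' (hY n).le N)

theorem Jet.mul (hY : ∀ n, b.val (Y n) < 1) {N : ℕ} {u v : ℕ → K} (hu : Jet b Y N u)
    (hv : Jet b Y N v) : Jet b Y N fun n => u n * v n := by
  have hvi := hv.integral hY
  obtain ⟨w, hw⟩ := hu
  obtain ⟨w', hw'⟩ := hv
  refine ⟨w * w', fun n => ?_⟩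
  have e : u n * v n - Polynomial.aeval (Y n) (w * w') =
      (u n - Polynomial.aeval (Y n) w) * v n +
        Polynomial.aeval (Y n) w * (v n - Polynomial.aeval (Y n) w') := by
    rw [map_mul]; ring
  rw [e]
  refine (b.val.map_add _ _).trans (max_le ?_ ?_)
  · rw [map_mul]
    exact (mul_le_mul' (hw n) (hvi n)).trans (mul_one _).le
  · rw [map_mul]
    exact (mul_le_mul' (val_poly_le b (hY n).le w) (hw' n)).trans (one_mul _).le

/-- the product of a small sequence with a better jet and any sequence -/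
theorem Jet.mul_small (hY : ∀ n, b.val (Y n) < 1) {N : ℕ} {u v : ℕ → K}
    (hu : Jet b Y (N + 1) u) (hus : ∀ n, b.val (u n) ≤ b.val (Y n)) (hv : Jet b Y N v) :
    Jet b Y (N + 1) fun n => u n * v n := by
  have hvi := hv.integral hY
  obtain ⟨w, hw⟩ := hu
  obtain ⟨w', hw'⟩ := hv
  refine ⟨w * w', fun n => ?_⟩
  have e : u n * v n - Polynomial.aeval (Y n) (w * w') =
      (u n - Polynomial.aeval (Y n) w) * v n +
        Polynomial.aeval (Y n) w * (v n - Polynomial.aeval (Y n) w') := by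
    rw [map_mul]; ring
  have h1 : b.val (Polynomial.aeval (Y n) w) ≤ b.val (Y n) := by
    have e' : Polynomial.aeval (Y n) w = u n - (u n - Polynomial.aeval (Y n) w) := by ring
    rw [e']
    refine (b.val.map_sub _ _).trans (max_le (hus n) ((hw n).trans ?_))
    calc b.val (Y n) ^ (N + 1) ≤ b.val (Y n) ^ 1 :=
          pow_le_pow_right_of_le_one' (hY n).le (by omega)
      _ = _ := pow_one _
  rw [e]
  refine (b.val.map_add _ _).trans (max_le ?_ ?_)
  · rw [map_mul]
    exact (mul_le_mul' (hw n) (hvi n)).trans (mul_one _).le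
  · rw [map_mul, pow_succ, mul_comm]
    exact mul_le_mul' (hw' n) h1

/-- the product of two small sequences -/
theorem Jet.mul_small_small (hY : ∀ n, b.val (Y n) < 1) {N : ℕ} (hN : 1 ≤ N) {u v : ℕ → K}
    (hu : Jet b Y N u) (hus : ∀ n, b.val (u n) ≤ b.val (Y n)) (hv : Jet b Y N v)
    (hvs : ∀ n, b.val (v n) ≤ b.val (Y n)) :
    Jet b Y (N + 1) fun n => u n * v n := by
  obtain ⟨w, hw⟩ := hu
  obtain ⟨w', hw'⟩ := hv
  refine ⟨w * w', fun n => ?_⟩
  have e : u n * v n - Polynomial.aeval (Y n) (w * w') =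
      (u n - Polynomial.aeval (Y n) w) * v n +
        Polynomial.aeval (Y n) w * (v n - Polynomial.aeval (Y n) w') := by
    rw [map_mul]; ring
  have h1 : b.val (Polynomial.aeval (Y n) w) ≤ b.val (Y n) := by
    have e' : Polynomial.aeval (Y n) w = u n - (u n - Polynomial.aeval (Y n) w) := by ring
    rw [e']
    refine (b.val.map_sub _ _).trans (max_le (hus n) ((hw n).trans ?_))
    calc b.val (Y n) ^ N ≤ b.val (Y n) ^ 1 :=
          pow_le_pow_right_of_le_one' (hY n).le hN
      _ = _ := pow_one _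
  rw [e]
  refine (b.val.map_add _ _).trans (max_le ?_ ?_)
  · rw [map_mul, pow_succ]
    exact mul_le_mul' (hw n) (hvs n)
  · rw [map_mul, pow_succ, mul_comm]
    exact mul_le_mul' (hw' n) h1

theorem Jet.inv (hY : ∀ n, b.val (Y n) < 1) {N : ℕ} {u : ℕ → K} (hu : Jet b Y N u)
    (h1 : ∀ n, b.val (u n) = 1) : Jet b Y N fun n => (u n)⁻¹ := by
  have hu0 : ∀ n, u n ≠ 0 := by
    intro n h
    have := h1 n
    rw [h, map_zero] at this
    exact zero_ne_one this
  rcases Nat.eq_zero_or_pos N with rfl | hN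
  · refine ⟨0, fun n => ?_⟩
    rw [map_zero, sub_zero, pow_zero, map_inv₀, h1 n, inv_one]
  obtain ⟨w, hw⟩ := hu
  have hw0 : w.coeff 0 ≠ 0 := by
    intro h
    have h2 := val_poly_lt b (hY 0).le h
    have h3 : b.val (u 0) < 1 := by
      have e : u 0 = (u 0 - Polynomial.aeval (Y 0) w) + Polynomial.aeval (Y 0) w := by ring
      rw [e]
      refine b.val.map_add_lt ((hw 0).trans_lt ?_) (h2.trans_lt (hY 0))
      exact pow_lt_one' (hY 0) (by omega)
    rw [h1 0] at h3
    exact lt_irrefl _ h3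
  have hcop : IsCoprime w (Polynomial.X ^ N : Polynomial k) := by
    apply IsCoprime.pow_right
    refine (Polynomial.irreducible_X.coprime_iff_not_dvd.2 ?_).symm
    intro h
    exact hw0 (Polynomial.X_dvd_iff.1 h)
  obtain ⟨a, c, hac⟩ := hcop
  refine ⟨a, fun n => ?_⟩
  have e1 : Polynomial.aeval (Y n) a * Polynomial.aeval (Y n) w +
      Polynomial.aeval (Y n) c * Y n ^ N = 1 := by
    have := congrArg (Polynomial.aeval (Y n)) hac
    rw [map_add, map_mul, map_mul, map_pow, Polynomial.aeval_X, map_one] at this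
    exact this
  have e : (u n)⁻¹ - Polynomial.aeval (Y n) a =
      (u n)⁻¹ * (Polynomial.aeval (Y n) c * Y n ^ N -
        Polynomial.aeval (Y n) a * (u n - Polynomial.aeval (Y n) w)) := by
    have h3 : Polynomial.aeval (Y n) c * Y n ^ N =
        1 - Polynomial.aeval (Y n) a * Polynomial.aeval (Y n) w := by
      rw [← e1]; ring
    rw [h3]
    field_simp [hu0 n]
    ring
  rw [e, map_mul, map_inv₀, h1 n, inv_one, one_mul]
  refine (b.val.map_sub _ _).trans (max_le ?_ ?_)
  · rw [map_mul, map_pow]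
    exact mul_le_of_le_one_left' (val_poly_le b (hY n).le c)
  · rw [map_mul]
    exact (mul_le_mul' (val_poly_le b (hY n).le a) (hw n)).trans (one_mul _).le

theorem Jet.aeval_poly (hY : ∀ n, b.val (Y n) < 1) {N : ℕ} {u : ℕ → K} (hu : Jet b Y N u)
    (w : Polynomial k) : Jet b Y N fun n => Polynomial.aeval (u n) w := by
  induction w using Polynomial.induction_on' with
  | add p q hp hq => simpa only [map_add] using hp.add hq
  | monomial n a =>
    simp only [Polynomial.aeval_monomial]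
    refine (Jet.const a N).mul hY ?_
    induction n with
    | zero => simpa using Jet.const (b := b) (Y := Y) (1 : k) N
    | succ n ih => simpa only [pow_succ] using ih.mul hY hu

theorem Jet.aeval_mv (hY : ∀ n, b.val (Y n) < 1) {N : ℕ} {u : ℕ → Fin 3 → K}
    (hu : ∀ i, Jet b Y N fun n => u n i) (P : MvPolynomial (Fin 3) k) :
    Jet b Y N fun n => MvPolynomial.aeval (u n) P := by
  induction P using MvPolynomial.induction_on with
  | C a => simpa only [aeval_C] using Jet.const (b := b) (Y := Y) a N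
  | add p q hp hq => simpa only [map_add] using hp.add hq
  | mul_X p i hp => simpa only [map_mul, aeval_X] using hp.mul hY (hu i)

theorem Jet.congr {N : ℕ} {u v : ℕ → K} (h : ∀ n, u n = v n) (hu : Jet b Y N u) : Jet b Y N v := by
  obtain rfl : u = v := funext h
  exact hu

end jets

section expand

variable {k K : Type} [Field k] [Field K] [Algebra k K] {b : Place k K} {X Y : ℕ → K}

/-- the fixed point -/
abbrev e0 (k : Type) [Field k] : Fin 3 → k := Pi.single 0 1

theorem expand (hY : ∀ n, b.val (Y n) < 1) (hX : ∀ n, b.val (X n) ≤ b.val (Y n)) {N : ℕ}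
    (hN : 1 ≤ N) (hJ : Jet b Y N X) (P : MvPolynomial (Fin 3) k) :
    ∃ (p : Polynomial k) (R : ℕ → K), p.coeff 0 = eval (e0 k) P ∧
      p.coeff 1 = eval (e0 k) (pderiv 2 P) ∧ Jet b Y (N + 1) R ∧
      (∀ n, b.val (R n) ≤ b.val (Y n) ^ 2) ∧
      ∀ n, aeval (![1, X n, Y n] : Fin 3 → K) P = Polynomial.aeval (Y n) p +
        algebraMap k K (eval (e0 k) (pderiv 1 P)) * X n + R n := by
  have hYJ : ∀ M, Jet b Y M Y := fun M => by
    simpa using Jet.poly (b := b) (Y := Y) Polynomial.X M
  induction P using MvPolynomial.induction_on with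
  | C a =>
    refine ⟨Polynomial.C a, fun _ => 0, by simp, by simp, ?_, ?_, ?_⟩
    · simpa using Jet.const (b := b) (Y := Y) (0 : k) (N + 1)
    · intro n
      rw [map_zero]
      exact zero_le
    · intro n
      simp
  | add P Q hP hQ =>
    obtain ⟨p, R, h1, h2, h3, h4, h5⟩ := hP
    obtain ⟨q, S, g1, g2, g3, g4, g5⟩ := hQ
    refine ⟨p + q, fun n => R n + S n, ?_, ?_, h3.add g3, ?_, ?_⟩
    · rw [Polynomial.coeff_add, h1, g1, map_add]
    · rw [Polynomial.coeff_add, h2, g2, map_add, map_add]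
    · intro n
      exact (b.val.map_add _ _).trans (max_le (h4 n) (g4 n))
    · intro n
      rw [map_add, h5, g5, map_add, map_add, map_add, map_add]
      ring
  | mul_X P i hP =>
    obtain ⟨p, R, h1, h2, h3, h4, h5⟩ := hP
    have hR1 : ∀ n, b.val (R n) ≤ b.val (Y n) := fun n => (h4 n).trans (by
      calc b.val (Y n) ^ 2 ≤ b.val (Y n) ^ 1 :=
            pow_le_pow_right_of_le_one' (hY n).le (by omega)
        _ = _ := pow_one _)
    have hc : ∀ (a : k) (n : ℕ), b.val (algebraMap k K a * X n) ≤ b.val (Y n) := by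
      intro a n
      rw [map_mul]
      exact (mul_le_mul' (b.val_algebraMap_le _) (hX n)).trans (one_mul _).le
    have hd : ∀ j : Fin 3, eval (e0 k) (pderiv j (P * MvPolynomial.X i)) =
        eval (e0 k) (pderiv j P) * e0 k i + eval (e0 k) P * (if i = j then 1 else 0) := by
      intro j
      rw [pderiv_mul, map_add, map_mul, map_mul, eval_X, pderiv_X]
      congr 2
      by_cases h : i = j
      · subst h; simp
      · rw [if_neg h, Pi.single_eq_of_ne h]; simp
    have hv : ∀ n, aeval (![1, X n, Y n] : Fin 3 → K) (P * MvPolynomial.X i) =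
        (Polynomial.aeval (Y n) p + algebraMap k K (eval (e0 k) (pderiv 1 P)) * X n + R n) *
          (![1, X n, Y n] : Fin 3 → K) i := by
      intro n
      rw [map_mul, aeval_X, h5]
    have he : eval (e0 k) (P * MvPolynomial.X i) = eval (e0 k) P * e0 k i := by
      rw [map_mul, eval_X]
    fin_cases i
    · refine ⟨p, R, ?_, ?_, h3, h4, ?_⟩
      · rw [he, h1]; simp
      · rw [hd, h2]; simp
      · intro n
        rw [hv, hd]; simp
    · refine ⟨0, fun n => X n * (Polynomial.aeval (Y n) (p - Polynomial.C (p.coeff 0)) +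
          (algebraMap k K (eval (e0 k) (pderiv 1 P)) * X n + R n)), ?_, ?_, ?_, ?_, ?_⟩
      · rw [he]; simp
      · rw [hd]; simp
      · refine Jet.mul_small_small hY hN hJ hX ?_ ?_
        · refine (Jet.poly _ N).add (((Jet.const _ N).mul hY hJ).add (h3.mono hY (by omega)))
        · intro n
          refine (b.val.map_add _ _).trans (max_le (val_poly_lt b (hY n).le (by simp)) ?_)
          exact (b.val.map_add _ _).trans (max_le (hc _ n) (hR1 n))
      · intro n
        rw [map_mul, pow_two]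
        refine mul_le_mul' (hX n) ?_
        refine (b.val.map_add _ _).trans (max_le (val_poly_lt b (hY n).le (by simp)) ?_)
        exact (b.val.map_add _ _).trans (max_le (hc _ n) (hR1 n))
      · intro n
        rw [hv, hd]
        simp only [map_sub, Polynomial.aeval_C, h1]
        simp
        ring
    · refine ⟨Polynomial.X * p, fun n => (algebraMap k K (eval (e0 k) (pderiv 1 P)) * X n + R n) *
          Y n, ?_, ?_, ?_, ?_, ?_⟩
      · rw [he]; simp
      · rw [hd, Polynomial.coeff_X_mul, h1]; simp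
      · refine Jet.mul_small_small hY hN (((Jet.const _ N).mul hY hJ).add
          (h3.mono hY (by omega))) ?_ (hYJ N) (fun n => le_rfl)
        intro n
        exact (b.val.map_add _ _).trans (max_le (hc _ n) (hR1 n))
      · intro n
        rw [map_mul, pow_two]
        exact mul_le_mul' ((b.val.map_add _ _).trans (max_le (hc _ n) (hR1 n))) le_rfl
      · intro n
        rw [hv, hd]
        simp
        ring

end expand

section main

variable {k K : Type} [Field k] [Field K] [Algebra k K] {b : Place k K} {X Y : ℕ → K}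
  {F : Fin 3 → MvPolynomial (Fin 3) k} {μ : k}

theorem jet_one (hX : ∀ n, b.val (X n) ≤ b.val (Y n)) : Jet b Y 1 X :=
  ⟨0, fun n => by rw [map_zero, sub_zero, pow_one]; exact hX n⟩

theorem val_F0 (hn : Normal F μ) (hY : ∀ n, b.val (Y n) < 1)
    (hX : ∀ n, b.val (X n) ≤ b.val (Y n)) (n : ℕ) :
    b.val (aeval (![1, X n, Y n] : Fin 3 → K) (F 0)) = 1 := by
  obtain ⟨p, R, h1, -, -, h4, h5⟩ := expand hY hX le_rfl (jet_one hX) (F 0)
  have h6 : p.coeff 0 = 1 := by
    rw [h1, hn.fix 0]; simp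
  have h7 : b.val (Polynomial.aeval (Y n) p) = 1 := val_poly_eq b (hY n) (by rw [h6]; exact one_ne_zero)
  have h8 : b.val (algebraMap k K (eval (e0 k) (pderiv 1 (F 0))) * X n + R n) < 1 := by
    refine b.val.map_add_lt ?_ ?_
    · rw [map_mul]
      exact ((mul_le_mul' (b.val_algebraMap_le _) (hX n)).trans (one_mul _).le).trans_lt (hY n)
    · exact (h4 n).trans_lt (pow_lt_one' (hY n) two_ne_zero)
  rw [h5, add_assoc, b.val.map_add_eq_of_lt_left (by rwa [h7]), h7]

theorem val_F2 (hn : Normal F μ) (hY : ∀ n, b.val (Y n) < 1)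
    (hX : ∀ n, b.val (X n) ≤ b.val (Y n)) (n : ℕ) :
    b.val (aeval (![1, X n, Y n] : Fin 3 → K) (F 2)) ≤ b.val (Y n) ^ 2 := by
  obtain ⟨p, R, h1, h2, -, h4, h5⟩ := expand hY hX le_rfl (jet_one hX) (F 2)
  have h6 : p.coeff 0 = 0 := by
    rw [h1, hn.fix 2]; simp
  have h7 : p.coeff 1 = 0 := by
    rw [h2]; exact hn.j22
  have h8 : eval (e0 k) (pderiv 1 (F 2)) = 0 := hn.j21
  have h9 : Polynomial.X ^ 2 ∣ p := by
    rw [Polynomial.X_pow_dvd_iff]
    intro d hd
    interval_cases d
    · exact h6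
    · exact h7
  obtain ⟨q, rfl⟩ := h9
  rw [h5, h8, map_zero, zero_mul, add_zero]
  refine (b.val.map_add _ _).trans (max_le ?_ (h4 n))
  rw [map_mul, map_pow, Polynomial.aeval_X, map_mul, map_pow]
  exact (mul_le_mul' le_rfl (val_poly_le b (hY n).le q)).trans (mul_one _).le

theorem val_succ (hn : Normal F μ) (hY : ∀ n, b.val (Y n) < 1)
    (hX : ∀ n, b.val (X n) ≤ b.val (Y n))
    (h2 : ∀ n, Y (n + 1) * aeval (![1, X n, Y n] : Fin 3 → K) (F 0) =
      aeval (![1, X n, Y n] : Fin 3 → K) (F 2)) (n : ℕ) :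
    b.val (Y (n + 1)) ≤ b.val (Y n) ^ 2 := by
  have h := congrArg b.val (h2 n)
  rw [map_mul, val_F0 hn hY hX n, mul_one] at h
  rw [h]
  exact val_F2 hn hY hX n

theorem jet_succ (hn : Normal F μ) (hY : ∀ n, b.val (Y n) < 1)
    (hX : ∀ n, b.val (X n) ≤ b.val (Y n))
    (h1 : ∀ n, X (n + 1) * aeval (![1, X n, Y n] : Fin 3 → K) (F 0) =
      aeval (![1, X n, Y n] : Fin 3 → K) (F 1))
    (h2 : ∀ n, Y (n + 1) * aeval (![1, X n, Y n] : Fin 3 → K) (F 0) =
      aeval (![1, X n, Y n] : Fin 3 → K) (F 2)) {N : ℕ} (hN : 1 ≤ N) (hJ : Jet b Y N X) :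
    Jet b Y (N + 1) X := by
  have hpt : ∀ i, Jet b Y N fun n => (![1, X n, Y n] : Fin 3 → K) i := by
    intro i
    fin_cases i
    · simpa using Jet.const (b := b) (Y := Y) (1 : k) N
    · exact hJ
    · simpa using Jet.poly (b := b) (Y := Y) Polynomial.X N
  have hF0 : Jet b Y N fun n => aeval (![1, X n, Y n] : Fin 3 → K) (F 0) :=
    Jet.aeval_mv hY hpt (F 0)
  have hv0 := val_F0 (b := b) hn hY hX
  have hne : ∀ n, aeval (![1, X n, Y n] : Fin 3 → K) (F 0) ≠ 0 := by
    intro n h
    have := hv0 n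
    rw [h, map_zero] at this
    exact zero_ne_one this
  have hF0i : Jet b Y N fun n => (aeval (![1, X n, Y n] : Fin 3 → K) (F 0))⁻¹ := hF0.inv hY hv0
  -- `Y (n + 1)`
  obtain ⟨p, R, a1, a2, a3, a4, a5⟩ := expand hY hX hN hJ (F 2)
  have a8 : eval (e0 k) (pderiv 1 (F 2)) = 0 := hn.j21
  have hF2 : Jet b Y (N + 1) fun n => aeval (![1, X n, Y n] : Fin 3 → K) (F 2) := by
    refine Jet.congr (fun n => ?_) ((Jet.poly p (N + 1)).add a3)
    rw [a5, a8, map_zero, zero_mul, add_zero]
  have hF2s : ∀ n, b.val (aeval (![1, X n, Y n] : Fin 3 → K) (F 2)) ≤ b.val (Y n) := fun n =>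
    (val_F2 hn hY hX n).trans (by
      calc b.val (Y n) ^ 2 ≤ b.val (Y n) ^ 1 :=
            pow_le_pow_right_of_le_one' (hY n).le (by omega)
        _ = _ := pow_one _)
  have hEY : Jet b Y (N + 1) fun n => Y (n + 1) := by
    refine Jet.congr (fun n => ?_) (Jet.mul_small hY hF2 hF2s hF0i)
    rw [← h2 n, mul_assoc, mul_inv_cancel₀ (hne n), mul_one]
  -- `X (n + 1)`
  have hEX : Jet b Y (N + 1) fun n => X (n + 1) := by
    obtain ⟨w, hw⟩ := hJ
    have g1 : Jet b Y (N + 1) fun n => Polynomial.aeval (Y (n + 1)) w := hEY.aeval_poly hY w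
    have g2 : Jet b Y (N + 1) fun n => X (n + 1) - Polynomial.aeval (Y (n + 1)) w := by
      refine ⟨0, fun n => ?_⟩
      rw [map_zero, sub_zero]
      refine (hw (n + 1)).trans ?_
      calc b.val (Y (n + 1)) ^ N ≤ (b.val (Y n) ^ 2) ^ N :=
            pow_le_pow_left' (val_succ hn hY hX h2 n) N
        _ = b.val (Y n) ^ (2 * N) := (pow_mul _ _ _).symm
        _ ≤ _ := pow_le_pow_right_of_le_one' (hY n).le (by omega)
    refine Jet.congr (fun n => ?_) (g2.add g1)
    ring
  have hEXs : ∀ n, b.val (X (n + 1)) ≤ b.val (Y n) := by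
    intro n
    refine (hX (n + 1)).trans ((val_succ hn hY hX h2 n).trans ?_)
    calc b.val (Y n) ^ 2 ≤ b.val (Y n) ^ 1 :=
          pow_le_pow_right_of_le_one' (hY n).le (by omega)
      _ = _ := pow_one _
  have hL : Jet b Y (N + 1) fun n => aeval (![1, X n, Y n] : Fin 3 → K) (F 1) :=
    Jet.congr (fun n => h1 n) (Jet.mul_small hY hEX hEXs hF0)
  obtain ⟨q, S, b1, b2, b3, b4, b5⟩ := expand hY hX hN hJ (F 1)
  have b8 : eval (e0 k) (pderiv 1 (F 1)) = μ := hn.j11
  have hfin : Jet b Y (N + 1) fun n => algebraMap k K μ⁻¹ *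
      (aeval (![1, X n, Y n] : Fin 3 → K) (F 1) +
        algebraMap k K (-1) * (Polynomial.aeval (Y n) q + S n)) :=
    (Jet.const _ _).mul hY (hL.add ((Jet.const _ _).mul hY ((Jet.poly q _).add b3)))
  refine Jet.congr (fun n => ?_) hfin
  rw [b5, b8, map_neg, map_one, map_inv₀]
  have hμ : algebraMap k K μ ≠ 0 := by
    rw [Ne, map_eq_zero]
    exact hn.ne
  field_simp
  ring

/-- the dichotomy -/
theorem dich (hn : Normal F μ) (hY : ∀ n, b.val (Y n) < 1)
    (hX : ∀ n, b.val (X n) ≤ b.val (Y n))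
    (h1 : ∀ n, X (n + 1) * aeval (![1, X n, Y n] : Fin 3 → K) (F 0) =
      aeval (![1, X n, Y n] : Fin 3 → K) (F 1))
    (h2 : ∀ n, Y (n + 1) * aeval (![1, X n, Y n] : Fin 3 → K) (F 0) =
      aeval (![1, X n, Y n] : Fin 3 → K) (F 2)) (P : MvPolynomial (Fin 3) k) :
    (∀ n, aeval (![1, X n, Y n] : Fin 3 → K) P = 0) ∨
      ∃ r : ℕ, ∀ n, b.val (aeval (![1, X n, Y n] : Fin 3 → K) P) = b.val (Y n) ^ r := by
  have hJ : ∀ N, Jet b Y (N + 1) X := by
    intro N
    induction N with
    | zero => exact jet_one hX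
    | succ N ih => exact jet_succ hn hY hX h1 h2 (by omega) ih
  have hP : ∀ N, Jet b Y (N + 1) fun n => aeval (![1, X n, Y n] : Fin 3 → K) P := by
    intro N
    refine Jet.aeval_mv hY (fun i => ?_) P
    fin_cases i
    · simpa using Jet.const (b := b) (Y := Y) (1 : k) (N + 1)
    · exact hJ N
    · simpa using Jet.poly (b := b) (Y := Y) Polynomial.X (N + 1)
  by_cases hex : ∃ N, ∃ w : Polynomial k, w ≠ 0 ∧ w.rootMultiplicity 0 < N + 1 ∧
      ∀ n, b.val (aeval (![1, X n, Y n] : Fin 3 → K) P - Polynomial.aeval (Y n) w) ≤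
        b.val (Y n) ^ (N + 1)
  · obtain ⟨N, w, hw0, hr, hw⟩ := hex
    right
    refine ⟨w.rootMultiplicity 0, fun n => ?_⟩
    by_cases hY0 : Y n = 0
    · by_cases hr0 : w.rootMultiplicity 0 = 0
      · rw [hr0, pow_zero]
        have h3 := (val_poly_pow b (hY n) hw0).2
        rw [hr0, pow_zero] at h3
        have e : aeval (![1, X n, Y n] : Fin 3 → K) P = Polynomial.aeval (Y n) w +
          (aeval (![1, X n, Y n] : Fin 3 → K) P - Polynomial.aeval (Y n) w) := by ring
        rw [e, b.val.map_add_eq_of_lt_left, h3]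
        rw [h3]
        exact (hw n).trans_lt (pow_lt_one' (hY n) (by omega))
      · have h3 := (val_poly_pow b (hY n) hw0).2
        have h4 := hw n
        rw [hY0, map_zero] at h3 h4 ⊢
        rw [zero_pow hr0] at h3 ⊢
        rw [zero_pow (by omega), le_zero_iff] at h4
        rw [Valuation.zero_iff] at h3 h4 ⊢
        rw [h3, sub_zero] at h4
        exact h4
    · have h3 := (val_poly_pow b (hY n) hw0).2
      have e : aeval (![1, X n, Y n] : Fin 3 → K) P = Polynomial.aeval (Y n) w +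
        (aeval (![1, X n, Y n] : Fin 3 → K) P - Polynomial.aeval (Y n) w) := by ring
      rw [e, b.val.map_add_eq_of_lt_left, h3]
      rw [h3]
      refine (hw n).trans_lt ?_
      exact pow_lt_pow_right_of_lt_one₀ (zero_lt_iff.2 ((Valuation.ne_zero_iff _).2 hY0)) (hY n) hr
  · push Not at hex
    left
    intro n
    have h3 : ∀ N, b.val (aeval (![1, X n, Y n] : Fin 3 → K) P) ≤ b.val (Y n) ^ (N + 1) := by
      intro N
      obtain ⟨w, hw⟩ := hP N
      by_cases hw0 : w = 0
      · have := hw n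
        rwa [hw0, map_zero, sub_zero] at this
      · have hr : N + 1 ≤ w.rootMultiplicity 0 := by
          by_contra hlt
          push Not at hlt
          obtain ⟨m, hm⟩ := hex N w hw0 hlt
          exact absurd (hw m) (not_le.2 hm)
        have e : aeval (![1, X n, Y n] : Fin 3 → K) P =
          (aeval (![1, X n, Y n] : Fin 3 → K) P - Polynomial.aeval (Y n) w) +
            Polynomial.aeval (Y n) w := by ring
        rw [e]
        refine (b.val.map_add _ _).trans (max_le (hw n) ?_)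
        rw [(val_poly_pow b (hY n) hw0).2]
        exact pow_le_pow_right_of_le_one' (hY n).le hr
    by_contra hne
    have hv : b.val (aeval (![1, X n, Y n] : Fin 3 → K) P) ≠ 0 := (Valuation.ne_zero_iff _).2 hne
    have hYn : b.val (Y n) ≠ 0 := by
      intro h
      have := h3 0
      rw [h, zero_pow (by omega), le_zero_iff] at this
      exact hv this
    have h4 : WithZero.log (b.val (Y n)) < 0 := by
      rw [← WithZero.log_one, WithZero.log_lt_log hYn one_ne_zero]
      exact hY n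
    have h5 : ∀ N : ℕ, WithZero.log (b.val (aeval (![1, X n, Y n] : Fin 3 → K) P)) ≤
        ((N : ℤ) + 1) * WithZero.log (b.val (Y n)) := by
      intro N
      have := (WithZero.log_le_log hv (pow_ne_zero _ hYn)).2 (h3 N)
      rw [WithZero.log_pow] at this
      simpa using this
    have h6 := h5 (WithZero.log (b.val (aeval (![1, X n, Y n] : Fin 3 → K) P))).natAbs
    have h7 : -((WithZero.log (b.val (aeval (![1, X n, Y n] : Fin 3 → K) P))).natAbs : ℤ) ≤
        WithZero.log (b.val (aeval (![1, X n, Y n] : Fin 3 → K) P)) := by omega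
    nlinarith

theorem log_le (hn : Normal F μ) (hY : ∀ n, b.val (Y n) < 1) (hY0 : ∀ n, Y n ≠ 0)
    (hX : ∀ n, b.val (X n) ≤ b.val (Y n))
    (h2 : ∀ n, Y (n + 1) * aeval (![1, X n, Y n] : Fin 3 → K) (F 0) =
      aeval (![1, X n, Y n] : Fin 3 → K) (F 2)) (n : ℕ) :
    WithZero.log (b.val (Y n)) ≤ -((n : ℤ) + 1) := by
  have hv : ∀ n, b.val (Y n) ≠ 0 := fun n => (Valuation.ne_zero_iff _).2 (hY0 n)
  have h4 : ∀ n, WithZero.log (b.val (Y n)) < 0 := by
    intro n
    rw [← WithZero.log_one, WithZero.log_lt_log (hv n) one_ne_zero]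
    exact hY n
  induction n with
  | zero =>
    have := h4 0
    push_cast
    omega
  | succ n ih =>
    have h5 := (WithZero.log_le_log (hv (n + 1)) (pow_ne_zero _ (hv n))).2
      (val_succ hn hY hX h2 n)
    rw [WithZero.log_pow] at h5
    have h6 := h4 n
    push_cast
    simp only [nsmul_eq_mul, Nat.cast_ofNat] at h5
    omega

theorem small (hn : Normal F μ) (hY : ∀ n, b.val (Y n) < 1) (hY0 : ∀ n, Y n ≠ 0)
    (hX : ∀ n, b.val (X n) ≤ b.val (Y n))
    (h2 : ∀ n, Y (n + 1) * aeval (![1, X n, Y n] : Fin 3 → K) (F 0) =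
      aeval (![1, X n, Y n] : Fin 3 → K) (F 2)) {a c : K} (ha : a ≠ 0) (hc : c ≠ 0) :
    ∃ N, ∀ n, N ≤ n → b.val a * b.val (Y n) < b.val c := by
  have hav : b.val a ≠ 0 := (Valuation.ne_zero_iff _).2 ha
  have hcv : b.val c ≠ 0 := (Valuation.ne_zero_iff _).2 hc
  refine ⟨(WithZero.log (b.val a) - WithZero.log (b.val c)).natAbs, fun n hn' => ?_⟩
  have hv : b.val (Y n) ≠ 0 := (Valuation.ne_zero_iff _).2 (hY0 n)
  rw [← WithZero.log_lt_log (mul_ne_zero hav hv) hcv, WithZero.log_mul hav hv]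
  have := log_le hn hY hY0 hX h2 n
  omega

/-- a sum of terms with dominating term is not zero -/
theorem sum_ne_zero {s : ℕ} (hs : 0 < s) (hn : Normal F μ) (hY : ∀ n, b.val (Y n) < 1)
    (hY0 : ∀ n, Y n ≠ 0) (hX : ∀ n, b.val (X n) ≤ b.val (Y n))
    (h2 : ∀ n, Y (n + 1) * aeval (![1, X n, Y n] : Fin 3 → K) (F 0) =
      aeval (![1, X n, Y n] : Fin 3 → K) (F 2)) (e : Fin s → K) (he : ∀ i, e i ≠ 0)
    (hed : ∀ i j, i ≠ j → b.val (e i) ≠ b.val (e j)) (r : Fin s → ℕ) (h : Fin s → ℕ → K)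
    (hr : ∀ i n, b.val (h i n) = b.val (Y n) ^ r i) :
    ∃ N, ∀ n, N ≤ n → ∑ i, e i * h i n ≠ 0 := by
  classical
  have : Nonempty (Fin s) := ⟨⟨0, hs⟩⟩
  obtain ⟨i1, -, hi1⟩ := Finset.exists_min_image (Finset.univ : Finset (Fin s)) r
    Finset.univ_nonempty
  obtain ⟨i0, hi0, hmax⟩ := Finset.exists_max_image
    ((Finset.univ : Finset (Fin s)).filter fun i => r i = r i1) (fun i => b.val (e i))
    ⟨i1, by simp⟩
  rw [Finset.mem_filter] at hi0
  have hex : ∀ i, ∃ N, ∀ n, N ≤ n → i ≠ i0 → b.val (e i * h i n) < b.val (e i0 * h i0 n) := by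
    intro i
    by_cases hii : r i = r i1
    · refine ⟨0, fun n _ hne => ?_⟩
      rw [map_mul, map_mul, hr, hr, hii, hi0.2]
      have hle : b.val (e i) ≤ b.val (e i0) := hmax i (by simp [hii])
      refine mul_lt_mul_of_pos_right (lt_of_le_of_ne hle (hed i i0 hne)) ?_
      exact pow_pos (zero_lt_iff.2 ((Valuation.ne_zero_iff _).2 (hY0 n))) _
    · obtain ⟨N, hN⟩ := small hn hY hY0 hX h2 (he i) (he i0)
      refine ⟨N, fun n hn' _ => ?_⟩
      have hlt : r i1 + 1 ≤ r i := by
        have := hi1 i (Finset.mem_univ i)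
        omega
      rw [map_mul, map_mul, hr, hr, hi0.2]
      have hpos : 0 < b.val (Y n) ^ r i1 :=
        pow_pos (zero_lt_iff.2 ((Valuation.ne_zero_iff _).2 (hY0 n))) _
      calc b.val (e i) * b.val (Y n) ^ r i ≤ b.val (e i) * b.val (Y n) ^ (r i1 + 1) :=
            mul_le_mul' le_rfl (pow_le_pow_right_of_le_one' (hY n).le hlt)
        _ = b.val (e i) * b.val (Y n) * b.val (Y n) ^ r i1 := by rw [pow_succ', ← mul_assoc]
        _ < b.val (e i0) * b.val (Y n) ^ r i1 := mul_lt_mul_of_pos_right (hN n hn') hpos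
  choose N hN using hex
  refine ⟨Finset.univ.sup N, fun n hn' hsum => ?_⟩
  have hne : b.val (e i0 * h i0 n) ≠ 0 := by
    rw [map_mul, hr]
    exact mul_ne_zero ((Valuation.ne_zero_iff _).2 (he i0))
      (pow_ne_zero _ ((Valuation.ne_zero_iff _).2 (hY0 n)))
  have hlt : b.val (∑ i ∈ Finset.univ.erase i0, e i * h i n) < b.val (e i0 * h i0 n) := by
    refine b.val.map_sum_lt hne fun i hi => ?_
    exact hN i n ((Finset.le_sup (f := N) (Finset.mem_univ i)).trans hn') (Finset.ne_of_mem_erase hi)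
  rw [← Finset.add_sum_erase _ _ (Finset.mem_univ i0)] at hsum
  have := b.val.map_add_eq_of_lt_left hlt
  rw [hsum, map_zero] at this
  exact hne this.symm

end main

theorem eval_map' {k K : Type} [Field k] [Field K] [Algebra k K] (P : MvPolynomial (Fin 3) k)
    (x : Fin 3 → K) : eval x (map (algebraMap k K) P) = aeval x P := by
  rw [eval_map]
  rfl

theorem coeff_lam {k K : Type} [Field k] [Field K] [Algebra k K] (ℓ : K →ₗ[k] k)
    (g : MvPolynomial (Fin 3) K) (m : Fin 3 →₀ ℕ) : coeff m (lam ℓ g) = ℓ (coeff m g) := by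
  classical
  unfold lam
  rw [coeff_sum]
  simp only [coeff_monomial]
  rw [Finset.sum_ite_eq']
  split_ifs with h
  · rfl
  · rw [notMem_support_iff.1 h, map_zero]

theorem lam_sum {k K : Type} [Field k] [Field K] [Algebra k K] (ℓ : K →ₗ[k] k) {t : ℕ}
    (c : Fin t → K) (P : Fin t → MvPolynomial (Fin 3) k) :
    lam ℓ (∑ j, C (c j) * map (algebraMap k K) (P j)) = ∑ j, C (ℓ (c j)) * P j := by
  ext m
  rw [coeff_lam, coeff_sum, coeff_sum, map_sum]
  refine Finset.sum_congr rfl fun j _ => ?_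
  rw [coeff_C_mul, coeff_C_mul, coeff_map, mul_comm, ← Algebra.smul_def, map_smul, smul_eq_mul,
    mul_comm]

end OZ2

theorem one_zero_stable {k K : Type} [Field k] [IsAlgClosed k] [CharZero k] [Field K] [Algebra k K]
    (hK : IsFunctionField k K) {d : ℕ} {F : Fin 3 → MvPolynomial (Fin 3) k} (hF : IsEndo d F)
    {μ : k} (hn : Normal F μ) (x : Fin 3 → K) (hx : x ≠ 0) (hxc : ¬ IsConst k x) (b : Place k K)
    (hred : Red b x (Pi.single 0 1))
    (hcase : ∀ n, b.val (iter F x n 1) < b.val (iter F x n 2)) {g : MvPolynomial (Fin 3) K} {D : ℕ}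
    (hg : g.IsHomogeneous D) (hirr : Irreducible g)
    (hS : {n | eval (iter F x n) g = 0}.Infinite) : OverK k g := by
  classical
  -- the reduction
  have hfix : ∀ n, iter F (Pi.single 0 1 : Fin 3 → k) n = Pi.single 0 1 := by
    intro n
    induction n with
    | zero => rfl
    | succ n ih =>
      rw [Pool.Agent.Helper36.iter_succ, ih]
      funext i
      have := hn.fix i
      rw [← this]
      exact congrArg (fun φ => φ (F i)) (MvPolynomial.coe_aeval_eq_eval _)
  have hrn : ∀ n, Red b (iter F x n) (Pi.single 0 1) := by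
    intro n
    have := hred.iter hF n
    rwa [hfix n] at this
  have hlt : ∀ n, iter F x n 0 ≠ 0 ∧ b.val (iter F x n 2) < b.val (iter F x n 0) := by
    intro n
    obtain ⟨-, c, hc, h⟩ := hrn n
    have h0 := h 0
    have h2 := h 2
    rw [Pi.single_eq_same, map_one] at h0
    rw [Pi.single_eq_of_ne (by decide), map_zero, sub_zero] at h2
    have h3 : b.val (c * iter F x n 0) = 1 := by
      have e : c * iter F x n 0 = 1 + (c * iter F x n 0 - 1) := by ring
      rw [e, b.val.map_add_eq_of_lt_left (by rwa [map_one]), map_one]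
    refine ⟨?_, ?_⟩
    · intro h4
      rw [h4, mul_zero, map_zero] at h3
      exact zero_ne_one h3
    · rw [← h3, map_mul, map_mul] at h2
      exact lt_of_mul_lt_mul_left' h2
  obtain ⟨X, hXdef⟩ : ∃ X : ℕ → K, ∀ n, X n = iter F x n 1 / iter F x n 0 := ⟨_, fun _ => rfl⟩
  obtain ⟨Y, hYdef⟩ : ∃ Y : ℕ → K, ∀ n, Y n = iter F x n 2 / iter F x n 0 := ⟨_, fun _ => rfl⟩
  have hv0 : ∀ n, 0 < b.val (iter F x n 0) := fun n =>
    zero_lt_iff.2 ((Valuation.ne_zero_iff _).2 (hlt n).1)
  have hY : ∀ n, b.val (Y n) < 1 := by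
    intro n
    rw [hYdef, map_div₀, div_lt_one₀ (hv0 n)]
    exact (hlt n).2
  have hX : ∀ n, b.val (X n) ≤ b.val (Y n) := by
    intro n
    rw [hYdef, hXdef, map_div₀, map_div₀]
    exact div_le_div_of_nonneg_right (hcase n).le (hv0 n).le
  have hY0 : ∀ n, Y n ≠ 0 := by
    intro n h
    rw [hYdef, div_eq_zero_iff] at h
    have h1 := hcase n
    rw [h.resolve_right (hlt n).1, map_zero] at h1
    exact not_lt_zero h1
  have hsm : ∀ n, (fun i => iter F x n 0 * (![1, X n, Y n] : Fin 3 → K) i) = iter F x n := by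
    intro n
    funext i
    fin_cases i
    · simp
    · simp [hXdef, mul_div_cancel₀ _ (hlt n).1]
    · simp [hYdef, mul_div_cancel₀ _ (hlt n).1]
  have hev : ∀ n {P : MvPolynomial (Fin 3) k} {t : ℕ}, P.IsHomogeneous t →
      aeval (iter F x n) P = iter F x n 0 ^ t * aeval (![1, X n, Y n] : Fin 3 → K) P := by
    intro n P t hP
    have := Pool.Agent.Helper36.aeval_smul_homogeneous hP (iter F x n 0)
      (![1, X n, Y n] : Fin 3 → K)
    rwa [hsm n] at this
  have hst : ∀ n i, iter F x (n + 1) i =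
      iter F x n 0 ^ d * aeval (![1, X n, Y n] : Fin 3 → K) (F i) := by
    intro n i
    rw [Pool.Agent.Helper36.iter_succ]
    exact hev n (hF.hom i)
  have hF0 : ∀ n, aeval (![1, X n, Y n] : Fin 3 → K) (F 0) ≠ 0 := by
    intro n h
    have := OZ2.val_F0 (b := b) hn hY hX n
    rw [h, map_zero] at this
    exact zero_ne_one this
  have h1 : ∀ n, X (n + 1) * aeval (![1, X n, Y n] : Fin 3 → K) (F 0) =
      aeval (![1, X n, Y n] : Fin 3 → K) (F 1) := by
    intro n
    have e0 := pow_ne_zero d (hlt n).1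
    rw [hXdef, hst, hst, mul_div_mul_left _ _ e0, div_mul_cancel₀ _ (hF0 n)]
  have h2 : ∀ n, Y (n + 1) * aeval (![1, X n, Y n] : Fin 3 → K) (F 0) =
      aeval (![1, X n, Y n] : Fin 3 → K) (F 2) := by
    intro n
    have e0 := pow_ne_zero d (hlt n).1
    rw [hYdef, hst, hst, mul_div_mul_left _ _ e0, div_mul_cancel₀ _ (hF0 n)]
  -- the space of the polynomials which vanish on the orbit
  let N : Submodule k (MvPolynomial (Fin 3) k) :=
    { carrier := {P | ∀ n, aeval (![1, X n, Y n] : Fin 3 → K) P = 0}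
      add_mem' := fun {P Q} hP hQ n => by rw [map_add, hP n, hQ n, add_zero]
      zero_mem' := fun n => map_zero _
      smul_mem' := fun c P hP n => by rw [map_smul, hP n, smul_zero] }
  obtain ⟨s, t, e, H, c, P, hgeq, he, hed, hH, hP⟩ := exists_echelon hK b hg N
  rcases Nat.eq_zero_or_pos s with rfl | hs
  · refine overK_of_common_zero hg hirr x hx hxc fun ℓ => ?_
    rw [hgeq, Fin.sum_univ_zero, zero_add, OZ2.lam_sum, map_sum]
    refine Finset.sum_eq_zero fun j _ => ?_
    have h3 : aeval x (P j) = 0 := by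
      have := hev 0 (hP j).1
      rw [Pool.Agent.Helper36.iter_zero] at this
      rw [this, (hP j).2 0, mul_zero]
    rw [map_mul, h3, mul_zero]
  · exfalso
    have hdi : ∀ i, ∃ r : ℕ, ∀ n, b.val (aeval (![1, X n, Y n] : Fin 3 → K) (H i)) =
        b.val (Y n) ^ r := by
      intro i
      rcases OZ2.dich hn hY hX h1 h2 (H i) with h | h
      · exact absurd h (hH i).2
      · exact h
    choose r hr using hdi
    obtain ⟨M, hM⟩ := OZ2.sum_ne_zero hs hn hY hY0 hX h2 e he hed r
      (fun i n => aeval (![1, X n, Y n] : Fin 3 → K) (H i)) hr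
    obtain ⟨n, hnS, hMn⟩ := hS.exists_gt M
    apply hM n hMn.le
    have h3 : eval (iter F x n) g = 0 := hnS
    rw [hgeq, map_add, map_sum, map_sum] at h3
    have h4 : ∀ j, eval (iter F x n) (C (c j) * map (algebraMap k K) (P j)) = 0 := by
      intro j
      rw [map_mul, OZ2.eval_map', hev n (hP j).1, (hP j).2 n, mul_zero, mul_zero]
    rw [Finset.sum_congr rfl fun j _ => h4 j, Finset.sum_const_zero, add_zero] at h3
    have h5 : iter F x n 0 ^ D * ∑ i, e i * aeval (![1, X n, Y n] : Fin 3 → K) (H i) = 0 := by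
      rw [← h3, Finset.mul_sum]
      refine Finset.sum_congr rfl fun i _ => ?_
      rw [map_mul, eval_C, OZ2.eval_map', hev n (hH i).1]
      ring
    exact (mul_eq_zero.1 h5).resolve_left (pow_ne_zero _ (hlt n).1)

end Pool.Agent.Helper30.TP
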