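import Pool.Agent.Helper30.TP.Defs

/-!
# Fixed points with one eigenvalue zero: normal form
-/

set_option autoImplicit false

namespace Pool.Agent.Helper30.TP

open MvPolynomial
open Pool.Agent.Helper16 (Place IsFunctionField)
open Pool.Agent.Helper36 (step iter)

/-- The map fixes the vector `(1, 0, 0)`; the derivative at this point, on the quotient by the
radial direction, is the diagonal matrix with entries `μ` and `0`. -/
structure Normal {k : Type} [Field k] (F : Fin 3 → MvPolynomial (Fin 3) k) (μ : k) : Prop where
  fix : ∀ i, eval (Pi.single 0 1) (F i) = (Pi.single 0 1 : Fin 3 → k) i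
  ne : μ ≠ 0
  j11 : jac F (Pi.single 0 1) 1 1 = μ
  j12 : jac F (Pi.single 0 1) 1 2 = 0
  j21 : jac F (Pi.single 0 1) 2 1 = 0
  j22 : jac F (Pi.single 0 1) 2 2 = 0

end Pool.Agent.Helper30.TP
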