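import Pool.Agent.Helper30.TP.Basic
import Pool.Agent.Helper30.TP.Form
import Pool.Agent.Helper30.TP.FormHeight
import Pool.Agent.Helper30.TP.Const
import Pool.Agent.Helper30.TP.Ultra

/-!
# The form attached to an ultrafilter can be chosen such that it is a composition with `F`
-/

set_option autoImplicit false

namespace Pool.Agent.Helper30.TP

open MvPolynomial
open Pool.Agent.Helper16 (Place IsFunctionField)
open Pool.Agent.Helper36 (step iter iter_zero iter_succ iter_succ' iter_add)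

variable {k K : Type} [Field k] [IsAlgClosed k] [Field K] [Algebra k K]

theorem iter_distinct (hK : IsFunctionField k K) {d : ℕ}
    {F : Fin 3 → MvPolynomial (Fin 3) k} (hF : IsEndo d F) {x : Fin 3 → K} (hx : x ≠ 0)
    (hxc : ¬ IsConst k x) (n m : ℕ) (hnm : n ≠ m) : ¬ PEq (iter F x n) (iter F x m) := by
  intro h
  rcases lt_or_gt_of_ne hnm with h1 | h1
  · exact hxc (isConst_of_preper hK hF x hx ⟨n, m, h1, h⟩)
  · exact hxc (isConst_of_preper hK hF x hx ⟨m, n, h1, h.symm⟩)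

theorem IsConst.of_iter (hK : IsFunctionField k K) {d : ℕ}
    {F : Fin 3 → MvPolynomial (Fin 3) k} (hF : IsEndo d F) {x : Fin 3 → K} (hx : x ≠ 0) (n : ℕ)
    (h : IsConst k (iter F x n)) : IsConst k x := by
  by_contra hc
  have h1 := one_le_ht hK x hx hc
  have h2 := ht_iter hK hF x hx n
  have h3 : Preper F (iter F x n) ∨ True := Or.inr trivial
  -- the height of a constant point is zero
  obtain ⟨z, c, hc0, hz⟩ := h
  have h4 : ht k (iter F x n) = 0 := by
    have hz0 : z ≠ 0 := by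
      rintro rfl
      apply iter_ne_zero hF hx n
      rw [hz]
      funext i
      simp
    have h5 : ∀ b : Place k K, nrm b (iter F x n) = b.val c := by
      intro b
      unfold nrm
      rw [hz]
      apply le_antisymm
      · apply Finset.sup_le
        intro i _
        rw [map_mul]
        by_cases h0 : z i = 0
        · rw [h0, map_zero, map_zero, mul_zero]; exact zero_le
        · rw [b.triv _ h0, mul_one]
      · obtain ⟨i, hi⟩ := Function.ne_iff.1 hz0
        refine le_trans ?_ (Finset.le_sup (f := fun i => b.val (c * algebraMap k K (z i)))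
          (Finset.mem_univ i))
        rw [map_mul, b.triv _ hi, mul_one]
    unfold ht
    simp only [h5]
    exact (finsum_log hK c hc0).2
  rw [h4] at h2
  have h6 : (0 : ℤ) < (d : ℤ) ^ n * ht k x := by
    have : (0 : ℤ) < d := by have := hF.two_le; omega
    positivity
  omega

/-- The ideal of the forms over `k` which vanish at a point. -/
theorem dvd_compk (hK : IsFunctionField k K) {d : ℕ}
    {F : Fin 3 → MvPolynomial (Fin 3) k} (hF : IsEndo d F) {x : Fin 3 → K} (hx : x ≠ 0)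
    (hxc : ¬ IsConst k x) {φ ψ : MvPolynomial (Fin 3) k} {e t : ℕ} (hφ : φ.IsHomogeneous e)
    (hψ : ψ.IsHomogeneous t) (hirr : Irreducible φ) (n : ℕ) (h1 : aeval (iter F x n) φ = 0)
    (h2 : aeval (iter F x n) ψ = 0) : φ ∣ ψ :=
  dvd_of_common_zero hφ hψ hirr (iter F x n) (iter_ne_zero hF hx n)
    (fun h => hxc (IsConst.of_iter hK hF hx n h)) h1 h2

theorem overK_of_dvd_map (hK : IsFunctionField k K) {g : MvPolynomial (Fin 3) K}
    {ρ : MvPolynomial (Fin 3) k} (hρ : ρ ≠ 0) (h : g ∣ map (algebraMap k K) ρ) : OverK k g := by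
  obtain ⟨q, hq⟩ := h
  have hm : map (algebraMap k K) ρ ≠ 0 :=
    fun h0 => hρ (map_injective _ (algebraMap k K).injective (by rw [h0, map_zero]))
  have hg0 : g ≠ 0 := fun h0 => hm (by rw [hq, h0, zero_mul])
  have hq0 : q ≠ 0 := fun h0 => hm (by rw [hq, h0, mul_zero])
  rw [← hf_eq_zero_iff hK hg0]
  have h1 : hf k (map (algebraMap k K) ρ) = 0 :=
    (hf_eq_zero_iff hK hm).2 ⟨1, ρ, one_ne_zero, by rw [C_1, one_mul]⟩
  rw [hq, hf_mul hK hg0 hq0] at h1
  have h2 := hf_nonneg hK g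
  have h3 := hf_nonneg hK q
  omega

omit [IsAlgClosed k] in
theorem irreducible_of_map {ρ : MvPolynomial (Fin 3) k}
    (h : Irreducible (map (algebraMap k K) ρ)) : Irreducible ρ := by
  have hunit : ∀ a : MvPolynomial (Fin 3) k, IsUnit (map (algebraMap k K) a) → IsUnit a := by
    intro a ha
    rw [MvPolynomial.isUnit_iff_eq_C_of_isReduced] at ha ⊢
    obtain ⟨r, hr, hra⟩ := ha
    have h1 : a = C (coeff 0 a) := by
      apply map_injective _ (algebraMap k K).injective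
      rw [map_C, ← coeff_map, hra, coeff_C, if_pos rfl]
    refine ⟨coeff 0 a, ?_, h1⟩
    rw [isUnit_iff_ne_zero]
    intro h0
    rw [h1, h0, C_0, map_zero] at hra
    rw [isUnit_iff_ne_zero] at hr
    exact hr (C_injective _ _ (by rw [← hra, C_0]))
  refine ⟨fun hu => h.not_isUnit (hu.map _), ?_⟩
  intro a b hab
  rcases h.isUnit_or_isUnit (a := map (algebraMap k K) a) (b := map (algebraMap k K) b)
    (by rw [hab, map_mul]) with h1 | h1
  · exact Or.inl (hunit a h1)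
  · exact Or.inr (hunit b h1)

theorem Gen.irreducible {x : ℕ → Fin 3 → K} {U : Ultrafilter ℕ} {g : MvPolynomial (Fin 3) K}
    {D : ℕ} (hg : Gen x U g D) : Irreducible g := by
  have h := hg.irr K
  rwa [Algebra.algebraMap_self, map_id] at h

theorem Gen.dvd' {x : ℕ → Fin 3 → K} {U : Ultrafilter ℕ} {g : MvPolynomial (Fin 3) K}
    {D : ℕ} (hg : Gen x U g D) {P : MvPolynomial (Fin 3) K} {e : ℕ} (hP : P.IsHomogeneous e)
    (h : ∀ᶠ n in (U : Filter ℕ), eval (x n) P = 0) : g ∣ P := by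
  have h1 := hg.dvd K P e hP (by simpa using h)
  rwa [Algebra.algebraMap_self, map_id] at h1

/-- If a generator is defined over `k`, it is proportional to an irreducible form over `k`. -/
theorem OverK.exists_irreducible {g : MvPolynomial (Fin 3) K} {D : ℕ} (hg : g.IsHomogeneous D)
    (hirr : Irreducible g) (h : OverK k g) :
    ∃ (c : K) (ρ : MvPolynomial (Fin 3) k), c ≠ 0 ∧ g = C c * map (algebraMap k K) ρ ∧
      Irreducible ρ ∧ ρ.IsHomogeneous D := by
  obtain ⟨c, ρ, hc, h⟩ := h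
  have hu : IsUnit (C c : MvPolynomial (Fin 3) K) := (isUnit_iff_ne_zero.2 hc).map C
  refine ⟨c, ρ, hc, h, ?_, ?_⟩
  · apply irreducible_of_map (K := K)
    rw [h] at hirr
    rwa [irreducible_isUnit_mul hu] at hirr
  · have h1 : map (algebraMap k K) ρ = C c⁻¹ * g := by
      rw [h, ← mul_assoc, ← C_mul, inv_mul_cancel₀ hc, C_1, one_mul]
    have h2 : (map (algebraMap k K) ρ).IsHomogeneous D := by
      rw [h1]
      have := (isHomogeneous_C (Fin 3) c⁻¹).mul hg
      rwa [zero_add] at this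
    intro m hm
    apply h2
    rw [coeff_map]
    exact fun h0 => hm ((algebraMap k K).injective (by rw [h0, map_zero]))

/-- If the form for the shifted ultrafilter is defined over `k` then so is the form. -/
theorem overK_succ (hK : IsFunctionField k K) {d : ℕ}
    {F : Fin 3 → MvPolynomial (Fin 3) k} (hF : IsEndo d F) {x : Fin 3 → K} (hx : x ≠ 0)
    (hxc : ¬ IsConst k x) {U : Ultrafilter ℕ} {g g' : MvPolynomial (Fin 3) K}
    {D D' : ℕ} (hg' : Gen (iter F x) U g' D') (hg : Gen (iter F x) (U.map Nat.succ) g D)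
    (h : OverK k g') : OverK k g := by
  obtain ⟨c, ρ, hc, hgρ, hρ, hρh⟩ := h.exists_irreducible hg'.hom hg'.irreducible
  have hiff : ∀ n, eval (iter F x n) g' = 0 → aeval (iter F x n) ρ = 0 := by
    intro n hn
    rw [hgρ, map_mul, eval_C, eval_map_k, mul_eq_zero] at hn
    exact hn.resolve_left hc
  have hne : (U : Filter ℕ).NeBot := U.neBot
  obtain ⟨n₀, hn₀⟩ := hg'.van.exists
  obtain ⟨e, φ, hφ, he, hφi, hφ0⟩ := exists_irreducible_form hK (iter F x (n₀ + 1))
    (iter_ne_zero hF hx _)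
  have h1 : ρ ∣ compk F φ := dvd_compk hK hF hx hxc hρh (compk_hom hF hφ) hρ n₀ (hiff n₀ hn₀) (by
    rw [aeval_compk, ← iter_succ]; exact hφ0)
  have h2 : ∀ᶠ n in ((U.map Nat.succ : Ultrafilter ℕ) : Filter ℕ),
      eval (iter F x n) (map (algebraMap k K) φ) = 0 := by
    rw [Ultrafilter.coe_map, Filter.eventually_map]
    filter_upwards [hg'.van] with n hn
    obtain ⟨q, hq⟩ := h1
    rw [eval_map_k, Nat.succ_eq_add_one, iter_succ, ← aeval_compk, hq, map_mul, hiff n hn,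
      zero_mul]
  have h3 : g ∣ map (algebraMap k K) φ := hg.dvd' (hφ.map _) h2
  exact overK_of_dvd_map hK hφi.ne_zero h3

theorem exists_total (hK : IsFunctionField k K) {d : ℕ}
    {F : Fin 3 → MvPolynomial (Fin 3) k} (hF : IsEndo d F) {x : Fin 3 → K} (hx : x ≠ 0)
    (hxc : ¬ IsConst k x) {U : Ultrafilter ℕ} (hU : Free U) {g : MvPolynomial (Fin 3) K} {D : ℕ}
    (hg : Gen (iter F x) U g D) (hmov : ¬ OverK k g) :
    ∃ (U' : Ultrafilter ℕ) (g₁ : MvPolynomial (Fin 3) K) (D₁ : ℕ) (g₂ : MvPolynomial (Fin 3) K)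
      (D₂ : ℕ) (c : K), Free U' ∧ Gen (iter F x) U' g₁ D₁ ∧ ¬ OverK k g₁ ∧ g₂.IsHomogeneous D₂ ∧
        0 < D₂ ∧ g₂ ≠ 0 ∧ c ≠ 0 ∧ comp F g₂ = C c * g₁ ∧ D₁ = d * D₂ := by
  classical
  -- choose a moving generator of minimal height
  let A : Set ℕ := {h | ∃ (U : Ultrafilter ℕ) (g : MvPolynomial (Fin 3) K) (D : ℕ), Free U ∧
    Gen (iter F x) U g D ∧ ¬ OverK k g ∧ (h : ℤ) = hf k g}
  have hA : ∃ h, h ∈ A := by
    obtain ⟨h, hh⟩ := Int.eq_ofNat_of_zero_le (hf_nonneg hK g)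
    exact ⟨h, U, g, D, hU, hg, hmov, hh.symm⟩
  obtain ⟨V, g₂, D₂, hV, hg₂, hm₂, hh₂⟩ := Nat.find_spec hA
  obtain ⟨U', hU', hUV⟩ := exists_pred hV
  subst hUV
  have hg₂0 : g₂ ≠ 0 := hg₂.irreducible.ne_zero
  -- the generator for the predecessor
  have hvan : ∀ᶠ n in (U' : Filter ℕ), eval (iter F x n) (comp F g₂) = 0 := by
    have := hg₂.van
    rw [Ultrafilter.coe_map, Filter.eventually_map] at this
    filter_upwards [this] with n hn
    rw [eval_comp, ← iter_succ]
    exact hn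
  obtain ⟨D₁, g₁, hg₁⟩ := exists_gen (fun n => iter_ne_zero hF hx n)
    (iter_distinct hK hF hx hxc) hU' (comp_hom hF hg₂.hom) (comp_ne_zero hK hF hg₂.hom hg₂0) hvan
  have hm₁ : ¬ OverK k g₁ := fun h => hm₂ (overK_succ hK hF hx hxc hg₁ hg₂ h)
  obtain ⟨r, hr⟩ : g₁ ∣ comp F g₂ := hg₁.dvd' (comp_hom hF hg₂.hom) hvan
  have hc0 : comp F g₂ ≠ 0 := comp_ne_zero hK hF hg₂.hom hg₂0
  have hg₁0 : g₁ ≠ 0 := hg₁.irreducible.ne_zero
  have hr0 : r ≠ 0 := fun h => hc0 (by rw [hr, h, mul_zero])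
  have h1 : hf k g₁ + hf k r = hf k g₂ := by
    rw [← hf_mul hK hg₁0 hr0, ← hr, hf_comp hK hF hg₂.hom]
  have h2 : hf k g₂ ≤ hf k g₁ := by
    obtain ⟨h, hh⟩ := Int.eq_ofNat_of_zero_le (hf_nonneg hK g₁)
    have h3 : Nat.find hA ≤ h := Nat.find_min' hA ⟨U', g₁, D₁, hU', hg₁, hm₁, hh.symm⟩
    rw [← hh₂, hh]
    exact_mod_cast h3
  have h3 : hf k r = 0 := by
    have := hf_nonneg hK r
    omega
  obtain ⟨c, ρ, hc, hρ⟩ := (hf_eq_zero_iff hK hr0).1 h3
  have hρ0 : ρ ≠ 0 := by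
    rintro rfl
    exact hr0 (by rw [hρ, map_zero, mul_zero])
  -- `r` is homogeneous
  have hrh : ∃ s, ρ.IsHomogeneous s := by
    obtain ⟨i, j, -, hj, -⟩ := form_of_mul (comp_hom hF hg₂.hom) hc0 hr
    refine ⟨j, fun {m} hm => ?_⟩
    apply hj
    rw [hρ, coeff_C_mul, coeff_map]
    exact mul_ne_zero hc (by rwa [ne_eq, map_eq_zero])
  obtain ⟨s, hs⟩ := hrh
  have hs0 : s = 0 := by
    by_contra hne
    apply hm₂
    refine overK_of_dvd_comp hF hg₂.hom hg₂.irreducible hs (Nat.pos_of_ne_zero hne) hρ0 ?_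
    refine ⟨C c * g₁, ?_⟩
    rw [hr, hρ]; ring
  subst hs0
  have hρC : ρ = C (coeff 0 ρ) := by
    rw [← totalDegree_eq_zero_iff_eq_C]
    exact Nat.le_zero.1 hs.totalDegree_le
  have ha : coeff 0 ρ ≠ 0 := fun h => hρ0 (by rw [hρC, h, C_0])
  have hr' : r = C (c * algebraMap k K (coeff 0 ρ)) := by
    rw [hρ, hρC, map_C, coeff_C, if_pos rfl, C_mul]
  have hcc : c * algebraMap k K (coeff 0 ρ) ≠ 0 :=
    mul_ne_zero hc (by rwa [ne_eq, map_eq_zero])
  have hcomp : comp F g₂ = C (c * algebraMap k K (coeff 0 ρ)) * g₁ := by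
    rw [hr, hr', mul_comm]
  refine ⟨U', g₁, D₁, g₂, D₂, c * algebraMap k K (coeff 0 ρ), hU', hg₁, hm₁, hg₂.hom, hg₂.pos,
    hg₂0, hcc, hcomp, ?_⟩
  have h5 : (comp F g₂).IsHomogeneous (d * D₂) := comp_hom hF hg₂.hom
  have h6 : (comp F g₂).IsHomogeneous (0 + D₁) := by
    rw [hcomp]
    exact (isHomogeneous_C _ _).mul hg₁.hom
  rw [zero_add] at h6
  exact h6.inj_right h5 hc0

end Pool.Agent.Helper30.TP
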